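import Pool.Agent.Lib.SVX.ChkC

/-!
# SVX.ChkG: the search for a colouring of the gadget is complete (MP_0229a2_co)
-/

set_option autoImplicit false
set_option maxRecDepth 100000

namespace Pool.Agent.Lib.SVX.Chk

open Finset

variable {Λ ψ : ℕ → Finset (Fin 7)}

theorem ins_conv : ∀ m < 128, ∀ a < 21, Nat.land (P2.getD a 0) m = P2.getD a 0 →
    (ins m).testBit a = true := by
  decide +kernel

theorem bite_cases {α : Type} (b : Bool) (x y : α) : bite b x y = x ∨ bite b x y = y := by
  cases b
  · exact Or.inr rfl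
  · exact Or.inl rfl

/-- the available colours at a node -/
noncomputable def avN (env : List (ℕ × ℕ)) (nd : ℕ × ℕ × List ℕ) (asg : List (ℕ × ℕ)) : ℕ :=
  Nat.land (bite (bor (Nat.beq nd.2.1 1) (Nat.beq nd.2.1 2)) (lk env nd.1) 127)
    (Nat.xor 127 (orL asg nd.2.2))

theorem gsat_cons (env : List (ℕ × ℕ)) (nd : ℕ × ℕ × List ℕ) (r : List (ℕ × ℕ × List ℕ))
    (asg : List (ℕ × ℕ)) : gsat env (nd :: r) asg = bite (Nat.beq nd.2.1 2)
        (bite (Nat.beq (avN env nd asg) (lk env nd.1))
          (gsat env r ((nd.1, avN env nd asg) :: asg)) false)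
        (bite (Nat.beq nd.2.1 3) (bite (Nat.beq (ins (avN env nd asg)) 0) false (gsat env r asg))
          (List.rec (motive := fun _ => Bool) false (fun p _ ih2 =>
            bor (bite (Nat.beq (Nat.land p (avN env nd asg)) p) (gsat env r ((nd.1, p) :: asg))
              false) ih2) P2)) := by
  show fN (avN env nd asg) (fun av =>
      bite (Nat.beq nd.2.1 2) (bite (Nat.beq av (lk env nd.1)) (gsat env r ((nd.1, av) :: asg)) false)
        (bite (Nat.beq nd.2.1 3) (bite (Nat.beq (ins av) 0) false (gsat env r asg))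
          (List.rec (motive := fun _ => Bool) false (fun p _ ih2 =>
            bor (bite (Nat.beq (Nat.land p av) p) (gsat env r ((nd.1, p) :: asg)) false) ih2)
              P2))) = _
  rw [fN_eq]

theorem gsat_true {env : List (ℕ × ℕ)} (hc : Cmp env Λ) : ∀ (nodes : List (ℕ × ℕ × List ℕ))
    (asg : List (ℕ × ℕ)), Cmp asg ψ →
    (∀ nd ∈ nodes, (ψ nd.1).card = 2 ∧
      (nd.2.1 = 1 → nd.1 ∈ env.map Prod.fst ∧ ψ nd.1 ⊆ Λ nd.1) ∧
      (nd.2.1 = 2 → nd.1 ∈ env.map Prod.fst ∧ Λ nd.1 = ψ nd.1) ∧
      ∀ t ∈ nd.2.2, Disjoint (ψ nd.1) (ψ t)) → gsat env nodes asg = true := by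
  intro nodes
  induction nodes with
  | nil => intro asg _ _; rfl
  | cons nd r ih =>
    intro asg hasg hnd
    obtain ⟨h1, h2, h3, h4⟩ := hnd nd List.mem_cons_self
    have hr := fun nd' hnd' => hnd nd' (List.mem_cons_of_mem nd hnd')
    set T := ψ nd.1 with hT
    set base := bite (bor (Nat.beq nd.2.1 1) (Nat.beq nd.2.1 2)) (lk env nd.1) 127 with hbase
    have hgoal := gsat_cons env nd r asg
    have hav0 : avN env nd asg = Nat.land base (Nat.xor 127 (orL asg nd.2.2)) := rfl
    set av := avN env nd asg with hav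
    have hkind : (nd.2.1 = 1 ∨ nd.2.1 = 2) → base = lk env nd.1 ∧ lk env nd.1 = mk (Λ nd.1) ∧
        T ⊆ Λ nd.1 := by
      intro h
      have h5 : bor (Nat.beq nd.2.1 1) (Nat.beq nd.2.1 2) = true := by
        rw [bor_eq, Nat.beq_eq, Nat.beq_eq]; exact h
      rw [h5] at hbase
      refine ⟨hbase, ?_, ?_⟩
      · rcases h with h | h
        · exact lk_mem hc (h2 h).1
        · exact lk_mem hc (h3 h).1
      · rcases h with h | h
        · exact (h2 h).2
        · rw [(h3 h).2]
    have hbase' : ¬ (nd.2.1 = 1 ∨ nd.2.1 = 2) → base = 127 := by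
      intro h
      have h5 : bor (Nat.beq nd.2.1 1) (Nat.beq nd.2.1 2) = false := by
        cases h6 : bor (Nat.beq nd.2.1 1) (Nat.beq nd.2.1 2)
        · rfl
        · rw [bor_eq, Nat.beq_eq, Nat.beq_eq] at h6; exact absurd h6 h
      rw [h5] at hbase
      exact hbase
    have hblt : base < 128 := by
      by_cases h : nd.2.1 = 1 ∨ nd.2.1 = 2
      · rw [(hkind h).1, (hkind h).2.1]; exact mk_lt _
      · rw [hbase' h]; norm_num
    have havlt : av < 128 := lt_of_le_of_lt Nat.and_le_left hblt
    have hTb : T ⊆ om base := by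
      by_cases h : nd.2.1 = 1 ∨ nd.2.1 = 2
      · rw [(hkind h).1, (hkind h).2.1, om_mk]; exact (hkind h).2.2
      · rw [hbase' h, om_127]; exact subset_univ _
    have hTav : T ⊆ om av := by
      intro x hx
      have h5 : av = base &&& (127 ^^^ (orL asg nd.2.2)) := rfl
      rw [mem_om, h5, Nat.testBit_land, Bool.and_eq_true, Nat.testBit_xor]
      have h6 : (127 : ℕ).testBit x = true := by fin_cases x <;> rfl
      refine ⟨(mem_om _ _).1 (hTb hx), ?_⟩
      rw [h6]
      have h7 : (orL asg nd.2.2).testBit x = false := by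
        by_contra hcon
        have h8 : (orL asg nd.2.2).testBit x = true := by simpa using hcon
        obtain ⟨h9, t, ht, h10⟩ := orL_tb hasg h8
        exact Finset.disjoint_left.1 (h4 t ht) hx h10
      rw [h7]
      rfl
    have hland : Nat.land (mk T) av = mk T := by
      have := land_of_sub hTav
      rwa [mk_om havlt] at this
    have hasg' : Cmp ((nd.1, mk T) :: asg) ψ := by
      intro e he
      rw [List.mem_cons] at he
      rcases he with rfl | he
      · rfl
      · exact hasg e he
    have hrec : gsat env r ((nd.1, mk T) :: asg) = true := ih _ hasg' hr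
    rw [hgoal, bite_beq, bite_beq, bite_beq, bite_beq]
    by_cases hk2 : nd.2.1 = 2
    · rw [if_pos hk2]
      have h5 : lk env nd.1 = mk T := by
        rw [(hkind (Or.inr hk2)).2.1, (h3 hk2).2]
      have h6 : base = mk T := by rw [(hkind (Or.inr hk2)).1, h5]
      have h7 : av = mk T := by
        have h8 : Nat.land (mk T) av = av := by
          have h9 : av = (mk T) &&& (127 ^^^ (orL asg nd.2.2)) := by
            rw [hav0, h6]; rfl
          show (mk T) &&& av = av
          rw [h9, ← Nat.and_assoc, Nat.and_self]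
        rw [← h8, hland]
      rw [h5, if_pos h7, h7]
      exact hrec
    · rw [if_neg hk2]
      by_cases hk3 : nd.2.1 = 3
      · rw [if_pos hk3]
        obtain ⟨a, ha, hpa⟩ := pr_surj T h1
        have h5 : mk T = P2.getD a 0 := by
          have h6 : P2.getD a 0 < 128 := by
            have : ∀ a < 21, P2.getD a 0 < 128 := by decide +kernel
            exact this a ha
          rw [← hpa, pr, mk_om h6]
        have h7 : (ins av).testBit a = true := by
          apply ins_conv av havlt a ha
          rw [← h5]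
          exact hland
        have h8 : ins av ≠ 0 := by
          intro h9
          rw [h9] at h7
          simp at h7
        rw [if_neg h8]
        exact ih _ hasg hr
      · rw [if_neg hk3]
        have h5 : mk T ∈ P2 := P2_mk T h1
        revert h5
        generalize P2 = l
        intro h5
        induction l with
        | nil => simp at h5
        | cons p l ih2 =>
          show bor (bite (Nat.beq (Nat.land p av) p) (gsat env r ((nd.1, p) :: asg)) false) _ = true
          rw [bor_eq, bite_beq]
          rw [List.mem_cons] at h5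
          rcases h5 with h5 | h5
          · left
            rw [← h5, if_pos hland]
            exact hrec
          · right
            exact ih2 h5

/-! the static checks -/

/-- the parameters -/
def parsOf (sts : List St) : List (ℕ × ℕ × List ℕ) :=
  sts.flatMap (fun st => match st with
    | .par s n dis => [(s, n, dis)]
    | _ => [])

/-- the vertices with conditions -/
def vdsOf (sts : List St) : List VD :=
  sts.flatMap (fun st => match st with
    | .vf d => [d]
    | .tr _ _ d => [d]
    | _ => [])

/-- the parameters which meet another one -/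
def pwsOf (sts : List St) : List (ℕ × ℕ) :=
  sts.flatMap (fun st => match st with
    | .pw n m => [(n, m)]
    | _ => [])

/-- the flexible vertices -/
def txsOf (sts : List St) : List (ℕ × ℕ) :=
  sts.flatMap (fun st => match st with
    | .tx _ _ n w => [(n, w)]
    | _ => [])

/-- the names of the parameters of an instruction -/
def nmP : St → List ℕ
  | .par _ n _ => [n]
  | .pw n _ => [n]
  | _ => []

/-- the names -/
def nmOf (sts : List St) : List ℕ := sts.flatMap St.nm

/-- edges in a program between coloured vertices -/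
def e1St : St → List (ℕ × ℕ)
  | .par _ _ _ => []
  | .vf d => d.ps.map (fun q => (d.v, q.1))
  | .ed u v => [(u, v)]
  | .tr u v d => (u, v) :: (u, d.v) :: (v, d.v) :: d.ps.map (fun q => (d.v, q.1))
  | .pw _ _ => []
  | .tx u v n _ => [(u, v), (u, n), (v, n)]

/-- edges to fixed vertices -/
def e2VD (d : VD) : List (ℕ × ℕ) :=
  d.ns.map (fun t => (d.v, t)) ++ d.ps.flatMap (fun q => q.2.2.map (fun t => (q.1, t)))

/-- vertices with lists -/
def LVD (d : VD) : List ℕ :=
  (if d.L then [d.v] else []) ++ (d.ps.filter (fun q => q.2.1)).map Prod.fst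

theorem e1_ok {χ : ℕ → Finset (Fin 7)} {sts : List St} (h : ∀ st ∈ sts, Sts Λ χ st)
    {e : ℕ × ℕ} (he : e ∈ sts.flatMap e1St) : Disjoint (χ e.1) (χ e.2) := by
  rw [List.mem_flatMap] at he
  obtain ⟨st, hst, he⟩ := he
  have h1 := h st hst
  cases st with
  | par s n dis => simp [e1St] at he
  | vf d =>
    rw [e1St, List.mem_map] at he
    obtain ⟨q, hq, rfl⟩ := he
    exact (h1.2 q hq).2
  | ed u v =>
    rw [e1St, List.mem_singleton] at he
    rw [he]
    exact h1
  | tr u v d =>
    rw [e1St, List.mem_cons, List.mem_cons, List.mem_cons, List.mem_map] at he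
    obtain ⟨h2, h3, h4, h5⟩ := h1
    rcases he with rfl | rfl | rfl | ⟨q, hq, rfl⟩
    · exact h2
    · exact h3
    · exact h4
    · exact (h5.2 q hq).2
  | pw n m => simp [e1St] at he
  | tx u v n w =>
    rw [e1St, List.mem_cons, List.mem_cons, List.mem_singleton] at he
    obtain ⟨h2, h3, h4, h5⟩ := h1
    rcases he with rfl | rfl | rfl
    · exact h2
    · exact h3
    · exact h4

theorem e1_nm {sts : List St} {e : ℕ × ℕ} (he : e ∈ sts.flatMap e1St) :
    e.1 ∈ nmOf sts ∧ e.2 ∈ nmOf sts := by
  rw [List.mem_flatMap] at he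
  obtain ⟨st, hst, he⟩ := he
  have key : e.1 ∈ st.nm ∧ e.2 ∈ st.nm := by
    cases st with
    | par s n dis => simp [e1St] at he
    | vf d =>
      rw [e1St, List.mem_map] at he
      obtain ⟨q, hq, rfl⟩ := he
      exact ⟨List.mem_cons_self, List.mem_cons_of_mem _ (List.mem_map_of_mem hq)⟩
    | ed u v =>
      rw [e1St, List.mem_singleton] at he
      rw [he]
      simp [St.nm]
    | tr u v d =>
      rw [e1St, List.mem_cons, List.mem_cons, List.mem_cons, List.mem_map] at he
      rcases he with rfl | rfl | rfl | ⟨q, hq, rfl⟩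
      · simp [St.nm]
      · simp [St.nm, VD.nm]
      · simp [St.nm, VD.nm]
      · refine ⟨by simp [St.nm, VD.nm], ?_⟩
        rw [St.nm, VD.nm]
        exact List.mem_cons_of_mem _ (List.mem_cons_of_mem _ (List.mem_cons_of_mem _
          (List.mem_map_of_mem hq)))
    | pw n m => simp [e1St] at he
    | tx u v n w =>
      rw [e1St, List.mem_cons, List.mem_cons, List.mem_singleton] at he
      rcases he with rfl | rfl | rfl
      · simp [St.nm]
      · simp [St.nm]
      · simp [St.nm]
  exact ⟨List.mem_flatMap.2 ⟨st, hst, key.1⟩, List.mem_flatMap.2 ⟨st, hst, key.2⟩⟩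

theorem vds_ok {χ : ℕ → Finset (Fin 7)} {sts : List St} (h : ∀ st ∈ sts, Sts Λ χ st)
    {d : VD} (hd : d ∈ vdsOf sts) : VDs Λ χ d ∧ ∀ x ∈ d.nm, x ∈ nmOf sts := by
  unfold vdsOf at hd
  rw [List.mem_flatMap] at hd
  obtain ⟨st, hst, hd⟩ := hd
  have h1 := h st hst
  cases st with
  | par s n dis => simp at hd
  | vf d' =>
    have : d = d' := by simpa using hd
    subst this
    exact ⟨h1, fun x hx => List.mem_flatMap.2 ⟨_, hst, hx⟩⟩
  | ed u v => simp at hd
  | tr u v d' =>
    have : d = d' := by simpa using hd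
    subst this
    refine ⟨h1.2.2.2, fun x hx => List.mem_flatMap.2 ⟨_, hst, ?_⟩⟩
    rw [St.nm]
    exact List.mem_cons_of_mem _ (List.mem_cons_of_mem _ hx)
  | pw n m => simp at hd
  | tx u v n w => simp at hd

/-- the colour of a flexible vertex -/
theorem tx_ok {χ : ℕ → Finset (Fin 7)} {sts : List St} (h : ∀ st ∈ sts, Sts Λ χ st)
    {q : ℕ × ℕ} (hq : q ∈ txsOf sts) : χ q.1 ⊆ Λ q.1 ∨ χ q.1 ⊆ Λ q.2 := by
  unfold txsOf at hq
  rw [List.mem_flatMap] at hq
  obtain ⟨st, hst, hq⟩ := hq
  have h1 := h st hst
  cases st with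
  | par s n dis => simp at hq
  | vf d => simp at hq
  | ed u v => simp at hq
  | tr u v d => simp at hq
  | pw n m => simp at hq
  | tx u v n w =>
    have : q = (n, w) := by simpa using hq
    rw [this]
    exact h1.2.2.2

theorem e2_ok {χ : ℕ → Finset (Fin 7)} {sts : List St} (h : ∀ st ∈ sts, Sts Λ χ st)
    {e : ℕ × ℕ} (he : e ∈ (vdsOf sts).flatMap e2VD) :
    Disjoint (χ e.1) (Λ e.2) ∧ e.1 ∈ nmOf sts := by
  rw [List.mem_flatMap] at he
  obtain ⟨d, hd, he⟩ := he
  obtain ⟨h1, h2⟩ := vds_ok h hd
  rw [e2VD, List.mem_append, List.mem_map, List.mem_flatMap] at he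
  rcases he with ⟨t, ht, rfl⟩ | ⟨q, hq, he⟩
  · exact ⟨h1.1.2 t ht, h2 _ List.mem_cons_self⟩
  · rw [List.mem_map] at he
    obtain ⟨t, ht, rfl⟩ := he
    exact ⟨(h1.2 q hq).1.2 t ht, h2 _ (List.mem_cons_of_mem _ (List.mem_map_of_mem hq))⟩

theorem L_ok {χ : ℕ → Finset (Fin 7)} {sts : List St} (h : ∀ st ∈ sts, Sts Λ χ st)
    {i : ℕ} (hi : i ∈ (vdsOf sts).flatMap LVD) : χ i ⊆ Λ i := by
  rw [List.mem_flatMap] at hi
  obtain ⟨d, hd, hi⟩ := hi
  obtain ⟨h1, _⟩ := vds_ok h hd
  rw [LVD, List.mem_append, List.mem_map] at hi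
  rcases hi with hi | ⟨q, hq, rfl⟩
  · by_cases hL : d.L = true
    · rw [if_pos hL, List.mem_singleton] at hi
      rw [hi]
      exact h1.1.1 hL
    · rw [if_neg hL] at hi
      simp at hi
  · rw [List.mem_filter] at hq
    exact (h1.2 q hq.1).1.1 hq.2

/-- the environment after a program -/
theorem res_env : ∀ (sts : List St) (R : ℕ) (env : List (ℕ × ℕ)), Cmp env Λ →
    Cmp (res Λ sts R env).2 Λ ∧ ∀ n, (n ∈ env.map Prod.fst ∨ ∃ p ∈ parsOf sts, p.2.1 = n) →
      n ∈ ((res Λ sts R env).2).map Prod.fst := by
  intro sts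
  induction sts with
  | nil =>
    intro R env hc
    refine ⟨hc, fun n hn => ?_⟩
    rcases hn with hn | ⟨p, hp, _⟩
    · exact hn
    · simp [parsOf] at hp
  | cons st r ih =>
    intro R env hc
    rw [res_cons]
    have hc' : Cmp (nenv Λ env st) Λ := by
      cases st with
      | par s n dis =>
        intro e he
        rw [nenv, List.mem_cons] at he
        rcases he with rfl | he
        · rfl
        · exact hc e he
      | vf d => exact hc
      | ed u v => exact hc
      | tr u v d => exact hc
      | pw n m =>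
        intro e he
        rw [nenv, List.mem_cons] at he
        rcases he with rfl | he
        · rfl
        · exact hc e he
      | tx u v n w => exact hc
    obtain ⟨h1, h2⟩ := ih (step env st R) (nenv Λ env st) hc'
    refine ⟨h1, fun n hn => h2 n ?_⟩
    rcases hn with hn | ⟨p, hp, hpn⟩
    · left
      cases st with
      | par s m dis => exact List.mem_cons_of_mem _ hn
      | vf d => exact hn
      | ed u v => exact hn
      | tr u v d => exact hn
      | pw m m' => exact List.mem_cons_of_mem _ hn
      | tx u v m w => exact hn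
    · unfold parsOf at hp
      rw [List.flatMap_cons, List.mem_append] at hp
      rcases hp with hp | hp
      · left
        cases st with
        | par s m dis =>
          have : p = (s, m, dis) := by simpa using hp
          rw [← hpn, this]
          exact List.mem_cons_self
        | vf d => simp at hp
        | ed u v => simp at hp
        | tr u v d => simp at hp
        | pw m m' => simp at hp
        | tx u v m w => simp at hp
      · right
        exact ⟨p, hp, hpn⟩

theorem app_eq (l m : List (ℕ × ℕ)) : app l m = l ++ m := by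
  induction l with
  | nil => rfl
  | cons a l ih =>
    show a :: app l m = _
    rw [ih]
    rfl

theorem Cmp_append {e1 e2 : List (ℕ × ℕ)} (h1 : Cmp e1 Λ) (h2 : Cmp e2 Λ) :
    Cmp (e1 ++ e2) Λ := by
  intro e he
  rw [List.mem_append] at he
  rcases he with he | he
  · exact h1 e he
  · exact h2 e he

end Pool.Agent.Lib.SVX.Chk
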