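import Pool.Agent.Lib.SVX.Defs

/-!
# SVX.Cfg: configurations

A configuration `c` has core vertices `0, …, nc - 1` and terminals `nc, …, nc + nt - 1`.
`E`: the edges with a core end, `Bs`: edges between terminals which are present, `outs r`: bound for
the number of further neighbours of the core vertex `r`, `sm t`: the terminal `t` is small (it is
recoloured; it has at most `outs t` neighbours outside the recoloured set), otherwise it keeps its
colour.  The reduced graph `G'`: delete the core, add the new edges `NE` between terminals and kept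
core vertices (`keep`; these play the role of new vertices); it is a minor by the contraction `pi`
(core vertices to kept core vertices or terminals).  `al`: the list of the excluded outside paths
`(i, j, l)`: no path of length `l` from terminal `i` to terminal `j` outside the core.
-/

set_option autoImplicit false
set_option linter.unusedSectionVars false

namespace Pool.Agent.Lib.SVX

open Finset Pool.Agent.Lib.SVT

structure Cfg where
  nc : ℕ
  nt : ℕ
  E : List (ℕ × ℕ)
  Bs : List (ℕ × ℕ)
  outs : ℕ → ℕ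
  sm : ℕ → Bool
  keep : List ℕ
  pi : ℕ → ℕ
  NE : List (ℕ × ℕ)
  al : List (ℕ × ℕ × ℕ)

namespace Cfg

variable (c : Cfg)

/-- number of named vertices -/
def N : ℕ := c.nc + c.nt

/-- `i` is a terminal -/
def isT (i : ℕ) : Bool := decide (c.nc ≤ i) && decide (i < c.N)

/-- `i` is recoloured: a core vertex or a small terminal -/
def inH (i : ℕ) : Bool := decide (i < c.nc) || (c.isT i && c.sm i)

/-- adjacency of named vertices in `G` (known edges) -/
def adjE (i j : ℕ) : Bool :=
  c.E.contains (i, j) || c.E.contains (j, i) || c.Bs.contains (i, j) || c.Bs.contains (j, i)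

/-- new edges -/
def adjN (i j : ℕ) : Bool := c.NE.contains (i, j) || c.NE.contains (j, i)

/-- lengths of outside paths which are excluded -/
def excl (i j l : ℕ) : Bool := c.al.contains (i, j, l) || c.al.contains (j, i, l)

/-- the statement on lists: every colouring `ψ` of the gadget can be turned into a colouring of the
configuration -/
def ListOK : Prop :=
  ∀ (ψ L : ℕ → Finset (Fin 7)),
    (∀ i, i < c.N → (ψ i).card = 2) →
    (∀ i j, i < c.N → j < c.N → (c.adjN i j = true ∨ (c.isT i = true ∧ c.isT j = true ∧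
      c.adjE i j = true)) → Disjoint (ψ i) (ψ j)) →
    (∀ t, c.isT t = true → c.sm t = true → ψ t ⊆ L t ∧ 7 - 2 * c.outs t ≤ (L t).card) →
    (∀ r, r < c.nc → 7 - 2 * c.outs r ≤ (L r).card) →
    ∃ χ : ℕ → Finset (Fin 7), (∀ i, i < c.N → (χ i).card = 2) ∧
      (∀ t, c.isT t = true → c.sm t = false → χ t = ψ t) ∧
      (∀ t, c.isT t = true → c.sm t = true → χ t ⊆ L t) ∧
      (∀ r, r < c.nc → χ r ⊆ L r) ∧
      (∀ i j, i < c.N → j < c.N → c.adjE i j = true → Disjoint (χ i) (χ j))

end Cfg

variable {V : Type*} [Fintype V] [DecidableEq V]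

/-- paths of length 1, 2, 3, 4 from `a` to `b` outside `R` -/
def OPath (G : SimpleGraph V) (R : Set V) (a b : V) : ℕ → Prop
  | 1 => G.Adj a b
  | 2 => ∃ x, x ∉ R ∧ G.Adj a x ∧ G.Adj x b
  | 3 => ∃ x y, x ∉ R ∧ y ∉ R ∧ x ≠ b ∧ y ≠ a ∧ G.Adj a x ∧ G.Adj x y ∧ G.Adj y b
  | 4 => ∃ x y z, x ∉ R ∧ y ∉ R ∧ z ∉ R ∧ x ≠ b ∧ y ≠ a ∧ y ≠ b ∧ z ≠ a ∧ x ≠ z ∧
      G.Adj a x ∧ G.Adj x y ∧ G.Adj y z ∧ G.Adj z b
  | _ => False

/-- `nm` is an occurrence of the configuration `c` in the graph `G` with precoloured set `B` -/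
structure Inst (c : Cfg) (G : SimpleGraph V) (B : Finset V) (nm : ℕ → V) : Prop where
  inj : ∀ i j, i < c.N → j < c.N → nm i = nm j → i = j
  coreB : ∀ r, r < c.nc → nm r ∉ B
  edge : ∀ i j, i < c.N → j < c.N → c.adjE i j = true → G.Adj (nm i) (nm j)
  /-- further neighbours of a core vertex: at most `outs r`, none of them recoloured -/
  out : ∀ r, r < c.nc → ∃ O : Finset V, O.card ≤ c.outs r ∧
    (∀ v, G.Adj (nm r) v → v ∈ O ∨ ∃ j, j < c.N ∧ c.adjE r j = true ∧ v = nm j) ∧
    ∀ j, j < c.N → c.inH j = true → nm j ∉ O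
  /-- a small terminal is not precoloured and has at most `outs t` neighbours outside the recoloured
  set -/
  small : ∀ t, c.isT t = true → c.sm t = true → nm t ∉ B ∧ ∃ O : Finset V, O.card ≤ c.outs t ∧
    (∀ v, G.Adj (nm t) v → v ∈ O ∨ ∃ j, j < c.N ∧ c.inH j = true ∧ c.adjE t j = true ∧ v = nm j) ∧
    ∀ j, j < c.N → c.inH j = true → nm j ∉ O
  /-- excluded paths -/
  exc : ∀ i j l, c.isT i = true → c.isT j = true → i ≠ j → c.excl i j l = true →
    ¬ OPath G {v | ∃ r, r < c.nc ∧ v = nm r} (nm i) (nm j) l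

end Pool.Agent.Lib.SVX
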