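import Pool.Agent.Lib.SVX.ChkM
import Pool.Agent.Lib.SVX.Cfg

/-!
# SVX.Chk: the check of a configuration (MP_0229a2_co)

`chkRing_cfg`, `chkPath_cfg`: the kernel check proves `Cfg.ListOK`.
-/

set_option autoImplicit false
set_option maxRecDepth 100000

namespace Pool.Agent.Lib.SVX.Chk

open Finset

/-- the list problem of a configuration -/
def ofCfg (c : Cfg) : Prob where
  N := c.N
  E := c.E ++ c.Bs
  Eg := (c.NE ++ c.Bs).filter (fun e => decide (e.1 < c.N) && decide (e.2 < c.N) &&
    (c.adjN e.1 e.2 || (c.isT e.1 && c.isT e.2)))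
  fx := fun i => c.isT i && !c.sm i
  ls := fun i => 7 - 2 * c.outs i
  il := fun i => c.isT i && c.sm i
  fl := fun _ => false
  fw := fun i => i

theorem listOK_of {c : Cfg} (h : (ofCfg c).OK) : c.ListOK := by
  intro ψ L h1 h2 h3 h4
  have hT : ∀ i, i < c.N → ¬ i < c.nc → c.isT i = true := by
    intro i hi hn
    unfold Cfg.isT
    rw [Bool.and_eq_true, decide_eq_true_eq, decide_eq_true_eq]
    exact ⟨not_lt.1 hn, hi⟩
  have hT' : ∀ i, c.isT i = true → i < c.N ∧ ¬ i < c.nc := by
    intro i hi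
    unfold Cfg.isT at hi
    rw [Bool.and_eq_true, decide_eq_true_eq, decide_eq_true_eq] at hi
    exact ⟨hi.2, not_lt.2 hi.1⟩
  have hcN : ∀ i, i < c.nc → i < c.N := fun i hi => Nat.lt_of_lt_of_le hi (Nat.le_add_right _ _)
  have q1 : ∀ e ∈ (ofCfg c).Eg, Disjoint (ψ e.1) (ψ e.2) := by
    intro e he
    have he' := List.mem_filter.1 he
    obtain ⟨he1, he2⟩ := he'
    rw [Bool.and_eq_true, Bool.and_eq_true, decide_eq_true_eq, decide_eq_true_eq,
      Bool.or_eq_true, Bool.and_eq_true] at he2
    obtain ⟨⟨e1, e2⟩, e3⟩ := he2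
    refine h2 e.1 e.2 e1 e2 ?_
    rcases e3 with e3 | e3
    · exact Or.inl e3
    · rw [List.mem_append] at he1
      rcases he1 with he1 | he1
      · left
        unfold Cfg.adjN
        rw [Bool.or_eq_true, List.contains_iff_mem]
        exact Or.inl he1
      · right
        refine ⟨e3.1, e3.2, ?_⟩
        unfold Cfg.adjE
        rw [Bool.or_eq_true, Bool.or_eq_true]
        exact Or.inl (Or.inr (List.contains_iff_mem.2 he1))
  have q2 : ∀ i, i < (ofCfg c).N → (ofCfg c).fx i = false → (ofCfg c).ls i ≤ (L i).card := by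
    intro i hi hf
    have hf' : (c.isT i && !c.sm i) = false := hf
    by_cases hn : i < c.nc
    · exact h4 i hn
    · have ht := hT i hi hn
      rw [ht, Bool.true_and] at hf'
      have hs : c.sm i = true := by simpa using hf'
      exact (h3 i ht hs).2
  have q3 : ∀ i, i < (ofCfg c).N → (ofCfg c).il i = true → ψ i ⊆ L i := by
    intro i hi hil
    have hil' : (c.isT i && c.sm i) = true := hil
    rw [Bool.and_eq_true] at hil'
    exact (h3 i hil'.1 hil'.2).1
  obtain ⟨χ, g1, g2, g3, _, g4⟩ := h ψ L h1 q1 q2 q3 (fun i _ hf => absurd hf (by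
    show ¬ (false = true)
    simp))
  refine ⟨χ, g1, fun t ht hs => g2 t (hT' t ht).1 ?_, fun t ht hs => g3 t (hT' t ht).1 ?_ rfl,
      fun r hr => g3 r (hcN r hr) ?_ rfl, fun i j hi hj hij => ?_⟩
  · show (c.isT t && !c.sm t) = true
    rw [ht, hs]; rfl
  · show (c.isT t && !c.sm t) = false
    rw [ht, hs]; rfl
  · show (c.isT r && !c.sm r) = false
    have h5 : c.isT r = false := by
      cases h6 : c.isT r
      · rfl
      · exact absurd hr (hT' r h6).2
    rw [h5]; rfl
  · unfold Cfg.adjE at hij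
    rw [Bool.or_eq_true, Bool.or_eq_true, Bool.or_eq_true, List.contains_iff_mem,
      List.contains_iff_mem, List.contains_iff_mem, List.contains_iff_mem] at hij
    rcases hij with ((hij | hij) | hij) | hij
    · exact g4 (i, j) (List.mem_append_left _ hij)
    · exact (g4 (j, i) (List.mem_append_left _ hij)).symm
    · exact g4 (i, j) (List.mem_append_right _ hij)
    · exact (g4 (j, i) (List.mem_append_right _ hij)).symm

theorem fx_lt (c : Cfg) : ∀ t, (ofCfg c).fx t = true → t < (ofCfg c).N := by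
  intro t ht
  have h : (c.isT t && !c.sm t) = true := ht
  rw [Bool.and_eq_true] at h
  have h1 := h.1
  unfold Cfg.isT at h1
  rw [Bool.and_eq_true, decide_eq_true_eq, decide_eq_true_eq] at h1
  exact h1.2

theorem fx_lt' (c : Cfg) : ∀ t, ((ofCfg c).fx t || (ofCfg c).fl t) = true →
    t < (ofCfg c).N := by
  intro t ht
  rw [Bool.or_eq_true] at ht
  rcases ht with ht | ht
  · exact fx_lt c t ht
  · exact absurd ht (by
      show ¬ (false = true)
      simp)

theorem chkRing_cfg {c : Cfg} {l r : List St} {nodes : List (ℕ × ℕ × List ℕ)} {u0 : ℕ}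
    (h : chkRing (ofCfg c) l r nodes u0 = true) : c.ListOK :=
  listOK_of (chkRing_sound (fx_lt' c) h)

theorem chkPath_cfg {c : Cfg} {l : List St} {nodes : List (ℕ × ℕ × List ℕ)} {u0 : ℕ}
    (h : chkPath (ofCfg c) l nodes u0 = true) : c.ListOK :=
  listOK_of (chkPath_sound (fx_lt' c) h)

end Pool.Agent.Lib.SVX.Chk
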