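import Pool.Agent.Lib.SVX.Cfg

/-!
# SVX.Adm: the admissibility check and the reduced graph
-/

set_option autoImplicit false
set_option linter.unusedSectionVars false

namespace Pool.Agent.Lib.SVX

open Finset Pool.Agent.Lib.SVT

namespace Cfg

variable (c : Cfg)

/-- nodes of the gadget: terminals and kept core vertices -/
def node (i : ℕ) : Bool := c.isT i || (decide (i < c.nc) && c.keep.contains i)

/-- an old path of length `l` is possible -/
def old (i j l : ℕ) : Bool := c.isT i && c.isT j && !(c.excl i j l)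

/-- the list of all nodes -/
def nodes : List ℕ := (List.range c.N).filter c.node

/-- the new edges in both directions -/
def dir : List (ℕ × ℕ) := c.NE ++ c.NE.map (fun e => (e.2, e.1))

/-- new paths with two edges -/
def dir2 : List (ℕ × ℕ × ℕ) :=
  c.dir.flatMap (fun e => (c.dir.filter (fun f => f.1 == e.2 && f.2 != e.1)).map
    (fun f => (e.1, e.2, f.2)))

/-- new paths with three edges (ends distinct) -/
def dir3 : List (ℕ × ℕ × ℕ × ℕ) :=
  c.dir2.flatMap (fun e => (c.dir.filter (fun f => f.1 == e.2.2 && f.2 != e.1 && f.2 != e.2.1)).map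
    (fun f => (e.1, e.2.1, e.2.2, f.2)))

/-- new paths with four edges (ends distinct) -/
def dir4 : List (ℕ × ℕ × ℕ × ℕ × ℕ) :=
  c.dir3.flatMap (fun e => (c.dir.filter (fun f => f.1 == e.2.2.2 && f.2 != e.1 && f.2 != e.2.1 &&
    f.2 != e.2.2.1)).map (fun f => (e.1, e.2.1, e.2.2.1, e.2.2.2, f.2)))

/-- no cycle of length 4 or 5 with a new edge -/
def noShort : Bool :=
  c.dir.all (fun e => !(c.old e.2 e.1 3) && !(c.old e.2 e.1 4)) &&
  c.dir2.all (fun e => !(c.old e.2.2 e.1 2) && !(c.old e.2.2 e.1 3)) &&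
  c.dir3.all (fun e => !(c.old e.2.2.2 e.1 1) && !(c.old e.2.2.2 e.1 2) &&
    !(c.adjN e.2.2.2 e.1)) &&
  c.dir4.all (fun e => !(c.old e.2.2.2.2 e.1 1) && !(c.adjN e.2.2.2.2 e.1)) &&
  c.dir.all (fun e => c.dir.all (fun f =>
    f.1 == e.1 || f.1 == e.2 || f.2 == e.1 || f.2 == e.2 ||
      !(c.old e.2 f.1 1) || (!(c.old f.2 e.1 1) && !(c.old f.2 e.1 2)))) &&
  c.dir.all (fun e => c.dir.all (fun f =>
    f.1 == e.1 || f.1 == e.2 || f.2 == e.1 || f.2 == e.2 ||
      !(c.old e.2 f.1 2) || !(c.old f.2 e.1 1))) &&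
  c.dir2.all (fun e => c.dir.all (fun f =>
    f.1 == e.1 || f.1 == e.2.1 || f.1 == e.2.2 || f.2 == e.1 || f.2 == e.2.1 || f.2 == e.2.2 ||
      !(c.old e.2.2 f.1 1) || !(c.old f.2 e.1 1)))

/-- the target of the contraction on all named vertices -/
def pi' (i : ℕ) : ℕ := if i < c.nc then c.pi i else i

/-- iterated parent -/
def up (par : ℕ → ℕ) : ℕ → ℕ → ℕ
  | 0, i => i
  | n + 1, i => up par n (par i)

/-- the gadget is a minor: `par` leads inside the fibres of `pi'` to the root `pi' r` -/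
def minorOK (par : ℕ → ℕ) : Bool :=
  (List.range c.nc).all (fun r => c.pi r == r ||
    (decide (c.pi' (c.pi r) = c.pi r) && c.adjE r (par r) && decide (c.pi' (par r) = c.pi r) &&
      decide (up par c.nc r = c.pi r))) &&
  (List.range c.nc).all (fun r => !(decide (c.pi r = r)) || decide (par r = r)) &&
  (List.range c.N).all (fun i => decide (i < c.nc) || decide (par i = i)) &&
  c.NE.all (fun e => (c.E ++ c.Bs).any (fun f =>
    (c.pi' f.1 == e.1 && c.pi' f.2 == e.2) || (c.pi' f.1 == e.2 && c.pi' f.2 == e.1)))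

/-- the complete check -/
def adm (par : ℕ → ℕ) : Bool :=
  c.noShort && c.minorOK par &&
  c.NE.all (fun e => e.1 != e.2 && c.node e.1 && c.node e.2) &&
  c.NE.all (fun e => !(c.isT e.1 && c.isT e.2) ||
    (c.excl e.1 e.2 1 && c.excl e.1 e.2 2 && c.excl e.1 e.2 3)) &&
  c.E.all (fun e => e.1 != e.2 && decide (e.1 < c.N) && decide (e.2 < c.N) &&
    (decide (e.1 < c.nc) || decide (e.2 < c.nc))) &&
  c.Bs.all (fun e => e.1 != e.2 && c.isT e.1 && c.isT e.2) &&
  c.keep.all (fun r => decide (r < c.nc) && c.pi r == r) &&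
  (List.range c.nc).any (fun r => !(c.keep.contains r)) &&
  (List.range c.N).all (fun i => (c.E ++ c.Bs).any (fun e => e.1 == i || e.2 == i)) &&
  (List.range c.nc).all (fun r => decide (c.pi r < c.N))

end Cfg

variable {V : Type*} [Fintype V] [DecidableEq V]

/-- the reduced graph -/
def red (c : Cfg) (G : SimpleGraph V) (nm : ℕ → V) : SimpleGraph V where
  Adj a b := a ≠ b ∧ (((∀ r, r < c.nc → a ≠ nm r) ∧ (∀ r, r < c.nc → b ≠ nm r) ∧ G.Adj a b) ∨
    ∃ i j, i < c.N ∧ j < c.N ∧ c.adjN i j = true ∧ a = nm i ∧ b = nm j)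
  symm := ⟨by
    rintro a b ⟨hab, h | ⟨i, j, hi, hj, hij, ha, hb⟩⟩
    · exact ⟨hab.symm, Or.inl ⟨h.2.1, h.1, h.2.2.symm⟩⟩
    · refine ⟨hab.symm, Or.inr ⟨j, i, hj, hi, ?_, hb, ha⟩⟩
      unfold Cfg.adjN at hij ⊢
      rw [Bool.or_comm]
      exact hij⟩
  loopless := ⟨fun a h => h.1 rfl⟩

end Pool.Agent.Lib.SVX
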