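import Pool.Agent.Lib.SVX.Adm

/-!
# SVX.CfgA: the reduced graph has no cycles of length 4 and 5

Plan.  A 4-cycle `a b c d` of `red c G nm`: every edge is old (`G.Adj`, both ends outside the core)
or new (`a = nm i`, `b = nm j`, `adjN i j`).  If all edges are old use `NoC4 G`.  Otherwise rotate
(or reflect) such that the first edge is new and the last edge is old or all are new, and read off
the corresponding line of `noShort`: the maximal runs of old edges are `OPath`s of length 1 to 4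
between terminals (the ends of a new edge that are ends of an old edge are not in the core, hence
terminals), which `Inst.exc` excludes when `excl` holds.  Same for 5-cycles.  Suggestion: first
prove for `dir`, `dir2`, `dir3`, `dir4` membership lemmas, and a lemma
`old_of : OPath … (nm i) (nm j) l → isT i → isT j → i ≠ j → c.old i j l = true`.
-/

set_option autoImplicit false
set_option linter.unusedSectionVars false

namespace Pool.Agent.Lib.SVX

open Finset Pool.Agent.Lib.SVT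

variable {V : Type*} [Fintype V] [DecidableEq V] {G : SimpleGraph V} {B : Finset V}
variable {c : Cfg} {nm : ℕ → V} {par : ℕ → ℕ}

namespace CfgAAux

/-- old edge -/
def Ol (c : Cfg) (G : SimpleGraph V) (nm : ℕ → V) (a b : V) : Prop :=
  (∀ r, r < c.nc → a ≠ nm r) ∧ (∀ r, r < c.nc → b ≠ nm r) ∧ G.Adj a b

/-- new edge -/
def Nw (c : Cfg) (nm : ℕ → V) (a b : V) : Prop :=
  ∃ i j, i < c.N ∧ j < c.N ∧ c.adjN i j = true ∧ a = nm i ∧ b = nm j

theorem ol_symm {a b : V} (h : Ol c G nm a b) : Ol c G nm b a := ⟨h.2.1, h.1, h.2.2.symm⟩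

theorem adjN_symm {i j : ℕ} (h : c.adjN i j = true) : c.adjN j i = true := by
  unfold Cfg.adjN at h ⊢
  rw [Bool.or_comm]
  exact h

theorem nw_symm {a b : V} (h : Nw c nm a b) : Nw c nm b a := by
  obtain ⟨i, j, hi, hj, hij, ha, hb⟩ := h
  exact ⟨j, i, hj, hi, adjN_symm hij, hb, ha⟩

theorem red_cases {a b : V} (h : (red c G nm).Adj a b) :
    a ≠ b ∧ (Ol c G nm a b ∨ Nw c nm a b) := h

theorem mem_dir {i j : ℕ} (h : c.adjN i j = true) : (i, j) ∈ c.dir := by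
  unfold Cfg.adjN at h
  unfold Cfg.dir
  rw [List.mem_append, List.mem_map]
  rw [Bool.or_eq_true, List.contains_iff_mem, List.contains_iff_mem] at h
  rcases h with h | h
  · exact Or.inl h
  · exact Or.inr ⟨(j, i), h, rfl⟩

theorem mem_dir2 {i j k : ℕ} (h1 : c.adjN i j = true) (h2 : c.adjN j k = true) (hk : k ≠ i) :
    (i, j, k) ∈ c.dir2 := by
  unfold Cfg.dir2
  rw [List.mem_flatMap]
  refine ⟨(i, j), mem_dir h1, ?_⟩
  rw [List.mem_map]
  refine ⟨(j, k), ?_, rfl⟩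
  rw [List.mem_filter]
  exact ⟨mem_dir h2, by simp [hk]⟩

theorem mem_dir3 {i j k l : ℕ} (h1 : c.adjN i j = true) (h2 : c.adjN j k = true)
    (h3 : c.adjN k l = true) (hk : k ≠ i) (hl : l ≠ i) (hl' : l ≠ j) :
    (i, j, k, l) ∈ c.dir3 := by
  unfold Cfg.dir3
  rw [List.mem_flatMap]
  refine ⟨(i, j, k), mem_dir2 h1 h2 hk, ?_⟩
  rw [List.mem_map]
  refine ⟨(k, l), ?_, rfl⟩
  rw [List.mem_filter]
  exact ⟨mem_dir h3, by simp [hl, hl']⟩

theorem mem_dir4 {i j k l m : ℕ} (h1 : c.adjN i j = true) (h2 : c.adjN j k = true)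
    (h3 : c.adjN k l = true) (h4 : c.adjN l m = true) (hk : k ≠ i) (hl : l ≠ i) (hl' : l ≠ j)
    (hm : m ≠ i) (hm' : m ≠ j) (hm'' : m ≠ k) :
    (i, j, k, l, m) ∈ c.dir4 := by
  unfold Cfg.dir4
  rw [List.mem_flatMap]
  refine ⟨(i, j, k, l), mem_dir3 h1 h2 h3 hk hl hl', ?_⟩
  rw [List.mem_map]
  refine ⟨(l, m), ?_, rfl⟩
  rw [List.mem_filter]
  exact ⟨mem_dir h4, by simp [hm, hm', hm'']⟩

theorem ns1 (h : c.noShort = true) {i j : ℕ} (h1 : c.adjN i j = true) :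
    c.old j i 3 = false ∧ c.old j i 4 = false := by
  unfold Cfg.noShort at h
  simp only [Bool.and_eq_true, List.all_eq_true] at h
  have h' := h.1.1.1.1.1.1 (i, j) (mem_dir h1)
  simpa using h'

theorem ns2 (h : c.noShort = true) {i j k : ℕ} (h1 : c.adjN i j = true)
    (h2 : c.adjN j k = true) (hk : k ≠ i) : c.old k i 2 = false ∧ c.old k i 3 = false := by
  unfold Cfg.noShort at h
  simp only [Bool.and_eq_true, List.all_eq_true] at h
  have h' := h.1.1.1.1.1.2 (i, j, k) (mem_dir2 h1 h2 hk)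
  simpa using h'

theorem ns3 (h : c.noShort = true) {i j k l : ℕ} (h1 : c.adjN i j = true)
    (h2 : c.adjN j k = true) (h3 : c.adjN k l = true) (hk : k ≠ i) (hl : l ≠ i) (hl' : l ≠ j) :
    (c.old l i 1 = false ∧ c.old l i 2 = false) ∧ c.adjN l i = false := by
  unfold Cfg.noShort at h
  simp only [Bool.and_eq_true, List.all_eq_true] at h
  have h' := h.1.1.1.1.2 (i, j, k, l) (mem_dir3 h1 h2 h3 hk hl hl')
  simpa using h'

theorem ns4 (h : c.noShort = true) {i j k l m : ℕ} (h1 : c.adjN i j = true)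
    (h2 : c.adjN j k = true) (h3 : c.adjN k l = true) (h4 : c.adjN l m = true) (hk : k ≠ i)
    (hl : l ≠ i) (hl' : l ≠ j) (hm : m ≠ i) (hm' : m ≠ j) (hm'' : m ≠ k) :
    c.old m i 1 = false ∧ c.adjN m i = false := by
  unfold Cfg.noShort at h
  simp only [Bool.and_eq_true, List.all_eq_true] at h
  have h' := h.1.1.1.2 (i, j, k, l, m) (mem_dir4 h1 h2 h3 h4 hk hl hl' hm hm' hm'')
  simpa using h'

theorem ns5 (h : c.noShort = true) {i j k l : ℕ} (h1 : c.adjN i j = true)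
    (h2 : c.adjN k l = true) (hki : k ≠ i) (hkj : k ≠ j) (hli : l ≠ i) (hlj : l ≠ j)
    (ho : c.old j k 1 = true) : c.old l i 1 = false ∧ c.old l i 2 = false := by
  unfold Cfg.noShort at h
  simp only [Bool.and_eq_true, List.all_eq_true] at h
  have h' := h.1.1.2 (i, j) (mem_dir h1) (k, l) (mem_dir h2)
  simpa [hki, hkj, hli, hlj, ho] using h'

theorem ns7 (h : c.noShort = true) {i j k l m : ℕ} (h1 : c.adjN i j = true)
    (h2 : c.adjN j k = true) (h3 : c.adjN l m = true) (hk : k ≠ i) (hli : l ≠ i) (hlj : l ≠ j)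
    (hlk : l ≠ k) (hmi : m ≠ i) (hmj : m ≠ j) (hmk : m ≠ k)
    (ho : c.old k l 1 = true) : c.old m i 1 = false := by
  unfold Cfg.noShort at h
  simp only [Bool.and_eq_true, List.all_eq_true] at h
  have h' := h.2 (i, j, k) (mem_dir2 h1 h2 hk) (l, m) (mem_dir h3)
  simpa [hli, hlj, hlk, hmi, hmj, hmk, ho] using h'

theorem isT_of {i : ℕ} (hi : i < c.N) (h : ∀ r, r < c.nc → nm i ≠ nm r) : c.isT i = true := by
  unfold Cfg.isT
  rw [Bool.and_eq_true, decide_eq_true_eq, decide_eq_true_eq]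
  refine ⟨?_, hi⟩
  by_contra hn
  exact h i (not_le.1 hn) rfl

theorem ne_of {i j : ℕ} (h : nm i ≠ nm j) : i ≠ j := fun e => h (e ▸ rfl)

theorem old_of (hin : Inst c G B nm) {i j l : ℕ} (hi : c.isT i = true) (hj : c.isT j = true)
    (hne : i ≠ j) (ho : OPath G {v | ∃ r, r < c.nc ∧ v = nm r} (nm i) (nm j) l) :
    c.old i j l = true := by
  unfold Cfg.old
  rw [hi, hj]
  by_contra hc
  have h1 : c.excl i j l = true := by simpa using hc
  exact hin.exc i j l hi hj hne h1 ho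

theorem old1 (hin : Inst c G B nm) {i j : ℕ} (hi : i < c.N) (hj : j < c.N)
    (hne : nm i ≠ nm j) (h : Ol c G nm (nm i) (nm j)) : c.old i j 1 = true :=
  old_of hin (isT_of hi h.1) (isT_of hj h.2.1) (ne_of hne) (show G.Adj _ _ from h.2.2)

theorem old2 (hin : Inst c G B nm) {i j : ℕ} (hi : i < c.N) (hj : j < c.N)
    (hne : nm i ≠ nm j) {x : V} (h1 : Ol c G nm (nm i) x) (h2 : Ol c G nm x (nm j)) :
    c.old i j 2 = true :=
  old_of hin (isT_of hi h1.1) (isT_of hj h2.2.1) (ne_of hne)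
    (show ∃ x, x ∉ {v | ∃ r, r < c.nc ∧ v = nm r} ∧ G.Adj (nm i) x ∧ G.Adj x (nm j) from
      ⟨x, fun ⟨r, hr, e⟩ => h2.1 r hr e, h1.2.2, h2.2.2⟩)

theorem old3 (hin : Inst c G B nm) {i j : ℕ} (hi : i < c.N) (hj : j < c.N)
    (hne : nm i ≠ nm j) {x y : V} (h1 : Ol c G nm (nm i) x) (h2 : Ol c G nm x y)
    (h3 : Ol c G nm y (nm j)) (hx : x ≠ nm j) (hy : y ≠ nm i) :
    c.old i j 3 = true :=
  old_of hin (isT_of hi h1.1) (isT_of hj h3.2.1) (ne_of hne)
    (show ∃ x y, x ∉ {v | ∃ r, r < c.nc ∧ v = nm r} ∧ y ∉ {v | ∃ r, r < c.nc ∧ v = nm r} ∧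
        x ≠ nm j ∧ y ≠ nm i ∧ G.Adj (nm i) x ∧ G.Adj x y ∧ G.Adj y (nm j) from
      ⟨x, y, fun ⟨r, hr, e⟩ => h2.1 r hr e, fun ⟨r, hr, e⟩ => h3.1 r hr e, hx, hy, h1.2.2,
        h2.2.2, h3.2.2⟩)

theorem old4 (hin : Inst c G B nm) {i j : ℕ} (hi : i < c.N) (hj : j < c.N)
    (hne : nm i ≠ nm j) {x y z : V} (h1 : Ol c G nm (nm i) x) (h2 : Ol c G nm x y)
    (h3 : Ol c G nm y z) (h4 : Ol c G nm z (nm j)) (hx : x ≠ nm j) (hy : y ≠ nm i)
    (hy' : y ≠ nm j) (hz : z ≠ nm i) (hxz : x ≠ z) :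
    c.old i j 4 = true :=
  old_of hin (isT_of hi h1.1) (isT_of hj h4.2.1) (ne_of hne)
    (show ∃ x y z, x ∉ {v | ∃ r, r < c.nc ∧ v = nm r} ∧
        y ∉ {v | ∃ r, r < c.nc ∧ v = nm r} ∧ z ∉ {v | ∃ r, r < c.nc ∧ v = nm r} ∧
        x ≠ nm j ∧ y ≠ nm i ∧ y ≠ nm j ∧ z ≠ nm i ∧ x ≠ z ∧ G.Adj (nm i) x ∧ G.Adj x y ∧
        G.Adj y z ∧ G.Adj z (nm j) from
      ⟨x, y, z, fun ⟨r, hr, e⟩ => h2.1 r hr e, fun ⟨r, hr, e⟩ => h3.1 r hr e,
        fun ⟨r, hr, e⟩ => h4.1 r hr e, hx, hy, hy', hz, hxz, h1.2.2, h2.2.2, h3.2.2, h4.2.2⟩)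

theorem tf {b : Bool} (h1 : b = true) (h2 : b = false) : False := by
  rw [h1] at h2
  exact Bool.noConfusion h2

theorem pNOOO (hs : c.noShort = true) (hin : Inst c G B nm) {v0 v1 v2 v3 : V}
    (d01 : v0 ≠ v1) (d02 : v0 ≠ v2) (d03 : v0 ≠ v3) (d12 : v1 ≠ v2) (d13 : v1 ≠ v3)
    (d23 : v2 ≠ v3) (e0 : Nw c nm v0 v1) (e1 : Ol c G nm v1 v2) (e2 : Ol c G nm v2 v3)
    (e3 : Ol c G nm v3 v0) : False := by
  obtain ⟨i, j, hi, hj, hij, rfl, rfl⟩ := e0
  exact tf (old3 hin hj hi d01.symm e1 e2 e3 d02.symm d13.symm) (ns1 hs hij).1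

theorem pNNOO (hs : c.noShort = true) (hin : Inst c G B nm) {v0 v1 v2 v3 : V}
    (d01 : v0 ≠ v1) (d02 : v0 ≠ v2) (d03 : v0 ≠ v3) (d12 : v1 ≠ v2) (d13 : v1 ≠ v3)
    (d23 : v2 ≠ v3) (e0 : Nw c nm v0 v1) (e1 : Nw c nm v1 v2) (e2 : Ol c G nm v2 v3)
    (e3 : Ol c G nm v3 v0) : False := by
  obtain ⟨i, j, hi, hj, hij, rfl, rfl⟩ := e0
  obtain ⟨j', k, hj', hk, hjk, ej, rfl⟩ := e1
  obtain rfl := hin.inj j j' hj hj' ej
  exact tf (old2 hin hk hi d02.symm e2 e3) (ns2 hs hij hjk (ne_of d02.symm)).1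

theorem pNONO (hs : c.noShort = true) (hin : Inst c G B nm) {v0 v1 v2 v3 : V}
    (d01 : v0 ≠ v1) (d02 : v0 ≠ v2) (d03 : v0 ≠ v3) (d12 : v1 ≠ v2) (d13 : v1 ≠ v3)
    (d23 : v2 ≠ v3) (e0 : Nw c nm v0 v1) (e1 : Ol c G nm v1 v2) (e2 : Nw c nm v2 v3)
    (e3 : Ol c G nm v3 v0) : False := by
  obtain ⟨i, j, hi, hj, hij, rfl, rfl⟩ := e0
  obtain ⟨k, l, hk, hl, hkl, rfl, rfl⟩ := e2
  exact tf (old1 hin hl hi d03.symm e3) (ns5 hs hij hkl (ne_of d02.symm) (ne_of d12.symm)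
    (ne_of d03.symm) (ne_of d13.symm) (old1 hin hj hk d12 e1)).1

theorem pNNNO (hs : c.noShort = true) (hin : Inst c G B nm) {v0 v1 v2 v3 : V}
    (d01 : v0 ≠ v1) (d02 : v0 ≠ v2) (d03 : v0 ≠ v3) (d12 : v1 ≠ v2) (d13 : v1 ≠ v3)
    (d23 : v2 ≠ v3) (e0 : Nw c nm v0 v1) (e1 : Nw c nm v1 v2) (e2 : Nw c nm v2 v3)
    (e3 : Ol c G nm v3 v0) : False := by
  obtain ⟨i, j, hi, hj, hij, rfl, rfl⟩ := e0
  obtain ⟨j', k, hj', hk, hjk, ej, rfl⟩ := e1
  obtain rfl := hin.inj j j' hj hj' ej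
  obtain ⟨k', l, hk', hl, hkl, ek, rfl⟩ := e2
  obtain rfl := hin.inj k k' hk hk' ek
  exact tf (old1 hin hl hi d03.symm e3) (ns3 hs hij hjk hkl (ne_of d02.symm) (ne_of d03.symm)
    (ne_of d13.symm)).1.1

theorem pNNNN (hs : c.noShort = true) (hin : Inst c G B nm) {v0 v1 v2 v3 : V}
    (d01 : v0 ≠ v1) (d02 : v0 ≠ v2) (d03 : v0 ≠ v3) (d12 : v1 ≠ v2) (d13 : v1 ≠ v3)
    (d23 : v2 ≠ v3) (e0 : Nw c nm v0 v1) (e1 : Nw c nm v1 v2) (e2 : Nw c nm v2 v3)
    (e3 : Nw c nm v3 v0) : False := by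
  obtain ⟨i, j, hi, hj, hij, rfl, rfl⟩ := e0
  obtain ⟨j', k, hj', hk, hjk, ej, rfl⟩ := e1
  obtain rfl := hin.inj j j' hj hj' ej
  obtain ⟨k', l, hk', hl, hkl, ek, rfl⟩ := e2
  obtain rfl := hin.inj k k' hk hk' ek
  obtain ⟨l', i', hl', hi', hli, el, ei⟩ := e3
  obtain rfl := hin.inj l l' hl hl' el
  obtain rfl := hin.inj i i' hi hi' ei
  exact tf hli (ns3 hs hij hjk hkl (ne_of d02.symm) (ne_of d03.symm) (ne_of d13.symm)).2

theorem pNOOOO (hs : c.noShort = true) (hin : Inst c G B nm) {v0 v1 v2 v3 v4 : V}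
    (d01 : v0 ≠ v1) (d02 : v0 ≠ v2) (d03 : v0 ≠ v3) (d04 : v0 ≠ v4) (d12 : v1 ≠ v2)
    (d13 : v1 ≠ v3) (d14 : v1 ≠ v4) (d23 : v2 ≠ v3) (d24 : v2 ≠ v4) (d34 : v3 ≠ v4)
    (e0 : Nw c nm v0 v1) (e1 : Ol c G nm v1 v2) (e2 : Ol c G nm v2 v3) (e3 : Ol c G nm v3 v4)
    (e4 : Ol c G nm v4 v0) : False := by
  obtain ⟨i, j, hi, hj, hij, rfl, rfl⟩ := e0
  exact tf (old4 hin hj hi d01.symm e1 e2 e3 e4 d02.symm d13.symm d03.symm d14.symm d24)
    (ns1 hs hij).2

theorem pNNOOO (hs : c.noShort = true) (hin : Inst c G B nm) {v0 v1 v2 v3 v4 : V}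
    (d01 : v0 ≠ v1) (d02 : v0 ≠ v2) (d03 : v0 ≠ v3) (d04 : v0 ≠ v4) (d12 : v1 ≠ v2)
    (d13 : v1 ≠ v3) (d14 : v1 ≠ v4) (d23 : v2 ≠ v3) (d24 : v2 ≠ v4) (d34 : v3 ≠ v4)
    (e0 : Nw c nm v0 v1) (e1 : Nw c nm v1 v2) (e2 : Ol c G nm v2 v3) (e3 : Ol c G nm v3 v4)
    (e4 : Ol c G nm v4 v0) : False := by
  obtain ⟨i, j, hi, hj, hij, rfl, rfl⟩ := e0
  obtain ⟨j', k, hj', hk, hjk, ej, rfl⟩ := e1
  obtain rfl := hin.inj j j' hj hj' ej
  exact tf (old3 hin hk hi d02.symm e2 e3 e4 d03.symm d24.symm)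
    (ns2 hs hij hjk (ne_of d02.symm)).2

theorem pNONOO (hs : c.noShort = true) (hin : Inst c G B nm) {v0 v1 v2 v3 v4 : V}
    (d01 : v0 ≠ v1) (d02 : v0 ≠ v2) (d03 : v0 ≠ v3) (d04 : v0 ≠ v4) (d12 : v1 ≠ v2)
    (d13 : v1 ≠ v3) (d14 : v1 ≠ v4) (d23 : v2 ≠ v3) (d24 : v2 ≠ v4) (d34 : v3 ≠ v4)
    (e0 : Nw c nm v0 v1) (e1 : Ol c G nm v1 v2) (e2 : Nw c nm v2 v3) (e3 : Ol c G nm v3 v4)
    (e4 : Ol c G nm v4 v0) : False := by
  obtain ⟨i, j, hi, hj, hij, rfl, rfl⟩ := e0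
  obtain ⟨k, l, hk, hl, hkl, rfl, rfl⟩ := e2
  exact tf (old2 hin hl hi d03.symm e3 e4) (ns5 hs hij hkl (ne_of d02.symm) (ne_of d12.symm)
    (ne_of d03.symm) (ne_of d13.symm) (old1 hin hj hk d12 e1)).2

theorem pNNNOO (hs : c.noShort = true) (hin : Inst c G B nm) {v0 v1 v2 v3 v4 : V}
    (d01 : v0 ≠ v1) (d02 : v0 ≠ v2) (d03 : v0 ≠ v3) (d04 : v0 ≠ v4) (d12 : v1 ≠ v2)
    (d13 : v1 ≠ v3) (d14 : v1 ≠ v4) (d23 : v2 ≠ v3) (d24 : v2 ≠ v4) (d34 : v3 ≠ v4)
    (e0 : Nw c nm v0 v1) (e1 : Nw c nm v1 v2) (e2 : Nw c nm v2 v3) (e3 : Ol c G nm v3 v4)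
    (e4 : Ol c G nm v4 v0) : False := by
  obtain ⟨i, j, hi, hj, hij, rfl, rfl⟩ := e0
  obtain ⟨j', k, hj', hk, hjk, ej, rfl⟩ := e1
  obtain rfl := hin.inj j j' hj hj' ej
  obtain ⟨k', l, hk', hl, hkl, ek, rfl⟩ := e2
  obtain rfl := hin.inj k k' hk hk' ek
  exact tf (old2 hin hl hi d03.symm e3 e4) (ns3 hs hij hjk hkl (ne_of d02.symm)
    (ne_of d03.symm) (ne_of d13.symm)).1.2

theorem pNNONO (hs : c.noShort = true) (hin : Inst c G B nm) {v0 v1 v2 v3 v4 : V}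
    (d01 : v0 ≠ v1) (d02 : v0 ≠ v2) (d03 : v0 ≠ v3) (d04 : v0 ≠ v4) (d12 : v1 ≠ v2)
    (d13 : v1 ≠ v3) (d14 : v1 ≠ v4) (d23 : v2 ≠ v3) (d24 : v2 ≠ v4) (d34 : v3 ≠ v4)
    (e0 : Nw c nm v0 v1) (e1 : Nw c nm v1 v2) (e2 : Ol c G nm v2 v3) (e3 : Nw c nm v3 v4)
    (e4 : Ol c G nm v4 v0) : False := by
  obtain ⟨i, j, hi, hj, hij, rfl, rfl⟩ := e0
  obtain ⟨j', k, hj', hk, hjk, ej, rfl⟩ := e1
  obtain rfl := hin.inj j j' hj hj' ej
  obtain ⟨l, m, hl, hm, hlm, rfl, rfl⟩ := e3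
  exact tf (old1 hin hm hi d04.symm e4) (ns7 hs hij hjk hlm (ne_of d02.symm) (ne_of d03.symm)
    (ne_of d13.symm) (ne_of d23.symm) (ne_of d04.symm) (ne_of d14.symm) (ne_of d24.symm)
    (old1 hin hk hl d23 e2))

theorem pNNNNO (hs : c.noShort = true) (hin : Inst c G B nm) {v0 v1 v2 v3 v4 : V}
    (d01 : v0 ≠ v1) (d02 : v0 ≠ v2) (d03 : v0 ≠ v3) (d04 : v0 ≠ v4) (d12 : v1 ≠ v2)
    (d13 : v1 ≠ v3) (d14 : v1 ≠ v4) (d23 : v2 ≠ v3) (d24 : v2 ≠ v4) (d34 : v3 ≠ v4)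
    (e0 : Nw c nm v0 v1) (e1 : Nw c nm v1 v2) (e2 : Nw c nm v2 v3) (e3 : Nw c nm v3 v4)
    (e4 : Ol c G nm v4 v0) : False := by
  obtain ⟨i, j, hi, hj, hij, rfl, rfl⟩ := e0
  obtain ⟨j', k, hj', hk, hjk, ej, rfl⟩ := e1
  obtain rfl := hin.inj j j' hj hj' ej
  obtain ⟨k', l, hk', hl, hkl, ek, rfl⟩ := e2
  obtain rfl := hin.inj k k' hk hk' ek
  obtain ⟨l', m, hl', hm, hlm, el, rfl⟩ := e3
  obtain rfl := hin.inj l l' hl hl' el
  exact tf (old1 hin hm hi d04.symm e4) (ns4 hs hij hjk hkl hlm (ne_of d02.symm)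
    (ne_of d03.symm) (ne_of d13.symm) (ne_of d04.symm) (ne_of d14.symm) (ne_of d24.symm)).1

theorem pNNNNN (hs : c.noShort = true) (hin : Inst c G B nm) {v0 v1 v2 v3 v4 : V}
    (d01 : v0 ≠ v1) (d02 : v0 ≠ v2) (d03 : v0 ≠ v3) (d04 : v0 ≠ v4) (d12 : v1 ≠ v2)
    (d13 : v1 ≠ v3) (d14 : v1 ≠ v4) (d23 : v2 ≠ v3) (d24 : v2 ≠ v4) (d34 : v3 ≠ v4)
    (e0 : Nw c nm v0 v1) (e1 : Nw c nm v1 v2) (e2 : Nw c nm v2 v3) (e3 : Nw c nm v3 v4)
    (e4 : Nw c nm v4 v0) : False := by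
  obtain ⟨i, j, hi, hj, hij, rfl, rfl⟩ := e0
  obtain ⟨j', k, hj', hk, hjk, ej, rfl⟩ := e1
  obtain rfl := hin.inj j j' hj hj' ej
  obtain ⟨k', l, hk', hl, hkl, ek, rfl⟩ := e2
  obtain rfl := hin.inj k k' hk hk' ek
  obtain ⟨l', m, hl', hm, hlm, el, rfl⟩ := e3
  obtain rfl := hin.inj l l' hl hl' el
  obtain ⟨m', i', hm', hi', hmi, em, ei⟩ := e4
  obtain rfl := hin.inj m m' hm hm' em
  obtain rfl := hin.inj i i' hi hi' ei
  exact tf hmi (ns4 hs hij hjk hkl hlm (ne_of d02.symm)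
    (ne_of d03.symm) (ne_of d13.symm) (ne_of d04.symm) (ne_of d14.symm) (ne_of d24.symm)).2

theorem ns_of (hadm : c.adm par = true) : c.noShort = true := by
  unfold Cfg.adm at hadm
  simp only [Bool.and_eq_true] at hadm
  exact hadm.1.1.1.1.1.1.1.1.1

end CfgAAux

open CfgAAux

theorem red_noC4 (hadm : c.adm par = true) (h : MinCE G B) (hin : Inst c G B nm) :
    NoC4 (red c G nm) := by
  intro a b x y d02 d13 e0 e1 e2 e3
  have hs := ns_of hadm
  obtain ⟨d01, e0⟩ := red_cases e0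
  obtain ⟨d12, e1⟩ := red_cases e1
  obtain ⟨d23, e2⟩ := red_cases e2
  obtain ⟨d30, e3⟩ := red_cases e3
  have d03 := d30.symm
  rcases e0 with e0 | e0
  · rcases e1 with e1 | e1
    · rcases e2 with e2 | e2
      · rcases e3 with e3 | e3
        · exact h.good.c4 a b x y d02 d13 e0.2.2 e1.2.2 e2.2.2 e3.2.2
        · exact pNOOO hs hin d03 d02 d01 d23.symm d13.symm d12.symm (nw_symm e3) (ol_symm e2)
            (ol_symm e1) (ol_symm e0)
      · rcases e3 with e3 | e3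
        · exact pNOOO hs hin d23 d02.symm d12.symm d03.symm d13.symm d01 e2 e3 e0 e1
        · exact pNNOO hs hin d03 d02 d01 d23.symm d13.symm d12.symm (nw_symm e3) (nw_symm e2)
            (ol_symm e1) (ol_symm e0)
    · rcases e2 with e2 | e2
      · rcases e3 with e3 | e3
        · exact pNOOO hs hin d12 d13 d01.symm d23 d02.symm d03.symm e1 e2 e3 e0
        · exact pNONO hs hin d03 d02 d01 d23.symm d13.symm d12.symm (nw_symm e3) (ol_symm e2)
            (nw_symm e1) (ol_symm e0)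
      · rcases e3 with e3 | e3
        · exact pNNOO hs hin d12 d13 d01.symm d23 d02.symm d03.symm e1 e2 e3 e0
        · exact pNNNO hs hin d03 d02 d01 d23.symm d13.symm d12.symm (nw_symm e3) (nw_symm e2)
            (nw_symm e1) (ol_symm e0)
  · rcases e1 with e1 | e1
    · rcases e2 with e2 | e2
      · rcases e3 with e3 | e3
        · exact pNOOO hs hin d01 d02 d03 d12 d13 d23 e0 e1 e2 e3
        · exact pNNOO hs hin d01.symm d13 d12 d03 d02 d23.symm (nw_symm e0) (nw_symm e3)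
            (ol_symm e2) (ol_symm e1)
      · rcases e3 with e3 | e3
        · exact pNONO hs hin d01 d02 d03 d12 d13 d23 e0 e1 e2 e3
        · exact pNNNO hs hin d01.symm d13 d12 d03 d02 d23.symm (nw_symm e0) (nw_symm e3)
            (nw_symm e2) (ol_symm e1)
    · rcases e2 with e2 | e2
      · rcases e3 with e3 | e3
        · exact pNNOO hs hin d01 d02 d03 d12 d13 d23 e0 e1 e2 e3
        · exact pNNNO hs hin d12.symm d02.symm d23 d01.symm d13 d03 (nw_symm e1) (nw_symm e0)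
            (nw_symm e3) (ol_symm e2)
      · rcases e3 with e3 | e3
        · exact pNNNO hs hin d01 d02 d03 d12 d13 d23 e0 e1 e2 e3
        · exact pNNNN hs hin d01 d02 d03 d12 d13 d23 e0 e1 e2 e3

theorem red_noC5 (hadm : c.adm par = true) (h : MinCE G B) (hin : Inst c G B nm) :
    NoC5 (red c G nm) := by
  intro a b x y z d02 d03 d13 d14 d24 e0 e1 e2 e3 e4
  have hs := ns_of hadm
  obtain ⟨d01, e0⟩ := red_cases e0
  obtain ⟨d12, e1⟩ := red_cases e1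
  obtain ⟨d23, e2⟩ := red_cases e2
  obtain ⟨d34, e3⟩ := red_cases e3
  obtain ⟨d40, e4⟩ := red_cases e4
  have d04 := d40.symm
  rcases e0 with e0 | e0
  · rcases e1 with e1 | e1
    · rcases e2 with e2 | e2
      · rcases e3 with e3 | e3
        · rcases e4 with e4 | e4
          · exact h.good.c5 a b x y z d02 d03 d13 d14 d24 e0.2.2 e1.2.2 e2.2.2 e3.2.2 e4.2.2
          · exact pNOOOO hs hin d04 d03 d02 d01 d34.symm d24.symm d14.symm d23.symm d13.symm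
              d12.symm (nw_symm e4) (ol_symm e3) (ol_symm e2) (ol_symm e1) (ol_symm e0)
        · rcases e4 with e4 | e4
          · exact pNOOOO hs hin d34 d03.symm d13.symm d23.symm d04.symm d14.symm d24.symm d01 d02
              d12 e3 e4 e0 e1 e2
          · exact pNNOOO hs hin d04 d03 d02 d01 d34.symm d24.symm d14.symm d23.symm d13.symm
              d12.symm (nw_symm e4) (nw_symm e3) (ol_symm e2) (ol_symm e1) (ol_symm e0)
      · rcases e3 with e3 | e3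
        · rcases e4 with e4 | e4
          · exact pNOOOO hs hin d23 d24 d02.symm d12.symm d34 d03.symm d13.symm d04.symm d14.symm
              d01 e2 e3 e4 e0 e1
          · exact pNONOO hs hin d04 d03 d02 d01 d34.symm d24.symm d14.symm d23.symm d13.symm
              d12.symm (nw_symm e4) (ol_symm e3) (nw_symm e2) (ol_symm e1) (ol_symm e0)
        · rcases e4 with e4 | e4
          · exact pNNOOO hs hin d23 d24 d02.symm d12.symm d34 d03.symm d13.symm d04.symm d14.symm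
              d01 e2 e3 e4 e0 e1
          · exact pNNNOO hs hin d04 d03 d02 d01 d34.symm d24.symm d14.symm d23.symm d13.symm
              d12.symm (nw_symm e4) (nw_symm e3) (nw_symm e2) (ol_symm e1) (ol_symm e0)
    · rcases e2 with e2 | e2
      · rcases e3 with e3 | e3
        · rcases e4 with e4 | e4
          · exact pNOOOO hs hin d12 d13 d14 d01.symm d23 d24 d02.symm d34 d03.symm d04.symm e1 e2
              e3 e4 e0
          · exact pNONOO hs hin d12.symm d02.symm d24 d23 d01.symm d14 d13 d04 d03 d34.symm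
              (nw_symm e1) (ol_symm e0) (nw_symm e4) (ol_symm e3) (ol_symm e2)
        · rcases e4 with e4 | e4
          · exact pNONOO hs hin d12 d13 d14 d01.symm d23 d24 d02.symm d34 d03.symm d04.symm e1 e2
              e3 e4 e0
          · exact pNNONO hs hin d04 d03 d02 d01 d34.symm d24.symm d14.symm d23.symm d13.symm
              d12.symm (nw_symm e4) (nw_symm e3) (ol_symm e2) (nw_symm e1) (ol_symm e0)
      · rcases e3 with e3 | e3
        · rcases e4 with e4 | e4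
          · exact pNNOOO hs hin d12 d13 d14 d01.symm d23 d24 d02.symm d34 d03.symm d04.symm e1 e2
              e3 e4 e0
          · exact pNNONO hs hin d12 d13 d14 d01.symm d23 d24 d02.symm d34 d03.symm d04.symm e1 e2
              e3 e4 e0
        · rcases e4 with e4 | e4
          · exact pNNNOO hs hin d12 d13 d14 d01.symm d23 d24 d02.symm d34 d03.symm d04.symm e1 e2
              e3 e4 e0
          · exact pNNNNO hs hin d04 d03 d02 d01 d34.symm d24.symm d14.symm d23.symm d13.symm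
              d12.symm (nw_symm e4) (nw_symm e3) (nw_symm e2) (nw_symm e1) (ol_symm e0)
  · rcases e1 with e1 | e1
    · rcases e2 with e2 | e2
      · rcases e3 with e3 | e3
        · rcases e4 with e4 | e4
          · exact pNOOOO hs hin d01 d02 d03 d04 d12 d13 d14 d23 d24 d34 e0 e1 e2 e3 e4
          · exact pNNOOO hs hin d01.symm d14 d13 d12 d04 d03 d02 d34.symm d24.symm d23.symm
              (nw_symm e0) (nw_symm e4) (ol_symm e3) (ol_symm e2) (ol_symm e1)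
        · rcases e4 with e4 | e4
          · exact pNONOO hs hin d01.symm d14 d13 d12 d04 d03 d02 d34.symm d24.symm d23.symm
              (nw_symm e0) (ol_symm e4) (nw_symm e3) (ol_symm e2) (ol_symm e1)
          · exact pNNNOO hs hin d01.symm d14 d13 d12 d04 d03 d02 d34.symm d24.symm d23.symm
              (nw_symm e0) (nw_symm e4) (nw_symm e3) (ol_symm e2) (ol_symm e1)
      · rcases e3 with e3 | e3
        · rcases e4 with e4 | e4
          · exact pNONOO hs hin d01 d02 d03 d04 d12 d13 d14 d23 d24 d34 e0 e1 e2 e3 e4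
          · exact pNNONO hs hin d01.symm d14 d13 d12 d04 d03 d02 d34.symm d24.symm d23.symm
              (nw_symm e0) (nw_symm e4) (ol_symm e3) (nw_symm e2) (ol_symm e1)
        · rcases e4 with e4 | e4
          · exact pNNONO hs hin d23 d24 d02.symm d12.symm d34 d03.symm d13.symm d04.symm d14.symm
              d01 e2 e3 e4 e0 e1
          · exact pNNNNO hs hin d01.symm d14 d13 d12 d04 d03 d02 d34.symm d24.symm d23.symm
              (nw_symm e0) (nw_symm e4) (nw_symm e3) (nw_symm e2) (ol_symm e1)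
    · rcases e2 with e2 | e2
      · rcases e3 with e3 | e3
        · rcases e4 with e4 | e4
          · exact pNNOOO hs hin d01 d02 d03 d04 d12 d13 d14 d23 d24 d34 e0 e1 e2 e3 e4
          · exact pNNNOO hs hin d12.symm d02.symm d24 d23 d01.symm d14 d13 d04 d03 d34.symm
              (nw_symm e1) (nw_symm e0) (nw_symm e4) (ol_symm e3) (ol_symm e2)
        · rcases e4 with e4 | e4
          · exact pNNONO hs hin d01 d02 d03 d04 d12 d13 d14 d23 d24 d34 e0 e1 e2 e3 e4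
          · exact pNNNNO hs hin d12.symm d02.symm d24 d23 d01.symm d14 d13 d04 d03 d34.symm
              (nw_symm e1) (nw_symm e0) (nw_symm e4) (nw_symm e3) (ol_symm e2)
      · rcases e3 with e3 | e3
        · rcases e4 with e4 | e4
          · exact pNNNOO hs hin d01 d02 d03 d04 d12 d13 d14 d23 d24 d34 e0 e1 e2 e3 e4
          · exact pNNNNO hs hin d23.symm d13.symm d03.symm d34 d12.symm d02.symm d24 d01.symm d14
              d04 (nw_symm e2) (nw_symm e1) (nw_symm e0) (nw_symm e4) (ol_symm e3)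
        · rcases e4 with e4 | e4
          · exact pNNNNO hs hin d01 d02 d03 d04 d12 d13 d14 d23 d24 d34 e0 e1 e2 e3 e4
          · exact pNNNNN hs hin d01 d02 d03 d04 d12 d13 d14 d23 d24 d34 e0 e1 e2 e3 e4

end Pool.Agent.Lib.SVX
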