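import Pool.Agent.Lib.SVX.Defs

/-!
# SVX.Minor: MacLane's property passes to minors

`π : V → V` contracts; every edge of `S'` is the image of an edge of `S`, and two vertices with the
same image which is an end of an edge of `S'` are joined by a path of edges of `S` inside the fibre.
Plan.  Choose representatives `r e' ∈ S` of the edges `e' ∈ S'` and for every fibre a set of
connecting edges; delete the other edges (`ML.mono`).  The new family: for a member `F` the set
`{e' ∈ S' | r e' ∈ F}`.  It is even because the edges inside a fibre contribute an even number to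
the sum of the degrees over the fibre; each edge is covered at most twice; dual property: put
`c = 0` on the edges inside the fibres, `c (r e') = c' e'`; the potential `y` is constant on the
fibres.
-/

set_option autoImplicit false
set_option linter.unusedSectionVars false

namespace Pool.Agent.Lib.SVX

open Finset Pool.Agent.Lib.SVT

variable {V : Type*} [Fintype V] [DecidableEq V]

namespace MinorAux

/-- the sum over a set `F ⊆ S₀` of a function which vanishes on the edges inside the fibres -/
lemma sum_rep {S' F : Finset (Sym2 V)} {π : V → V} {r : Sym2 V → Sym2 V}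
    (hr : ∀ e' ∈ S', Sym2.map π (r e') = e')
    (g : Sym2 V → ZMod 2)
    (hF : ∀ e ∈ F, g e ≠ 0 → ∃ e' ∈ S', r e' = e) :
    ∑ e ∈ F, g e = ∑ e' ∈ S'.filter (fun e' => r e' ∈ F), g (r e') := by
  classical
  symm
  refine Finset.sum_bij_ne_zero (fun e' _ _ => r e') ?_ ?_ ?_ ?_
  · intro e' he' _
    exact (Finset.mem_filter.1 he').2
  · intro a ha _ b hb _ hab
    have h1 := hr a (Finset.mem_filter.1 ha).1
    have h2 := hr b (Finset.mem_filter.1 hb).1
    rw [← h1, ← h2, hab]
  · intro e he hne
    obtain ⟨e', he', rfl⟩ := hF e he hne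
    exact ⟨e', Finset.mem_filter.2 ⟨he', he⟩, hne, rfl⟩
  · intro e' _ _
    rfl

/-- the number of ends of `e` in the fibre of `v'` -/
lemma fib_sum {π : V → V} (v' : V) {e : Sym2 V} (he : ¬ e.IsDiag) :
    ∑ v ∈ univ.filter (fun v => π v = v'), (if v ∈ e then (1 : ZMod 2) else 0) =
      if (Sym2.map π e).IsDiag then 0 else if v' ∈ Sym2.map π e then 1 else 0 := by
  classical
  induction e using Sym2.ind with
  | _ a b =>
    rw [Sym2.mk_isDiag_iff] at he
    have h1 : ∀ v : V, (if v ∈ s(a, b) then (1 : ZMod 2) else 0) =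
        (if v = a then 1 else 0) + (if v = b then 1 else 0) := by
      intro v
      simp only [Sym2.mem_iff]
      by_cases h3 : v = a
      · subst h3
        simp [he]
      · by_cases h4 : v = b
        · subst h4
          simp [h3]
        · simp [h3, h4]
    have h2 : ∀ x : V, ∑ v ∈ univ.filter (fun v => π v = v'), (if v = x then (1 : ZMod 2) else 0) =
        if π x = v' then 1 else 0 := by
      intro x
      rw [Finset.sum_ite_eq']
      simp
    rw [Finset.sum_congr rfl fun v _ => h1 v, Finset.sum_add_distrib, h2, h2, Sym2.map_mk]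
    simp only [Sym2.mem_iff, Sym2.mk_isDiag_iff]
    by_cases h3 : π a = π b
    · rw [if_pos h3, h3]
      exact CharTwo.add_self_eq_zero _
    · rw [if_neg h3]
      by_cases h4 : π a = v'
      · subst h4
        have h5 : ¬ π b = π a := fun h => h3 h.symm
        simp [h5]
      · by_cases h5 : π b = v'
        · subst h5
          simp [h4]
        · have h6 : ¬ (v' = π a ∨ v' = π b) := by
            rintro (h | h)
            · exact h4 h.symm
            · exact h5 h.symm
          rw [if_neg h4, if_neg h5, if_neg h6, add_zero]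

end MinorAux

open MinorAux

theorem ML_minor {S S' : Finset (Sym2 V)} (h : ML S) (π : V → V)
    (hS' : ∀ e' ∈ S', ¬ e'.IsDiag)
    (himg : ∀ e' ∈ S', ∃ e ∈ S, Sym2.map π e = e')
    (hconn : ∀ a b : V, π a = π b → (∃ e' ∈ S', π a ∈ e') →
      Relation.ReflTransGen (fun x y => s(x, y) ∈ S ∧ π x = π a ∧ π y = π a) a b) :
    ML S' := by
  classical
  -- representatives
  have himg' : ∀ e' : Sym2 V, ∃ e : Sym2 V, e' ∈ S' → e ∈ S ∧ Sym2.map π e = e' := by
    intro e'
    by_cases he : e' ∈ S'
    · obtain ⟨e, h1, h2⟩ := himg e' he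
      exact ⟨e, fun _ => ⟨h1, h2⟩⟩
    · exact ⟨e', fun h => absurd h he⟩
  choose r hr0 using himg'
  have hrS : ∀ e' ∈ S', r e' ∈ S := fun e' he => (hr0 e' he).1
  have hr : ∀ e' ∈ S', Sym2.map π (r e') = e' := fun e' he => (hr0 e' he).2
  have hrd : ∀ e' ∈ S', ¬ (r e').IsDiag := by
    intro e' he hd
    apply hS' e' he
    rw [← hr e' he]
    generalize r e' = e at hd
    induction e using Sym2.ind with
    | _ a b =>
      rw [Sym2.mk_isDiag_iff] at hd
      rw [Sym2.map_mk, Sym2.mk_isDiag_iff, hd]
  let S₀ : Finset (Sym2 V) := S.filter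
    (fun e => ¬ e.IsDiag ∧ ((Sym2.map π e).IsDiag ∨ ∃ e' ∈ S', r e' = e))
  have hS₀ : S₀ ⊆ S := Finset.filter_subset _ _
  obtain ⟨𝓕, h1, h2, h3⟩ := h.mono hS₀
  have hmem₀ : ∀ e, e ∈ S₀ ↔ e ∈ S ∧ ¬ e.IsDiag ∧ ((Sym2.map π e).IsDiag ∨ ∃ e' ∈ S', r e' = e) :=
    fun e => Finset.mem_filter
  refine ⟨𝓕.image (fun F => S'.filter (fun e' => r e' ∈ F)), ?_, ?_, ?_⟩
  · intro F' hF'
    obtain ⟨F, hF, rfl⟩ := Finset.mem_image.1 hF'
    refine ⟨Finset.filter_subset _ _, ?_⟩
    rw [ev_iff]
    intro v'
    have hev := ev_iff.1 (h1 F hF).2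
    have hsum : ∑ v ∈ univ.filter (fun v => π v = v'),
        ∑ e ∈ F, (if v ∈ e then (1 : ZMod 2) else 0) = 0 :=
      Finset.sum_eq_zero fun v _ => hev v
    rw [Finset.sum_comm] at hsum
    have h4 : ∀ e ∈ F, ∑ v ∈ univ.filter (fun v => π v = v'), (if v ∈ e then (1 : ZMod 2) else 0) =
        if (Sym2.map π e).IsDiag then 0 else if v' ∈ Sym2.map π e then 1 else 0 :=
      fun e he => fib_sum v' ((hmem₀ e).1 ((h1 F hF).1 he)).2.1
    rw [Finset.sum_congr rfl h4, sum_rep (S' := S') (π := π) (r := r) hr] at hsum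
    · refine Eq.trans (Finset.sum_congr rfl fun e' he' => ?_) hsum
      have he'' := (Finset.mem_filter.1 he').1
      rw [hr e' he'', if_neg (hS' e' he'')]
    · intro e he hne
      rcases ((hmem₀ e).1 ((h1 F hF).1 he)).2.2 with h5 | h5
      · exact absurd (if_pos h5) hne
      · exact h5
  · intro e'
    refine le_trans ?_ (h2 (r e'))
    refine le_trans (Finset.card_le_card (t := (𝓕.filter (fun F => r e' ∈ F)).image
      (fun F => S'.filter (fun e' => r e' ∈ F))) ?_) Finset.card_image_le
    intro F' hF'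
    obtain ⟨hF'1, hF'2⟩ := Finset.mem_filter.1 hF'
    obtain ⟨F, hF, rfl⟩ := Finset.mem_image.1 hF'1
    exact Finset.mem_image.2 ⟨F, Finset.mem_filter.2 ⟨hF, (Finset.mem_filter.1 hF'2).2⟩, rfl⟩
  · intro c' hc'
    obtain ⟨y, hy⟩ := h3 (fun e => if (Sym2.map π e).IsDiag then 0 else c' (Sym2.map π e)) (by
      intro F hF
      rw [sum_rep (S' := S') (π := π) (r := r) hr]
      · rw [← hc' _ (Finset.mem_image_of_mem _ hF)]
        refine Finset.sum_congr rfl fun e' he' => ?_
        have he'' := (Finset.mem_filter.1 he').1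
        rw [hr e' he'', if_neg (hS' e' he'')]
      · intro e he hne
        rcases ((hmem₀ e).1 ((h1 F hF).1 he)).2.2 with h5 | h5
        · exact absurd (if_pos h5) hne
        · exact h5)
    have hyc : ∀ a b : V, π a = π b → (∃ e' ∈ S', π a ∈ e') → y a = y b := by
      intro a b hab hex
      have hcn := hconn a b hab hex
      clear hab
      induction hcn with
      | refl => rfl
      | @tail x z _ hstep ih =>
        rw [ih]
        obtain ⟨hs, hx, hz⟩ := hstep
        by_cases hxz : x = z
        · rw [hxz]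
        · have hd : (Sym2.map π s(x, z)).IsDiag := by
            rw [Sym2.map_mk, Sym2.mk_isDiag_iff, hx, hz]
          have h5 := hy x z ((hmem₀ _).2 ⟨hs, by rw [Sym2.mk_isDiag_iff]; exact hxz, Or.inl hd⟩)
          rw [if_pos hd] at h5
          have h6 : y x + y z + y z = y z := by rw [← h5, zero_add]
          rwa [add_assoc, CharTwo.add_self_eq_zero, add_zero] at h6
    let y' : V → ZMod 2 := fun v' => if hv : ∃ a, π a = v' then y hv.choose else 0
    have hy' : ∀ a : V, (∃ e' ∈ S', π a ∈ e') → y' (π a) = y a := by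
      intro a hex
      have hv : ∃ x, π x = π a := ⟨a, rfl⟩
      have h5 : y' (π a) = y hv.choose := dif_pos hv
      rw [h5]
      exact (hyc a hv.choose hv.choose_spec.symm hex).symm
    refine ⟨y', fun a' b' hab => ?_⟩
    have hre := hr _ hab
    have hrS' := hrS _ hab
    have hrd' := hrd _ hab
    have hdg := hS' _ hab
    obtain ⟨e, he⟩ : ∃ e, r s(a', b') = e := ⟨_, rfl⟩
    have hrep : ∃ e' ∈ S', r e' = e := ⟨_, hab, he⟩
    rw [he] at hre hrS' hrd'
    induction e using Sym2.ind with
    | _ a b =>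
      have h5 := hy a b ((hmem₀ _).2 ⟨hrS', hrd', Or.inr hrep⟩)
      rw [hre, if_neg hdg] at h5
      rw [h5]
      rw [Sym2.map_mk] at hre
      rw [Sym2.eq_iff] at hre
      rcases hre with ⟨h6, h7⟩ | ⟨h6, h7⟩
      · rw [← h6, ← h7, hy' a ⟨_, hab, by rw [h6]; exact Sym2.mem_mk_left _ _⟩,
          hy' b ⟨_, hab, by rw [h7]; exact Sym2.mem_mk_right _ _⟩]
      · rw [← h6, ← h7, hy' a ⟨_, hab, by rw [h6]; exact Sym2.mem_mk_right _ _⟩,
          hy' b ⟨_, hab, by rw [h7]; exact Sym2.mem_mk_left _ _⟩, add_comm]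

end Pool.Agent.Lib.SVX
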