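import Pool.Agent.Lib.SVX.Adm
import Pool.Agent.Lib.SVX.Minor

/-!
# SVX.CfgB: the reduced graph has MacLane's property

Plan.  `ML_minor` with `S = edg G univ`, `S' = edg (red c G nm) univ` and
`π a = nm (c.pi' i)` if `a = nm i` with `i < c.N`, `π a = a` otherwise (the `i` is unique by
`Inst.inj`).  Old edges are their own representatives (`pi'` is the identity on terminals; a vertex
that is not `nm r` for a core `r` is fixed by `π`).  New edges: the last clause of `minorOK`.
Connectivity of the fibres: the parents `par` lead inside the fibre along edges of `G` to the root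
(`up par c.nc r = c.pi r`); roots are fixed by `par`.
-/

set_option autoImplicit false
set_option linter.unusedSectionVars false

namespace Pool.Agent.Lib.SVX

open Finset Pool.Agent.Lib.SVT

variable {V : Type*} [Fintype V] [DecidableEq V] {G : SimpleGraph V} {B : Finset V}
variable {c : Cfg} {nm : ℕ → V} {par : ℕ → ℕ}

namespace CfgBAux

theorem pi'_of_ge {i : ℕ} (h : c.nc ≤ i) : c.pi' i = i := by
  unfold Cfg.pi'
  rw [if_neg (by omega)]

/-- the facts of the check that are used here -/
theorem facts (hadm : c.adm par = true) :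
    (∀ r, r < c.nc → c.pi r = r ∨ (c.adjE r (par r) = true ∧ c.pi' (par r) = c.pi r ∧
      Cfg.up par c.nc r = c.pi r)) ∧
    (∀ r, r < c.nc → c.pi r = r → par r = r) ∧
    (∀ i, i < c.N → i < c.nc ∨ par i = i) ∧
    (∀ e ∈ c.NE, ∃ f ∈ c.E ++ c.Bs, (c.pi' f.1 = e.1 ∧ c.pi' f.2 = e.2) ∨
      (c.pi' f.1 = e.2 ∧ c.pi' f.2 = e.1)) ∧
    (∀ e ∈ c.E ++ c.Bs, e.1 < c.N ∧ e.2 < c.N) ∧
    (∀ r, r < c.nc → c.pi r < c.N) := by
  unfold Cfg.adm at hadm
  simp only [Bool.and_eq_true] at hadm
  obtain ⟨⟨⟨⟨⟨⟨⟨⟨⟨-, hmin⟩, -⟩, -⟩, hE⟩, hBs⟩, -⟩, -⟩, -⟩, hpi⟩ := hadm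
  unfold Cfg.minorOK at hmin
  simp only [Bool.and_eq_true] at hmin
  obtain ⟨⟨⟨hA, hB⟩, hC⟩, hD⟩ := hmin
  rw [List.all_eq_true] at hA hB hC hD hE hBs hpi
  refine ⟨?_, ?_, ?_, ?_, ?_, ?_⟩
  · intro r hr
    have h := hA r (List.mem_range.2 hr)
    simp only [Bool.or_eq_true, Bool.and_eq_true, beq_iff_eq, decide_eq_true_eq] at h
    rcases h with h | ⟨⟨⟨-, h1⟩, h2⟩, h3⟩
    · exact Or.inl h
    · exact Or.inr ⟨h1, h2, h3⟩
  · intro r hr hpr
    have h := hB r (List.mem_range.2 hr)
    simp only [Bool.or_eq_true, Bool.not_eq_true', decide_eq_false_iff_not,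
      decide_eq_true_eq] at h
    rcases h with h | h
    · exact absurd hpr h
    · exact h
  · intro i hi
    have h := hC i (List.mem_range.2 hi)
    simpa only [Bool.or_eq_true, decide_eq_true_eq] using h
  · intro e he
    have h := hD e he
    rw [List.any_eq_true] at h
    obtain ⟨f, hf, h⟩ := h
    refine ⟨f, hf, ?_⟩
    simpa only [Bool.or_eq_true, Bool.and_eq_true, beq_iff_eq] using h
  · intro e he
    rcases List.mem_append.1 he with he | he
    · have h := hE e he
      simp only [Bool.and_eq_true, decide_eq_true_eq] at h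
      exact ⟨h.1.1.2, h.1.2⟩
    · have h := hBs e he
      unfold Cfg.isT at h
      simp only [Bool.and_eq_true, decide_eq_true_eq] at h
      exact ⟨h.1.2.2, h.2.2⟩
  · intro r hr
    have h := hpi r (List.mem_range.2 hr)
    simpa only [decide_eq_true_eq] using h

theorem adjE_of_mem {e : ℕ × ℕ} (he : e ∈ c.E ++ c.Bs) : c.adjE e.1 e.2 = true := by
  unfold Cfg.adjE
  rcases List.mem_append.1 he with he | he
  · simp [he]
  · simp [he]

theorem mem_of_adjE {i j : ℕ} (h : c.adjE i j = true) :
    (i, j) ∈ c.E ++ c.Bs ∨ (j, i) ∈ c.E ++ c.Bs := by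
  unfold Cfg.adjE at h
  simp only [Bool.or_eq_true, List.contains_iff_mem] at h
  rw [List.mem_append, List.mem_append]
  tauto

end CfgBAux

open CfgBAux

theorem red_ml (hadm : c.adm par = true) (h : MinCE G B) (hin : Inst c G B nm) :
    ML (edg (red c G nm) univ) := by
  classical
  obtain ⟨fA, fB, fC, fD, fE, fP⟩ := facts hadm
  let π : V → V := fun a => if h : ∃ i, i < c.N ∧ nm i = a then nm (c.pi' h.choose) else a
  have hπ : ∀ i, i < c.N → π (nm i) = nm (c.pi' i) := by
    intro i hi
    have hex : ∃ k, k < c.N ∧ nm k = nm i := ⟨i, hi, rfl⟩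
    have h1 : π (nm i) = nm (c.pi' hex.choose) := dif_pos hex
    have h2 : hex.choose = i := hin.inj _ _ hex.choose_spec.1 hi hex.choose_spec.2
    rw [h1, h2]
  have hπn : ∀ a, (¬ ∃ i, i < c.N ∧ nm i = a) → π a = a := fun a ha => dif_neg ha
  have hπc : ∀ a, (∀ r, r < c.nc → a ≠ nm r) → π a = a := by
    intro a ha
    by_cases hex : ∃ i, i < c.N ∧ nm i = a
    · obtain ⟨i, hi, rfl⟩ := hex
      have hge : c.nc ≤ i := by
        by_contra hlt
        exact ha i (by omega) rfl
      rw [hπ i hi, pi'_of_ge hge]
    · exact hπn a hex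
  -- the step relation
  have hpath : ∀ (w : V) (n i : ℕ), i < c.N → π (nm i) = w →
      Relation.ReflTransGen (fun x y => s(x, y) ∈ edg G univ ∧ π x = w ∧ π y = w)
        (nm i) (nm (Cfg.up par n i)) := by
    intro w n
    induction n with
    | zero => intro i hi hw; exact Relation.ReflTransGen.refl
    | succ n ih =>
      intro i hi hw
      show Relation.ReflTransGen _ (nm i) (nm (Cfg.up par n (par i)))
      by_cases hpar : par i = i
      · rw [hpar]
        exact ih i hi hw
      · have hlt : i < c.nc := by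
          rcases fC i hi with h1 | h1
          · exact h1
          · exact absurd h1 hpar
        have hroot : c.pi i ≠ i := fun h1 => hpar (fB i hlt h1)
        obtain ⟨h1, h2, h3⟩ := (fA i hlt).resolve_left hroot
        have hpN : par i < c.N := by
          rcases mem_of_adjE h1 with h4 | h4
          · exact (fE _ h4).2
          · exact (fE _ h4).1
        have hadj := hin.edge i (par i) hi hpN h1
        have hw2 : π (nm (par i)) = w := by
          rw [hπ _ hpN, h2, ← hw, hπ i hi]
          unfold Cfg.pi'
          rw [if_pos hlt]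
        refine Relation.ReflTransGen.head ⟨?_, hw, hw2⟩ (ih (par i) hpN hw2)
        rw [mem_edg']
        exact ⟨hadj, mem_univ _, mem_univ _⟩
  have hroot : ∀ a, Relation.ReflTransGen
      (fun x y => s(x, y) ∈ edg G univ ∧ π x = π a ∧ π y = π a) a (π a) := by
    intro a
    by_cases hex : ∃ i, i < c.N ∧ nm i = a
    · obtain ⟨i, hi, rfl⟩ := hex
      have h1 := hpath (π (nm i)) c.nc i hi rfl
      have h2 : nm (Cfg.up par c.nc i) = π (nm i) := by
        rw [hπ i hi]
        by_cases hlt : i < c.nc
        · have e1 : c.pi' i = c.pi i := by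
            unfold Cfg.pi'
            rw [if_pos hlt]
          rw [e1]
          rcases fA i hlt with h3 | ⟨-, -, h3⟩
          · have h4 := fB i hlt h3
            have h5 : ∀ n, Cfg.up par n i = i := by
              intro n
              induction n with
              | zero => rfl
              | succ n ih =>
                show Cfg.up par n (par i) = i
                rw [h4]
                exact ih
            rw [h5, h3]
          · rw [h3]
        · have e1 : c.pi' i = i := pi'_of_ge (by omega)
          have h4 := (fC i hi).resolve_left hlt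
          have h5 : ∀ n, Cfg.up par n i = i := by
            intro n
            induction n with
            | zero => rfl
            | succ n ih =>
              show Cfg.up par n (par i) = i
              rw [h4]
              exact ih
          rw [e1, h5]
      rw [h2] at h1
      exact h1
    · have h1 : π a = a := hπn a hex
      rw [h1]
  refine ML_minor h.good.ml π ?_ ?_ ?_
  · intro e' he'
    exact SimpleGraph.not_isDiag_of_mem_edgeSet _ (mem_edg.1 he').1
  · intro e' he'
    induction e' using Sym2.ind with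
    | _ a b =>
      obtain ⟨hadj, -, -⟩ := mem_edg'.1 he'
      obtain ⟨hab, h1 | ⟨i, j, hi, hj, hij, rfl, rfl⟩⟩ := hadj
      · refine ⟨s(a, b), ?_, ?_⟩
        · rw [mem_edg']
          exact ⟨h1.2.2, mem_univ _, mem_univ _⟩
        · rw [Sym2.map_mk, hπc a h1.1, hπc b h1.2.1]
      · have hkey : ∀ i j : ℕ, (i, j) ∈ c.NE →
            ∃ e ∈ edg G univ, Sym2.map π e = s(nm i, nm j) := by
          intro i j hmem
          obtain ⟨f, hf, hff⟩ := fD _ hmem
          obtain ⟨hf1, hf2⟩ := fE f hf
          have hadj := hin.edge f.1 f.2 hf1 hf2 (adjE_of_mem hf)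
          refine ⟨s(nm f.1, nm f.2), ?_, ?_⟩
          · rw [mem_edg']
            exact ⟨hadj, mem_univ _, mem_univ _⟩
          · rw [Sym2.map_mk, hπ _ hf1, hπ _ hf2]
            rcases hff with ⟨h2, h3⟩ | ⟨h2, h3⟩
            · rw [h2, h3]
            · rw [h2, h3, Sym2.eq_swap]
        unfold Cfg.adjN at hij
        simp only [Bool.or_eq_true, List.contains_iff_mem] at hij
        rcases hij with hij | hij
        · exact hkey i j hij
        · obtain ⟨e, h2, h3⟩ := hkey j i hij
          exact ⟨e, h2, by rw [h3, Sym2.eq_swap]⟩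
  · intro a b hab _
    have h1 := hroot a
    have h2 := hroot b
    rw [← hab] at h2
    have hsym : ∀ x y, Relation.ReflTransGen
        (fun x y => s(x, y) ∈ edg G univ ∧ π x = π a ∧ π y = π a) x y → Relation.ReflTransGen
        (fun x y => s(x, y) ∈ edg G univ ∧ π x = π a ∧ π y = π a) y x := by
      intro x y hxy
      induction hxy with
      | refl => exact Relation.ReflTransGen.refl
      | tail _ hstep ih =>
        refine Relation.ReflTransGen.head ⟨?_, hstep.2.2, hstep.2.1⟩ ih
        rw [Sym2.eq_swap]
        exact hstep.1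
    exact h1.trans (hsym _ _ h2)

end Pool.Agent.Lib.SVX
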