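import Pool.Agent.Lib.SVX.Adm

/-!
# SVX.CfgC: the reduced graph is smaller and has the same precoloured cycle

`red_nv`: every non-isolated vertex of `red c G nm` is non-isolated in `G` (named vertices have an
edge of `E`), and a core vertex that is not kept is isolated in `red` but not in `G`.
`red_bdry`: the vertices of `B` are not in the core, so the cycle survives.
`red_B`: a new edge with both ends in `B` joins two terminals; the shorter arc of the cycle `B` has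
length 1, 2 or 3 and avoids the core: an excluded `OPath`.
-/

set_option autoImplicit false
set_option linter.unusedSectionVars false

namespace Pool.Agent.Lib.SVX

open Finset Pool.Agent.Lib.SVT

variable {V : Type*} [Fintype V] [DecidableEq V] {G : SimpleGraph V} {B : Finset V}
variable {c : Cfg} {nm : ℕ → V} {par : ℕ → ℕ}

namespace CfgCAux

theorem any_of {α : Type} {l : List α} {p : α → Bool} (h : l.any p = true) :
    ∃ x ∈ l, p x = true := List.any_eq_true.1 h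

theorem all_of {α : Type} {l : List α} {p : α → Bool} (h : l.all p = true) :
    ∀ x ∈ l, p x = true := List.all_eq_true.1 h

/-- the parts of the check which are used here -/
theorem parts (hadm : c.adm par = true) :
    (∀ e ∈ c.NE, c.node e.1 = true ∧ c.node e.2 = true) ∧
    (∀ e ∈ c.NE, c.isT e.1 = true → c.isT e.2 = true →
      c.excl e.1 e.2 1 = true ∧ c.excl e.1 e.2 2 = true ∧ c.excl e.1 e.2 3 = true) ∧
    (∀ e ∈ c.E, e.1 < c.N ∧ e.2 < c.N) ∧
    (∃ r, r < c.nc ∧ c.keep.contains r = false) ∧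
    (∀ i, i < c.N → ∃ e ∈ c.E ++ c.Bs, e.1 = i ∨ e.2 = i) ∧
    (∀ e ∈ c.Bs, e.1 < c.N ∧ e.2 < c.N) := by
  unfold Cfg.adm at hadm
  simp only [Bool.and_eq_true] at hadm
  obtain ⟨⟨⟨⟨⟨⟨⟨⟨⟨_, _⟩, hA⟩, hB⟩, hE⟩, hBs⟩, _⟩, hany⟩, hall⟩, _⟩ := hadm
  refine ⟨fun e he => ?_, fun e he h1 h2 => ?_, fun e he => ?_, ?_, fun i hi => ?_, fun e he => ?_⟩
  · have h := all_of hA e he
    simp only [Bool.and_eq_true] at h
    exact ⟨h.1.2, h.2⟩
  · have h := all_of hB e he
    rw [h1, h2] at h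
    simp only [Bool.and_self, Bool.not_true, Bool.false_or, Bool.and_eq_true] at h
    exact ⟨h.1.1, h.1.2, h.2⟩
  · have h := all_of hE e he
    simp only [Bool.and_eq_true, decide_eq_true_eq] at h
    exact ⟨h.1.1.2, h.1.2⟩
  · obtain ⟨r, hr, h⟩ := any_of hany
    refine ⟨r, List.mem_range.1 hr, ?_⟩
    simpa using h
  · obtain ⟨e, he, h⟩ := any_of (all_of hall i (List.mem_range.2 hi))
    refine ⟨e, he, ?_⟩
    simpa using h
  · have h := all_of hBs e he
    unfold Cfg.isT at h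
    simp only [Bool.and_eq_true, decide_eq_true_eq] at h
    exact ⟨h.1.2.2, h.2.2⟩

theorem adjE_of_mem {e : ℕ × ℕ} (he : e ∈ c.E ++ c.Bs) :
    c.adjE e.1 e.2 = true ∧ c.adjE e.2 e.1 = true := by
  unfold Cfg.adjE
  rcases List.mem_append.1 he with he | he
  · have h : c.E.contains (e.1, e.2) = true := List.contains_iff_mem.2 he
    rw [h]
    simp
  · have h : c.Bs.contains (e.1, e.2) = true := List.contains_iff_mem.2 he
    rw [h]
    simp

/-- every named vertex has a neighbour -/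
theorem nonisol (hadm : c.adm par = true) {nm : ℕ → V} (hin : Inst c G B nm) {i : ℕ}
    (hi : i < c.N) : ∃ u, G.Adj (nm i) u := by
  obtain ⟨_, _, h3, _, h5, h3'⟩ := parts hadm
  obtain ⟨e, he, h⟩ := h5 i hi
  obtain ⟨h6, h7⟩ := adjE_of_mem he
  obtain ⟨h8, h9⟩ : e.1 < c.N ∧ e.2 < c.N := by
    rcases List.mem_append.1 he with he | he
    · exact h3 e he
    · exact h3' e he
  rcases h with h | h
  · subst h
    exact ⟨nm e.2, hin.edge _ _ h8 h9 h6⟩
  · subst h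
    exact ⟨nm e.1, hin.edge _ _ h9 h8 h7⟩

theorem mem_of_adjN {i j : ℕ} (h : c.adjN i j = true) : (i, j) ∈ c.NE ∨ (j, i) ∈ c.NE := by
  unfold Cfg.adjN at h
  rw [Bool.or_eq_true] at h
  rcases h with h | h
  · exact Or.inl (List.contains_iff_mem.1 h)
  · exact Or.inr (List.contains_iff_mem.1 h)

theorem excl_symm (i j l : ℕ) : c.excl i j l = c.excl j i l := by
  unfold Cfg.excl
  rw [Bool.or_comm]

/-- in a cycle of length 3, 6 or 7 two vertices are joined by a path of length 1, 2 or 3 -/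
theorem short {R : Set V} (hB : Bdry G B) (hR : ∀ v ∈ B, v ∉ R) {u v : V} (hu : u ∈ B)
    (hv : v ∈ B) (huv : u ≠ v) :
    ∃ l, (l = 1 ∨ l = 2 ∨ l = 3) ∧ (OPath G R u v l ∨ OPath G R v u l) := by
  have p1 : ∀ (n : ℕ) (f : ZMod n → V), IsCyc G n f → ∀ i, OPath G R (f i) (f (i + 1)) 1 :=
    fun n f hf i => hf.2 i
  have p2 : ∀ (n : ℕ) (f : ZMod n → V), IsCyc G n f → (∀ i, f i ∉ R) → ∀ i,
      OPath G R (f i) (f (i + 2)) 2 := by
    intro n f hf hfR i
    refine ⟨f (i + 1), hfR _, hf.2 i, ?_⟩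
    have h := hf.2 (i + 1)
    rwa [show i + 1 + 1 = i + 2 by ring] at h
  have p3 : ∀ (n : ℕ) (f : ZMod n → V), (2 : ZMod n) ≠ 0 → IsCyc G n f → (∀ i, f i ∉ R) → ∀ i,
      OPath G R (f i) (f (i + 3)) 3 := by
    intro n f h2 hf hfR i
    refine ⟨f (i + 1), f (i + 2), hfR _, hfR _, ?_, ?_, hf.2 i, ?_, ?_⟩
    · intro h
      have h1 := hf.1 h
      apply h2
      have h3 : (i + 3) - (i + 1) = 0 := by rw [← h1]; ring
      rw [← h3]
      ring
    · intro h
      have h1 := hf.1 h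
      apply h2
      have h3 : (i + 2) - i = 0 := by rw [h1]; ring
      rw [← h3]
      ring
    · have h := hf.2 (i + 1)
      rwa [show i + 1 + 1 = i + 2 by ring] at h
    · have h := hf.2 (i + 2)
      rwa [show i + 2 + 1 = i + 3 by ring] at h
  rcases hB with hB | ⟨f, hf, hfB⟩ | ⟨f, hf, hfB⟩ | ⟨f, hf, hfB⟩
  · subst hB
    exact absurd hu (notMem_empty _)
  · obtain ⟨i, rfl⟩ := (hfB u).1 hu
    obtain ⟨j, rfl⟩ := (hfB v).1 hv
    have hij : i ≠ j := fun h => huv (by rw [h])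
    have key : ∀ i j : ZMod 3, i ≠ j → j = i + 1 ∨ i = j + 1 := by decide
    rcases key i j hij with rfl | rfl
    · exact ⟨1, Or.inl rfl, Or.inl (p1 3 f hf i)⟩
    · exact ⟨1, Or.inl rfl, Or.inr (p1 3 f hf j)⟩
  · have hfR : ∀ i, f i ∉ R := fun i => hR _ ((hfB _).2 ⟨i, rfl⟩)
    obtain ⟨i, rfl⟩ := (hfB u).1 hu
    obtain ⟨j, rfl⟩ := (hfB v).1 hv
    have hij : i ≠ j := fun h => huv (by rw [h])
    have key : ∀ i j : ZMod 6, i ≠ j → j = i + 1 ∨ j = i + 2 ∨ j = i + 3 ∨ i = j + 1 ∨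
        i = j + 2 := by decide
    have h2 : (2 : ZMod 6) ≠ 0 := by decide
    rcases key i j hij with rfl | rfl | rfl | rfl | rfl
    · exact ⟨1, Or.inl rfl, Or.inl (p1 6 f hf i)⟩
    · exact ⟨2, Or.inr (Or.inl rfl), Or.inl (p2 6 f hf hfR i)⟩
    · exact ⟨3, Or.inr (Or.inr rfl), Or.inl (p3 6 f h2 hf hfR i)⟩
    · exact ⟨1, Or.inl rfl, Or.inr (p1 6 f hf j)⟩
    · exact ⟨2, Or.inr (Or.inl rfl), Or.inr (p2 6 f hf hfR j)⟩
  · have hfR : ∀ i, f i ∉ R := fun i => hR _ ((hfB _).2 ⟨i, rfl⟩)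
    obtain ⟨i, rfl⟩ := (hfB u).1 hu
    obtain ⟨j, rfl⟩ := (hfB v).1 hv
    have hij : i ≠ j := fun h => huv (by rw [h])
    have key : ∀ i j : ZMod 7, i ≠ j → j = i + 1 ∨ j = i + 2 ∨ j = i + 3 ∨ i = j + 1 ∨
        i = j + 2 ∨ i = j + 3 := by decide
    have h2 : (2 : ZMod 7) ≠ 0 := by decide
    rcases key i j hij with rfl | rfl | rfl | rfl | rfl | rfl
    · exact ⟨1, Or.inl rfl, Or.inl (p1 7 f hf i)⟩
    · exact ⟨2, Or.inr (Or.inl rfl), Or.inl (p2 7 f hf hfR i)⟩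
    · exact ⟨3, Or.inr (Or.inr rfl), Or.inl (p3 7 f h2 hf hfR i)⟩
    · exact ⟨1, Or.inl rfl, Or.inr (p1 7 f hf j)⟩
    · exact ⟨2, Or.inr (Or.inl rfl), Or.inr (p2 7 f hf hfR j)⟩
    · exact ⟨3, Or.inr (Or.inr rfl), Or.inr (p3 7 f h2 hf hfR j)⟩

end CfgCAux

open CfgCAux

theorem red_nv (hadm : c.adm par = true) (h : MinCE G B) (hin : Inst c G B nm) :
    nv (red c G nm) < nv G := by
  classical
  obtain ⟨h1, _, h3, ⟨r, hr, hrk⟩, h5⟩ := parts hadm
  have hrN : r < c.N := Nat.lt_of_lt_of_le hr (Nat.le_add_right _ _)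
  unfold nv
  refine card_lt_card ⟨fun v hv => ?_, fun hsub => ?_⟩
  · rw [mem_filter] at hv ⊢
    refine ⟨mem_univ _, ?_⟩
    obtain ⟨u, hu⟩ := hv.2
    obtain ⟨_, ⟨_, _, hu⟩ | ⟨i, j, hi, _, _, rfl, _⟩⟩ := hu
    · exact ⟨u, hu⟩
    · exact nonisol hadm hin hi
  · have h6 : nm r ∈ univ.filter (fun v => ∃ u, G.Adj v u) := by
      rw [mem_filter]
      exact ⟨mem_univ _, nonisol hadm hin hrN⟩
    have h7 := hsub h6
    rw [mem_filter] at h7
    obtain ⟨_, u, _, ⟨ha, _, _⟩ | ⟨i, j, hi, hj, hij, hri, _⟩⟩ := h7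
    · exact ha r hr rfl
    · have hir : i = r := hin.inj i r hi hrN hri.symm
      subst hir
      have hnode : c.node i = true := by
        rcases mem_of_adjN hij with hm | hm
        · exact (h1 _ hm).1
        · exact (h1 _ hm).2
      unfold Cfg.node Cfg.isT at hnode
      rw [hrk] at hnode
      simp only [Bool.and_false, Bool.or_false, Bool.and_eq_true, decide_eq_true_eq] at hnode
      omega

theorem red_bdry (hadm : c.adm par = true) (h : MinCE G B) (hin : Inst c G B nm) :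
    Bdry (red c G nm) B := by
  have key : ∀ n (f : ZMod n → V), IsCyc G n f → (∀ v, v ∈ B ↔ ∃ i, f i = v) →
      IsCyc (red c G nm) n f := by
    intro n f hf hfB
    refine ⟨hf.1, fun i => ?_⟩
    have hc : ∀ i, ∀ r, r < c.nc → f i ≠ nm r := fun i r hr hi =>
      hin.coreB r hr ((hfB _).2 ⟨i, hi⟩)
    exact ⟨(hf.2 i).ne, Or.inl ⟨hc i, hc (i + 1), hf.2 i⟩⟩
  rcases h.good.bd with hB | ⟨f, hf, hfB⟩ | ⟨f, hf, hfB⟩ | ⟨f, hf, hfB⟩
  · exact Or.inl hB
  · exact Or.inr (Or.inl ⟨f, key 3 f hf hfB, hfB⟩)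
  · exact Or.inr (Or.inr (Or.inl ⟨f, key 6 f hf hfB, hfB⟩))
  · exact Or.inr (Or.inr (Or.inr ⟨f, key 7 f hf hfB, hfB⟩))

theorem red_B (hadm : c.adm par = true) (h : MinCE G B) (hin : Inst c G B nm) :
    ∀ u ∈ B, ∀ v ∈ B, (red c G nm).Adj u v → G.Adj u v := by
  rintro u hu v hv ⟨huv, ⟨_, _, h1⟩ | ⟨i, j, hi, hj, hij, rfl, rfl⟩⟩
  · exact h1
  exfalso
  obtain ⟨_, h2, _, _, _⟩ := parts hadm
  have hT : ∀ i, i < c.N → nm i ∈ B → c.isT i = true := by
    intro i hi hiB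
    unfold Cfg.isT
    rw [Bool.and_eq_true, decide_eq_true_eq, decide_eq_true_eq]
    refine ⟨?_, hi⟩
    by_contra hlt
    exact hin.coreB i (not_le.1 hlt) hiB
  have hTi := hT i hi hu
  have hTj := hT j hj hv
  have hne : i ≠ j := fun h => huv (by rw [h])
  have hex : ∀ l, (l = 1 ∨ l = 2 ∨ l = 3) → c.excl i j l = true := by
    intro l hl
    rcases mem_of_adjN hij with hm | hm
    · have h3 := h2 _ hm hTi hTj
      rcases hl with rfl | rfl | rfl
      · exact h3.1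
      · exact h3.2.1
      · exact h3.2.2
    · have h3 := h2 _ hm hTj hTi
      rw [excl_symm]
      rcases hl with rfl | rfl | rfl
      · exact h3.1
      · exact h3.2.1
      · exact h3.2.2
  obtain ⟨l, hl, hp⟩ := short (R := {v | ∃ r, r < c.nc ∧ v = nm r}) h.good.bd
    (fun v hv ⟨r, hr, hvr⟩ => hin.coreB r hr (hvr ▸ hv)) hu hv huv
  rcases hp with hp | hp
  · exact hin.exc i j l hTi hTj hne (hex l hl) hp
  · exact hin.exc j i l hTj hTi hne.symm (by rw [excl_symm]; exact hex l hl) hp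

end Pool.Agent.Lib.SVX
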