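import Pool.Agent.Lib.SVX.CfgA
import Pool.Agent.Lib.SVX.CfgB
import Pool.Agent.Lib.SVX.CfgC

/-!
# SVX.CfgD: a minimal counterexample contains no reducible configuration

Plan.  Take a precolouring `φ₀` of `B` that does not extend (`MinCE.not_ext`).  The reduced graph is
`Good` and smaller, so by `MinCE.min` it has a colouring `φ'` that agrees with `φ₀` on `B`.
`ψ i = φ' (nm i)` is a colouring of the gadget (`adjN`: new edges; `adjE` between terminals: old
edges of `red`; a kept or deleted core vertex also has a colour of size 2, all `i < c.N` are fine).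
Lists: for a small terminal the complement of the union of `φ' v`, `v ∈ O` (at least 3 colours,
contains `ψ t`, because the edge from `nm t` to `v ∈ O` is an old edge of `red`: `v` is not a core
vertex because core vertices are recoloured; restrict `O` to the neighbours of `nm t`), for a core
vertex the complement of the union over its `O`.  `ListOK` gives `χ`; the new colouring is `χ i` at
`nm i` for the recoloured `i`, and `φ'` elsewhere.  It is proper on `G` and agrees with `φ'` on `B`.
-/

set_option autoImplicit false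
set_option linter.unusedSectionVars false

namespace Pool.Agent.Lib.SVX

open Finset Pool.Agent.Lib.SVT

variable {V : Type*} [Fintype V] [DecidableEq V] {G : SimpleGraph V} {B : Finset V}
variable {c : Cfg} {nm : ℕ → V} {par : ℕ → ℕ}

namespace CfgDAux

/-- the ends of a new edge are different named vertices -/
theorem ne_of_adjN (hadm : c.adm par = true) {i j : ℕ} (h : c.adjN i j = true) : i ≠ j := by
  unfold Cfg.adm at hadm
  simp only [Bool.and_eq_true] at hadm
  obtain ⟨⟨⟨⟨⟨⟨⟨⟨⟨_, _⟩, hA⟩, _⟩, _⟩, _⟩, _⟩, _⟩, _⟩, _⟩ := hadm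
  rw [List.all_eq_true] at hA
  rcases CfgCAux.mem_of_adjN h with h | h
  · have h1 := hA _ h
    simp only [Bool.and_eq_true, bne_iff_ne, ne_eq] at h1
    exact h1.1.1
  · have h1 := hA _ h
    simp only [Bool.and_eq_true, bne_iff_ne, ne_eq] at h1
    exact fun e => h1.1.1 e.symm

theorem union_card {φ : V → Finset (Fin 7)} (h : ∀ v, (φ v).card = 2) (O : Finset V) :
    (O.biUnion φ).card ≤ 2 * O.card := by
  have h1 := card_biUnion_le (s := O) (t := φ)
  rw [sum_congr rfl (fun v _ => h v), sum_const, smul_eq_mul, mul_comm] at h1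
  exact h1

theorem compl_card {φ : V → Finset (Fin 7)} (h : ∀ v, (φ v).card = 2) {O : Finset V} {k : ℕ}
    (hO : O.card ≤ k) : 7 - 2 * k ≤ ((O.biUnion φ)ᶜ).card := by
  rw [card_compl, Fintype.card_fin]
  have h1 := union_card h O
  omega

end CfgDAux

open CfgDAux

theorem cfg_false (hadm : c.adm par = true) (hlist : c.ListOK) (h : MinCE G B)
    (hin : Inst c G B nm) : False := by
  classical
  apply h.not_ext
  intro φ₀ hφ₀ hpre
  have hgood : Good (red c G nm) B :=
    ⟨red_ml hadm h hin, red_noC4 hadm h hin, red_noC5 hadm h hin, red_bdry hadm h hin⟩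
  obtain ⟨φ', hcol, hag⟩ := h.min _ _ hgood (red_nv hadm h hin) φ₀ hφ₀
    (fun u hu v hv huv => hpre u hu v hv (red_B hadm h hin u hu v hv huv))
  have hNc : ∀ r, r < c.nc → r < c.N := fun r hr => Nat.lt_of_lt_of_le hr (Nat.le_add_right _ _)
  have hTN : ∀ t, c.isT t = true → c.nc ≤ t ∧ t < c.N := by
    intro t ht
    unfold Cfg.isT at ht
    rw [Bool.and_eq_true, decide_eq_true_eq, decide_eq_true_eq] at ht
    exact ht
  have hHc : ∀ r, r < c.nc → c.inH r = true := by
    intro r hr
    unfold Cfg.inH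
    rw [decide_eq_true hr, Bool.true_or]
  have hHs : ∀ t, c.isT t = true → c.sm t = true → c.inH t = true := by
    intro t ht hs
    unfold Cfg.inH
    rw [ht, hs]
    simp
  have hH : ∀ i, c.inH i = true → i < c.nc ∨ (c.isT i = true ∧ c.sm i = true) := by
    intro i hi
    unfold Cfg.inH at hi
    simpa only [Bool.or_eq_true, Bool.and_eq_true, decide_eq_true_eq] using hi
  have hTnm : ∀ t, c.isT t = true → ∀ r, r < c.nc → nm t ≠ nm r := by
    intro t ht r hr he
    have h1 := hin.inj t r (hTN t ht).2 (hNc r hr) he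
    have h2 := (hTN t ht).1
    omega
  -- the outside neighbours
  choose! Oc hOc1 hOc2 hOc3 using hin.out
  have hsm : ∀ t, (c.isT t = true ∧ c.sm t = true) → nm t ∉ B ∧ ∃ O : Finset V,
      O.card ≤ c.outs t ∧
      (∀ v, G.Adj (nm t) v → v ∈ O ∨ ∃ j, j < c.N ∧ c.inH j = true ∧ c.adjE t j = true ∧
        v = nm j) ∧ ∀ j, j < c.N → c.inH j = true → nm j ∉ O :=
    fun t ht => hin.small t ht.1 ht.2
  have hsm2 : ∀ t, (c.isT t = true ∧ c.sm t = true) → ∃ O : Finset V, O.card ≤ c.outs t ∧
      (∀ v, G.Adj (nm t) v → v ∈ O ∨ ∃ j, j < c.N ∧ c.inH j = true ∧ c.adjE t j = true ∧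
        v = nm j) ∧ ∀ j, j < c.N → c.inH j = true → nm j ∉ O := fun t ht => (hsm t ht).2
  choose! Os hOs1 hOs2 hOs3 using hsm2
  -- the lists
  set L : ℕ → Finset (Fin 7) := fun i =>
    if i < c.nc then ((Oc i).biUnion φ')ᶜ
    else (((Os i).filter (fun v => G.Adj (nm i) v)).biUnion φ')ᶜ with hL
  obtain ⟨χ, hχ1, hχ2, hχ3, hχ4, hχ5⟩ := hlist (fun i => φ' (nm i)) L
    (fun i _ => hcol.1 _)
    (by
      rintro i j hi hj (hij | ⟨hi', hj', hij⟩)
      · apply hcol.2
        refine ⟨fun he => ne_of_adjN hadm hij (hin.inj i j hi hj he), Or.inr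
          ⟨i, j, hi, hj, hij, rfl, rfl⟩⟩
      · have h1 := hin.edge i j hi hj hij
        apply hcol.2
        exact ⟨h1.ne, Or.inl ⟨hTnm i hi', hTnm j hj', h1⟩⟩)
    (by
      intro t ht hs
      have hlt : ¬ t < c.nc := not_lt.2 (hTN t ht).1
      rw [hL]
      simp only [if_neg hlt]
      refine ⟨?_, ?_⟩
      · intro x hx
        rw [mem_compl, mem_biUnion]
        rintro ⟨v, hv, hxv⟩
        rw [mem_filter] at hv
        have h1 : (red c G nm).Adj (nm t) v := by
          refine ⟨hv.2.ne, Or.inl ⟨hTnm t ht, fun r hr he => ?_, hv.2⟩⟩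
          apply hOs3 t ⟨ht, hs⟩ r (hNc r hr) (hHc r hr)
          rw [← he]
          exact hv.1
        exact disjoint_left.1 (hcol.2 _ _ h1) hx hxv
      · have h1 : ((Os t).filter (fun v => G.Adj (nm t) v)).card ≤ c.outs t :=
          (card_filter_le _ _).trans (hOs1 t ⟨ht, hs⟩)
        exact compl_card hcol.1 h1)
    (by
      intro r hr
      rw [hL]
      simp only [if_pos hr]
      exact compl_card hcol.1 (hOc1 r hr))
  -- the new colouring
  have hidx : ∀ v, (∃ i, i < c.N ∧ c.inH i = true ∧ v = nm i) ∨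
      ¬ (∃ i, i < c.N ∧ c.inH i = true ∧ v = nm i) := fun v => em _
  set φ : V → Finset (Fin 7) := fun v =>
    if hv : ∃ i, i < c.N ∧ c.inH i = true ∧ v = nm i then χ hv.choose else φ' v with hφ
  have hφ1 : ∀ i, i < c.N → c.inH i = true → φ (nm i) = χ i := by
    intro i hi hiH
    have hv : ∃ j, j < c.N ∧ c.inH j = true ∧ nm i = nm j := ⟨i, hi, hiH, rfl⟩
    rw [hφ]
    simp only [dif_pos hv]
    have h1 := hv.choose_spec
    exact congrArg χ (hin.inj i _ hi h1.1 h1.2.2).symm
  have hφ2 : ∀ v, ¬ (∃ i, i < c.N ∧ c.inH i = true ∧ v = nm i) → φ v = φ' v := by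
    intro v hv
    rw [hφ]
    simp only [dif_neg hv]
  -- recoloured against not recoloured
  have key : ∀ i v, i < c.N → c.inH i = true →
      ¬ (∃ j, j < c.N ∧ c.inH j = true ∧ v = nm j) → G.Adj (nm i) v → Disjoint (χ i) (φ' v) := by
    intro i v hi hiH hv hadj
    rcases hH i hiH with hic | ⟨hiT, hiS⟩
    · rcases hOc2 i hic v hadj with hvO | ⟨j, hj, hij, rfl⟩
      · rw [disjoint_left]
        intro x hx hxv
        have h1 := hχ4 i hic hx
        rw [hL] at h1
        simp only [if_pos hic] at h1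
        rw [mem_compl, mem_biUnion] at h1
        exact h1 ⟨v, hvO, hxv⟩
      · have h1 := hχ5 i j hi hj hij
        have h2 : c.inH j ≠ true := fun hjH => hv ⟨j, hj, hjH, rfl⟩
        have h3 : ¬ j < c.nc := fun hjc => h2 (hHc j hjc)
        have h4 : c.isT j = true := by
          unfold Cfg.isT
          rw [Bool.and_eq_true, decide_eq_true_eq, decide_eq_true_eq]
          exact ⟨not_lt.1 h3, hj⟩
        have h5 : c.sm j = false := by
          rcases hb : c.sm j with _ | _
          · rfl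
          · exact absurd (hHs j h4 hb) h2
        rw [← hχ2 j h4 h5]
        exact h1
    · have hic : ¬ i < c.nc := not_lt.2 (hTN i hiT).1
      rcases hOs2 i ⟨hiT, hiS⟩ v hadj with hvO | ⟨j, hj, hjH, _, rfl⟩
      · rw [disjoint_left]
        intro x hx hxv
        have h1 := hχ3 i hiT hiS hx
        rw [hL] at h1
        simp only [if_neg hic] at h1
        rw [mem_compl, mem_biUnion] at h1
        exact h1 ⟨v, mem_filter.2 ⟨hvO, hadj⟩, hxv⟩
      · exact absurd ⟨j, hj, hjH, rfl⟩ hv
  refine ⟨φ, ⟨fun v => ?_, fun u v huv => ?_⟩, fun v hv => ?_⟩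
  · rcases hidx v with ⟨i, hi, hiH, rfl⟩ | hv
    · rw [hφ1 i hi hiH]
      exact hχ1 i hi
    · rw [hφ2 v hv]
      exact hcol.1 v
  · rcases hidx u with ⟨i, hi, hiH, rfl⟩ | hu
    · rcases hidx v with ⟨j, hj, hjH, rfl⟩ | hv
      · rw [hφ1 i hi hiH, hφ1 j hj hjH]
        apply hχ5 i j hi hj
        rcases hH i hiH with hic | ⟨hiT, hiS⟩
        · rcases hOc2 i hic _ huv with hvO | ⟨j', hj', hij, he⟩
          · exact absurd hvO (hOc3 i hic j hj hjH)
          · rw [hin.inj j j' hj hj' he]
            exact hij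
        · rcases hOs2 i ⟨hiT, hiS⟩ _ huv with hvO | ⟨j', hj', _, hij, he⟩
          · exact absurd hvO (hOs3 i ⟨hiT, hiS⟩ j hj hjH)
          · rw [hin.inj j j' hj hj' he]
            exact hij
      · rw [hφ1 i hi hiH, hφ2 v hv]
        exact key i v hi hiH hv huv
    · rcases hidx v with ⟨j, hj, hjH, rfl⟩ | hv
      · rw [hφ1 j hj hjH, hφ2 u hu]
        exact (key j u hj hjH hu huv.symm).symm
      · rw [hφ2 u hu, hφ2 v hv]
        apply hcol.2
        refine ⟨huv.ne, Or.inl ⟨fun r hr he => ?_, fun r hr he => ?_, huv⟩⟩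
        · exact hu ⟨r, hNc r hr, hHc r hr, he⟩
        · exact hv ⟨r, hNc r hr, hHc r hr, he⟩
  · rw [← hag v hv]
    apply hφ2
    rintro ⟨i, hi, hiH, rfl⟩
    rcases hH i hiH with hic | ⟨hiT, hiS⟩
    · exact hin.coreB i hic hv
    · exact (hsm i ⟨hiT, hiS⟩).1 hv

end Pool.Agent.Lib.SVX
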