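import Pool.Agent.Lib.SVX.ChkD

/-!
# SVX.ChkF: flexible terminals (MP_0229a2_co)

`Cfg.ListOKF c fl`: as `Cfg.ListOK c`, but a kept terminal `t` with `fl t = true` may take, instead
of its colour `ψ t`, a given pair `ω t` which meets `ψ t` in one element.  `ringD_cfgF`,
`ringD_cfgFZ`, `ringP_cfgF`, `ringP_cfgFZ`: kernel checks.
-/

set_option autoImplicit false
set_option maxRecDepth 100000

namespace Pool.Agent.Lib.SVX

open Finset

/-- the statement on lists with flexible terminals -/
def Cfg.ListOKF (c : Cfg) (fl : ℕ → Bool) : Prop :=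
  ∀ (ψ L ω : ℕ → Finset (Fin 7)),
    (∀ i, i < c.N → (ψ i).card = 2) →
    (∀ i j, i < c.N → j < c.N → (c.adjN i j = true ∨ (c.isT i = true ∧ c.isT j = true ∧
      c.adjE i j = true)) → Disjoint (ψ i) (ψ j)) →
    (∀ t, c.isT t = true → c.sm t = true → ψ t ⊆ L t ∧ 7 - 2 * c.outs t ≤ (L t).card) →
    (∀ r, r < c.nc → 7 - 2 * c.outs r ≤ (L r).card) →
    (∀ t, c.isT t = true → c.sm t = false → fl t = true →
      (ω t).card = 2 ∧ (ψ t ∩ ω t).card = 1) →
    ∃ χ : ℕ → Finset (Fin 7), (∀ i, i < c.N → (χ i).card = 2) ∧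
      (∀ t, c.isT t = true → c.sm t = false → fl t = false → χ t = ψ t) ∧
      (∀ t, c.isT t = true → c.sm t = false → fl t = true → χ t = ψ t ∨ χ t = ω t) ∧
      (∀ t, c.isT t = true → c.sm t = true → χ t ⊆ L t) ∧
      (∀ r, r < c.nc → χ r ⊆ L r) ∧
      (∀ i j, i < c.N → j < c.N → c.adjE i j = true → Disjoint (χ i) (χ j))

namespace Chk

/-- a flexible terminal -/
def isF (c : Cfg) (fl : ℕ → Bool) (i : ℕ) : Bool := c.isT i && !c.sm i && fl i

/-- the list problem of a configuration with flexible terminals -/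
def ofCfgF (c : Cfg) (fl : ℕ → Bool) : Prob where
  N := 2 * c.N
  E := c.E ++ c.Bs
  Eg := (ofCfg c).Eg
  fx := fun i => if i < c.N then (c.isT i && !c.sm i && !fl i) else decide (i < 2 * c.N)
  ls := fun i => if isF c fl i then 7 else 7 - 2 * c.outs i
  il := fun i => c.isT i && c.sm i
  fl := isF c fl
  fw := fun i => c.N + i

theorem isF_lt {c : Cfg} {fl : ℕ → Bool} {i : ℕ} (h : isF c fl i = true) : i < c.N := by
  unfold isF Cfg.isT at h
  rw [Bool.and_eq_true, Bool.and_eq_true, Bool.and_eq_true, decide_eq_true_eq,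
    decide_eq_true_eq] at h
  exact h.1.1.2

theorem isT_lt {c : Cfg} {i : ℕ} (h : c.isT i = true) : i < c.N ∧ ¬ i < c.nc := by
  unfold Cfg.isT at h
  rw [Bool.and_eq_true, decide_eq_true_eq, decide_eq_true_eq] at h
  exact ⟨h.2, not_lt.2 h.1⟩

theorem listOKF_of {c : Cfg} {fl : ℕ → Bool} (h : (ofCfgF c fl).OK) : c.ListOKF fl := by
  intro ψ L ω h1 h2 h3 h4 h5
  have hT : ∀ i, i < c.N → ¬ i < c.nc → c.isT i = true := by
    intro i hi hn
    unfold Cfg.isT
    rw [Bool.and_eq_true, decide_eq_true_eq, decide_eq_true_eq]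
    exact ⟨not_lt.1 hn, hi⟩
  have hcN : ∀ i, i < c.nc → i < c.N := fun i hi => Nat.lt_of_lt_of_le hi (Nat.le_add_right _ _)
  set ψ' : ℕ → Finset (Fin 7) := fun i => if i < c.N then ψ i else
    if isF c fl (i - c.N) = true then ω (i - c.N) else {0, 1} with hψ'
  set L' : ℕ → Finset (Fin 7) := fun i => if isF c fl i = true then univ else L i with hL'
  have hψ1 : ∀ i, i < c.N → ψ' i = ψ i := fun i hi => by
    show (if i < c.N then ψ i else _) = ψ i
    rw [if_pos hi]
  have hψ2 : ∀ i, isF c fl i = true → ψ' (c.N + i) = ω i := fun i hi => by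
    show (if c.N + i < c.N then _ else if isF c fl (c.N + i - c.N) = true then ω (c.N + i - c.N)
      else {0, 1}) = ω i
    rw [if_neg (by omega), Nat.add_sub_cancel_left, if_pos hi]
  have hF : ∀ i, isF c fl i = true → c.isT i = true ∧ c.sm i = false ∧ fl i = true := by
    intro i hi
    unfold isF at hi
    rw [Bool.and_eq_true, Bool.and_eq_true, Bool.not_eq_true'] at hi
    exact ⟨hi.1.1, hi.1.2, hi.2⟩
  have q0 : ∀ i, i < (ofCfgF c fl).N → (ψ' i).card = 2 := by
    intro i _
    by_cases hi : i < c.N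
    · rw [hψ1 i hi]; exact h1 i hi
    · show (if i < c.N then ψ i else if isF c fl (i - c.N) = true then ω (i - c.N)
        else {0, 1}).card = 2
      rw [if_neg hi]
      split_ifs with h6
      · obtain ⟨a, b, d⟩ := hF _ h6
        exact (h5 _ a b d).1
      · decide
  have q1 : ∀ e ∈ (ofCfgF c fl).Eg, Disjoint (ψ' e.1) (ψ' e.2) := by
    intro e he
    have he' := List.mem_filter.1 he
    obtain ⟨he1, he2⟩ := he'
    rw [Bool.and_eq_true, Bool.and_eq_true, decide_eq_true_eq, decide_eq_true_eq,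
      Bool.or_eq_true, Bool.and_eq_true] at he2
    obtain ⟨⟨e1, e2⟩, e3⟩ := he2
    rw [hψ1 _ e1, hψ1 _ e2]
    refine h2 e.1 e.2 e1 e2 ?_
    rcases e3 with e3 | e3
    · exact Or.inl e3
    · rw [List.mem_append] at he1
      rcases he1 with he1 | he1
      · left
        unfold Cfg.adjN
        rw [Bool.or_eq_true, List.contains_iff_mem]
        exact Or.inl he1
      · right
        refine ⟨e3.1, e3.2, ?_⟩
        unfold Cfg.adjE
        rw [Bool.or_eq_true, Bool.or_eq_true]
        exact Or.inl (Or.inr (List.contains_iff_mem.2 he1))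
  have q2 : ∀ i, i < (ofCfgF c fl).N → (ofCfgF c fl).fx i = false →
      (ofCfgF c fl).ls i ≤ (L' i).card := by
    intro i hi hf
    have hf' : (if i < c.N then (c.isT i && !c.sm i && !fl i) else decide (i < 2 * c.N)) =
        false := hf
    have hi' : i < 2 * c.N := hi
    show (if isF c fl i = true then 7 else 7 - 2 * c.outs i) ≤
      (if isF c fl i = true then univ else L i).card
    by_cases hF' : isF c fl i = true
    · rw [if_pos hF', if_pos hF', Finset.card_univ, Fintype.card_fin]
    · rw [if_neg hF', if_neg hF']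
      by_cases hiN : i < c.N
      · rw [if_pos hiN] at hf'
        by_cases hn : i < c.nc
        · exact h4 i hn
        · have ht := hT i hiN hn
          cases hs : c.sm i with
          | true => exact (h3 i ht hs).2
          | false =>
            exfalso
            unfold isF at hF'
            rw [ht, hs] at hF' hf'
            simp only [Bool.not_false, Bool.true_and, Bool.not_eq_false',
              Bool.not_eq_true] at hF' hf'
            rw [hF'] at hf'
            exact absurd hf' (by simp)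
      · rw [if_neg hiN] at hf'
        exact absurd hi' (of_decide_eq_false hf')
  have q3 : ∀ i, i < (ofCfgF c fl).N → (ofCfgF c fl).il i = true → ψ' i ⊆ L' i := by
    intro i hi hil
    have hil' : (c.isT i && c.sm i) = true := hil
    rw [Bool.and_eq_true] at hil'
    rw [hψ1 i (isT_lt hil'.1).1]
    show ψ i ⊆ (if isF c fl i = true then univ else L i)
    split_ifs
    · exact subset_univ _
    · exact (h3 i hil'.1 hil'.2).1
  have q4 : ∀ i, i < (ofCfgF c fl).N → (ofCfgF c fl).fl i = true →
      (ψ' i ∩ ψ' ((ofCfgF c fl).fw i)).card = 1 := by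
    intro i _ hf
    have hf' : isF c fl i = true := hf
    show (ψ' i ∩ ψ' (c.N + i)).card = 1
    rw [hψ1 i (isF_lt hf'), hψ2 i hf']
    obtain ⟨a, b, d⟩ := hF _ hf'
    exact (h5 _ a b d).2
  obtain ⟨χ, g1, g2, g3, g5, g4⟩ := h ψ' L' q0 q1 q2 q3 q4
  have hN2 : ∀ i, i < c.N → i < (ofCfgF c fl).N := by
    intro i hi
    show i < 2 * c.N
    omega
  have hnF : ∀ i, (c.isT i = false ∨ c.sm i = true ∨ fl i = false) → isF c fl i = false := by
    intro i hi
    unfold isF
    rcases hi with hi | hi | hi <;> rw [hi] <;> simp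
  refine ⟨χ, fun i hi => g1 i (hN2 i hi), fun t ht hs hf => ?_, fun t ht hs hf => ?_,
    fun t ht hs => ?_, fun r hr => ?_, fun i j hi hj hij => ?_⟩
  · rw [← hψ1 t (isT_lt ht).1]
    refine g2 t (hN2 t (isT_lt ht).1) ?_
    show (if t < c.N then (c.isT t && !c.sm t && !fl t) else decide (t < 2 * c.N)) = true
    rw [if_pos (isT_lt ht).1, ht, hs, hf]; rfl
  · have hF' : isF c fl t = true := by unfold isF; rw [ht, hs, hf]; rfl
    have h6 := g5 t (hN2 t (isT_lt ht).1) hF'
    rw [hψ1 t (isT_lt ht).1] at h6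
    have h7 : ψ' ((ofCfgF c fl).fw t) = ω t := hψ2 t hF'
    rwa [h7] at h6
  · have h6 := g3 t (hN2 t (isT_lt ht).1) ?_ (hnF t (Or.inr (Or.inl hs)))
    · have h7 : L' t = L t := by
        show (if isF c fl t = true then univ else L t) = L t
        rw [hnF t (Or.inr (Or.inl hs))]
        simp
      rwa [h7] at h6
    · show (if t < c.N then (c.isT t && !c.sm t && !fl t) else decide (t < 2 * c.N)) = false
      rw [if_pos (isT_lt ht).1, hs]; simp
  · have h5' : c.isT r = false := by
      cases h6 : c.isT r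
      · rfl
      · exact absurd hr (isT_lt h6).2
    have h6 := g3 r (hN2 r (hcN r hr)) ?_ (hnF r (Or.inl h5'))
    · have h7 : L' r = L r := by
        show (if isF c fl r = true then univ else L r) = L r
        rw [hnF r (Or.inl h5')]
        simp
      rwa [h7] at h6
    · show (if r < c.N then (c.isT r && !c.sm r && !fl r) else decide (r < 2 * c.N)) = false
      rw [if_pos (hcN r hr), h5']; rfl
  · unfold Cfg.adjE at hij
    rw [Bool.or_eq_true, Bool.or_eq_true, Bool.or_eq_true, List.contains_iff_mem,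
      List.contains_iff_mem, List.contains_iff_mem, List.contains_iff_mem] at hij
    rcases hij with ((hij | hij) | hij) | hij
    · exact g4 (i, j) (List.mem_append_left _ hij)
    · exact (g4 (j, i) (List.mem_append_left _ hij)).symm
    · exact g4 (i, j) (List.mem_append_right _ hij)
    · exact (g4 (j, i) (List.mem_append_right _ hij)).symm

theorem fx_ltF (c : Cfg) (fl : ℕ → Bool) : ∀ t,
    ((ofCfgF c fl).fx t || (ofCfgF c fl).fl t) = true → t < (ofCfgF c fl).N := by
  intro t ht
  show t < 2 * c.N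
  rw [Bool.or_eq_true] at ht
  rcases ht with ht | ht
  · have h1 : (if t < c.N then (c.isT t && !c.sm t && !fl t) else decide (t < 2 * c.N)) = true := ht
    by_cases h2 : t < c.N
    · omega
    · rw [if_neg h2] at h1
      exact of_decide_eq_true h1
  · have := isF_lt (c := c) (fl := fl) ht
    omega

/-! ### an additional vertex -/

/-- the problem with an additional vertex adjacent to `a` and `b` -/
def extZ (P : Prob) (a b : ℕ) : Prob where
  N := P.N + 1
  E := (P.N, a) :: (P.N, b) :: P.E
  Eg := P.Eg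
  fx := P.fx
  ls := fun i => if i = P.N then 7 else P.ls i
  il := P.il
  fl := P.fl
  fw := P.fw

theorem OK_of_extZ {P : Prob} {a b : ℕ} (hE : ∀ e ∈ P.Eg, e.1 < P.N ∧ e.2 < P.N)
    (hil : P.il P.N = false) (hfl : ∀ i, P.fl i = true → i < P.N ∧ P.fw i < P.N)
    (h : (extZ P a b).OK) : P.OK := by
  intro ψ L h1 h2 h3 h4 h4'
  have k1 : ∀ i, i < P.N → i ≠ P.N := fun i hi => ne_of_lt hi
  obtain ⟨χ, g1, g2, g3, g5, g4⟩ := h (fun i => if i = P.N then {0, 1} else ψ i)
    (fun i => if i = P.N then Finset.univ else L i)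
    (by
      intro i hi
      by_cases h5 : i = P.N
      · simp only [h5, if_true]
        decide
      · simp only [h5, if_false]
        exact h1 i (lt_of_le_of_ne (Nat.lt_succ_iff.1 hi) h5))
    (by
      intro e he
      have he1 := hE e he
      simp only [k1 _ he1.1, k1 _ he1.2, if_false]
      exact h2 e he)
    (by
      intro i hi hf
      by_cases h5 : i = P.N
      · simp only [extZ, h5, if_true]
        decide
      · simp only [extZ, h5, if_false]
        exact h3 i (lt_of_le_of_ne (Nat.lt_succ_iff.1 hi) h5) hf)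
    (by
      intro i hi hil'
      by_cases h5 : i = P.N
      · rw [h5] at hil'
        have h6 : P.il P.N = true := hil'
        rw [hil] at h6
        exact absurd h6 (by decide)
      · simp only [h5, if_false]
        exact h4 i (lt_of_le_of_ne (Nat.lt_succ_iff.1 hi) h5) hil')
    (by
      intro i hi hf
      have hf' := hfl i hf
      show ((if i = P.N then {0, 1} else ψ i) ∩ (if P.fw i = P.N then {0, 1} else
        ψ (P.fw i))).card = 1
      rw [if_neg (k1 _ hf'.1), if_neg (k1 _ hf'.2)]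
      exact h4' i hf'.1 hf)
  refine ⟨χ, fun i hi => g1 i (Nat.lt_succ_of_lt hi), fun i hi hf => ?_, fun i hi hf hf' => ?_,
    fun i hi hf => ?_,
    fun e he => g4 e (List.mem_cons_of_mem _ (List.mem_cons_of_mem _ he))⟩
  · have h5 := g2 i (Nat.lt_succ_of_lt hi) hf
    simp only [k1 i hi, if_false] at h5
    exact h5
  · have h5 := g3 i (Nat.lt_succ_of_lt hi) hf hf'
    simp only [k1 i hi, if_false] at h5
    exact h5
  · have h5 : χ i = (if i = P.N then {0, 1} else ψ i) ∨
      χ i = (if P.fw i = P.N then {0, 1} else ψ (P.fw i)) := g5 i (Nat.lt_succ_of_lt hi) hf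
    rw [if_neg (k1 i hi), if_neg (k1 _ (hfl i hf).2)] at h5
    exact h5

theorem OK_of_extF {c : Cfg} {fl : ℕ → Bool} {a b : ℕ} (h : (extZ (ofCfgF c fl) a b).OK) :
    (ofCfgF c fl).OK := by
  refine OK_of_extZ (fun e he => ?_) ?_ (fun i hi => ?_) h
  · have h5 := (List.mem_filter.1 he).2
    rw [Bool.and_eq_true, Bool.and_eq_true, decide_eq_true_eq, decide_eq_true_eq] at h5
    show e.1 < 2 * c.N ∧ e.2 < 2 * c.N
    omega
  · show (c.isT (2 * c.N) && c.sm (2 * c.N)) = false
    have h6 : c.isT (2 * c.N) = false := by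
      cases h7 : c.isT (2 * c.N)
      · rfl
      · have := (isT_lt h7).1
        omega
    rw [h6]; rfl
  · have := isF_lt (c := c) (fl := fl) hi
    show i < 2 * c.N ∧ c.N + i < 2 * c.N
    omega

theorem fx_ltFZ (c : Cfg) (fl : ℕ → Bool) (a b : ℕ) : ∀ t,
    ((extZ (ofCfgF c fl) a b).fx t || (extZ (ofCfgF c fl) a b).fl t) = true →
    t < (extZ (ofCfgF c fl) a b).N :=
  fun t ht => Nat.lt_succ_of_lt (fx_ltF c fl t ht)

/-! ### the checks -/

theorem ringD_cfgF {c : Cfg} {fl : ℕ → Bool} {l r : List St} {nodes : List (ℕ × ℕ × List ℕ)}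
    {u0 : ℕ} (h : ringD (ofCfgF c fl) l r nodes u0 = true) : c.ListOKF fl :=
  listOKF_of (ringD_sound (fx_ltF c fl) h)

theorem ringD_cfgFZ {c : Cfg} {fl : ℕ → Bool} {a b : ℕ} {l r : List St}
    {nodes : List (ℕ × ℕ × List ℕ)} {u0 : ℕ}
    (h : ringD (extZ (ofCfgF c fl) a b) l r nodes u0 = true) : c.ListOKF fl :=
  listOKF_of (OK_of_extF (ringD_sound (fx_ltFZ c fl a b) h))

theorem ringP_cfgF {c : Cfg} {fl : ℕ → Bool} {l r : List St} {nodes : List (ℕ × ℕ × List ℕ)}
    {u0 s n : ℕ} {dis : List ℕ} {oss : List (List ℕ)}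
    (hst : statR (ofCfgF c fl) l (.par s n dis :: r) nodes u0 = true) (hcov : cov s oss = true)
    (h : AllP (ringP l n r nodes) oss) : c.ListOKF fl :=
  listOKF_of (ring_of (fx_ltF c fl) hst (fun Λ hl hr => ringP_sound hcov h Λ hl hr))

theorem ringP_cfgFZ {c : Cfg} {fl : ℕ → Bool} {a b : ℕ} {l r : List St}
    {nodes : List (ℕ × ℕ × List ℕ)} {u0 s n : ℕ} {dis : List ℕ} {oss : List (List ℕ)}
    (hst : statR (extZ (ofCfgF c fl) a b) l (.par s n dis :: r) nodes u0 = true)
    (hcov : cov s oss = true) (h : AllP (ringP l n r nodes) oss) : c.ListOKF fl :=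
  listOKF_of (OK_of_extF (ring_of (fx_ltFZ c fl a b) hst
    (fun Λ hl hr => ringP_sound hcov h Λ hl hr)))

end Chk

end Pool.Agent.Lib.SVX
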