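import Pool.Agent.Lib.SVX.CfgD
import Pool.Agent.Lib.SVX.ChkF

/-!
# SVX.CfgF: reducible configurations with one flexible terminal

`Flexible G B R H g`: every colouring of the graph without `R` can be changed outside `H` such that
the colour of `g` changes in one element and the neighbours of `H` except for `g` keep their
colours.  `cfg_falseF`: a minimal counterexample contains no configuration which is reducible with
a flexible kept terminal.
-/

set_option autoImplicit false
set_option linter.unusedSectionVars false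

namespace Pool.Agent.Lib.SVX

open Finset Pool.Agent.Lib.SVT

variable {V : Type*} [Fintype V] [DecidableEq V] {G : SimpleGraph V} {B : Finset V}
variable {c : Cfg} {nm : ℕ → V} {par : ℕ → ℕ}

/-- the colour of `g` can be changed in one element; `R`: deleted vertices, `H`: recoloured
vertices -/
def Flexible (G : SimpleGraph V) (B : Finset V) (R H : Set V) (g : V) : Prop :=
  ∀ φ : V → Finset (Fin 7), (∀ v, (φ v).card = 2) →
    (∀ u v, u ∉ R → v ∉ R → G.Adj u v → Disjoint (φ u) (φ v)) →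
    ∃ φ₂ : V → Finset (Fin 7), (∀ v, (φ₂ v).card = 2) ∧ (φ g ∩ φ₂ g).card = 1 ∧
      (∀ u v, u ∉ H → v ∉ H → G.Adj u v → Disjoint (φ₂ u) (φ₂ v)) ∧ (∀ v ∈ B, φ₂ v = φ v) ∧
      (∀ v w, v ≠ g → w ∈ H → G.Adj w v → φ₂ v = φ v)

open CfgDAux

theorem cfg_falseF {t : ℕ} (hadm : c.adm par = true) (hlist : c.ListOKF (fun i => i == t))
    (h : MinCE G B) (hin : Inst c G B nm) (ht : c.isT t = true) (hst : c.sm t = false)
    (hat : ∀ j, j < c.N → c.inH j = true → G.Adj (nm j) (nm t) → c.adjE j t = true)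
    (hflex : Flexible G B {v | ∃ r, r < c.nc ∧ v = nm r}
      {v | ∃ j, j < c.N ∧ c.inH j = true ∧ v = nm j} (nm t)) : False := by
  classical
  apply h.not_ext
  intro φ₀ hφ₀ hpre
  have hgood : Good (red c G nm) B :=
    ⟨red_ml hadm h hin, red_noC4 hadm h hin, red_noC5 hadm h hin, red_bdry hadm h hin⟩
  obtain ⟨φ', hcol, hag⟩ := h.min _ _ hgood (red_nv hadm h hin) φ₀ hφ₀
    (fun u hu v hv huv => hpre u hu v hv (red_B hadm h hin u hu v hv huv))
  have hNc : ∀ r, r < c.nc → r < c.N := fun r hr => Nat.lt_of_lt_of_le hr (Nat.le_add_right _ _)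
  have hTN : ∀ t, c.isT t = true → c.nc ≤ t ∧ t < c.N := by
    intro t ht
    unfold Cfg.isT at ht
    rw [Bool.and_eq_true, decide_eq_true_eq, decide_eq_true_eq] at ht
    exact ht
  have hHc : ∀ r, r < c.nc → c.inH r = true := by
    intro r hr
    unfold Cfg.inH
    rw [decide_eq_true hr, Bool.true_or]
  have hHs : ∀ t, c.isT t = true → c.sm t = true → c.inH t = true := by
    intro t ht hs
    unfold Cfg.inH
    rw [ht, hs]
    simp
  have hH : ∀ i, c.inH i = true → i < c.nc ∨ (c.isT i = true ∧ c.sm i = true) := by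
    intro i hi
    unfold Cfg.inH at hi
    simpa only [Bool.or_eq_true, Bool.and_eq_true, decide_eq_true_eq] using hi
  have hTnm : ∀ t, c.isT t = true → ∀ r, r < c.nc → nm t ≠ nm r := by
    intro t ht r hr he
    have h1 := hin.inj t r (hTN t ht).2 (hNc r hr) he
    have h2 := (hTN t ht).1
    omega
  have htH : c.inH t ≠ true := by
    intro h1
    rcases hH t h1 with h2 | ⟨-, h2⟩
    · exact absurd h2 (not_lt.2 (hTN t ht).1)
    · rw [hst] at h2
      exact absurd h2 (by decide)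
  -- the flexible colouring
  obtain ⟨φ₂, hf1, hf2, hf3, hf4, hf5⟩ := hflex φ' hcol.1 (fun u v hu hv huv => hcol.2 u v
    ⟨huv.ne, Or.inl ⟨fun r hr he => hu ⟨r, hr, he⟩, fun r hr he => hv ⟨r, hr, he⟩, huv⟩⟩)
  -- the outside neighbours
  choose! Oc hOc1 hOc2 hOc3 using hin.out
  have hsm : ∀ t, (c.isT t = true ∧ c.sm t = true) → nm t ∉ B ∧ ∃ O : Finset V,
      O.card ≤ c.outs t ∧
      (∀ v, G.Adj (nm t) v → v ∈ O ∨ ∃ j, j < c.N ∧ c.inH j = true ∧ c.adjE t j = true ∧
        v = nm j) ∧ ∀ j, j < c.N → c.inH j = true → nm j ∉ O :=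
    fun t ht => hin.small t ht.1 ht.2
  have hsm2 : ∀ t, (c.isT t = true ∧ c.sm t = true) → ∃ O : Finset V, O.card ≤ c.outs t ∧
      (∀ v, G.Adj (nm t) v → v ∈ O ∨ ∃ j, j < c.N ∧ c.inH j = true ∧ c.adjE t j = true ∧
        v = nm j) ∧ ∀ j, j < c.N → c.inH j = true → nm j ∉ O := fun t ht => (hsm t ht).2
  choose! Os hOs1 hOs2 hOs3 using hsm2
  -- the lists
  set L : ℕ → Finset (Fin 7) := fun i =>
    if i < c.nc then ((Oc i).biUnion φ')ᶜ
    else (((Os i).filter (fun v => G.Adj (nm i) v)).biUnion φ')ᶜ with hL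
  obtain ⟨χ, hχ1, hχ2, hχ2t, hχ3, hχ4, hχ5⟩ := hlist (fun i => φ' (nm i)) L (fun _ => φ₂ (nm t))
    (fun i _ => hcol.1 _)
    (by
      rintro i j hi hj (hij | ⟨hi', hj', hij⟩)
      · apply hcol.2
        refine ⟨fun he => ne_of_adjN hadm hij (hin.inj i j hi hj he), Or.inr
          ⟨i, j, hi, hj, hij, rfl, rfl⟩⟩
      · have h1 := hin.edge i j hi hj hij
        apply hcol.2
        exact ⟨h1.ne, Or.inl ⟨hTnm i hi', hTnm j hj', h1⟩⟩)
    (by
      intro t ht hs
      have hlt : ¬ t < c.nc := not_lt.2 (hTN t ht).1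
      rw [hL]
      simp only [if_neg hlt]
      refine ⟨?_, ?_⟩
      · intro x hx
        rw [mem_compl, mem_biUnion]
        rintro ⟨v, hv, hxv⟩
        rw [mem_filter] at hv
        have h1 : (red c G nm).Adj (nm t) v := by
          refine ⟨hv.2.ne, Or.inl ⟨hTnm t ht, fun r hr he => ?_, hv.2⟩⟩
          apply hOs3 t ⟨ht, hs⟩ r (hNc r hr) (hHc r hr)
          rw [← he]
          exact hv.1
        exact disjoint_left.1 (hcol.2 _ _ h1) hx hxv
      · have h1 : ((Os t).filter (fun v => G.Adj (nm t) v)).card ≤ c.outs t :=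
          (card_filter_le _ _).trans (hOs1 t ⟨ht, hs⟩)
        exact compl_card hcol.1 h1)
    (by
      intro r hr
      rw [hL]
      simp only [if_pos hr]
      exact compl_card hcol.1 (hOc1 r hr))
    (by
      intro t' ht' hs' hf
      have e : t' = t := by simpa using hf
      subst e
      exact ⟨hf1 _, hf2⟩)
  have hχt : χ t = φ' (nm t) ∨ χ t = φ₂ (nm t) := hχ2t t ht hst (by simp)
  -- the colouring outside the recoloured part
  obtain ⟨φ₃, g1, g2, g3, g4, g5⟩ : ∃ φ₃ : V → Finset (Fin 7), (∀ v, (φ₃ v).card = 2) ∧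
      χ t = φ₃ (nm t) ∧
      (∀ u v, (¬ ∃ i, i < c.N ∧ c.inH i = true ∧ u = nm i) →
        (¬ ∃ i, i < c.N ∧ c.inH i = true ∧ v = nm i) → G.Adj u v → Disjoint (φ₃ u) (φ₃ v)) ∧
      (∀ v ∈ B, φ₃ v = φ' v) ∧
      (∀ v j, v ≠ nm t → j < c.N → c.inH j = true → G.Adj (nm j) v → φ₃ v = φ' v) := by
    rcases hχt with h1 | h1
    · refine ⟨φ', hcol.1, h1, ?_, fun _ _ => rfl, fun _ _ _ _ _ _ => rfl⟩
      intro u v hu hv huv
      apply hcol.2
      refine ⟨huv.ne, Or.inl ⟨fun r hr he => ?_, fun r hr he => ?_, huv⟩⟩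
      · exact hu ⟨r, hNc r hr, hHc r hr, he⟩
      · exact hv ⟨r, hNc r hr, hHc r hr, he⟩
    · exact ⟨φ₂, hf1, h1, fun u v hu hv huv => hf3 u v hu hv huv, hf4,
        fun v j hv hj hjH hadj => hf5 v (nm j) hv ⟨j, hj, hjH, rfl⟩ hadj⟩
  -- the new colouring
  have hidx : ∀ v, (∃ i, i < c.N ∧ c.inH i = true ∧ v = nm i) ∨
      ¬ (∃ i, i < c.N ∧ c.inH i = true ∧ v = nm i) := fun v => em _
  set φ : V → Finset (Fin 7) := fun v =>
    if hv : ∃ i, i < c.N ∧ c.inH i = true ∧ v = nm i then χ hv.choose else φ₃ v with hφ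
  have hφ1 : ∀ i, i < c.N → c.inH i = true → φ (nm i) = χ i := by
    intro i hi hiH
    have hv : ∃ j, j < c.N ∧ c.inH j = true ∧ nm i = nm j := ⟨i, hi, hiH, rfl⟩
    rw [hφ]
    simp only [dif_pos hv]
    have h1 := hv.choose_spec
    exact congrArg χ (hin.inj i _ hi h1.1 h1.2.2).symm
  have hφ2 : ∀ v, ¬ (∃ i, i < c.N ∧ c.inH i = true ∧ v = nm i) → φ v = φ₃ v := by
    intro v hv
    rw [hφ]
    simp only [dif_neg hv]
  -- recoloured against not recoloured
  have key : ∀ i v, i < c.N → c.inH i = true →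
      ¬ (∃ j, j < c.N ∧ c.inH j = true ∧ v = nm j) → G.Adj (nm i) v → Disjoint (χ i) (φ₃ v) := by
    intro i v hi hiH hv hadj
    by_cases hvt : v = nm t
    · subst hvt
      rw [← g2]
      exact hχ5 i t hi (hTN t ht).2 (hat i hi hiH hadj)
    rw [g5 v i hvt hi hiH hadj]
    rcases hH i hiH with hic | ⟨hiT, hiS⟩
    · rcases hOc2 i hic v hadj with hvO | ⟨j, hj, hij, rfl⟩
      · rw [disjoint_left]
        intro x hx hxv
        have h1 := hχ4 i hic hx
        rw [hL] at h1
        simp only [if_pos hic] at h1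
        rw [mem_compl, mem_biUnion] at h1
        exact h1 ⟨v, hvO, hxv⟩
      · have h1 := hχ5 i j hi hj hij
        have h2 : c.inH j ≠ true := fun hjH => hv ⟨j, hj, hjH, rfl⟩
        have h3 : ¬ j < c.nc := fun hjc => h2 (hHc j hjc)
        have h4 : c.isT j = true := by
          unfold Cfg.isT
          rw [Bool.and_eq_true, decide_eq_true_eq, decide_eq_true_eq]
          exact ⟨not_lt.1 h3, hj⟩
        have h5 : c.sm j = false := by
          rcases hb : c.sm j with _ | _
          · rfl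
          · exact absurd (hHs j h4 hb) h2
        have h6 : (fun i => i == t) j = false := by
          rw [beq_eq_false_iff_ne]
          rintro rfl
          exact hvt rfl
        rw [← hχ2 j h4 h5 h6]
        exact h1
    · have hic : ¬ i < c.nc := not_lt.2 (hTN i hiT).1
      rcases hOs2 i ⟨hiT, hiS⟩ v hadj with hvO | ⟨j, hj, hjH, _, rfl⟩
      · rw [disjoint_left]
        intro x hx hxv
        have h1 := hχ3 i hiT hiS hx
        rw [hL] at h1
        simp only [if_neg hic] at h1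
        rw [mem_compl, mem_biUnion] at h1
        exact h1 ⟨v, mem_filter.2 ⟨hvO, hadj⟩, hxv⟩
      · exact absurd ⟨j, hj, hjH, rfl⟩ hv
  refine ⟨φ, ⟨fun v => ?_, fun u v huv => ?_⟩, fun v hv => ?_⟩
  · rcases hidx v with ⟨i, hi, hiH, rfl⟩ | hv
    · rw [hφ1 i hi hiH]
      exact hχ1 i hi
    · rw [hφ2 v hv]
      exact g1 v
  · rcases hidx u with ⟨i, hi, hiH, rfl⟩ | hu
    · rcases hidx v with ⟨j, hj, hjH, rfl⟩ | hv
      · rw [hφ1 i hi hiH, hφ1 j hj hjH]
        apply hχ5 i j hi hj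
        rcases hH i hiH with hic | ⟨hiT, hiS⟩
        · rcases hOc2 i hic _ huv with hvO | ⟨j', hj', hij, he⟩
          · exact absurd hvO (hOc3 i hic j hj hjH)
          · rw [hin.inj j j' hj hj' he]
            exact hij
        · rcases hOs2 i ⟨hiT, hiS⟩ _ huv with hvO | ⟨j', hj', _, hij, he⟩
          · exact absurd hvO (hOs3 i ⟨hiT, hiS⟩ j hj hjH)
          · rw [hin.inj j j' hj hj' he]
            exact hij
      · rw [hφ1 i hi hiH, hφ2 v hv]
        exact key i v hi hiH hv huv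
    · rcases hidx v with ⟨j, hj, hjH, rfl⟩ | hv
      · rw [hφ1 j hj hjH, hφ2 u hu]
        exact (key j u hj hjH hu huv.symm).symm
      · rw [hφ2 u hu, hφ2 v hv]
        exact g3 u v hu hv huv
  · have hvn : ¬ ∃ i, i < c.N ∧ c.inH i = true ∧ v = nm i := by
      rintro ⟨i, hi, hiH, rfl⟩
      rcases hH i hiH with hic | ⟨hiT, hiS⟩
      · exact hin.coreB i hic hv
      · exact (hsm i ⟨hiT, hiS⟩).1 hv
    rw [hφ2 v hvn, g4 v hv]
    exact hag v hv

end Pool.Agent.Lib.SVX
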