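import Pool.Agent.Lib.SVW.CfgW
import Pool.Agent.Lib.SVX.ChkF

/-!
# SVX.CfgG: reducible configurations with flexible terminals

As `cfg_falseW` (a small terminal may be adjacent to named fixed terminals), with any number of
flexible kept terminals (`ListOKF`).  `FlexC G B R H C g`: every colouring of the graph without
`R` can be changed on `C` (outside `H`) such that the colour of `g` changes in one element; the
vertices of `C` except for `g` are not adjacent to `H`.  The sets `C t` of different flexible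
terminals `t` are disjoint and not joined by an edge.
-/

set_option autoImplicit false
set_option linter.unusedSectionVars false

namespace Pool.Agent.Lib.SVX

open Finset Pool.Agent.Lib.SVT Pool.Agent.Lib.SVX.CfgDAux Pool.Agent.Lib.SVW

variable {V : Type*} [Fintype V] [DecidableEq V] {G : SimpleGraph V} {B : Finset V}
variable {c : Cfg} {nm : ℕ → V} {par : ℕ → ℕ}

/-- flexible vertex `g` with the set `C` of changed vertices -/
structure FlexC (G : SimpleGraph V) (B : Finset V) (R H C : Set V) (g : V) : Prop where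
  mem : g ∈ C
  memB : ∀ v ∈ C, v ∉ B
  sep : ∀ v ∈ C, v ≠ g → ∀ w ∈ H, ¬ G.Adj w v
  ex : ∀ φ : V → Finset (Fin 7), (∀ v, (φ v).card = 2) →
    (∀ u v, u ∉ R → v ∉ R → G.Adj u v → Disjoint (φ u) (φ v)) →
    ∃ φ₂ : V → Finset (Fin 7), (∀ v, (φ₂ v).card = 2) ∧ (φ g ∩ φ₂ g).card = 1 ∧
      (∀ u v, u ∉ H → v ∉ H → G.Adj u v → Disjoint (φ₂ u) (φ₂ v)) ∧
      (∀ v, v ∉ C → φ₂ v = φ v)

/-- flexible kept terminals -/
def isFl (c : Cfg) (fl : ℕ → Bool) (t : ℕ) : Prop :=
  c.isT t = true ∧ c.sm t = false ∧ fl t = true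

theorem cfg_falseG {fl : ℕ → Bool} {C : ℕ → Set V} (hadm : c.adm par = true)
    (hlist : c.ListOKF fl) (h : MinCE G B) (hin : InstW c G B nm)
    (hat : ∀ t, isFl c fl t → ∀ j, j < c.N → c.inH j = true → G.Adj (nm j) (nm t) →
      c.adjE j t = true)
    (hflex : ∀ t, isFl c fl t → FlexC G B {v | ∃ r, r < c.nc ∧ v = nm r}
      {v | ∃ j, j < c.N ∧ c.inH j = true ∧ v = nm j} (C t) (nm t))
    (hind : ∀ t t', isFl c fl t → isFl c fl t' → t ≠ t' → ∀ u ∈ C t, ∀ v ∈ C t',
      u ≠ v ∧ ¬ G.Adj u v) : False := by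
  classical
  have hin0 : Inst (noSm c) G B nm := noSm_inst hin
  have hadm0 : (noSm c).adm par = true := hadm
  apply h.not_ext
  intro φ₀ hφ₀ hpre
  have hred : red (noSm c) G nm = red c G nm := rfl
  have hgood : Good (red c G nm) B := by
    rw [← hred]
    exact ⟨red_ml hadm0 h hin0, red_noC4 hadm0 h hin0, red_noC5 hadm0 h hin0,
      red_bdry hadm0 h hin0⟩
  have hnv : SVX.nv (red c G nm) < SVX.nv G := by
    rw [← hred]
    exact red_nv hadm0 h hin0
  have hrB : ∀ u ∈ B, ∀ v ∈ B, (red c G nm).Adj u v → G.Adj u v := by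
    rw [← hred]
    exact red_B hadm0 h hin0
  obtain ⟨φ', hcol, hag⟩ := h.min _ _ hgood hnv φ₀ hφ₀
    (fun u hu v hv huv => hpre u hu v hv (hrB u hu v hv huv))
  have hNc : ∀ r, r < c.nc → r < c.N := fun r hr => Nat.lt_of_lt_of_le hr (Nat.le_add_right _ _)
  have hTN : ∀ t, c.isT t = true → c.nc ≤ t ∧ t < c.N := by
    intro t ht
    unfold Cfg.isT at ht
    rw [Bool.and_eq_true, decide_eq_true_eq, decide_eq_true_eq] at ht
    exact ht
  have hHc : ∀ r, r < c.nc → c.inH r = true := by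
    intro r hr
    unfold Cfg.inH
    rw [decide_eq_true hr, Bool.true_or]
  have hHs : ∀ t, c.isT t = true → c.sm t = true → c.inH t = true := by
    intro t ht hs
    unfold Cfg.inH
    rw [ht, hs]
    simp
  have hH : ∀ i, c.inH i = true → i < c.nc ∨ (c.isT i = true ∧ c.sm i = true) := by
    intro i hi
    unfold Cfg.inH at hi
    simpa only [Bool.or_eq_true, Bool.and_eq_true, decide_eq_true_eq] using hi
  have hTnm : ∀ t, c.isT t = true → ∀ r, r < c.nc → nm t ≠ nm r := by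
    intro t ht r hr he
    have h1 := hin.inj t r (hTN t ht).2 (hNc r hr) he
    have h2 := (hTN t ht).1
    omega
  -- the flexible colourings
  have hfx : ∀ t, isFl c fl t → ∃ φ₂ : V → Finset (Fin 7), (∀ v, (φ₂ v).card = 2) ∧
      (φ' (nm t) ∩ φ₂ (nm t)).card = 1 ∧
      (∀ u v, (¬ ∃ j, j < c.N ∧ c.inH j = true ∧ u = nm j) →
        (¬ ∃ j, j < c.N ∧ c.inH j = true ∧ v = nm j) → G.Adj u v → Disjoint (φ₂ u) (φ₂ v)) ∧
      (∀ v, v ∉ C t → φ₂ v = φ' v) := fun t ht =>
    (hflex t ht).ex φ' hcol.1 (fun u v hu hv huv => hcol.2 u v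
      ⟨huv.ne, Or.inl ⟨fun r hr he => hu ⟨r, hr, he⟩, fun r hr he => hv ⟨r, hr, he⟩, huv⟩⟩)
  choose! φ₂ hf1 hf2 hf3 hf4 using hfx
  -- the outside neighbours
  choose! Oc hOc1 hOc2 hOc3 using hin.out
  have hsm : ∀ t, (c.isT t = true ∧ c.sm t = true) → nm t ∉ B ∧ ∃ O : Finset V,
      O.card ≤ c.outs t ∧
      (∀ v, G.Adj (nm t) v → v ∈ O ∨ ∃ j, j < c.N ∧ c.adjE t j = true ∧
        v = nm j) ∧ ∀ j, j < c.N → c.inH j = true → nm j ∉ O :=
    fun t ht => hin.small t ht.1 ht.2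
  have hsm2 : ∀ t, (c.isT t = true ∧ c.sm t = true) → ∃ O : Finset V, O.card ≤ c.outs t ∧
      (∀ v, G.Adj (nm t) v → v ∈ O ∨ ∃ j, j < c.N ∧ c.adjE t j = true ∧
        v = nm j) ∧ ∀ j, j < c.N → c.inH j = true → nm j ∉ O := fun t ht => (hsm t ht).2
  choose! Os hOs1 hOs2 hOs3 using hsm2
  -- the lists
  set L : ℕ → Finset (Fin 7) := fun i =>
    if i < c.nc then ((Oc i).biUnion φ')ᶜ
    else (((Os i).filter (fun v => G.Adj (nm i) v)).biUnion φ')ᶜ with hL
  obtain ⟨χ, hχ1, hχ2, hχ2f, hχ3, hχ4, hχ5⟩ := hlist (fun i => φ' (nm i)) L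
    (fun t => φ₂ t (nm t)) (fun i _ => hcol.1 _)
    (by
      rintro i j hi hj (hij | ⟨hi', hj', hij⟩)
      · apply hcol.2
        refine ⟨fun he => ne_of_adjN hadm hij (hin.inj i j hi hj he), Or.inr
          ⟨i, j, hi, hj, hij, rfl, rfl⟩⟩
      · have h1 := hin.edge i j hi hj hij
        apply hcol.2
        exact ⟨h1.ne, Or.inl ⟨hTnm i hi', hTnm j hj', h1⟩⟩)
    (by
      intro t ht hs
      have hlt : ¬ t < c.nc := not_lt.2 (hTN t ht).1
      rw [hL]
      simp only [if_neg hlt]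
      refine ⟨?_, ?_⟩
      · intro x hx
        rw [mem_compl, mem_biUnion]
        rintro ⟨v, hv, hxv⟩
        rw [mem_filter] at hv
        have h1 : (red c G nm).Adj (nm t) v := by
          refine ⟨hv.2.ne, Or.inl ⟨hTnm t ht, fun r hr he => ?_, hv.2⟩⟩
          apply hOs3 t ⟨ht, hs⟩ r (hNc r hr) (hHc r hr)
          rw [← he]
          exact hv.1
        exact disjoint_left.1 (hcol.2 _ _ h1) hx hxv
      · have h1 : ((Os t).filter (fun v => G.Adj (nm t) v)).card ≤ c.outs t :=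
          (card_filter_le _ _).trans (hOs1 t ⟨ht, hs⟩)
        exact compl_card hcol.1 h1)
    (by
      intro r hr
      rw [hL]
      simp only [if_pos hr]
      exact compl_card hcol.1 (hOc1 r hr))
    (fun t h1 h2 h3 => ⟨hf1 t ⟨h1, h2, h3⟩ _, hf2 t ⟨h1, h2, h3⟩⟩)
  -- the colouring outside the recoloured part
  have huniq : ∀ t t', isFl c fl t → isFl c fl t' → ∀ v, v ∈ C t → v ∈ C t' → t = t' := by
    intro t t' h1 h2 v h3 h4
    by_contra hne
    exact (hind t t' h1 h2 hne v h3 v h4).1 rfl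
  obtain ⟨φ₃, g1, g2, g3, g4, g5⟩ : ∃ φ₃ : V → Finset (Fin 7), (∀ v, (φ₃ v).card = 2) ∧
      (∀ t, isFl c fl t → χ t = φ₃ (nm t)) ∧
      (∀ u v, (¬ ∃ i, i < c.N ∧ c.inH i = true ∧ u = nm i) →
        (¬ ∃ i, i < c.N ∧ c.inH i = true ∧ v = nm i) → G.Adj u v → Disjoint (φ₃ u) (φ₃ v)) ∧
      (∀ v ∈ B, φ₃ v = φ' v) ∧
      (∀ v j, (∀ t, isFl c fl t → v ≠ nm t) → j < c.N → c.inH j = true → G.Adj (nm j) v →
        φ₃ v = φ' v) := by
    set act : ℕ → Prop := fun t => isFl c fl t ∧ χ t = φ₂ t (nm t) with hact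
    set φ₃ : V → Finset (Fin 7) := fun v =>
      if hv : ∃ t, act t ∧ v ∈ C t then φ₂ hv.choose v else φ' v with hφ₃
    have e1 : ∀ t v, act t → v ∈ C t → φ₃ v = φ₂ t v := by
      intro t v h1 h2
      have hv : ∃ t, act t ∧ v ∈ C t := ⟨t, h1, h2⟩
      have h3 : φ₃ v = φ₂ hv.choose v := by
        rw [hφ₃]
        simp only [dif_pos hv]
      rw [h3, huniq hv.choose t hv.choose_spec.1.1 h1.1 v hv.choose_spec.2 h2]
    have e2 : ∀ v, ¬ (∃ t, act t ∧ v ∈ C t) → φ₃ v = φ' v := by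
      intro v hv
      rw [hφ₃]
      simp only [dif_neg hv]
    refine ⟨φ₃, ?_, ?_, ?_, ?_, ?_⟩
    · intro v
      by_cases hv : ∃ t, act t ∧ v ∈ C t
      · obtain ⟨t, h1, h2⟩ := hv
        rw [e1 t v h1 h2]
        exact hf1 t h1.1 v
      · rw [e2 v hv]
        exact hcol.1 v
    · intro t ht
      by_cases h1 : act t
      · rw [e1 t _ h1 (hflex t ht).mem]
        exact h1.2
      · rw [e2]
        · rcases hχ2f t ht.1 ht.2.1 ht.2.2 with h2 | h2
          · exact h2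
          · exact absurd ⟨ht, h2⟩ h1
        · rintro ⟨t', h2, h3⟩
          have h4 := huniq t' t h2.1 ht _ h3 (hflex t ht).mem
          rw [h4] at h2
          exact h1 h2
    · intro u v hu hv huv
      by_cases h1 : ∃ t, act t ∧ u ∈ C t
      · obtain ⟨t, h1, h2⟩ := h1
        rw [e1 t u h1 h2]
        by_cases h3 : ∃ t, act t ∧ v ∈ C t
        · obtain ⟨t', h3, h4⟩ := h3
          by_cases h5 : t = t'
          · subst h5
            rw [e1 t v h3 h4]
            exact hf3 t h1.1 u v hu hv huv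
          · exact absurd huv (hind t t' h1.1 h3.1 h5 u h2 v h4).2
        · rw [e2 v h3, ← hf4 t h1.1 v (fun h4 => h3 ⟨t, h1, h4⟩)]
          exact hf3 t h1.1 u v hu hv huv
      · rw [e2 u h1]
        by_cases h3 : ∃ t, act t ∧ v ∈ C t
        · obtain ⟨t, h3, h4⟩ := h3
          rw [e1 t v h3 h4, ← hf4 t h3.1 u (fun h5 => h1 ⟨t, h3, h5⟩)]
          exact hf3 t h3.1 u v hu hv huv
        · rw [e2 v h3]
          apply hcol.2
          refine ⟨huv.ne, Or.inl ⟨fun r hr he => ?_, fun r hr he => ?_, huv⟩⟩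
          · exact hu ⟨r, hNc r hr, hHc r hr, he⟩
          · exact hv ⟨r, hNc r hr, hHc r hr, he⟩
    · intro v hv
      apply e2
      rintro ⟨t, h1, h2⟩
      exact (hflex t h1.1).memB v h2 hv
    · intro v j hv hj hjH hadj
      apply e2
      rintro ⟨t, h1, h2⟩
      exact (hflex t h1.1).sep v h2 (hv t h1.1) (nm j) ⟨j, hj, hjH, rfl⟩ hadj
  -- the new colouring
  have hidx : ∀ v, (∃ i, i < c.N ∧ c.inH i = true ∧ v = nm i) ∨
      ¬ (∃ i, i < c.N ∧ c.inH i = true ∧ v = nm i) := fun v => em _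
  set φ : V → Finset (Fin 7) := fun v =>
    if hv : ∃ i, i < c.N ∧ c.inH i = true ∧ v = nm i then χ hv.choose else φ₃ v with hφ
  have hφ1 : ∀ i, i < c.N → c.inH i = true → φ (nm i) = χ i := by
    intro i hi hiH
    have hv : ∃ j, j < c.N ∧ c.inH j = true ∧ nm i = nm j := ⟨i, hi, hiH, rfl⟩
    rw [hφ]
    simp only [dif_pos hv]
    have h1 := hv.choose_spec
    exact congrArg χ (hin.inj i _ hi h1.1 h1.2.2).symm
  have hφ2 : ∀ v, ¬ (∃ i, i < c.N ∧ c.inH i = true ∧ v = nm i) → φ v = φ₃ v := by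
    intro v hv
    rw [hφ]
    simp only [dif_neg hv]
  have fixd : ∀ i j, i < c.N → j < c.N → c.adjE i j = true → c.inH j ≠ true →
      ¬ isFl c fl j → Disjoint (χ i) (φ' (nm j)) := by
    intro i j hi hj hij h2 hnf
    have h1 := hχ5 i j hi hj hij
    have h3 : ¬ j < c.nc := fun hjc => h2 (hHc j hjc)
    have h4 : c.isT j = true := by
      unfold Cfg.isT
      rw [Bool.and_eq_true, decide_eq_true_eq, decide_eq_true_eq]
      exact ⟨not_lt.1 h3, hj⟩
    have h5 : c.sm j = false := by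
      rcases hb : c.sm j with _ | _
      · rfl
      · exact absurd (hHs j h4 hb) h2
    have h6 : fl j = false := by
      rcases hb : fl j with _ | _
      · rfl
      · exact absurd ⟨h4, h5, hb⟩ hnf
    rw [← hχ2 j h4 h5 h6]
    exact h1
  -- recoloured against not recoloured
  have key : ∀ i v, i < c.N → c.inH i = true →
      ¬ (∃ j, j < c.N ∧ c.inH j = true ∧ v = nm j) → G.Adj (nm i) v → Disjoint (χ i) (φ₃ v) := by
    intro i v hi hiH hv hadj
    by_cases hvt : ∃ t, isFl c fl t ∧ v = nm t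
    · obtain ⟨t, h1, rfl⟩ := hvt
      rw [← g2 t h1]
      exact hχ5 i t hi (hTN t h1.1).2 (hat t h1 i hi hiH hadj)
    rw [g5 v i (fun t h1 h2 => hvt ⟨t, h1, h2⟩) hi hiH hadj]
    rcases hH i hiH with hic | ⟨hiT, hiS⟩
    · rcases hOc2 i hic v hadj with hvO | ⟨j, hj, hij, rfl⟩
      · rw [disjoint_left]
        intro x hx hxv
        have h1 := hχ4 i hic hx
        rw [hL] at h1
        simp only [if_pos hic] at h1
        rw [mem_compl, mem_biUnion] at h1
        exact h1 ⟨v, hvO, hxv⟩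
      · exact fixd i j hi hj hij (fun hjH => hv ⟨j, hj, hjH, rfl⟩)
          (fun hfj => hvt ⟨j, hfj, rfl⟩)
    · have hic : ¬ i < c.nc := not_lt.2 (hTN i hiT).1
      rcases hOs2 i ⟨hiT, hiS⟩ v hadj with hvO | ⟨j, hj, hij, rfl⟩
      · rw [disjoint_left]
        intro x hx hxv
        have h1 := hχ3 i hiT hiS hx
        rw [hL] at h1
        simp only [if_neg hic] at h1
        rw [mem_compl, mem_biUnion] at h1
        exact h1 ⟨v, mem_filter.2 ⟨hvO, hadj⟩, hxv⟩
      · exact fixd i j hi hj hij (fun hjH => hv ⟨j, hj, hjH, rfl⟩)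
          (fun hfj => hvt ⟨j, hfj, rfl⟩)
  refine ⟨φ, ⟨fun v => ?_, fun u v huv => ?_⟩, fun v hv => ?_⟩
  · rcases hidx v with ⟨i, hi, hiH, rfl⟩ | hv
    · rw [hφ1 i hi hiH]
      exact hχ1 i hi
    · rw [hφ2 v hv]
      exact g1 v
  · rcases hidx u with ⟨i, hi, hiH, rfl⟩ | hu
    · rcases hidx v with ⟨j, hj, hjH, rfl⟩ | hv
      · rw [hφ1 i hi hiH, hφ1 j hj hjH]
        apply hχ5 i j hi hj
        rcases hH i hiH with hic | ⟨hiT, hiS⟩
        · rcases hOc2 i hic _ huv with hvO | ⟨j', hj', hij, he⟩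
          · exact absurd hvO (hOc3 i hic j hj hjH)
          · rw [hin.inj j j' hj hj' he]
            exact hij
        · rcases hOs2 i ⟨hiT, hiS⟩ _ huv with hvO | ⟨j', hj', hij, he⟩
          · exact absurd hvO (hOs3 i ⟨hiT, hiS⟩ j hj hjH)
          · rw [hin.inj j j' hj hj' he]
            exact hij
      · rw [hφ1 i hi hiH, hφ2 v hv]
        exact key i v hi hiH hv huv
    · rcases hidx v with ⟨j, hj, hjH, rfl⟩ | hv
      · rw [hφ1 j hj hjH, hφ2 u hu]
        exact (key j u hj hjH hu huv.symm).symm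
      · rw [hφ2 u hu, hφ2 v hv]
        exact g3 u v hu hv huv
  · have hvn : ¬ ∃ i, i < c.N ∧ c.inH i = true ∧ v = nm i := by
      rintro ⟨i, hi, hiH, rfl⟩
      rcases hH i hiH with hic | ⟨hiT, hiS⟩
      · exact hin.coreB i hic hv
      · exact (hsm i ⟨hiT, hiS⟩).1 hv
    rw [hφ2 v hvn, g4 v hv]
    exact hag v hv

end Pool.Agent.Lib.SVX
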