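import Pool.Agent.Lib.SVX.ChkM

/-!
# SVX.ChkB: the ring check with packed blocks (MP_0229a2_co)

The relations of the left strip are packed in blocks of 64 (442 bits each); one test compares a
relation of the right strip with a whole block.  `chkRingB_sound`: the check proves `Prob.OK`.
-/

set_option autoImplicit false
set_option maxRecDepth 100000
set_option exponentiation.threshold 500

namespace Pool.Agent.Lib.SVX.Chk

open Finset

noncomputable section

/-- `2 ^ 442` -/
def CW : ℕ := 2 ^ 442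
/-- `2 ^ 441` -/
def C2 : ℕ := 2 ^ 441
/-- `2 ^ 441 - 1` -/
def C1 : ℕ := 2 ^ 441 - 1

/-- packed relations -/
def pkB (xs : List (ℕ × List (ℕ × ℕ))) : ℕ :=
  List.rec (motive := fun _ => ℕ) 0 (fun a _ ih => Nat.add a.1 (Nat.mul CW ih)) xs

/-- packed ones -/
def pkM (xs : List (ℕ × List (ℕ × ℕ))) : ℕ :=
  List.rec (motive := fun _ => ℕ) 0 (fun _ _ ih => Nat.add 1 (Nat.mul CW ih)) xs

/-- packed environment -/
def pk (env : List (ℕ × ℕ)) : ℕ :=
  List.rec (motive := fun _ => ℕ) 0 (fun a _ ih => Nat.add a.2 (Nat.mul 128 ih)) env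

/-- packed environments (`WE`: `2 ^ we`) -/
def pkE (WE : ℕ) (xs : List (ℕ × List (ℕ × ℕ))) : ℕ :=
  List.rec (motive := fun _ => ℕ) 0 (fun a _ ih => Nat.add (pk a.2) (Nat.mul WE ih)) xs

/-- unpacked environment -/
def unpk (nms : List ℕ) : ℕ → List (ℕ × ℕ) :=
  List.rec (motive := fun _ => ℕ → List (ℕ × ℕ)) (fun _ => [])
    (fun n _ ih e => (n, Nat.land e 127) :: ih (Nat.shiftRight e 7)) nms

/-- the environment has the names `nms` and small masks -/
def eqE (nms : List ℕ) : List (ℕ × ℕ) → Bool :=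
  List.rec (motive := fun _ => List (ℕ × ℕ) → Bool)
    (fun env => List.rec (motive := fun _ => Bool) true (fun _ _ _ => false) env)
    (fun n _ ih env => List.rec (motive := fun _ => Bool) false
      (fun a t _ => band (Nat.beq n a.1) (band (Nat.ble a.2 127) (ih t))) env) nms

/-- search of the failing positions; levels `(sF, mF, sE, mE)`: shifts and masks of the halves -/
def loopB (nodes : List (ℕ × ℕ × List ℕ)) (nms : List ℕ) (env : List (ℕ × ℕ))
    (lv : List (ℕ × ℕ × ℕ × ℕ)) : ℕ → ℕ → Bool :=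
  List.rec (motive := fun _ => ℕ → ℕ → Bool)
    (fun F e => bite (Nat.beq F 0) true
      (fN e (fun e' => Bool.not (gsat (app env (unpk nms e')) nodes []))))
    (fun q _ ih F e => bite (Nat.beq F 0) true
      (band (fN (Nat.land F q.2.1) (fun F' => ih F' (Nat.land e q.2.2.2)))
        (fN (Nat.shiftRight F q.1) (fun F' => ih F' (Nat.shiftRight e q.2.2.1))))) lv

/-- test of a block -/
def tstB (nodes : List (ℕ × ℕ × List ℕ)) (nms : List ℕ) (lv : List (ℕ × ℕ × ℕ × ℕ))
    (R : ℕ) (env : List (ℕ × ℕ)) (b m m1 mt e : ℕ) : Bool :=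
  fN (Nat.land (Nat.add (Nat.land b (Nat.mul R m)) m1) mt) (fun y =>
    bite (Nat.beq y mt) true (fN (Nat.xor y mt) (fun F => loopB nodes nms env lv F e)))

/-- the blocks -/
def allB (f : ℕ → ℕ → ℕ → ℕ → ℕ → Bool) (l : List (ℕ × ℕ × ℕ × ℕ × ℕ)) : Bool :=
  List.rec (motive := fun _ => Bool) true
    (fun a _ ih => band (f a.1 a.2.1 a.2.2.1 a.2.2.2.1 a.2.2.2.2) ih) l

/-- pack all blocks -/
def fBL (WE : ℕ) (l : List (List (ℕ × List (ℕ × ℕ)))) :
    (List (ℕ × ℕ × ℕ × ℕ × ℕ) → Bool) → Bool :=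
  List.rec (motive := fun _ => (List (ℕ × ℕ × ℕ × ℕ × ℕ) → Bool) → Bool) (fun f => f [])
    (fun xs _ ih f => fN (pkB xs) (fun b => fN (pkM xs) (fun m => fN (Nat.mul C1 m) (fun m1 =>
      fN (Nat.mul C2 m) (fun mt => fN (pkE WE xs) (fun e =>
        ih (fun r => f ((b, m, m1, mt, e) :: r)))))))) l

/-- cut into blocks -/
def chunk (l : List (ℕ × List (ℕ × ℕ))) : ℕ → List (ℕ × List (ℕ × ℕ)) →
    List (List (ℕ × List (ℕ × ℕ))) → List (List (ℕ × List (ℕ × ℕ))) :=
  List.rec (motive := fun _ => ℕ → List (ℕ × List (ℕ × ℕ)) →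
      List (List (ℕ × List (ℕ × ℕ))) → List (List (ℕ × List (ℕ × ℕ)))) (fun _ cur acc => cur :: acc)
    (fun a _ ih c cur acc => bite (Nat.beq c 0) (ih 63 [a] (cur :: acc))
      (fN (Nat.sub c 1) (fun c' => ih c' (a :: cur) acc))) l

/-- evaluate the list of the blocks before going on -/
def fCL (l : List (List (ℕ × List (ℕ × ℕ)))) :
    (List (List (ℕ × List (ℕ × ℕ))) → Bool) → Bool :=
  List.rec (motive := fun _ => (List (List (ℕ × List (ℕ × ℕ))) → Bool) → Bool) (fun f => f [])
    (fun a _ ih f => ih (fun r => f (a :: r))) l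

/-- levels for blocks of `2 ^ n` elements with environments of `we` bits -/
def lvl (we : ℕ) : ℕ → List (ℕ × ℕ × ℕ × ℕ)
  | 0 => []
  | n + 1 => (442 * 2 ^ n, 2 ^ (442 * 2 ^ n) - 1, we * 2 ^ n, 2 ^ (we * 2 ^ n) - 1) :: lvl we n

/-- evaluate the levels before going on -/
def fLV (l : List (ℕ × ℕ × ℕ × ℕ)) : (List (ℕ × ℕ × ℕ × ℕ) → Bool) → Bool :=
  List.rec (motive := fun _ => (List (ℕ × ℕ × ℕ × ℕ) → Bool) → Bool) (fun f => f [])
    (fun q _ ih f => fN q.1 (fun a => fN q.2.1 (fun b => fN q.2.2.1 (fun c => fN q.2.2.2 (fun d =>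
      ih (fun r => f ((a, b, c, d) :: r))))))) l

/-- the test of a result of the right strip against all blocks -/
def kB (nodes : List (ℕ × ℕ × List ℕ)) (nms : List ℕ) (lv : List (ℕ × ℕ × ℕ × ℕ))
    (BL : List (ℕ × ℕ × ℕ × ℕ × ℕ)) (R : ℕ) (env : List (ℕ × ℕ)) : Bool :=
  fN (Nat.land R C1) (fun R' => allB (tstB nodes nms lv R' env) BL)

/-- the list of the left strip, checked and packed -/
def withB (l : List St) (nms : List ℕ) (WE : ℕ) (K : List (ℕ × ℕ × ℕ × ℕ × ℕ) → Bool) : Bool :=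
  fLL (runL l 2097151 ID [] []) (fun LL =>
    band (allLL (fun RL envL => band (Nat.ble RL C1) (eqE nms envL)) LL)
      (fCL (chunk LL 64 [] []) (fun CL => fBL WE CL K)))

/-- the check for a ring -/
def ringC (l r : List St) (nodes : List (ℕ × ℕ × List ℕ)) (nms : List ℕ) : Bool :=
  fN (7 * nms.length) (fun we => fN (2 ^ we) (fun WE => fLV (lvl we 6) (fun lv =>
    withB l nms WE (fun BL => runC (kB nodes nms lv BL) r 0 ID []))))

/-! ### arithmetic of packed numbers -/

theorem pkB_cons (x : ℕ × List (ℕ × ℕ)) (xs : List (ℕ × List (ℕ × ℕ))) :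
    pkB (x :: xs) = x.1 + 2 ^ 442 * pkB xs := rfl

theorem pkM_cons (x : ℕ × List (ℕ × ℕ)) (xs : List (ℕ × List (ℕ × ℕ))) :
    pkM (x :: xs) = 1 + 2 ^ 442 * pkM xs := rfl

theorem pkE_cons (WE : ℕ) (x : ℕ × List (ℕ × ℕ)) (xs : List (ℕ × List (ℕ × ℕ))) :
    pkE WE (x :: xs) = pk x.2 + WE * pkE WE xs := rfl

theorem pk_cons (x : ℕ × ℕ) (xs : List (ℕ × ℕ)) : pk (x :: xs) = x.2 + 128 * pk xs := rfl

theorem unpk_cons (n : ℕ) (nms : List ℕ) (e : ℕ) :
    unpk (n :: nms) e = (n, Nat.land e 127) :: unpk nms (Nat.shiftRight e 7) := rfl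

theorem land_pk {w a b p q : ℕ} (ha : a < 2 ^ w) (hb : b < 2 ^ w) :
    (a + 2 ^ w * p) &&& (b + 2 ^ w * q) = (a &&& b) + 2 ^ w * (p &&& q) := by
  have hab : a &&& b < 2 ^ w := Nat.and_lt_two_pow _ hb
  apply Nat.eq_of_testBit_eq
  intro j
  rw [Nat.testBit_land, Nat.add_comm a, Nat.add_comm b, Nat.add_comm (a &&& b),
    Nat.testBit_two_pow_mul_add _ ha, Nat.testBit_two_pow_mul_add _ hb,
    Nat.testBit_two_pow_mul_add _ hab]
  by_cases hj : j < w
  · rw [if_pos hj, if_pos hj, if_pos hj, Nat.testBit_land]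
  · rw [if_neg hj, if_neg hj, if_neg hj, Nat.testBit_land]

theorem xor_pk {w a b p q : ℕ} (ha : a < 2 ^ w) (hb : b < 2 ^ w) :
    (a + 2 ^ w * p) ^^^ (b + 2 ^ w * q) = (a ^^^ b) + 2 ^ w * (p ^^^ q) := by
  have hab : a ^^^ b < 2 ^ w := Nat.xor_lt_two_pow ha hb
  apply Nat.eq_of_testBit_eq
  intro j
  rw [Nat.testBit_xor, Nat.add_comm a, Nat.add_comm b, Nat.add_comm (a ^^^ b),
    Nat.testBit_two_pow_mul_add _ ha, Nat.testBit_two_pow_mul_add _ hb,
    Nat.testBit_two_pow_mul_add _ hab]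
  by_cases hj : j < w
  · rw [if_pos hj, if_pos hj, if_pos hj, Nat.testBit_xor]
  · rw [if_neg hj, if_neg hj, if_neg hj, Nat.testBit_xor]

/-- the failing positions -/
theorem fail_bit {R : ℕ} (hR : R < 2 ^ 441) : ∀ (xs : List (ℕ × List (ℕ × ℕ))),
    (∀ x ∈ xs, x.1 < 2 ^ 441) → ∀ i (hi : i < xs.length), Nat.land R (xs[i]).1 = 0 →
    ((((pkB xs &&& (R * pkM xs)) + C1 * pkM xs) &&& (C2 * pkM xs)) ^^^ (C2 * pkM xs)).testBit
      (442 * i + 441) = true := by
  intro xs
  induction xs with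
  | nil => intro _ i hi; exact absurd hi (by simp)
  | cons x xs ih =>
    intro hx i hi h0
    have hx1 : x.1 < 2 ^ 441 := hx x (by simp)
    have h441 : (2 : ℕ) ^ 442 = 2 * 2 ^ 441 := by rw [← pow_succ']
    have hpos : (0 : ℕ) < 2 ^ 441 := by positivity
    have hC1 : C1 = 2 ^ 441 - 1 := rfl
    have hC2 : C2 = 2 ^ 441 := rfl
    have hy : x.1 &&& R < 2 ^ 441 := Nat.and_lt_two_pow _ hR
    have e1 : R * pkM (x :: xs) = R + 2 ^ 442 * (R * pkM xs) := by
      rw [pkM_cons]; ring
    have e2 : C1 * pkM (x :: xs) = C1 + 2 ^ 442 * (C1 * pkM xs) := by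
      rw [pkM_cons]; ring
    have e3 : C2 * pkM (x :: xs) = C2 + 2 ^ 442 * (C2 * pkM xs) := by
      rw [pkM_cons]; ring
    have e4 : pkB (x :: xs) &&& (R * pkM (x :: xs)) =
        (x.1 &&& R) + 2 ^ 442 * (pkB xs &&& (R * pkM xs)) := by
      rw [e1, pkB_cons, land_pk (by omega) (by omega)]
    have e5 : (pkB (x :: xs) &&& (R * pkM (x :: xs))) + C1 * pkM (x :: xs) =
        ((x.1 &&& R) + C1) + 2 ^ 442 * ((pkB xs &&& (R * pkM xs)) + C1 * pkM xs) := by
      rw [e4, e2]; ring
    have hs : (x.1 &&& R) + C1 < 2 ^ 442 := by omega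
    have e6 : ((pkB (x :: xs) &&& (R * pkM (x :: xs))) + C1 * pkM (x :: xs)) &&&
        (C2 * pkM (x :: xs)) = (((x.1 &&& R) + C1) &&& C2) + 2 ^ 442 *
        (((pkB xs &&& (R * pkM xs)) + C1 * pkM xs) &&& (C2 * pkM xs)) := by
      rw [e5, e3, land_pk hs (by omega)]
    have ht : ((x.1 &&& R) + C1) &&& C2 < 2 ^ 442 := Nat.and_lt_two_pow _ (by omega)
    rw [e6, e3, xor_pk ht (by omega)]
    have hz : ((((x.1 &&& R) + C1) &&& C2) ^^^ C2) < 2 ^ 442 := Nat.xor_lt_two_pow ht (by omega)
    rw [Nat.add_comm, Nat.testBit_two_pow_mul_add _ hz]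
    cases i with
    | zero =>
      rw [if_pos (by norm_num), Nat.testBit_xor, Nat.testBit_land]
      have h1 : x.1 &&& R = 0 := by
        have h2 : R &&& x.1 = 0 := h0
        rw [Nat.and_comm]; exact h2
      have h3 : (x.1 &&& R) + C1 = 2 ^ 441 - 1 := by rw [h1, hC1]; omega
      have h4 : (2 ^ 441 - 1 : ℕ).testBit (442 * 0 + 441) = false := by
        rw [Nat.testBit_two_pow_sub_one]
        simp
      have h5 : C2.testBit (442 * 0 + 441) = true := by
        rw [hC2]
        exact Nat.testBit_two_pow_self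
      rw [h3, h4, h5]
      rfl
    | succ i =>
      have hi' : i < xs.length := by simpa using hi
      rw [if_neg (by omega)]
      have h6 : 442 * (i + 1) + 441 - 442 = 442 * i + 441 := by omega
      rw [h6]
      refine ih (fun y hy => hx y (List.mem_cons_of_mem _ hy)) i hi' ?_
      simpa using h0

theorem pk_lt : ∀ (env : List (ℕ × ℕ)), (∀ e ∈ env, e.2 < 128) → pk env < 2 ^ (7 * env.length) := by
  intro env
  induction env with
  | nil => intro _; show 0 < 2 ^ 0; norm_num
  | cons a env ih =>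
    intro h
    have h1 := ih (fun e he => h e (List.mem_cons_of_mem _ he))
    have h2 := h a (by simp)
    rw [pk_cons, List.length_cons]
    have h3 : 2 ^ (7 * (env.length + 1)) = 128 * 2 ^ (7 * env.length) := by
      rw [Nat.mul_add, pow_add]; norm_num; ring
    rw [h3]
    omega

theorem unpk_pk : ∀ (env : List (ℕ × ℕ)), (∀ e ∈ env, e.2 < 128) →
    unpk (env.map Prod.fst) (pk env) = env := by
  intro env
  induction env with
  | nil => intro _; rfl
  | cons a env ih =>
    intro h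
    have h1 := ih (fun e he => h e (List.mem_cons_of_mem _ he))
    have h2 := h a (by simp)
    rw [pk_cons, List.map_cons, unpk_cons]
    have h3 : Nat.land (a.2 + 128 * pk env) 127 = a.2 := by
      show (a.2 + 128 * pk env) &&& 127 = a.2
      have : (127 : ℕ) = 2 ^ 7 - 1 := by norm_num
      rw [this, Nat.and_two_pow_sub_one_eq_mod]
      omega
    have h4 : Nat.shiftRight (a.2 + 128 * pk env) 7 = pk env := by
      show (a.2 + 128 * pk env) >>> 7 = pk env
      rw [Nat.shiftRight_eq_div_pow]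
      omega
    rw [h3, h4, h1]

theorem eqE_iff : ∀ (nms : List ℕ) (env : List (ℕ × ℕ)), eqE nms env = true →
    env.map Prod.fst = nms ∧ ∀ e ∈ env, e.2 < 128 := by
  intro nms
  induction nms with
  | nil =>
    intro env h
    cases env with
    | nil => exact ⟨rfl, fun e he => by simp at he⟩
    | cons a t => exact absurd h (by simp [eqE])
  | cons n nms ih =>
    intro env h
    cases env with
    | nil => exact absurd h (by simp [eqE])
    | cons a t =>
      have h1 : band (Nat.beq n a.1) (band (Nat.ble a.2 127) (eqE nms t)) = true := h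
      rw [band_eq, band_eq] at h1
      obtain ⟨h2, h3, h4⟩ := h1
      obtain ⟨h5, h6⟩ := ih t h4
      refine ⟨?_, ?_⟩
      · rw [List.map_cons, h5]
        have := Nat.eq_of_beq_eq_true h2
        rw [this]
      · intro e he
        rw [List.mem_cons] at he
        rcases he with rfl | he
        · have := Nat.le_of_ble_eq_true h3
          omega
        · exact h6 e he

/-- the environment of an element of a block -/
theorem pkE_dig {we : ℕ} : ∀ (xs : List (ℕ × List (ℕ × ℕ))),
    (∀ x ∈ xs, pk x.2 < 2 ^ we) → ∀ i (hi : i < xs.length),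
    (pkE (2 ^ we) xs >>> (we * i)) &&& (2 ^ we - 1) = pk (xs[i]).2 := by
  intro xs
  induction xs with
  | nil => intro _ i hi; exact absurd hi (by simp)
  | cons x xs ih =>
    intro hx i hi
    have h1 := hx x (by simp)
    rw [pkE_cons]
    cases i with
    | zero =>
      rw [Nat.and_two_pow_sub_one_eq_mod]
      simp only [Nat.mul_zero, Nat.shiftRight_zero, List.getElem_cons_zero]
      rw [Nat.add_mul_mod_self_left, Nat.mod_eq_of_lt h1]
    | succ i =>
      have hi' : i < xs.length := by simpa using hi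
      have h2 := ih (fun y hy => hx y (List.mem_cons_of_mem _ hy)) i hi'
      rw [List.getElem_cons_succ, ← h2]
      congr 1
      have h3 : we * (i + 1) = we + we * i := by ring
      rw [h3, Nat.shiftRight_add]
      congr 1
      rw [Nat.shiftRight_eq_div_pow, Nat.add_comm, Nat.mul_add_div (by positivity),
        Nat.div_eq_of_lt h1, Nat.add_zero]

/-! ### the blocks -/

theorem unpk_congr : ∀ (nms : List ℕ) (e e' : ℕ),
    (∀ j, j < 7 * nms.length → e.testBit j = e'.testBit j) → unpk nms e = unpk nms e' := by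
  intro nms
  induction nms with
  | nil => intro e e' _; rfl
  | cons n nms ih =>
    intro e e' h
    rw [unpk_cons, unpk_cons]
    have h1 : Nat.land e 127 = Nat.land e' 127 := by
      show e &&& 127 = e' &&& 127
      apply Nat.eq_of_testBit_eq
      intro j
      rw [Nat.testBit_land, Nat.testBit_land]
      by_cases hj : j < 7
      · rw [h j (by rw [List.length_cons]; omega)]
      · have h2 : (127 : ℕ).testBit j = false := by
          have h3 : (127 : ℕ) = 2 ^ 7 - 1 := by norm_num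
          rw [h3, Nat.testBit_two_pow_sub_one]
          simp [hj]
        rw [h2, Bool.and_false, Bool.and_false]
    rw [h1]
    congr 1
    refine ih _ _ (fun j hj => ?_)
    show (e >>> 7).testBit j = (e' >>> 7).testBit j
    rw [Nat.testBit_shiftRight, Nat.testBit_shiftRight]
    exact h _ (by rw [List.length_cons]; omega)

theorem loopB_sound {nodes : List (ℕ × ℕ × List ℕ)} {nms : List ℕ} {env : List (ℕ × ℕ)}
    {we : ℕ} (hwe : we = 7 * nms.length) : ∀ (n : ℕ) (F e : ℕ),
    loopB nodes nms env (lvl we n) F e = true →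
    ∀ i, i < 2 ^ n → F.testBit (442 * i + 441) = true →
    gsat (app env (unpk nms (e >>> (we * i)))) nodes [] = false := by
  intro n
  induction n with
  | zero =>
    intro F e h i hi hF
    have hi0 : i = 0 := by simpa using hi
    subst hi0
    have h1 : bite (Nat.beq F 0) true (fN e (fun e' =>
      Bool.not (gsat (app env (unpk nms e')) nodes []))) = true := h
    cases hb : Nat.beq F 0 with
    | true =>
      rw [Nat.eq_of_beq_eq_true hb, Nat.zero_testBit] at hF
      exact absurd hF (by simp)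
    | false =>
      rw [hb, bite_false, fN_eq] at h1
      simpa using h1
  | succ n ih =>
    intro F e h i hi hF
    have h1 : bite (Nat.beq F 0) true
      (band (fN (Nat.land F (2 ^ (442 * 2 ^ n) - 1))
          (fun F' => loopB nodes nms env (lvl we n) F' (Nat.land e (2 ^ (we * 2 ^ n) - 1))))
        (fN (Nat.shiftRight F (442 * 2 ^ n))
          (fun F' => loopB nodes nms env (lvl we n) F' (Nat.shiftRight e (we * 2 ^ n))))) =
        true := h
    cases hb : Nat.beq F 0 with
    | true =>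
      rw [Nat.eq_of_beq_eq_true hb, Nat.zero_testBit] at hF
      exact absurd hF (by simp)
    | false =>
      rw [hb, bite_false, band_eq, fN_eq, fN_eq] at h1
      by_cases hin : i < 2 ^ n
      · have h2 := ih _ _ h1.1 i hin (by
          show (F &&& (2 ^ (442 * 2 ^ n) - 1)).testBit (442 * i + 441) = true
          rw [Nat.testBit_land, hF, Nat.testBit_two_pow_sub_one, Bool.true_and, decide_eq_true_eq]
          omega)
        rw [← h2]
        congr 2
        refine unpk_congr nms _ _ (fun j hj => ?_)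
        rw [Nat.testBit_shiftRight, Nat.testBit_shiftRight]
        show _ = (e &&& (2 ^ (we * 2 ^ n) - 1)).testBit (we * i + j)
        have h4 : we * i + j < we * 2 ^ n := by
          calc we * i + j < we * i + we := by omega
            _ = we * (i + 1) := by ring
            _ ≤ we * 2 ^ n := Nat.mul_le_mul_left _ hin
        rw [Nat.testBit_land, Nat.testBit_two_pow_sub_one]
        simp [h4]
      · obtain ⟨i', rfl⟩ : ∃ i', i = 2 ^ n + i' := ⟨i - 2 ^ n, by omega⟩
        have hi' : i' < 2 ^ n := by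
          have : 2 ^ (n + 1) = 2 ^ n + 2 ^ n := by ring
          omega
        have h2 := ih _ _ h1.2 i' hi' (by
          show (F >>> (442 * 2 ^ n)).testBit (442 * i' + 441) = true
          rw [Nat.testBit_shiftRight]
          have h3 : 442 * 2 ^ n + (442 * i' + 441) = 442 * (2 ^ n + i') + 441 := by ring
          rw [h3]; exact hF)
        rw [← h2]
        congr 3
        show _ = (e >>> (we * 2 ^ n)) >>> (we * i')
        rw [← Nat.shiftRight_add]
        congr 1
        ring

theorem tstB_sound {nodes : List (ℕ × ℕ × List ℕ)} {nms : List ℕ} {n R : ℕ}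
    (hR : R < 2 ^ 441) {env : List (ℕ × ℕ)} {xs : List (ℕ × List (ℕ × ℕ))}
    (hlen : xs.length ≤ 2 ^ n)
    (hx : ∀ x ∈ xs, x.1 < 2 ^ 441 ∧ x.2.map Prod.fst = nms ∧ ∀ e ∈ x.2, e.2 < 128)
    (h : tstB nodes nms (lvl (7 * nms.length) n) R env (pkB xs) (pkM xs)
      (C1 * pkM xs) (C2 * pkM xs) (pkE (2 ^ (7 * nms.length)) xs) = true) :
    ∀ x ∈ xs, Nat.land R x.1 ≠ 0 ∨ gsat (app env x.2) nodes [] = false := by
  intro x hxm
  by_cases h0 : Nat.land R x.1 = 0
  · right
    obtain ⟨i, hi, rfl⟩ := List.mem_iff_getElem.1 hxm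
    have h1 := fail_bit hR xs (fun y hy => (hx y hy).1) i hi h0
    unfold tstB at h
    rw [fN_eq] at h
    change bite (Nat.beq (((pkB xs &&& (R * pkM xs)) + C1 * pkM xs) &&& (C2 * pkM xs))
      (C2 * pkM xs)) true (fN ((((pkB xs &&& (R * pkM xs)) + C1 * pkM xs) &&& (C2 * pkM xs)) ^^^
      (C2 * pkM xs)) (fun F => loopB nodes nms env (lvl (7 * nms.length) n) F
      (pkE (2 ^ (7 * nms.length)) xs))) = true at h
    cases hb : Nat.beq (((pkB xs &&& (R * pkM xs)) + C1 * pkM xs) &&& (C2 * pkM xs))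
      (C2 * pkM xs) with
    | true =>
      rw [Nat.eq_of_beq_eq_true hb, Nat.xor_self, Nat.zero_testBit] at h1
      exact absurd h1 (by simp)
    | false =>
      rw [hb, bite_false, fN_eq] at h
      have h2 := loopB_sound rfl n _ _ h i (lt_of_lt_of_le hi hlen) h1
      have h4 := pkE_dig (we := 7 * nms.length) xs (fun y hy => by
        have h5 := hx y hy
        have h6 := pk_lt y.2 h5.2.2
        have h7 : y.2.length = nms.length := by rw [← h5.2.1, List.length_map]
        rw [h7] at h6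
        exact h6) i hi
      have h6 := hx _ hxm
      have h7 := unpk_pk (xs[i]).2 h6.2.2
      rw [h6.2.1, ← h4] at h7
      rw [← h7]
      rw [← h2]
      congr 2
      refine unpk_congr nms _ _ (fun j hj => ?_)
      rw [Nat.testBit_land, Nat.testBit_two_pow_sub_one]
      simp [hj]
  · exact Or.inl h0

theorem lvl_eq : ∀ (l : List (ℕ × ℕ × ℕ × ℕ)) (f : List (ℕ × ℕ × ℕ × ℕ) → Bool),
    fLV l f = f l := by
  intro l
  induction l with
  | nil => intro f; rfl
  | cons q l ih =>
    intro f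
    show fN q.1 (fun a => fN q.2.1 (fun b => fN q.2.2.1 (fun c => fN q.2.2.2 (fun d =>
      fLV l (fun r => f ((a, b, c, d) :: r)))))) = _
    rw [fN_eq, fN_eq, fN_eq, fN_eq, ih]

theorem allB_mem {f : ℕ → ℕ → ℕ → ℕ → ℕ → Bool} {l : List (ℕ × ℕ × ℕ × ℕ × ℕ)}
    (h : allB f l = true) {a : ℕ × ℕ × ℕ × ℕ × ℕ} (ha : a ∈ l) :
    f a.1 a.2.1 a.2.2.1 a.2.2.2.1 a.2.2.2.2 = true := by
  induction l with
  | nil => simp at ha
  | cons b l ih =>
    have h1 : band (f b.1 b.2.1 b.2.2.1 b.2.2.2.1 b.2.2.2.2) (allB f l) = true := h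
    rw [band_eq] at h1
    rw [List.mem_cons] at ha
    rcases ha with rfl | ha
    · exact h1.1
    · exact ih h1.2 ha

/-- the packed form of a block -/
def PB (WE : ℕ) (xs : List (ℕ × List (ℕ × ℕ))) : ℕ × ℕ × ℕ × ℕ × ℕ :=
  (pkB xs, pkM xs, C1 * pkM xs, C2 * pkM xs, pkE WE xs)

theorem fBL_eq (WE : ℕ) : ∀ (l : List (List (ℕ × List (ℕ × ℕ))))
    (f : List (ℕ × ℕ × ℕ × ℕ × ℕ) → Bool), fBL WE l f = f (l.map (PB WE)) := by
  intro l
  induction l with
  | nil => intro f; rfl
  | cons xs l ih =>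
    intro f
    show fN (pkB xs) (fun b => fN (pkM xs) (fun m => fN (Nat.mul C1 m) (fun m1 =>
      fN (Nat.mul C2 m) (fun mt => fN (pkE WE xs) (fun e =>
        fBL WE l (fun r => f ((b, m, m1, mt, e) :: r))))))) = _
    rw [fN_eq, fN_eq, fN_eq, fN_eq, fN_eq, ih]
    rfl

theorem fCL_eq : ∀ (l : List (List (ℕ × List (ℕ × ℕ)))) (f : List (List (ℕ × List (ℕ × ℕ))) → Bool),
    fCL l f = f l := by
  intro l
  induction l with
  | nil => intro f; rfl
  | cons xs l ih =>
    intro f
    show fCL l (fun r => f (xs :: r)) = _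
    rw [ih]

theorem chunk_mem : ∀ (l : List (ℕ × List (ℕ × ℕ))) (c : ℕ) (cur : List (ℕ × List (ℕ × ℕ)))
    (acc : List (List (ℕ × List (ℕ × ℕ)))) (x : ℕ × List (ℕ × ℕ)),
    (x ∈ l ∨ x ∈ cur ∨ ∃ ys ∈ acc, x ∈ ys) → ∃ ys ∈ chunk l c cur acc, x ∈ ys := by
  intro l
  induction l with
  | nil =>
    intro c cur acc x h
    rcases h with h | h | ⟨ys, h1, h2⟩
    · simp at h
    · exact ⟨cur, List.mem_cons_self, h⟩
    · exact ⟨ys, List.mem_cons_of_mem _ h1, h2⟩
  | cons a l ih =>
    intro c cur acc x h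
    show ∃ ys ∈ bite (Nat.beq c 0) (chunk l 63 [a] (cur :: acc))
      (fN (Nat.sub c 1) (fun c' => chunk l c' (a :: cur) acc)), x ∈ ys
    rw [fN_eq]
    cases Nat.beq c 0 with
    | true =>
      rw [bite_true]
      refine ih _ _ _ x ?_
      rcases h with h | h | ⟨ys, h1, h2⟩
      · rw [List.mem_cons] at h
        rcases h with rfl | h
        · exact Or.inr (Or.inl (by simp))
        · exact Or.inl h
      · exact Or.inr (Or.inr ⟨cur, List.mem_cons_self, h⟩)
      · exact Or.inr (Or.inr ⟨ys, List.mem_cons_of_mem _ h1, h2⟩)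
    | false =>
      rw [bite_false]
      refine ih _ _ _ x ?_
      rcases h with h | h | ⟨ys, h1, h2⟩
      · rw [List.mem_cons] at h
        rcases h with rfl | h
        · exact Or.inr (Or.inl List.mem_cons_self)
        · exact Or.inl h
      · exact Or.inr (Or.inl (List.mem_cons_of_mem _ h))
      · exact Or.inr (Or.inr ⟨ys, h1, h2⟩)

theorem chunk_sub : ∀ (l : List (ℕ × List (ℕ × ℕ))) (c : ℕ) (cur : List (ℕ × List (ℕ × ℕ)))
    (acc : List (List (ℕ × List (ℕ × ℕ)))) (x : ℕ × List (ℕ × ℕ)),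
    (∃ ys ∈ chunk l c cur acc, x ∈ ys) → (x ∈ l ∨ x ∈ cur ∨ ∃ ys ∈ acc, x ∈ ys) := by
  intro l
  induction l with
  | nil =>
    intro c cur acc x h
    obtain ⟨ys, h1, h2⟩ := h
    have h3 : ys ∈ cur :: acc := h1
    rw [List.mem_cons] at h3
    rcases h3 with rfl | h3
    · exact Or.inr (Or.inl h2)
    · exact Or.inr (Or.inr ⟨ys, h3, h2⟩)
  | cons a l ih =>
    intro c cur acc x h
    have h' : ∃ ys ∈ bite (Nat.beq c 0) (chunk l 63 [a] (cur :: acc))
      (fN (Nat.sub c 1) (fun c' => chunk l c' (a :: cur) acc)), x ∈ ys := h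
    rw [fN_eq] at h'
    cases hc : Nat.beq c 0 with
    | true =>
      rw [hc, bite_true] at h'
      rcases ih _ _ _ x h' with h1 | h1 | ⟨ys, h1, h2⟩
      · exact Or.inl (List.mem_cons_of_mem _ h1)
      · rw [List.mem_singleton] at h1
        exact Or.inl (by rw [h1]; exact List.mem_cons_self)
      · rw [List.mem_cons] at h1
        rcases h1 with rfl | h1
        · exact Or.inr (Or.inl h2)
        · exact Or.inr (Or.inr ⟨ys, h1, h2⟩)
    | false =>
      rw [hc, bite_false] at h'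
      rcases ih _ _ _ x h' with h1 | h1 | ⟨ys, h1, h2⟩
      · exact Or.inl (List.mem_cons_of_mem _ h1)
      · rw [List.mem_cons] at h1
        rcases h1 with rfl | h1
        · exact Or.inl List.mem_cons_self
        · exact Or.inr (Or.inl h1)
      · exact Or.inr (Or.inr ⟨ys, h1, h2⟩)

theorem chunk_len : ∀ (l : List (ℕ × List (ℕ × ℕ))) (c : ℕ) (cur : List (ℕ × List (ℕ × ℕ)))
    (acc : List (List (ℕ × List (ℕ × ℕ)))), cur.length + c ≤ 64 → (∀ ys ∈ acc, ys.length ≤ 64) →
    ∀ ys ∈ chunk l c cur acc, ys.length ≤ 64 := by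
  intro l
  induction l with
  | nil =>
    intro c cur acc h1 h2 ys hys
    have h3 : ys ∈ cur :: acc := hys
    rw [List.mem_cons] at h3
    rcases h3 with rfl | h3
    · omega
    · exact h2 ys h3
  | cons a l ih =>
    intro c cur acc h1 h2 ys hys
    have h' : ys ∈ bite (Nat.beq c 0) (chunk l 63 [a] (cur :: acc))
      (fN (Nat.sub c 1) (fun c' => chunk l c' (a :: cur) acc)) := hys
    rw [fN_eq] at h'
    cases hc : Nat.beq c 0 with
    | true =>
      rw [hc, bite_true] at h'
      refine ih 63 [a] (cur :: acc) (by simp) (fun zs hzs => ?_) ys h'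
      rw [List.mem_cons] at hzs
      rcases hzs with rfl | hzs
      · omega
      · exact h2 zs hzs
    | false =>
      rw [hc, bite_false] at h'
      refine ih _ _ _ ?_ h2 ys h'
      have hc0 : c ≠ 0 := by
        intro h0
        rw [h0] at hc
        exact absurd hc (by decide)
      rw [List.length_cons]
      have h3 : Nat.sub c 1 = c - 1 := rfl
      rw [h3]
      omega

/-- the meaning of the packed test -/
theorem withB_sound {l : List St} {nodes : List (ℕ × ℕ × List ℕ)} {nms : List ℕ}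
    {K : List (ℕ × ℕ × ℕ × ℕ × ℕ) → Bool}
    (h : withB l nms (2 ^ (7 * nms.length)) K = true) :
    ∃ BL, K BL = true ∧ ∀ (R : ℕ) (env : List (ℕ × ℕ)),
      kB nodes nms (lvl (7 * nms.length) 6) BL R env = true →
      ∀ x ∈ runL l 2097151 ID [] [], Nat.land R x.1 ≠ 0 ∨ gsat (app env x.2) nodes [] = false := by
  unfold withB at h
  rw [fLL_eq, band_eq, fCL_eq, fBL_eq] at h
  obtain ⟨h1, h2⟩ := h
  refine ⟨_, h2, ?_⟩
  intro R env hk x hx
  obtain ⟨ys, hys, hxy⟩ := chunk_mem (runL l 2097151 ID [] []) 64 [] [] x (Or.inl hx)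
  unfold kB at hk
  rw [fN_eq] at hk
  have h3 := allB_mem hk (List.mem_map_of_mem hys)
  have hR : Nat.land R C1 < 2 ^ 441 := by
    show R &&& C1 < 2 ^ 441
    refine Nat.and_lt_two_pow _ ?_
    have : C1 = 2 ^ 441 - 1 := rfl
    have hpos : (0 : ℕ) < 2 ^ 441 := by positivity
    omega
  have h4 : ∀ y ∈ ys, y.1 < 2 ^ 441 ∧ y.2.map Prod.fst = nms ∧ ∀ e ∈ y.2, e.2 < 128 := by
    intro y hy
    have h5 : y ∈ runL l 2097151 ID [] [] := by
      rcases chunk_sub _ _ _ _ y ⟨ys, hys, hy⟩ with h6 | h6 | ⟨_, h6, _⟩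
      · exact h6
      · simp at h6
      · simp at h6
    have h6 := allLL_mem h1 h5
    rw [band_eq] at h6
    refine ⟨?_, eqE_iff _ _ h6.2⟩
    have h7 := Nat.le_of_ble_eq_true h6.1
    have : C1 = 2 ^ 441 - 1 := rfl
    have hpos : (0 : ℕ) < 2 ^ 441 := by positivity
    omega
  have hlen : ys.length ≤ 2 ^ 6 := chunk_len _ _ _ _ (by simp) (fun _ hz => by simp at hz) ys hys
  have h5 := tstB_sound hR hlen h4 h3 x hxy
  rcases h5 with h5 | h5
  · left
    intro h6
    apply h5
    show (R &&& C1) &&& x.1 = 0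
    have h7 : R &&& x.1 = 0 := h6
    rw [Nat.and_assoc, Nat.and_comm C1, ← Nat.and_assoc, h7]
    simp
  · exact Or.inr h5

theorem ringC_sound {l r : List St} {nodes : List (ℕ × ℕ × List ℕ)} {nms : List ℕ}
    (h : ringC l r nodes nms = true) (Λ : ℕ → Finset (Fin 7)) (hl : OkS Λ l) (hr : OkS Λ r) :
    ∃ σ : Equiv.Perm (Fin 7),
      Nat.land (res (act σ Λ) r ID []).1 (res (act σ Λ) l ID []).1 ≠ 0 ∨
      gsat (app (res (act σ Λ) r ID []).2 (res (act σ Λ) l ID []).2) nodes [] = false := by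
  unfold ringC at h
  rw [fN_eq, fN_eq, lvl_eq] at h
  obtain ⟨BL, h1, h2⟩ := withB_sound (nodes := nodes) h
  obtain ⟨σ, _, h3⟩ := runL_sound l (fun _ : Fin 7 => ()) 2097151 ID [] Λ WOk_one
    (fun e he => by simp at he) (fun e he => by simp at he) hl
  obtain ⟨τ, hτ, h4⟩ := runC_sound r (fun x : Fin 7 => x) 0 ID [] (act σ Λ) h1 WOk_zero
    (fun e he => by simp at he) (fun e he => by simp at he) (OkS_act σ Λ r hr)
  have h5 : τ = 1 := Equiv.ext hτ
  rw [h5, act_one] at h4
  exact ⟨σ, h2 _ _ h4 _ (h3 [])⟩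

end

end Pool.Agent.Lib.SVX.Chk
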