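import Pool.Agent.Lib.SVX.ChkL

/-!
# SVX.ChkC: from bits of the relation to colourings (MP_0229a2_co)
-/

set_option autoImplicit false
set_option maxRecDepth 100000

namespace Pool.Agent.Lib.SVX.Chk

open Finset

variable {Λ : ℕ → Finset (Fin 7)}

/-- the set `C` is available at the vertex `n` -/
def Avl (Λ : ℕ → Finset (Fin 7)) (n : ℕ) (L : Bool) (ns : List ℕ) (C : Finset (Fin 7)) : Prop :=
  (L = true → C ⊆ Λ n) ∧ ∀ t ∈ ns, Disjoint C (Λ t)

/-- the conditions at a vertex -/
def VDs (Λ χ : ℕ → Finset (Fin 7)) (d : VD) : Prop :=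
  Avl Λ d.v d.L d.ns (χ d.v) ∧
    ∀ q ∈ d.ps, Avl Λ q.1 q.2.1 q.2.2 (χ q.1) ∧ Disjoint (χ d.v) (χ q.1)

/-- the conditions of an instruction -/
def Sts (Λ χ : ℕ → Finset (Fin 7)) : St → Prop
  | .par _ _ _ => True
  | .vf d => VDs Λ χ d
  | .ed u v => Disjoint (χ u) (χ v)
  | .tr u v d => Disjoint (χ u) (χ v) ∧ Disjoint (χ u) (χ d.v) ∧ Disjoint (χ v) (χ d.v) ∧
      VDs Λ χ d
  | .pw _ _ => True
  | .tx u v n w => Disjoint (χ u) (χ v) ∧ Disjoint (χ u) (χ n) ∧ Disjoint (χ v) (χ n) ∧
      (χ n ⊆ Λ n ∨ χ n ⊆ Λ w)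

/-- the names at a vertex -/
def VD.nm (d : VD) : List ℕ := d.v :: d.ps.map Prod.fst

/-- the names of an instruction -/
def St.nm : St → List ℕ
  | .par _ _ _ => []
  | .vf d => d.nm
  | .ed u v => [u, v]
  | .tr u v d => u :: v :: d.nm
  | .pw _ _ => []
  | .tx u v n _ => [u, v, n]

theorem VDs_congr {χ χ' : ℕ → Finset (Fin 7)} {d : VD} (h : ∀ x ∈ d.nm, χ x = χ' x)
    (hd : VDs Λ χ d) : VDs Λ χ' d := by
  have h0 : χ d.v = χ' d.v := h _ List.mem_cons_self
  have h1 : ∀ q ∈ d.ps, χ q.1 = χ' q.1 := fun q hq =>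
    h _ (List.mem_cons_of_mem _ (List.mem_map_of_mem hq))
  refine ⟨by rw [← h0]; exact hd.1, fun q hq => ?_⟩
  rw [← h0, ← h1 q hq]
  exact hd.2 q hq

theorem Sts_congr {χ χ' : ℕ → Finset (Fin 7)} {st : St} (h : ∀ x ∈ st.nm, χ x = χ' x)
    (hd : Sts Λ χ st) : Sts Λ χ' st := by
  cases st with
  | par s n dis => trivial
  | vf d => exact VDs_congr h hd
  | ed u v =>
    have h0 : χ u = χ' u := h _ (by simp [St.nm])
    have h1 : χ v = χ' v := h _ (by simp [St.nm])
    show Disjoint (χ' u) (χ' v)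
    rw [← h0, ← h1]
    exact hd
  | tr u v d =>
    have h0 : χ u = χ' u := h _ (by simp [St.nm])
    have h1 : χ v = χ' v := h _ (by simp [St.nm])
    have h2 : ∀ x ∈ d.nm, χ x = χ' x := fun x hx => h x (by simp [St.nm, hx])
    have h3 : χ d.v = χ' d.v := h2 _ List.mem_cons_self
    obtain ⟨h4, h5, h6, h7⟩ := hd
    refine ⟨?_, ?_, ?_, VDs_congr h2 h7⟩
    · rw [← h0, ← h1]; exact h4
    · rw [← h0, ← h3]; exact h5
    · rw [← h1, ← h3]; exact h6
  | pw n m => trivial
  | tx u v n w =>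
    have h0 : χ u = χ' u := h _ (by simp [St.nm])
    have h1 : χ v = χ' v := h _ (by simp [St.nm])
    have h2 : χ n = χ' n := h _ (by simp [St.nm])
    obtain ⟨h4, h5, h6, h7⟩ := hd
    refine ⟨?_, ?_, ?_, ?_⟩
    · rw [← h0, ← h1]; exact h4
    · rw [← h0, ← h2]; exact h5
    · rw [← h1, ← h2]; exact h6
    · rw [← h2]; exact h7

theorem am_lt {env : List (ℕ × ℕ)} (hc : Cmp env Λ) (n : ℕ) (L : Bool) (ns : List ℕ) :
    am env n L ns < 128 := by
  refine lt_of_le_of_lt Nat.and_le_left ?_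
  cases L
  · show 127 < 128
    norm_num
  · show lk env n < 128
    by_cases hn : n ∈ env.map Prod.fst
    · rw [lk_mem hc hn]; exact mk_lt _
    · have : lk env n = 0 := by
        clear hc
        induction env with
        | nil => rfl
        | cons e env ih =>
          rw [List.map_cons, List.mem_cons, not_or] at hn
          rw [lk_cons, if_neg (fun h => hn.1 h.symm)]
          exact ih hn.2
      rw [this]
      norm_num

theorem orL_mem {env : List (ℕ × ℕ)} (hc : Cmp env Λ) {ns : List ℕ}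
    (hns : ∀ t ∈ ns, t ∈ env.map Prod.fst) {t : ℕ} (ht : t ∈ ns) {i : Fin 7} (hi : i ∈ Λ t) :
    (orL env ns).testBit i = true := by
  induction ns with
  | nil => simp at ht
  | cons u ns ih =>
    rw [orL_cons, Nat.testBit_lor, Bool.or_eq_true]
    rw [List.mem_cons] at ht
    rcases ht with rfl | ht
    · left
      rw [lk_mem hc (hns _ List.mem_cons_self), tb_mk]
      simpa using hi
    · right
      exact ih (fun t ht => hns t (List.mem_cons_of_mem _ ht)) ht

theorem am_ok {env : List (ℕ × ℕ)} (hc : Cmp env Λ) {n : ℕ} {L : Bool} {ns : List ℕ}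
    (hn : L = true → n ∈ env.map Prod.fst) (hns : ∀ t ∈ ns, t ∈ env.map Prod.fst)
    {T : Finset (Fin 7)} (hT : T ⊆ om (am env n L ns)) : Avl Λ n L ns T := by
  have h1 : ∀ x ∈ T, (bite L (lk env n) 127).testBit x = true ∧
      (orL env ns).testBit x = false := by
    intro x hx
    have h2 := hT hx
    have h3 : am env n L ns = (bite L (lk env n) 127) &&& (127 ^^^ (orL env ns)) := rfl
    rw [mem_om, h3, Nat.testBit_land, Bool.and_eq_true, Nat.testBit_xor] at h2
    have h4 : (127 : ℕ).testBit x = true := by fin_cases x <;> rfl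
    rw [h4] at h2
    exact ⟨h2.1, by simpa using h2.2⟩
  refine ⟨fun hL => ?_, fun t ht => ?_⟩
  · intro x hx
    have h2 := (h1 x hx).1
    rw [hL] at h2
    have h3 : (lk env n).testBit x = true := h2
    rw [lk_mem hc (hn hL), tb_mk] at h3
    simpa using h3
  · rw [Finset.disjoint_left]
    intro x hx hxt
    have h2 := orL_mem hc hns ht hxt
    rw [(h1 x hx).2] at h2
    exact Bool.false_ne_true h2

theorem dm_lt (env : List (ℕ × ℕ)) (d : VD) : dm env d < 2 ^ 21 := by
  obtain ⟨v, L, ns, ps⟩ := d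
  induction ps with
  | nil => exact ins_lt _
  | cons q ps ih => exact lt_of_le_of_lt Nat.and_le_right ih

theorem dm_tb {env : List (ℕ × ℕ)} {d : VD} {a : ℕ} (h : (dm env d).testBit a = true) :
    (ins (am env d.v d.L d.ns)).testBit a = true ∧
      ∀ q ∈ d.ps, (nin (am env q.1 q.2.1 q.2.2)).testBit a = true := by
  obtain ⟨v, L, ns, ps⟩ := d
  induction ps with
  | nil => exact ⟨h, fun q hq => by simp at hq⟩
  | cons q ps ih =>
    have h1 : dm env ⟨v, L, ns, q :: ps⟩ =
      (nin (am env q.1 q.2.1 q.2.2)) &&& (dm env ⟨v, L, ns, ps⟩) := rfl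
    rw [h1, Nat.testBit_land, Bool.and_eq_true] at h
    obtain ⟨h2, h3⟩ := ih h.2
    refine ⟨h2, fun q' hq' => ?_⟩
    rw [List.mem_cons] at hq'
    rcases hq' with rfl | hq'
    · exact h.1
    · exact h3 q' hq'

/-- colours of the pendant vertices -/
theorem pend_ext {env : List (ℕ × ℕ)} (hc : Cmp env Λ) {a : ℕ} (ha : a < 21)
    (ps : List (ℕ × Bool × List ℕ)) :
    (∀ q ∈ ps, (nin (am env q.1 q.2.1 q.2.2)).testBit a = true) →
    (∀ q ∈ ps, (q.2.1 = true → q.1 ∈ env.map Prod.fst) ∧ ∀ t ∈ q.2.2, t ∈ env.map Prod.fst) →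
    (ps.map Prod.fst).Nodup → ∀ χ : ℕ → Finset (Fin 7), (∀ x, (χ x).card = 2) →
    ∃ χ' : ℕ → Finset (Fin 7), (∀ x, (χ' x).card = 2) ∧ (∀ x, x ∉ ps.map Prod.fst → χ' x = χ x) ∧
      ∀ q ∈ ps, Avl Λ q.1 q.2.1 q.2.2 (χ' q.1) ∧ Disjoint (pr a) (χ' q.1) := by
  induction ps with
  | nil =>
    intro _ _ _ χ hχ
    exact ⟨χ, hχ, fun _ _ => rfl, fun q hq => by simp at hq⟩
  | cons q ps ih =>
    intro h1 h2 h3 χ hχ
    rw [List.map_cons, List.nodup_cons] at h3
    obtain ⟨χ', h4, h5, h6⟩ := ih (fun q' hq' => h1 q' (List.mem_cons_of_mem _ hq'))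
      (fun q' hq' => h2 q' (List.mem_cons_of_mem _ hq')) h3.2 χ hχ
    obtain ⟨b, hb, h7, h8⟩ := nin_ex (am_lt hc _ _ _) ha (h1 q List.mem_cons_self)
    refine ⟨Function.update χ' q.1 (pr b), ?_, ?_, ?_⟩
    · intro x
      by_cases hx : x = q.1
      · rw [hx, Function.update_self]; exact pr_card b hb
      · rw [Function.update_of_ne hx]; exact h4 x
    · intro x hx
      rw [List.map_cons, List.mem_cons, not_or] at hx
      rw [Function.update_of_ne hx.1]
      exact h5 x hx.2
    · intro q' hq'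
      rw [List.mem_cons] at hq'
      rcases hq' with rfl | hq'
      · rw [Function.update_self]
        exact ⟨am_ok hc (h2 _ List.mem_cons_self).1 (h2 _ List.mem_cons_self).2 h7, h8.symm⟩
      · have hne : q'.1 ≠ q.1 := by
          intro h
          apply h3.1
          rw [← h]
          exact List.mem_map_of_mem hq'
        rw [Function.update_of_ne hne]
        exact h6 q' hq'

/-- the names of the parameters at a vertex are known -/
def okD (d : VD) (pn : List ℕ) : Bool :=
  (!d.L || pn.contains d.v) && d.ns.all (fun t => pn.contains t) &&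
    d.ps.all (fun q => (!q.2.1 || pn.contains q.1) && q.2.2.all (fun t => pn.contains t)) &&
    decide ((d.ps.map Prod.fst).Nodup)

theorem okD_iff {d : VD} {pn : List ℕ} (h : okD d pn = true) :
    (d.L = true → d.v ∈ pn) ∧ (∀ t ∈ d.ns, t ∈ pn) ∧
      (∀ q ∈ d.ps, (q.2.1 = true → q.1 ∈ pn) ∧ ∀ t ∈ q.2.2, t ∈ pn) ∧
      (d.ps.map Prod.fst).Nodup := by
  unfold okD at h
  simp only [Bool.and_eq_true, Bool.or_eq_true, Bool.not_eq_true', List.all_eq_true,
    List.contains_iff_mem, decide_eq_true_eq] at h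
  obtain ⟨⟨⟨h1, h2⟩, h3⟩, h4⟩ := h
  refine ⟨fun hL => ?_, h2, fun q hq => ⟨fun hL => ?_, (h3 q hq).2⟩, h4⟩
  · rcases h1 with h1 | h1
    · rw [hL] at h1; exact absurd h1 (by simp)
    · exact h1
  · rcases (h3 q hq).1 with h5 | h5
    · rw [hL] at h5; exact absurd h5 (by simp)
    · exact h5

/-- extension to a vertex with its pendant vertices -/
theorem VD_ext {env : List (ℕ × ℕ)} (hc : Cmp env Λ) {d : VD} (hd : okD d (env.map Prod.fst) = true)
    {a : ℕ} (ha : a < 21) (h : (dm env d).testBit a = true) (χ : ℕ → Finset (Fin 7))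
    (hχ : ∀ x, (χ x).card = 2) (hv : χ d.v = pr a) (hvp : d.v ∉ d.ps.map Prod.fst) :
    ∃ χ' : ℕ → Finset (Fin 7), (∀ x, (χ' x).card = 2) ∧
      (∀ x, x ∉ d.ps.map Prod.fst → χ' x = χ x) ∧ VDs Λ χ' d := by
  obtain ⟨h1, h2, h3, h4⟩ := okD_iff hd
  obtain ⟨h5, h6⟩ := dm_tb h
  obtain ⟨χ', h7, h8, h9⟩ := pend_ext hc ha d.ps h6 h3 h4 χ hχ
  have h10 : χ' d.v = pr a := by rw [h8 _ hvp, hv]
  refine ⟨χ', h7, h8, ?_, fun q hq => ?_⟩
  · rw [h10]
    exact am_ok hc h1 h2 (ins_sub (am_lt hc _ _ _) ha h5)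
  · rw [h10]
    exact h9 q hq

/-- well-formed programs: `pn` names of the parameters, `cur` current vertex, `us` used names -/
def wf : List St → List ℕ → ℕ → List ℕ → Bool
  | [], _, _, _ => true
  | .par s n _ :: r, pn, cur, us => (s == 2 || s == 3 || s == 5) && wf r (n :: pn) cur us
  | .vf d :: r, pn, cur, us => d.v == cur && okD d pn &&
      (d.ps.map Prod.fst).all (fun x => !us.contains x) && wf r pn cur (d.ps.map Prod.fst ++ us)
  | .ed u v :: r, pn, cur, us => u == cur && !us.contains v && wf r pn v (v :: us)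
  | .tr u v d :: r, pn, cur, us => u == cur && !us.contains v && !(v :: us).contains d.v &&
      okD d pn && (d.ps.map Prod.fst).all (fun x => !(d.v :: v :: us).contains x) &&
      wf r pn v (d.ps.map Prod.fst ++ (d.v :: v :: us))
  | .pw n _ :: r, pn, cur, us => wf r (n :: pn) cur us
  | .tx u v n w :: r, pn, cur, us => u == cur && !us.contains v && !(v :: us).contains n &&
      pn.contains n && pn.contains w && wf r pn v (n :: v :: us)

/-- the last vertex -/
def endv : List St → ℕ → ℕ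
  | [], cur => cur
  | .par _ _ _ :: r, cur => endv r cur
  | .vf _ :: r, cur => endv r cur
  | .ed _ v :: r, _ => endv r v
  | .tr _ v _ :: r, _ => endv r v
  | .pw _ _ :: r, cur => endv r cur
  | .tx _ v _ _ :: r, _ => endv r v

/-- the invariant -/
def Inv (R u0 cur : ℕ) (C : (ℕ → Finset (Fin 7)) → Prop) : Prop :=
  ∀ j, R.testBit j = true → j / 21 < 21 ∧ ∃ χ : ℕ → Finset (Fin 7), (∀ x, (χ x).card = 2) ∧
    χ u0 = pr (j / 21) ∧ χ cur = pr (j % 21) ∧ C χ

/-- `C` depends only on the names in `us` -/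
def Dep (us : List ℕ) (C : (ℕ → Finset (Fin 7)) → Prop) : Prop :=
  ∀ χ χ' : ℕ → Finset (Fin 7), (∀ x ∈ us, χ x = χ' x) → C χ → C χ'

theorem Inv_vf {env : List (ℕ × ℕ)} (hc : Cmp env Λ) {R u0 cur : ℕ} {us : List ℕ}
    {C : (ℕ → Finset (Fin 7)) → Prop} (hdep : Dep us C) (hu0 : u0 ∈ us) (hcur : cur ∈ us)
    (hinv : Inv R u0 cur C) {d : VD} (hdv : d.v = cur) (hd : okD d (env.map Prod.fst) = true)
    (hp : ∀ x ∈ d.ps.map Prod.fst, x ∉ us) :
    Inv (step env (.vf d) R) u0 cur (fun χ => C χ ∧ Sts Λ χ (.vf d)) := by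
  intro j hj
  have h1 : step env (.vf d) R = flt R (dm env d) := rfl
  rw [h1] at hj
  obtain ⟨h2, h3⟩ := flt_tb (dm_lt env d) hj
  obtain ⟨h4, χ, h5, h6, h7, h8⟩ := hinv j h2
  obtain ⟨χ', h9, h10, h11⟩ := VD_ext hc hd (Nat.mod_lt j (by norm_num)) h3 χ h5
    (by rw [hdv]; exact h7) (fun h => hp _ h (hdv ▸ hcur))
  have h12 : ∀ x ∈ us, χ x = χ' x := fun x hx => (h10 x (fun h => hp x h hx)).symm
  exact ⟨h4, χ', h9, by rw [← h12 _ hu0, h6], by rw [← h12 _ hcur, h7], hdep χ χ' h12 h8, h11⟩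

theorem Inv_ed {R u0 cur : ℕ} {us : List ℕ} {env : List (ℕ × ℕ)}
    {C : (ℕ → Finset (Fin 7)) → Prop} (hdep : Dep us C) (hu0 : u0 ∈ us) (hcur : cur ∈ us)
    (hinv : Inv R u0 cur C) {v : ℕ} (hv : v ∉ us) :
    Inv (step env (.ed cur v) R) u0 v (fun χ => C χ ∧ Sts Λ χ (.ed cur v)) := by
  intro j hj
  have h1 : step env (.ed cur v) R = comp DJ R := rfl
  rw [h1] at hj
  obtain ⟨c, hc, h2, h3, h4⟩ := comp_tb DJ_lt hj
  rw [DJ_length] at hc
  obtain ⟨h5, χ, h6, h7, h8, h9⟩ := hinv _ h3
  have h10 : (21 * (j / 21) + c) / 21 = j / 21 := by omega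
  have h11 : (21 * (j / 21) + c) % 21 = c := by omega
  rw [h10] at h7
  rw [h11] at h8
  have hj21 : j % 21 < 21 := Nat.mod_lt j (by norm_num)
  have h12 : ∀ x ∈ us, χ x = Function.update χ v (pr (j % 21)) x := by
    intro x hx
    have hne : x ≠ v := by
      rintro rfl
      exact hv hx
    rw [Function.update_of_ne hne]
  refine ⟨h2, Function.update χ v (pr (j % 21)), ?_, ?_, ?_, hdep _ _ h12 h9, ?_⟩
  · intro x
    by_cases hx : x = v
    · rw [hx, Function.update_self]; exact pr_card _ hj21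
    · rw [Function.update_of_ne hx]; exact h6 x
  · rw [← h12 _ hu0, h7]
  · rw [Function.update_self]
  · show Disjoint (Function.update χ v (pr (j % 21)) cur) (Function.update χ v (pr (j % 21)) v)
    rw [← h12 _ hcur, Function.update_self, h8]
    exact dj_disj hc hj21 h4

theorem Inv_tr {env : List (ℕ × ℕ)} (hc : Cmp env Λ) {R u0 cur : ℕ} {us : List ℕ}
    {C : (ℕ → Finset (Fin 7)) → Prop} (hdep : Dep us C) (hu0 : u0 ∈ us) (hcur : cur ∈ us)
    (hinv : Inv R u0 cur C) {v : ℕ} {d : VD} (hv : v ∉ us) (hdv : d.v ∉ v :: us)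
    (hd : okD d (env.map Prod.fst) = true)
    (hp : ∀ x ∈ d.ps.map Prod.fst, x ∉ d.v :: v :: us) :
    Inv (step env (.tr cur v d) R) u0 v (fun χ => C χ ∧ Sts Λ χ (.tr cur v d)) := by
  intro j hj
  have h1 : step env (.tr cur v d) R = comp (trows (dm env d)) R := by
    show fN (dm env d) (fun D => comp (trows D) R) = _
    rw [fN_eq]
  rw [h1] at hj
  obtain ⟨c, hcl, h2, h3, h4⟩ := comp_tb (trows_lt _) hj
  rw [trows_length] at hcl
  obtain ⟨h5, χ, h6, h7, h8, h9⟩ := hinv _ h3
  have h10 : (21 * (j / 21) + c) / 21 = j / 21 := by omega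
  have h11 : (21 * (j / 21) + c) % 21 = c := by omega
  rw [h10] at h7
  rw [h11] at h8
  have hj21 : j % 21 < 21 := Nat.mod_lt j (by norm_num)
  obtain ⟨h12, z, hz, h13, h14, h15⟩ := trows_tb hcl hj21 h4
  rw [List.mem_cons, not_or] at hdv
  set χ1 := Function.update (Function.update χ v (pr (j % 21))) d.v (pr z) with hχ1
  have h16 : ∀ x, x ≠ v → x ≠ d.v → χ1 x = χ x := by
    intro x hx1 hx2
    rw [hχ1, Function.update_of_ne hx2, Function.update_of_ne hx1]
  have h17 : χ1 d.v = pr z := by rw [hχ1, Function.update_self]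
  have h18 : χ1 v = pr (j % 21) := by
    rw [hχ1, Function.update_of_ne (fun h => hdv.1 h.symm), Function.update_self]
  have h19 : ∀ x, (χ1 x).card = 2 := by
    intro x
    by_cases hx2 : x = d.v
    · rw [hx2, h17]; exact pr_card z hz
    · by_cases hx1 : x = v
      · rw [hx1, h18]; exact pr_card _ hj21
      · rw [h16 x hx1 hx2]; exact h6 x
  obtain ⟨χ', h20, h21, h22⟩ := VD_ext hc hd hz h13 χ1 h19 h17
    (fun h => hp _ h List.mem_cons_self)
  have h23 : ∀ x ∈ us, χ x = χ' x := by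
    intro x hx
    rw [h21 x (fun h => hp x h (List.mem_cons_of_mem _ (List.mem_cons_of_mem _ hx))),
      h16 x (fun h => hv (h ▸ hx)) (fun h => hdv.2 (h ▸ hx))]
  have h24 : χ' v = pr (j % 21) := by
    rw [h21 v (fun h => hp _ h (List.mem_cons_of_mem _ List.mem_cons_self)), h18]
  have h25 : χ' d.v = pr z := by
    rw [h21 _ (fun h => hp _ h List.mem_cons_self), h17]
  refine ⟨h2, χ', h20, by rw [← h23 _ hu0, h7], h24, hdep _ _ h23 h9, ?_⟩
  show Disjoint (χ' cur) (χ' v) ∧ Disjoint (χ' cur) (χ' d.v) ∧ Disjoint (χ' v) (χ' d.v) ∧ _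
  rw [h24, h25, ← h23 _ hcur, h8]
  exact ⟨dj_disj hcl hj21 h12, dj_disj hcl hz h14, (dj_disj hz hj21 h15).symm, h22⟩

theorem Inv_tx {env : List (ℕ × ℕ)} (hc : Cmp env Λ) {R u0 cur : ℕ} {us : List ℕ}
    {C : (ℕ → Finset (Fin 7)) → Prop} (hdep : Dep us C) (hu0 : u0 ∈ us) (hcur : cur ∈ us)
    (hinv : Inv R u0 cur C) {v n w : ℕ} (hv : v ∉ us) (hdv : n ∉ v :: us)
    (hn : n ∈ env.map Prod.fst) (hw : w ∈ env.map Prod.fst) :
    Inv (step env (.tx cur v n w) R) u0 v (fun χ => C χ ∧ Sts Λ χ (.tx cur v n w)) := by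
  intro j hj
  have h1 : step env (.tx cur v n w) R =
      comp (trows (Nat.lor (ins (lk env n)) (ins (lk env w)))) R := by
    show fN (Nat.lor (ins (lk env n)) (ins (lk env w))) (fun D => comp (trows D) R) = _
    rw [fN_eq]
  rw [h1] at hj
  obtain ⟨c, hcl, h2, h3, h4⟩ := comp_tb (trows_lt _) hj
  rw [trows_length] at hcl
  obtain ⟨h5, χ, h6, h7, h8, h9⟩ := hinv _ h3
  have h10 : (21 * (j / 21) + c) / 21 = j / 21 := by omega
  have h11 : (21 * (j / 21) + c) % 21 = c := by omega
  rw [h10] at h7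
  rw [h11] at h8
  have hj21 : j % 21 < 21 := Nat.mod_lt j (by norm_num)
  obtain ⟨h12, z, hz, h13, h14, h15⟩ := trows_tb hcl hj21 h4
  rw [List.mem_cons, not_or] at hdv
  set χ1 := Function.update (Function.update χ v (pr (j % 21))) n (pr z) with hχ1
  have h16 : ∀ x, x ≠ v → x ≠ n → χ1 x = χ x := by
    intro x hx1 hx2
    rw [hχ1, Function.update_of_ne hx2, Function.update_of_ne hx1]
  have h17 : χ1 n = pr z := by rw [hχ1, Function.update_self]
  have h18 : χ1 v = pr (j % 21) := by
    rw [hχ1, Function.update_of_ne (fun h => hdv.1 h.symm), Function.update_self]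
  have h19 : ∀ x, (χ1 x).card = 2 := by
    intro x
    by_cases hx2 : x = n
    · rw [hx2, h17]; exact pr_card z hz
    · by_cases hx1 : x = v
      · rw [hx1, h18]; exact pr_card _ hj21
      · rw [h16 x hx1 hx2]; exact h6 x
  have h23 : ∀ x ∈ us, χ x = χ1 x := by
    intro x hx
    rw [h16 x (fun h => hv (h ▸ hx)) (fun h => hdv.2 (h ▸ hx))]
  refine ⟨h2, χ1, h19, by rw [← h23 _ hu0, h7], h18, hdep _ _ h23 h9, ?_⟩
  show Disjoint (χ1 cur) (χ1 v) ∧ Disjoint (χ1 cur) (χ1 n) ∧ Disjoint (χ1 v) (χ1 n) ∧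
    (χ1 n ⊆ Λ n ∨ χ1 n ⊆ Λ w)
  rw [h17, h18, ← h23 _ hcur, h8]
  refine ⟨dj_disj hcl hj21 h12, dj_disj hcl hz h14, (dj_disj hz hj21 h15).symm, ?_⟩
  have h30 : (ins (lk env n) ||| ins (lk env w)).testBit z = true := h13
  rw [Nat.testBit_lor, Bool.or_eq_true] at h30
  rcases h30 with h30 | h30
  · left
    rw [lk_mem hc hn] at h30
    have h31 := ins_sub (mk_lt _) hz h30
    rwa [om_mk] at h31
  · right
    rw [lk_mem hc hw] at h30
    have h31 := ins_sub (mk_lt _) hz h30
    rwa [om_mk] at h31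

theorem strip : ∀ (sts : List St) (env : List (ℕ × ℕ)) (R u0 cur : ℕ) (us : List ℕ)
    (C : (ℕ → Finset (Fin 7)) → Prop), Cmp env Λ → Dep us C → u0 ∈ us → cur ∈ us →
    Inv R u0 cur C → wf sts (env.map Prod.fst) cur us = true →
    Inv (res Λ sts R env).1 u0 (endv sts cur) (fun χ => C χ ∧ ∀ st ∈ sts, Sts Λ χ st) := by
  intro sts
  induction sts with
  | nil =>
    intro env R u0 cur us C _ _ _ _ hinv _ j hj
    obtain ⟨h1, χ, h2, h3, h4, h5⟩ := hinv j hj
    exact ⟨h1, χ, h2, h3, h4, h5, fun st hst => by simp at hst⟩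
  | cons st r ih =>
    intro env R u0 cur us C hc hdep hu0 hcur hinv hwf
    rw [res_cons]
    cases st with
    | par s n dis =>
      rw [wf, Bool.and_eq_true] at hwf
      have hc' : Cmp ((n, mk (Λ n)) :: env) Λ := by
        intro e he
        rw [List.mem_cons] at he
        rcases he with rfl | he
        · rfl
        · exact hc e he
      have h := ih ((n, mk (Λ n)) :: env) R u0 cur us C hc' hdep hu0 hcur hinv hwf.2
      intro j hj
      obtain ⟨h1, χ, h2, h3, h4, h5, h6⟩ := h j hj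
      refine ⟨h1, χ, h2, h3, h4, h5, fun st hst => ?_⟩
      rw [List.mem_cons] at hst
      rcases hst with rfl | hst
      · trivial
      · exact h6 st hst
    | vf d =>
      rw [wf, Bool.and_eq_true, Bool.and_eq_true, Bool.and_eq_true, List.all_eq_true] at hwf
      obtain ⟨⟨⟨w1, w2⟩, w3⟩, w4⟩ := hwf
      have hp : ∀ x ∈ d.ps.map Prod.fst, x ∉ us := by
        intro x hx
        simpa using w3 x hx
      have h := ih env (step env (.vf d) R) u0 cur (d.ps.map Prod.fst ++ us)
        (fun χ => C χ ∧ Sts Λ χ (.vf d)) hc ?_ (List.mem_append_right _ hu0)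
        (List.mem_append_right _ hcur)
        (Inv_vf hc hdep hu0 hcur hinv (by simpa using w1) w2 hp) w4
      · intro j hj
        obtain ⟨h1, χ, h2, h3, h4, h5, h6⟩ := h j hj
        refine ⟨h1, χ, h2, h3, h4, h5.1, fun st hst => ?_⟩
        rw [List.mem_cons] at hst
        rcases hst with rfl | hst
        · exact h5.2
        · exact h6 st hst
      · intro χ χ' hχ hC
        refine ⟨hdep χ χ' (fun x hx => hχ x (List.mem_append_right _ hx)) hC.1,
          Sts_congr (fun x hx => ?_) hC.2⟩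
        apply hχ
        rw [St.nm, VD.nm, List.mem_cons] at hx
        rcases hx with rfl | hx
        · have : d.v = cur := by simpa using w1
          rw [this]
          exact List.mem_append_right _ hcur
        · exact List.mem_append_left _ hx
    | ed u v =>
      rw [wf, Bool.and_eq_true, Bool.and_eq_true] at hwf
      obtain ⟨⟨w1, w2⟩, w3⟩ := hwf
      have hu : u = cur := by simpa using w1
      have hv : v ∉ us := by simpa using w2
      rw [hu]
      have h := ih env (step env (.ed cur v) R) u0 v (v :: us)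
        (fun χ => C χ ∧ Sts Λ χ (.ed cur v)) hc ?_ (List.mem_cons_of_mem _ hu0)
        List.mem_cons_self (Inv_ed hdep hu0 hcur hinv hv) w3
      · intro j hj
        obtain ⟨h1, χ, h2, h3, h4, h5, h6⟩ := h j hj
        refine ⟨h1, χ, h2, h3, h4, h5.1, fun st hst => ?_⟩
        rw [List.mem_cons] at hst
        rcases hst with rfl | hst
        · exact h5.2
        · exact h6 st hst
      · intro χ χ' hχ hC
        refine ⟨hdep χ χ' (fun x hx => hχ x (List.mem_cons_of_mem _ hx)) hC.1,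
          Sts_congr (fun x hx => ?_) hC.2⟩
        apply hχ
        rw [St.nm, List.mem_cons, List.mem_singleton] at hx
        rcases hx with rfl | rfl
        · exact List.mem_cons_of_mem _ hcur
        · exact List.mem_cons_self
    | tr u v d =>
      rw [wf, Bool.and_eq_true, Bool.and_eq_true, Bool.and_eq_true, Bool.and_eq_true,
        Bool.and_eq_true, List.all_eq_true] at hwf
      obtain ⟨⟨⟨⟨⟨w1, w2⟩, w3⟩, w4⟩, w5⟩, w6⟩ := hwf
      have hu : u = cur := by simpa using w1
      have hv : v ∉ us := by simpa using w2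
      have hdv : d.v ∉ v :: us := by
        intro h
        have : (v :: us).contains d.v = true := List.contains_iff_mem.2 h
        rw [this] at w3
        exact absurd w3 (by simp)
      have hp : ∀ x ∈ d.ps.map Prod.fst, x ∉ d.v :: v :: us := by
        intro x hx h
        have h1 := w5 x hx
        have : (d.v :: v :: us).contains x = true := List.contains_iff_mem.2 h
        rw [this] at h1
        exact absurd h1 (by simp)
      rw [hu]
      have h := ih env (step env (.tr cur v d) R) u0 v (d.ps.map Prod.fst ++ (d.v :: v :: us))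
        (fun χ => C χ ∧ Sts Λ χ (.tr cur v d)) hc ?_
        (List.mem_append_right _ (List.mem_cons_of_mem _ (List.mem_cons_of_mem _ hu0)))
        (List.mem_append_right _ (List.mem_cons_of_mem _ List.mem_cons_self))
        (Inv_tr hc hdep hu0 hcur hinv hv hdv w4 hp) w6
      · intro j hj
        obtain ⟨h1, χ, h2, h3, h4, h5, h6⟩ := h j hj
        refine ⟨h1, χ, h2, h3, h4, h5.1, fun st hst => ?_⟩
        rw [List.mem_cons] at hst
        rcases hst with rfl | hst
        · exact h5.2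
        · exact h6 st hst
      · intro χ χ' hχ hC
        refine ⟨hdep χ χ' (fun x hx => hχ x (List.mem_append_right _ (List.mem_cons_of_mem _
          (List.mem_cons_of_mem _ hx)))) hC.1, Sts_congr (fun x hx => ?_) hC.2⟩
        apply hχ
        rw [St.nm, VD.nm, List.mem_cons, List.mem_cons, List.mem_cons] at hx
        rcases hx with rfl | rfl | rfl | hx
        · exact List.mem_append_right _ (List.mem_cons_of_mem _ (List.mem_cons_of_mem _ hcur))
        · exact List.mem_append_right _ (List.mem_cons_of_mem _ List.mem_cons_self)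
        · exact List.mem_append_right _ List.mem_cons_self
        · exact List.mem_append_left _ hx
    | pw n m =>
      rw [wf] at hwf
      have hc' : Cmp ((n, mk (Λ n)) :: env) Λ := by
        intro e he
        rw [List.mem_cons] at he
        rcases he with rfl | he
        · rfl
        · exact hc e he
      have h := ih ((n, mk (Λ n)) :: env) R u0 cur us C hc' hdep hu0 hcur hinv hwf
      intro j hj
      obtain ⟨h1, χ, h2, h3, h4, h5, h6⟩ := h j hj
      refine ⟨h1, χ, h2, h3, h4, h5, fun st hst => ?_⟩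
      rw [List.mem_cons] at hst
      rcases hst with rfl | hst
      · trivial
      · exact h6 st hst
    | tx u v n w =>
      rw [wf, Bool.and_eq_true, Bool.and_eq_true, Bool.and_eq_true, Bool.and_eq_true,
        Bool.and_eq_true] at hwf
      obtain ⟨⟨⟨⟨⟨w1, w2⟩, w3⟩, w4⟩, w5⟩, w6⟩ := hwf
      have hu : u = cur := by simpa using w1
      have hv : v ∉ us := by simpa using w2
      have hdv : n ∉ v :: us := by
        intro h
        have : (v :: us).contains n = true := List.contains_iff_mem.2 h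
        rw [this] at w3
        exact absurd w3 (by simp)
      rw [hu]
      have h := ih env (step env (.tx cur v n w) R) u0 v (n :: v :: us)
        (fun χ => C χ ∧ Sts Λ χ (.tx cur v n w)) hc ?_
        (List.mem_cons_of_mem _ (List.mem_cons_of_mem _ hu0))
        (List.mem_cons_of_mem _ List.mem_cons_self)
        (Inv_tx hc hdep hu0 hcur hinv hv hdv (List.contains_iff_mem.1 w4)
          (List.contains_iff_mem.1 w5)) w6
      · intro j hj
        obtain ⟨h1, χ, h2, h3, h4, h5, h6⟩ := h j hj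
        refine ⟨h1, χ, h2, h3, h4, h5.1, fun st hst => ?_⟩
        rw [List.mem_cons] at hst
        rcases hst with rfl | hst
        · exact h5.2
        · exact h6 st hst
      · intro χ χ' hχ hC
        refine ⟨hdep χ χ' (fun x hx => hχ x (List.mem_cons_of_mem _
          (List.mem_cons_of_mem _ hx))) hC.1, Sts_congr (fun x hx => ?_) hC.2⟩
        apply hχ
        rw [St.nm, List.mem_cons, List.mem_cons, List.mem_singleton] at hx
        rcases hx with rfl | rfl | rfl
        · exact List.mem_cons_of_mem _ (List.mem_cons_of_mem _ hcur)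
        · exact List.mem_cons_of_mem _ List.mem_cons_self
        · exact List.mem_cons_self

/-- the start -/
theorem Inv_start (u0 : ℕ) : Inv ID u0 u0 (fun _ => True) := by
  intro j hj
  obtain ⟨h1, h2⟩ := ID_tb hj
  exact ⟨h1, fun _ => pr (j / 21), fun _ => pr_card _ h1, rfl, by rw [h2], trivial⟩

theorem strip0 {sts : List St} {u0 : ℕ} (hwf : wf sts [] u0 [u0] = true) :
    Inv (res Λ sts ID []).1 u0 (endv sts u0) (fun χ => ∀ st ∈ sts, Sts Λ χ st) := by
  have h := strip (Λ := Λ) sts [] ID u0 u0 [u0] (fun _ => True) (fun e he => by simp at he)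
    (fun _ _ _ _ => trivial) List.mem_cons_self List.mem_cons_self (Inv_start u0) hwf
  intro j hj
  obtain ⟨h1, χ, h2, h3, h4, h5⟩ := h j hj
  exact ⟨h1, χ, h2, h3, h4, h5.2⟩

end Pool.Agent.Lib.SVX.Chk
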