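import Pool.Agent.Lib.SVX.Chk

/-!
# SVX.ChkZ: the check with an additional vertex (MP_0229a2_co)

`chkRing_cfgZ`: as `chkRing_cfg`, for the configuration with an additional free vertex `c.N` which
is adjacent to `a` and `b` (it has at most two neighbours and can always be coloured); in this way
the two ends of a path can be treated as neighbours on a ring.
-/

set_option autoImplicit false
set_option maxRecDepth 100000

namespace Pool.Agent.Lib.SVX.Chk

open Finset

/-- the list problem with an additional vertex -/
def ofCfgZ (c : Cfg) (a b : ℕ) : Prob where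
  N := c.N + 1
  E := (c.N, a) :: (c.N, b) :: (ofCfg c).E
  Eg := (ofCfg c).Eg
  fx := (ofCfg c).fx
  ls := fun i => if i = c.N then 7 else (ofCfg c).ls i
  il := (ofCfg c).il
  fl := fun _ => false
  fw := fun i => i

theorem fx_N (c : Cfg) : (ofCfg c).fx c.N = false := by
  by_contra h
  exact absurd (fx_lt c c.N (by simpa using h)) (lt_irrefl _)

theorem il_N (c : Cfg) : (ofCfg c).il c.N = false := by
  show (c.isT c.N && c.sm c.N) = false
  have h : c.isT c.N = false := by
    unfold Cfg.isT
    rw [Bool.and_eq_false_iff]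
    right
    exact decide_eq_false (lt_irrefl _)
  rw [h]; rfl

theorem OK_of_Z {c : Cfg} {a b : ℕ} (h : (ofCfgZ c a b).OK) : (ofCfg c).OK := by
  intro ψ L h1 h2 h3 h4 _
  have k1 : ∀ i, i < c.N → i ≠ c.N := fun i hi => ne_of_lt hi
  obtain ⟨χ, g1, g2, g3, _, g4⟩ := h (fun i => if i = c.N then {0, 1} else ψ i)
    (fun i => if i = c.N then Finset.univ else L i)
    (by
      intro i hi
      by_cases h5 : i = c.N
      · simp only [h5, if_true]
        decide
      · simp only [h5, if_false]
        exact h1 i (lt_of_le_of_ne (Nat.lt_succ_iff.1 hi) h5))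
    (by
      intro e he
      have he1 : e.1 < c.N ∧ e.2 < c.N := by
        have h5 := (List.mem_filter.1 he).2
        rw [Bool.and_eq_true, Bool.and_eq_true, decide_eq_true_eq, decide_eq_true_eq] at h5
        exact h5.1
      simp only [k1 _ he1.1, k1 _ he1.2, if_false]
      exact h2 e he)
    (by
      intro i hi hf
      by_cases h5 : i = c.N
      · simp only [ofCfgZ, h5, if_true]
        decide
      · simp only [ofCfgZ, h5, if_false]
        exact h3 i (lt_of_le_of_ne (Nat.lt_succ_iff.1 hi) h5) hf)
    (by
      intro i hi hil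
      by_cases h5 : i = c.N
      · rw [h5] at hil
        have h6 : (ofCfg c).il c.N = true := hil
        rw [il_N] at h6
        exact absurd h6 (by decide)
      · simp only [h5, if_false]
        exact h4 i (lt_of_le_of_ne (Nat.lt_succ_iff.1 hi) h5) hil)
    (fun i _ hf => absurd hf (by
      show ¬ (false = true)
      simp))
  refine ⟨χ, fun i hi => g1 i (Nat.lt_succ_of_lt hi), fun i hi hf => ?_, fun i hi hf _ => ?_,
    fun i _ hf => absurd hf (by
      show ¬ (false = true)
      simp),
    fun e he => g4 e (List.mem_cons_of_mem _ (List.mem_cons_of_mem _ he))⟩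
  · have h5 := g2 i (Nat.lt_succ_of_lt hi) hf
    simp only [k1 i hi, if_false] at h5
    exact h5
  · have h5 := g3 i (Nat.lt_succ_of_lt hi) hf rfl
    simp only [k1 i hi, if_false] at h5
    exact h5

theorem fx_ltZ (c : Cfg) (a b : ℕ) : ∀ t,
    ((ofCfgZ c a b).fx t || (ofCfgZ c a b).fl t) = true → t < (ofCfgZ c a b).N :=
  fun t ht => Nat.lt_succ_of_lt (fx_lt' c t ht)

/-- the check with an additional vertex adjacent to `a` and `b` -/
theorem chkRing_cfgZ {c : Cfg} {a b : ℕ} {l r : List St} {nodes : List (ℕ × ℕ × List ℕ)} {u0 : ℕ}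
    (h : chkRing (ofCfgZ c a b) l r nodes u0 = true) : c.ListOK :=
  listOK_of (OK_of_Z (chkRing_sound (fx_ltZ c a b) h))

end Pool.Agent.Lib.SVX.Chk
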