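import Pool.Agent.Lib.SVX.ChkB
import Pool.Agent.Lib.SVX.ChkZ

/-!
# SVX.ChkD: the packed ring check for configurations, whole or in parts (MP_0229a2_co)

`ringD_cfg`, `ringD_cfgZ`: one kernel check; `ringP_cfg`, `ringP_cfgZ`: the first instruction of the
right strip is `par s n dis`, the options for `n` are distributed over several kernel checks.
-/

set_option autoImplicit false
set_option maxRecDepth 100000

namespace Pool.Agent.Lib.SVX.Chk

open Finset

/-- the static part of the check for two strips -/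
def statR (P : Prob) (l r : List St) (nodes : List (ℕ × ℕ × List ℕ)) (u0 : ℕ) : Bool :=
  wf l [] u0 [u0] && wf r [] u0 [u0] &&
    decide (endv l u0 = endv r u0) && sepB l r u0 && stat P (l ++ r) nodes

/-- the names of the parameters of a strip, the last one first -/
def nmsOf (l : List St) : List ℕ := (l.flatMap nmP).reverse

theorem ring_of {P : Prob} {l r : List St} {nodes : List (ℕ × ℕ × List ℕ)} {u0 : ℕ}
    (hN : ∀ t, (P.fx t || P.fl t) = true → t < P.N) (h : statR P l r nodes u0 = true)
    (hB : ∀ Λ : ℕ → Finset (Fin 7), OkS Λ l → OkS Λ r → ∃ σ : Equiv.Perm (Fin 7),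
      Nat.land (res (act σ Λ) r ID []).1 (res (act σ Λ) l ID []).1 ≠ 0 ∨
      gsat (app (res (act σ Λ) r ID []).2 (res (act σ Λ) l ID []).2) nodes [] = false) :
    P.OK := by
  unfold statR at h
  rw [Bool.and_eq_true, Bool.and_eq_true, Bool.and_eq_true, Bool.and_eq_true,
    decide_eq_true_eq] at h
  obtain ⟨⟨⟨⟨hwfl, hwfr⟩, hend⟩, hsep⟩, hst⟩ := h
  intro ψ L h1 h2 h3 h4 h5'
  obtain ⟨Λ, hΛ1, hΛ2⟩ := ex_sets P ψ L h1 h3 h4
  have hpws := pws_ok hst h1 h5' hΛ1
  have h23 : ∀ p ∈ parsOf (l ++ r), 2 ≤ p.1 := by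
    intro p hp
    rw [parsOf_append, List.mem_append] at hp
    rcases hp with hp | hp
    · exact wf_two l [] [u0] u0 hwfl p hp
    · exact wf_two r [] [u0] u0 hwfr p hp
  have hpar := par_ok hst h1 h2 hΛ1 hΛ2 hN h23
  have hokl := OkS_of Λ l [] [u0] u0 hwfl (fun p hp => hpar p (by
    rw [parsOf_append, List.mem_append]; exact Or.inl hp)) (fun q hq => hpws q (by
    rw [pwsOf_append, List.mem_append]; exact Or.inl hq))
  have hokr := OkS_of Λ r [] [u0] u0 hwfr (fun p hp => hpar p (by
    rw [parsOf_append, List.mem_append]; exact Or.inr hp)) (fun q hq => hpws q (by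
    rw [pwsOf_append, List.mem_append]; exact Or.inr hq))
  obtain ⟨σ, hσ⟩ := hB Λ hokl hokr
  have henvl := res_env (Λ := act σ Λ) l ID [] (fun e he => by simp at he)
  have henvr := res_env (Λ := act σ Λ) r ID [] (fun e he => by simp at he)
  rcases hσ with hσ | hσ
  · obtain ⟨j, hj⟩ := ex_bit hσ
    have hj' : ((res (act σ Λ) r ID []).1 &&& (res (act σ Λ) l ID []).1).testBit j = true := hj
    rw [Nat.testBit_land, Bool.and_eq_true] at hj'
    obtain ⟨_, χl, l5, l6, l7, l8⟩ := strip0 (Λ := act σ Λ) hwfl j hj'.2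
    obtain ⟨_, χr, r5, r6, r7, r8⟩ := strip0 (Λ := act σ Λ) hwfr j hj'.1
    rw [← hend] at r7
    set int := (nmOf r).filter (fun y => y != u0 && y != endv l u0) with hint
    have hs0 : ∀ x ∈ u0 :: endv l u0 :: nmOf l, x ∉ int := by
      intro x hx hxi
      have h9 := List.all_eq_true.1 hsep x hx
      rw [Bool.not_eq_true', ← hint] at h9
      rw [List.contains_iff_mem.2 hxi] at h9
      exact absurd h9 (by simp)
    set χ : ℕ → Finset (Fin 7) := fun x => if x ∈ int then χr x else χl x with hχ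
    have hl : ∀ x ∈ u0 :: endv l u0 :: nmOf l, χl x = χ x := by
      intro x hx
      rw [hχ]
      show χl x = if x ∈ int then χr x else χl x
      rw [if_neg (hs0 x hx)]
    have hr : ∀ x ∈ nmOf r, χr x = χ x := by
      intro x hx
      by_cases hxi : x ∈ int
      · rw [hχ]
        show χr x = if x ∈ int then χr x else χl x
        rw [if_pos hxi]
      · have h9 : x = u0 ∨ x = endv l u0 := by
          by_contra hc
          rw [not_or] at hc
          apply hxi
          rw [hint, List.mem_filter]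
          refine ⟨hx, ?_⟩
          simp [hc.1, hc.2]
        rcases h9 with rfl | h9
        · rw [← hl _ (by simp), r6, l6]
        · rw [h9, ← hl _ (by simp), r7, l7]
    have h5 : ∀ x, (χ x).card = 2 := by
      intro x
      rw [hχ]
      show (if x ∈ int then χr x else χl x).card = 2
      split_ifs
      · exact r5 x
      · exact l5 x
    have h6 : ∀ st ∈ l ++ r, Sts (act σ Λ) χ st := by
      intro st hstm
      rw [List.mem_append] at hstm
      rcases hstm with hstm | hstm
      · exact Sts_congr (fun x hx => hl x (List.mem_cons_of_mem _ (List.mem_cons_of_mem _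
          (List.mem_flatMap.2 ⟨st, hstm, hx⟩)))) (l8 st hstm)
      · exact Sts_congr (fun x hx => hr x (List.mem_flatMap.2 ⟨st, hstm, hx⟩)) (r8 st hstm)
    obtain ⟨χ', h7, h8⟩ := unact σ h5 h6
    exact fin_col hst h1 h2 h3 hΛ1 (fun i hi hf => (hΛ2 i hi hf).1) h7 h8
  · have hc : Cmp (app (res (act σ Λ) r ID []).2 (res (act σ Λ) l ID []).2) (act σ Λ) := by
      rw [app_eq]
      exact Cmp_append henvr.1 henvl.1
    rw [gsat_act hst h1 h2 hΛ1 hΛ2 h23 σ hc (fun p hp => ?_)] at hσ
    · exact absurd hσ (by simp)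
    · rw [app_eq, List.map_append, List.mem_append]
      rw [parsOf_append, List.mem_append] at hp
      rcases hp with hp | hp
      · exact Or.inr (henvl.2 _ (Or.inr ⟨p, hp, rfl⟩))
      · exact Or.inl (henvr.2 _ (Or.inr ⟨p, hp, rfl⟩))


/-- the complete packed check -/
noncomputable def ringD (P : Prob) (l r : List St) (nodes : List (ℕ × ℕ × List ℕ)) (u0 : ℕ) :
    Bool :=
  statR P l r nodes u0 && ringC l r nodes (nmsOf l)

theorem ringD_sound {P : Prob} {l r : List St} {nodes : List (ℕ × ℕ × List ℕ)} {u0 : ℕ}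
    (hN : ∀ t, (P.fx t || P.fl t) = true → t < P.N) (h : ringD P l r nodes u0 = true) :
    P.OK := by
  unfold ringD at h
  rw [Bool.and_eq_true] at h
  exact ring_of hN h.1 (fun Λ hl hr => ringC_sound h.2 Λ hl hr)

theorem ringD_cfg {c : Cfg} {l r : List St} {nodes : List (ℕ × ℕ × List ℕ)} {u0 : ℕ}
    (h : ringD (ofCfg c) l r nodes u0 = true) : c.ListOK :=
  listOK_of (ringD_sound (fx_lt' c) h)

theorem ringD_cfgZ {c : Cfg} {a b : ℕ} {l r : List St} {nodes : List (ℕ × ℕ × List ℕ)} {u0 : ℕ}
    (h : ringD (ofCfgZ c a b) l r nodes u0 = true) : c.ListOK :=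
  listOK_of (OK_of_Z (ringD_sound (fx_ltZ c a b) h))

/-! ### parts -/

/-- run over some options -/
noncomputable def allO (f : ℕ → Bool) (os : List ℕ) : Bool :=
  List.rec (motive := fun _ => Bool) true (fun o _ ih => band (f o) ih) os

theorem allO_mem {f : ℕ → Bool} {os : List ℕ} (h : allO f os = true) {o : ℕ} (ho : o ∈ os) :
    f o = true := by
  induction os with
  | nil => simp at ho
  | cons a l ih =>
    have h1 : band (f a) (allO f l) = true := h
    rw [band_eq] at h1
    rw [List.mem_cons] at ho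
    rcases ho with rfl | ho
    · exact h1.1
    · exact ih h1.2 ho

/-- the part with the options `os` for the first parameter `n` of the right strip; `r` is the rest
of the right strip -/
noncomputable def ringP (l : List St) (n : ℕ) (r : List St) (nodes : List (ℕ × ℕ × List ℕ))
    (os : List ℕ) : Bool :=
  fN (7 * (nmsOf l).length) (fun we => fN (2 ^ we) (fun WE => fLV (lvl we 6) (fun lv =>
    withB l (nmsOf l) WE (fun BL => allO (fun o =>
      runC (kB nodes (nmsOf l) lv BL) r 0 ID [(n, o)]) os))))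

/-- all parts -/
def AllP (f : List ℕ → Bool) : List (List ℕ) → Prop
  | [] => True
  | os :: r => f os = true ∧ AllP f r

theorem AllP_mem {f : List ℕ → Bool} {oss : List (List ℕ)} (h : AllP f oss) {os : List ℕ}
    (ho : os ∈ oss) : f os = true := by
  induction oss with
  | nil => simp at ho
  | cons a l ih =>
    rw [List.mem_cons] at ho
    rcases ho with rfl | ho
    · exact h.1
    · exact ih h.2 ho

theorem AllP_nil {f : List ℕ → Bool} : AllP f [] := trivial

theorem AllP_cons {f : List ℕ → Bool} {os : List ℕ} {oss : List (List ℕ)} (h : f os = true)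
    (h' : AllP f oss) : AllP f (os :: oss) := ⟨h, h'⟩

/-- the parts cover all options -/
def cov (s : ℕ) (oss : List (List ℕ)) : Bool :=
  (if s = 2 then O2 else if s = 3 then O3 else O5).all (fun o => oss.any (fun os => os.contains o.1))

theorem optsOf_eq {s : ℕ} (hs : s = 2 ∨ s = 3 ∨ s = 5) :
    optsOf s = if s = 2 then O2 else if s = 3 then O3 else O5 := by
  rcases hs with rfl | rfl | rfl <;> rfl

theorem ringP_sound {l r : List St} {nodes : List (ℕ × ℕ × List ℕ)} {s n : ℕ} {dis : List ℕ}
    {oss : List (List ℕ)} (hcov : cov s oss = true) (h : AllP (ringP l n r nodes) oss)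
    (Λ : ℕ → Finset (Fin 7)) (hl : OkS Λ l) (hr : OkS Λ (.par s n dis :: r)) :
    ∃ σ : Equiv.Perm (Fin 7),
      Nat.land (res (act σ Λ) (.par s n dis :: r) ID []).1 (res (act σ Λ) l ID []).1 ≠ 0 ∨
      gsat (app (res (act σ Λ) (.par s n dis :: r) ID []).2 (res (act σ Λ) l ID []).2)
        nodes [] = false := by
  obtain ⟨σ, _, h3⟩ := runL_sound l (fun _ : Fin 7 => ()) 2097151 ID [] Λ WOk_one
    (fun e he => by simp at he) (fun e he => by simp at he) hl
  have hr' := OkS_act σ Λ _ hr
  obtain ⟨hs, hcard, _, hok⟩ := hr'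
  obtain ⟨o, ho, ho1⟩ := opt_mem hs hcard
  rw [optsOf_eq hs] at ho
  have h4 := List.all_eq_true.1 hcov o ho
  rw [List.any_eq_true] at h4
  obtain ⟨os, hos, hoo⟩ := h4
  rw [List.contains_iff_mem] at hoo
  have h5 := AllP_mem h hos
  unfold ringP at h5
  rw [fN_eq, fN_eq, lvl_eq] at h5
  obtain ⟨BL, h6, h7⟩ := withB_sound (nodes := nodes) h5
  have h8 := allO_mem h6 hoo
  rw [ho1] at h8
  obtain ⟨τ, hτ, h9⟩ := runC_sound r (fun x : Fin 7 => x) 0 ID [(n, mk (act σ Λ n))] (act σ Λ) h8
    WOk_zero
    (fun e he => by rw [List.mem_singleton] at he; rw [he])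
    (fun e he x y hxy => by
      have : x = y := hxy
      rw [this]) hok
  have h10 : τ = 1 := Equiv.ext hτ
  rw [h10, act_one] at h9
  exact ⟨σ, h7 _ _ h9 _ (h3 [])⟩

theorem ringP_cfg {c : Cfg} {l r : List St} {nodes : List (ℕ × ℕ × List ℕ)} {u0 s n : ℕ}
    {dis : List ℕ} {oss : List (List ℕ)}
    (hst : statR (ofCfg c) l (.par s n dis :: r) nodes u0 = true) (hcov : cov s oss = true)
    (h : AllP (ringP l n r nodes) oss) : c.ListOK :=
  listOK_of (ring_of (fx_lt' c) hst (fun Λ hl hr => ringP_sound hcov h Λ hl hr))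

theorem ringP_cfgZ {c : Cfg} {a b : ℕ} {l r : List St} {nodes : List (ℕ × ℕ × List ℕ)}
    {u0 s n : ℕ} {dis : List ℕ} {oss : List (List ℕ)}
    (hst : statR (ofCfgZ c a b) l (.par s n dis :: r) nodes u0 = true) (hcov : cov s oss = true)
    (h : AllP (ringP l n r nodes) oss) : c.ListOK :=
  listOK_of (OK_of_Z (ring_of (fx_ltZ c a b) hst (fun Λ hl hr => ringP_sound hcov h Λ hl hr)))

end Pool.Agent.Lib.SVX.Chk
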