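import Pool.Agent.Lib.SVX.ChkQ

/-!
# SVX.ChkL: the list of all results (MP_0229a2_co)
-/

set_option autoImplicit false
set_option maxRecDepth 100000

namespace Pool.Agent.Lib.SVX.Chk

open Finset

theorem runL_nil (W R : ℕ) (env : List (ℕ × ℕ)) (acc : List (ℕ × List (ℕ × ℕ))) :
    runL [] W R env acc = (R, env) :: acc := rfl

/-- the options of a set -/
noncomputable def optL (n : ℕ) (r : List St) (W R : ℕ) (env : List (ℕ × ℕ)) (F : ℕ)
    (acc : List (ℕ × List (ℕ × ℕ))) : List (ℕ × ℕ × ℕ) → List (ℕ × List (ℕ × ℕ))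
  | [] => acc
  | o :: l => bite (band (Nat.beq (Nat.land W o.2.2) 0) (Nat.beq (Nat.land o.1 F) 0))
      (runL r (Nat.land W o.2.1) R ((n, o.1) :: env) (optL n r W R env F acc l))
      (optL n r W R env F acc l)

theorem runL_par (s n : ℕ) (dis : List ℕ) (r : List St) (W R : ℕ) (env : List (ℕ × ℕ))
    (acc : List (ℕ × List (ℕ × ℕ))) :
    runL (.par s n dis :: r) W R env acc = optL n r W R env (orL env dis) acc (optsOf s) := by
  show fN (orL env dis) (fun F => (List.rec (motive := fun _ => List (ℕ × List (ℕ × ℕ))) acc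
    (fun (o : ℕ × ℕ × ℕ) (_ : List (ℕ × ℕ × ℕ)) ih2 =>
          bite (band (Nat.beq (Nat.land W o.2.2) 0) (Nat.beq (Nat.land o.1 F) 0))
            (fN (Nat.land W o.2.1) (fun W' => fN o.1 (fun m => runL r W' R ((n, m) :: env) ih2)))
            ih2) (optsOf s) : List (ℕ × List (ℕ × ℕ)))) = _
  rw [fN_eq]
  generalize orL env dis = F
  generalize optsOf s = l
  induction l with
  | nil => rw [optL]
  | cons o l ih =>
    show bite (band (Nat.beq (Nat.land W o.2.2) 0) (Nat.beq (Nat.land o.1 F) 0))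
            (fN (Nat.land W o.2.1) (fun W' => fN o.1 (fun m => runL r W' R ((n, m) :: env) _)))
            _ = _
    rw [fN_eq, fN_eq, ih, optL]

theorem runL_vf (d : VD) (r : List St) (W R : ℕ) (env : List (ℕ × ℕ))
    (acc : List (ℕ × List (ℕ × ℕ))) :
    runL (.vf d :: r) W R env acc = runL r W (step env (.vf d) R) env acc := by
  show fN (step env (.vf d) R) (fun R' => runL r W R' env acc) = _
  rw [fN_eq]

theorem runL_ed (u v : ℕ) (r : List St) (W R : ℕ) (env : List (ℕ × ℕ))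
    (acc : List (ℕ × List (ℕ × ℕ))) :
    runL (.ed u v :: r) W R env acc = runL r W (step env (.ed u v) R) env acc := by
  show fN (step env (.ed u v) R) (fun R' => runL r W R' env acc) = _
  rw [fN_eq]

theorem runL_tr (u v : ℕ) (d : VD) (r : List St) (W R : ℕ) (env : List (ℕ × ℕ))
    (acc : List (ℕ × List (ℕ × ℕ))) :
    runL (.tr u v d :: r) W R env acc = runL r W (step env (.tr u v d) R) env acc := by
  show fN (step env (.tr u v d) R) (fun R' => runL r W R' env acc) = _
  rw [fN_eq]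

/-- the options of a pair which meets a set -/
noncomputable def optW (n : ℕ) (r : List St) (W R : ℕ) (env : List (ℕ × ℕ)) (q : ℕ)
    (acc : List (ℕ × List (ℕ × ℕ))) : List (ℕ × ℕ × ℕ) → List (ℕ × List (ℕ × ℕ))
  | [] => acc
  | o :: l => bite (band (Nat.beq (Nat.land W o.2.2) 0) (okW o.1 q))
      (runL r (Nat.land W o.2.1) R ((n, o.1) :: env) (optW n r W R env q acc l))
      (optW n r W R env q acc l)

theorem runL_pw (n m : ℕ) (r : List St) (W R : ℕ) (env : List (ℕ × ℕ))
    (acc : List (ℕ × List (ℕ × ℕ))) :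
    runL (.pw n m :: r) W R env acc = optW n r W R env (lk env m) acc O2 := by
  show fN (lk env m) (fun q => (List.rec (motive := fun _ => List (ℕ × List (ℕ × ℕ))) acc
    (fun (o : ℕ × ℕ × ℕ) (_ : List (ℕ × ℕ × ℕ)) ih2 =>
          bite (band (Nat.beq (Nat.land W o.2.2) 0) (okW o.1 q))
            (fN (Nat.land W o.2.1) (fun W' => fN o.1 (fun m => runL r W' R ((n, m) :: env) ih2)))
            ih2) O2 : List (ℕ × List (ℕ × ℕ)))) = _
  rw [fN_eq]
  generalize lk env m = q
  generalize O2 = l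
  induction l with
  | nil => rw [optW]
  | cons o l ih =>
    show bite (band (Nat.beq (Nat.land W o.2.2) 0) (okW o.1 q))
            (fN (Nat.land W o.2.1) (fun W' => fN o.1 (fun m => runL r W' R ((n, m) :: env) _)))
            _ = _
    rw [fN_eq, fN_eq, ih, optW]

theorem runL_tx (u v n w : ℕ) (r : List St) (W R : ℕ) (env : List (ℕ × ℕ))
    (acc : List (ℕ × List (ℕ × ℕ))) :
    runL (.tx u v n w :: r) W R env acc = runL r W (step env (.tx u v n w) R) env acc := by
  show fN (step env (.tx u v n w) R) (fun R' => runL r W R' env acc) = _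
  rw [fN_eq]

theorem bite_mem {α : Type} {b : Bool} {l m : List α} {x : α} (hl : x ∈ l) (hm : x ∈ m) :
    x ∈ bite b l m := by cases b <;> assumption

theorem optL_acc {n : ℕ} {r : List St} {W R : ℕ} {env : List (ℕ × ℕ)} {F : ℕ}
    {acc : List (ℕ × List (ℕ × ℕ))} {x : ℕ × List (ℕ × ℕ)}
    (hr : ∀ W R env acc, x ∈ acc → x ∈ runL r W R env acc) (hx : x ∈ acc)
    (l : List (ℕ × ℕ × ℕ)) : x ∈ optL n r W R env F acc l := by
  induction l with
  | nil => rw [optL]; exact hx
  | cons o l ih =>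
    rw [optL]
    exact bite_mem (hr _ _ _ _ ih) ih

theorem optW_acc {n : ℕ} {r : List St} {W R : ℕ} {env : List (ℕ × ℕ)} {q : ℕ}
    {acc : List (ℕ × List (ℕ × ℕ))} {x : ℕ × List (ℕ × ℕ)}
    (hr : ∀ W R env acc, x ∈ acc → x ∈ runL r W R env acc) (hx : x ∈ acc)
    (l : List (ℕ × ℕ × ℕ)) : x ∈ optW n r W R env q acc l := by
  induction l with
  | nil => rw [optW]; exact hx
  | cons o l ih =>
    rw [optW]
    exact bite_mem (hr _ _ _ _ ih) ih

theorem runL_acc : ∀ (sts : List St) {x : ℕ × List (ℕ × ℕ)} (W R : ℕ) (env : List (ℕ × ℕ))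
    (acc : List (ℕ × List (ℕ × ℕ))), x ∈ acc → x ∈ runL sts W R env acc := by
  intro sts
  induction sts with
  | nil => intro x W R env acc hx; rw [runL_nil]; exact List.mem_cons_of_mem _ hx
  | cons st r ih =>
    intro x W R env acc hx
    cases st with
    | par s n dis =>
      rw [runL_par]
      exact optL_acc (fun W R env acc h => ih W R env acc h) hx _
    | vf d => rw [runL_vf]; exact ih _ _ _ _ hx
    | ed u v => rw [runL_ed]; exact ih _ _ _ _ hx
    | tr u v d => rw [runL_tr]; exact ih _ _ _ _ hx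
    | pw n m =>
      rw [runL_pw]
      exact optW_acc (fun W R env acc h => ih W R env acc h) hx _
    | tx u v n w => rw [runL_tx]; exact ih _ _ _ _ hx

theorem optL_mem {n : ℕ} {r : List St} {W R : ℕ} {env : List (ℕ × ℕ)} {F : ℕ}
    {acc : List (ℕ × List (ℕ × ℕ))} {x : ℕ × List (ℕ × ℕ)} {o : ℕ × ℕ × ℕ}
    (h1 : Nat.land W o.2.2 = 0) (h2 : Nat.land o.1 F = 0)
    (hx : ∀ acc, x ∈ runL r (Nat.land W o.2.1) R ((n, o.1) :: env) acc)
    (l : List (ℕ × ℕ × ℕ)) (ho : o ∈ l) : x ∈ optL n r W R env F acc l := by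
  induction l with
  | nil => simp at ho
  | cons o' l ih =>
    rw [optL]
    rw [List.mem_cons] at ho
    rcases ho with rfl | ho
    · rw [h1, h2]
      exact hx _
    · exact bite_mem (runL_acc r _ _ _ _ (ih ho)) (ih ho)

theorem optW_mem {n : ℕ} {r : List St} {W R : ℕ} {env : List (ℕ × ℕ)} {q : ℕ}
    {acc : List (ℕ × List (ℕ × ℕ))} {x : ℕ × List (ℕ × ℕ)} {o : ℕ × ℕ × ℕ}
    (h1 : Nat.land W o.2.2 = 0) (h2 : okW o.1 q = true)
    (hx : ∀ acc, x ∈ runL r (Nat.land W o.2.1) R ((n, o.1) :: env) acc)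
    (l : List (ℕ × ℕ × ℕ)) (ho : o ∈ l) : x ∈ optW n r W R env q acc l := by
  induction l with
  | nil => simp at ho
  | cons o' l ih =>
    rw [optW]
    rw [List.mem_cons] at ho
    rcases ho with rfl | ho
    · rw [h1, h2]
      exact hx _
    · exact bite_mem (runL_acc r _ _ _ _ (ih ho)) (ih ho)

theorem runL_sound : ∀ (sts : List St) {γ : Type} (ℓ : Fin 7 → γ) (W R : ℕ)
    (env : List (ℕ × ℕ)) (Λ : ℕ → Finset (Fin 7)), WOk W ℓ →
    Cmp env Λ → Sat env Λ ℓ → OkS Λ sts →
    ∃ σ : Equiv.Perm (Fin 7), (∀ x, ℓ (σ x) = ℓ x) ∧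
      ∀ acc, res (act σ Λ) sts R env ∈ runL sts W R env acc := by
  intro sts
  induction sts with
  | nil =>
    intro γ ℓ W R env Λ _ _ _ _
    refine ⟨1, fun _ => rfl, fun acc => ?_⟩
    rw [res_nil, runL_nil]
    exact List.mem_cons_self
  | cons st r ih =>
    intro γ ℓ W R env Λ hW hc hsat hok
    cases st with
    | par s n dis =>
      obtain ⟨hs, hcard, hdis, hok'⟩ := hok
      obtain ⟨σ, hσ, o, ho, ho1, h1, h2, h3, h4, h5⟩ := par_step hs hW hc hsat hcard hdis
      obtain ⟨σ', hσ', h6⟩ := ih _ (Nat.land W o.2.1) R ((n, o.1) :: env) (act σ Λ) h3 h4 h5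
        (OkS_act σ Λ r hok')
      refine ⟨σ' * σ, ?_, fun acc => ?_⟩
      · intro x
        rw [Equiv.Perm.mul_apply]
        have := Prod.mk.inj (hσ' (σ x))
        rw [this.1, hσ]
      · rw [act_mul, res_cons, runL_par]
        show res (act σ' (act σ Λ)) r R ((n, mk (act σ' (act σ Λ) n)) :: env) ∈ _
        have h7 : act σ' (act σ Λ) n = act σ Λ n := by
          have h8 : ∀ x y : Fin 7, (ℓ x, decide (x ∈ act σ Λ n)) = (ℓ y, decide (y ∈ act σ Λ n)) →
              (x ∈ act σ Λ n ↔ y ∈ act σ Λ n) := by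
            intro x y hxy
            exact decide_eq_decide.1 (Prod.mk.inj hxy).2
          exact map_sat (ℓ := fun x => (ℓ x, decide (x ∈ act σ Λ n))) hσ' h8
        rw [h7, ← ho1]
        exact optL_mem h1 h2 h6 _ ho
    | vf d =>
      obtain ⟨σ, hσ, h1⟩ := ih ℓ W (step env (.vf d) R) env Λ hW hc hsat hok
      exact ⟨σ, hσ, fun acc => by rw [res_cons, runL_vf]; exact h1 acc⟩
    | ed u v =>
      obtain ⟨σ, hσ, h1⟩ := ih ℓ W (step env (.ed u v) R) env Λ hW hc hsat hok
      exact ⟨σ, hσ, fun acc => by rw [res_cons, runL_ed]; exact h1 acc⟩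
    | tr u v d =>
      obtain ⟨σ, hσ, h1⟩ := ih ℓ W (step env (.tr u v d) R) env Λ hW hc hsat hok
      exact ⟨σ, hσ, fun acc => by rw [res_cons, runL_tr]; exact h1 acc⟩
    | pw n m =>
      obtain ⟨hcard, hint, hok'⟩ := hok
      obtain ⟨σ, hσ, o, ho, ho1, h1, hc', h3, h4, h5⟩ :=
        par_step0 (n := n) (Or.inl rfl) hW hc hsat hcard
      have h2 : okW o.1 (lk env m) = true := by
        rw [ho1]
        refine okW_of hc' (by rw [act, card_map]; exact hcard) ?_
        rw [act, act, ← Finset.map_inter, card_map]; exact hint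
      obtain ⟨σ', hσ', h6⟩ := ih _ (Nat.land W o.2.1) R ((n, o.1) :: env) (act σ Λ) h3 h4 h5
        (OkS_act σ Λ r hok')
      refine ⟨σ' * σ, ?_, fun acc => ?_⟩
      · intro x
        rw [Equiv.Perm.mul_apply]
        have := Prod.mk.inj (hσ' (σ x))
        rw [this.1, hσ]
      · rw [act_mul, res_cons, runL_pw]
        show res (act σ' (act σ Λ)) r R ((n, mk (act σ' (act σ Λ) n)) :: env) ∈ _
        have h7 : act σ' (act σ Λ) n = act σ Λ n := by
          have h8 : ∀ x y : Fin 7, (ℓ x, decide (x ∈ act σ Λ n)) = (ℓ y, decide (y ∈ act σ Λ n)) →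
              (x ∈ act σ Λ n ↔ y ∈ act σ Λ n) := by
            intro x y hxy
            exact decide_eq_decide.1 (Prod.mk.inj hxy).2
          exact map_sat (ℓ := fun x => (ℓ x, decide (x ∈ act σ Λ n))) hσ' h8
        rw [h7, ← ho1]
        exact optW_mem h1 h2 h6 _ ho
    | tx u v n w =>
      obtain ⟨σ, hσ, h1⟩ := ih ℓ W (step env (.tx u v n w) R) env Λ hW hc hsat hok
      exact ⟨σ, hσ, fun acc => by rw [res_cons, runL_tx]; exact h1 acc⟩

theorem fLL_eq (l : List (ℕ × List (ℕ × ℕ))) : ∀ f, fLL l f = f l := by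
  induction l with
  | nil => intro f; rfl
  | cons a l ih =>
    intro f
    show fLL l (fun r => f (a :: r)) = _
    rw [ih]

theorem allLL_mem {f : ℕ → List (ℕ × ℕ) → Bool} {l : List (ℕ × List (ℕ × ℕ))}
    (h : allLL f l = true) {x : ℕ × List (ℕ × ℕ)} (hx : x ∈ l) : f x.1 x.2 = true := by
  induction l with
  | nil => simp at hx
  | cons a l ih =>
    have h1 : band (f a.1 a.2) (allLL f l) = true := h
    rw [band_eq] at h1
    rw [List.mem_cons] at hx
    rcases hx with rfl | hx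
    · exact h1.1
    · exact ih h1.2 hx

theorem WOk_one : WOk 2097151 (fun _ : Fin 7 => ()) := fun _ _ _ _ _ _ _ => rfl

theorem WOk_zero : WOk 0 (fun x : Fin 7 => x) := by
  intro a _ h
  simp at h

/-- the meaning of the ring check -/
theorem ringB_sound {l r : List St} {nodes : List (ℕ × ℕ × List ℕ)}
    (h : ringB l r nodes = true) (Λ : ℕ → Finset (Fin 7)) (hl : OkS Λ l) (hr : OkS Λ r) :
    ∃ σ : Equiv.Perm (Fin 7),
      Nat.land (res (act σ Λ) r ID []).1 (res (act σ Λ) l ID []).1 ≠ 0 ∨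
      gsat (app (res (act σ Λ) r ID []).2 (res (act σ Λ) l ID []).2) nodes [] = false := by
  unfold ringB at h
  rw [fLL_eq] at h
  obtain ⟨σ, _, h1⟩ := runL_sound l (fun _ : Fin 7 => ()) 2097151 ID [] Λ WOk_one
    (fun e he => by simp at he) (fun e he => by simp at he) hl
  obtain ⟨τ, hτ, h2⟩ := runC_sound r (fun x : Fin 7 => x) 0 ID [] (act σ Λ) h WOk_zero
    (fun e he => by simp at he) (fun e he => by simp at he) (OkS_act σ Λ r hr)
  have h3 : τ = 1 := Equiv.ext hτ
  rw [h3, act_one] at h2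
  have h4 := allLL_mem h2 (h1 [])
  refine ⟨σ, ?_⟩
  rw [bor_eq] at h4
  rcases h4 with h4 | h4
  · left
    have := Nat.le_of_ble_eq_true h4
    omega
  · right
    simpa using h4

/-- the meaning of the path check -/
theorem pathB_sound {l : List St} {nodes : List (ℕ × ℕ × List ℕ)}
    (h : pathB l nodes = true) (Λ : ℕ → Finset (Fin 7)) (hl : OkS Λ l) :
    ∃ σ : Equiv.Perm (Fin 7), (res (act σ Λ) l ID []).1 ≠ 0 ∨
      gsat (res (act σ Λ) l ID []).2 nodes [] = false := by
  unfold pathB at h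
  obtain ⟨τ, _, h2⟩ := runC_sound l (fun _ : Fin 7 => ()) 2097151 ID [] Λ h WOk_one
    (fun e he => by simp at he) (fun e he => by simp at he) hl
  refine ⟨τ, ?_⟩
  rw [bor_eq] at h2
  rcases h2 with h2 | h2
  · left
    have := Nat.le_of_ble_eq_true h2
    omega
  · right
    simpa using h2

end Pool.Agent.Lib.SVX.Chk
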