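import Pool.Agent.Lib.SVX.ChkG

/-!
# SVX.ChkM: the check of a list problem is correct (MP_0229a2_co)
-/

set_option autoImplicit false
set_option maxRecDepth 100000

namespace Pool.Agent.Lib.SVX.Chk

open Finset

/-- membership of an edge in a list, in one of the two directions -/
def eIn (l : List (ℕ × ℕ)) (e : ℕ × ℕ) : Bool := l.contains e || l.contains (e.2, e.1)

/-- the static check -/
def stat (P : Prob) (sts : List St) (nodes : List (ℕ × ℕ × List ℕ)) : Bool :=
  (parsOf sts).all (fun p => decide (p.2.1 < P.N) &&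
    (if (P.fx p.2.1 || P.fl p.2.1) then p.1 == 2 else p.1 == P.ls p.2.1) &&
    p.2.2.all (fun t => (P.fx p.2.1 || P.fl p.2.1) && (P.fx t || P.fl t) &&
      eIn P.Eg (p.2.1, t))) &&
  P.E.all (fun e => eIn (sts.flatMap e1St) e ||
    (((vdsOf sts).flatMap e2VD).contains e && P.fx e.2 && decide (e.2 < P.N)) ||
    (((vdsOf sts).flatMap e2VD).contains (e.2, e.1) && P.fx e.1 && decide (e.1 < P.N)) ||
    (P.fx e.1 && P.fx e.2 && decide (e.1 < P.N) && decide (e.2 < P.N) && eIn P.Eg e)) &&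
  (List.range P.N).all (fun i => (P.fx i || P.fl i) || decide (7 ≤ P.ls i) ||
    ((vdsOf sts).flatMap LVD).contains i) &&
  (nmOf sts).all (fun i => decide (i < P.N) && (!(P.fx i) ||
    ((vdsOf sts).flatMap LVD).contains i)) &&
  nodes.all (fun nd => decide (nd.1 < P.N) &&
    (!(nd.2.1 == 1) || (P.il nd.1 && !(P.fx nd.1 || P.fl nd.1) &&
      (parsOf sts).any (fun p => p.2.1 == nd.1))) &&
    (!(nd.2.1 == 2) || ((P.fx nd.1 || P.fl nd.1) && (parsOf sts).any (fun p => p.2.1 == nd.1))) &&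
    nd.2.2.all (fun t => eIn P.Eg (nd.1, t))) &&
  (pwsOf sts).all (fun q => P.fl q.2 && P.fw q.2 == q.1 && P.fx q.1 && decide (q.1 < P.N) &&
    decide (q.2 < P.N)) &&
  (txsOf sts).all (fun q => P.fl q.1 && P.fw q.1 == q.2 && P.fx q.2 && decide (q.2 < P.N)) &&
  (List.range P.N).all (fun i => !(P.fl i) || (!(P.fx i) &&
    (txsOf sts).any (fun q => q.1 == i)))

theorem eIn_disj {l : List (ℕ × ℕ)} {f : ℕ → Finset (Fin 7)} (h : ∀ e ∈ l, Disjoint (f e.1) (f e.2))
    {e : ℕ × ℕ} (he : eIn l e = true) : Disjoint (f e.1) (f e.2) := by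
  unfold eIn at he
  rw [Bool.or_eq_true, List.contains_iff_mem, List.contains_iff_mem] at he
  rcases he with he | he
  · exact h e he
  · exact (h _ he).symm

/-- a choice of sets of the exact sizes -/
theorem ex_sets (P : Prob) (ψ L : ℕ → Finset (Fin 7)) (h1 : ∀ i, i < P.N → (ψ i).card = 2)
    (h3 : ∀ i, i < P.N → P.fx i = false → P.ls i ≤ (L i).card)
    (h4 : ∀ i, i < P.N → P.il i = true → ψ i ⊆ L i) :
    ∃ Λ : ℕ → Finset (Fin 7), (∀ i, i < P.N → (P.fx i || P.fl i) = true → Λ i = ψ i) ∧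
      (∀ i, i < P.N → (P.fx i || P.fl i) = false → Λ i ⊆ L i ∧ (2 ≤ P.ls i →
        (Λ i).card = P.ls i ∧ (P.il i = true → ψ i ⊆ Λ i))) := by
  have key : ∀ i, ∃ T : Finset (Fin 7), i < P.N → (((P.fx i || P.fl i) = true → T = ψ i) ∧
      ((P.fx i || P.fl i) = false → T ⊆ L i ∧ (2 ≤ P.ls i → T.card = P.ls i ∧
        (P.il i = true → ψ i ⊆ T)))) := by
    intro i
    by_cases hi : i < P.N
    · cases hff : (P.fx i || P.fl i)
      · have hf : P.fx i = false := (Bool.or_eq_false_iff.1 hff).1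
        by_cases h2 : 2 ≤ P.ls i
        · by_cases hil : P.il i = true
          · obtain ⟨T, hT1, hT2, hT3⟩ := exists_subsuperset_card_eq (h4 i hi hil)
              (by rw [h1 i hi]; exact h2) (h3 i hi hf)
            exact ⟨T, fun _ => ⟨fun h => absurd h (by simp),
              fun _ => ⟨hT2, fun _ => ⟨hT3, fun _ => hT1⟩⟩⟩⟩
          · obtain ⟨T, hT1, hT2⟩ := exists_subset_card_eq (h3 i hi hf)
            exact ⟨T, fun _ => ⟨fun h => absurd h (by simp),
              fun _ => ⟨hT1, fun _ => ⟨hT2, fun h => absurd h hil⟩⟩⟩⟩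
        · exact ⟨L i, fun _ => ⟨fun h => absurd h (by simp),
            fun _ => ⟨Subset.refl _, fun h => absurd h h2⟩⟩⟩
      · exact ⟨ψ i, fun _ => ⟨fun _ => rfl, fun h => absurd h (by simp)⟩⟩
    · exact ⟨∅, fun h => absurd h hi⟩
  choose Λ hΛ using key
  exact ⟨Λ, fun i hi => (hΛ i hi).1, fun i hi => (hΛ i hi).2⟩

theorem OkS_of (Λ : ℕ → Finset (Fin 7)) : ∀ (sts : List St) (pn us : List ℕ) (cur : ℕ),
    wf sts pn cur us = true → (∀ p ∈ parsOf sts, (Λ p.2.1).card = p.1 ∧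
      ∀ t ∈ p.2.2, Disjoint (Λ p.2.1) (Λ t)) →
    (∀ q ∈ pwsOf sts, (Λ q.1).card = 2 ∧ (Λ q.1 ∩ Λ q.2).card = 1) → OkS Λ sts := by
  intro sts
  induction sts with
  | nil => intro _ _ _ _ _ _; trivial
  | cons st r ih =>
    intro pn us cur hwf hp hq
    have hq' : ∀ q ∈ pwsOf r, (Λ q.1).card = 2 ∧ (Λ q.1 ∩ Λ q.2).card = 1 := by
      intro q hqm
      apply hq q
      unfold pwsOf
      rw [List.flatMap_cons, List.mem_append]
      exact Or.inr hqm
    have hp' : ∀ p ∈ parsOf r, (Λ p.2.1).card = p.1 ∧ ∀ t ∈ p.2.2, Disjoint (Λ p.2.1) (Λ t) := by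
      intro p hpm
      apply hp p
      unfold parsOf
      rw [List.flatMap_cons, List.mem_append]
      exact Or.inr hpm
    cases st with
    | par s n dis =>
      rw [wf, Bool.and_eq_true] at hwf
      have h1 := hp (s, n, dis) (by simp [parsOf])
      refine ⟨?_, h1.1, h1.2, ih _ _ _ hwf.2 hp' hq'⟩
      have h2 := hwf.1
      simp only [Bool.or_eq_true, beq_iff_eq] at h2
      rcases h2 with (h2 | h2) | h2
      · exact Or.inl h2
      · exact Or.inr (Or.inl h2)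
      · exact Or.inr (Or.inr h2)
    | vf d =>
      rw [wf, Bool.and_eq_true] at hwf
      exact ih _ _ _ hwf.2 hp' hq'
    | ed u v =>
      rw [wf, Bool.and_eq_true] at hwf
      exact ih _ _ _ hwf.2 hp' hq'
    | tr u v d =>
      rw [wf, Bool.and_eq_true] at hwf
      exact ih _ _ _ hwf.2 hp' hq'
    | pw n m =>
      rw [wf] at hwf
      have h1 := hq (n, m) (by simp [pwsOf])
      exact ⟨h1.1, h1.2, ih _ _ _ hwf hp' hq'⟩
    | tx u v n w =>
      rw [wf, Bool.and_eq_true] at hwf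
      exact ih _ _ _ hwf.2 hp' hq'

theorem act_disj {σ : Equiv.Perm (Fin 7)} {f : ℕ → Finset (Fin 7)} {i j : ℕ}
    (h : Disjoint (f i) (f j)) : Disjoint (act σ f i) (act σ f j) :=
  (Finset.disjoint_map _).2 h

/-- a colouring for the permuted sets gives a colouring -/
theorem unact {sts : List St} {Λ χ : ℕ → Finset (Fin 7)} (σ : Equiv.Perm (Fin 7))
    (h1 : ∀ x, (χ x).card = 2) (h : ∀ st ∈ sts, Sts (act σ Λ) χ st) :
    ∃ χ' : ℕ → Finset (Fin 7), (∀ x, (χ' x).card = 2) ∧ ∀ st ∈ sts, Sts Λ χ' st := by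
  refine ⟨act σ⁻¹ χ, fun x => by rw [act, card_map]; exact h1 x, fun st hst => ?_⟩
  have h2 : act σ⁻¹ (act σ Λ) = Λ := by rw [← act_mul, inv_mul_cancel, act_one]
  have hA : ∀ n L ns (T : Finset (Fin 7)), Avl (act σ Λ) n L ns T →
      Avl Λ n L ns (T.map (σ⁻¹ : Equiv.Perm (Fin 7)).toEmbedding) := by
    intro n L ns T hT
    refine ⟨fun hL => ?_, fun t ht => ?_⟩
    · have := Finset.map_subset_map (f := (σ⁻¹ : Equiv.Perm (Fin 7)).toEmbedding) |>.2 (hT.1 hL)
      have h3 : (act σ Λ n).map (σ⁻¹ : Equiv.Perm (Fin 7)).toEmbedding = Λ n := congrFun h2 n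
      rwa [h3] at this
    · have := (Finset.disjoint_map (σ⁻¹ : Equiv.Perm (Fin 7)).toEmbedding).2 (hT.2 t ht)
      have h3 : (act σ Λ t).map (σ⁻¹ : Equiv.Perm (Fin 7)).toEmbedding = Λ t := congrFun h2 t
      rwa [h3] at this
  have hV : ∀ d, VDs (act σ Λ) χ d → VDs Λ (act σ⁻¹ χ) d := by
    intro d hd
    exact ⟨hA _ _ _ _ hd.1, fun q hq => ⟨hA _ _ _ _ (hd.2 q hq).1, act_disj (hd.2 q hq).2⟩⟩
  have h3 := h st hst
  cases st with
  | par s n dis => trivial
  | vf d => exact hV d h3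
  | ed u v => exact act_disj h3
  | tr u v d =>
    exact ⟨act_disj h3.1, act_disj h3.2.1, act_disj h3.2.2.1, hV d h3.2.2.2⟩
  | pw n m => trivial
  | tx u v n w =>
    have hS : ∀ n m, χ n ⊆ act σ Λ m → act σ⁻¹ χ n ⊆ Λ m := by
      intro n m hnm
      have h4 := Finset.map_subset_map (f := (σ⁻¹ : Equiv.Perm (Fin 7)).toEmbedding) |>.2 hnm
      have h5 : (act σ Λ m).map (σ⁻¹ : Equiv.Perm (Fin 7)).toEmbedding = Λ m := congrFun h2 m
      rwa [h5] at h4
    refine ⟨act_disj h3.1, act_disj h3.2.1, act_disj h3.2.2.1, ?_⟩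
    rcases h3.2.2.2 with h6 | h6
    · exact Or.inl (hS _ _ h6)
    · exact Or.inr (hS _ _ h6)

/-- from the conditions of the instructions to the conclusion -/
theorem fin_col {P : Prob} {sts : List St} {nodes : List (ℕ × ℕ × List ℕ)}
    (hst : stat P sts nodes = true) {ψ L Λ χ : ℕ → Finset (Fin 7)}
    (h1 : ∀ i, i < P.N → (ψ i).card = 2) (h2 : ∀ e ∈ P.Eg, Disjoint (ψ e.1) (ψ e.2))
    (h3 : ∀ i, i < P.N → P.fx i = false → P.ls i ≤ (L i).card)
    (hΛ0 : ∀ i, i < P.N → (P.fx i || P.fl i) = true → Λ i = ψ i)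
    (hΛ2 : ∀ i, i < P.N → (P.fx i || P.fl i) = false → Λ i ⊆ L i)
    (hχ : ∀ x, (χ x).card = 2) (hs : ∀ st ∈ sts, Sts Λ χ st) :
    ∃ χ : ℕ → Finset (Fin 7), (∀ i, i < P.N → (χ i).card = 2) ∧
      (∀ i, i < P.N → P.fx i = true → χ i = ψ i) ∧
      (∀ i, i < P.N → P.fx i = false → P.fl i = false → χ i ⊆ L i) ∧
      (∀ i, i < P.N → P.fl i = true → χ i = ψ i ∨ χ i = ψ (P.fw i)) ∧
      (∀ e ∈ P.E, Disjoint (χ e.1) (χ e.2)) := by
  have hΛ1 : ∀ i, i < P.N → P.fx i = true → Λ i = ψ i := fun i hi hf =>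
    hΛ0 i hi (by rw [hf]; rfl)
  unfold stat at hst
  simp only [Bool.and_eq_true, List.all_eq_true] at hst
  obtain ⟨⟨⟨⟨⟨⟨⟨_, s2⟩, s3⟩, s4⟩, _⟩, _⟩, s7⟩, s8⟩ := hst
  have hnm : ∀ i ∈ nmOf sts, i < P.N ∧ (P.fx i = true → χ i = ψ i) := by
    intro i hi
    have h := s4 i hi
    rw [decide_eq_true_eq, Bool.or_eq_true, Bool.not_eq_true', List.contains_iff_mem] at h
    refine ⟨h.1, fun hf => ?_⟩
    rcases h.2 with h5 | h5
    · rw [hf] at h5; exact absurd h5 (by simp)
    · have h6 := L_ok hs h5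
      rw [hΛ1 i h.1 hf] at h6
      exact Finset.eq_of_subset_of_card_le h6 (by rw [h1 i h.1, hχ])
  refine ⟨fun i => if P.fx i = true then ψ i else χ i, ?_, ?_, ?_, ?_, ?_⟩
  · intro i hi
    show (if P.fx i = true then ψ i else χ i).card = 2
    split_ifs
    · exact h1 i hi
    · exact hχ i
  · intro i _ hf
    show (if P.fx i = true then ψ i else χ i) = ψ i
    rw [if_pos hf]
  · intro i hi hf hfl
    have hf' : ¬ P.fx i = true := by rw [hf]; simp
    show (if P.fx i = true then ψ i else χ i) ⊆ L i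
    rw [if_neg hf']
    have h := s3 i (List.mem_range.2 hi)
    rw [Bool.or_eq_true, Bool.or_eq_true, decide_eq_true_eq, List.contains_iff_mem] at h
    rcases h with (h | h) | h
    · rw [hf, hfl] at h; exact absurd h (by simp)
    · have h5 := h3 i hi hf
      have h6 : L i = univ := by
        rw [← Finset.card_eq_iff_eq_univ, Fintype.card_fin]
        exact le_antisymm (by simpa using Finset.card_le_univ (L i)) (le_trans h h5)
      rw [h6]
      exact subset_univ _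
    · exact (L_ok hs h).trans (hΛ2 i hi (by rw [hf, hfl]; rfl))
  · intro i hi hfl
    have h := s8 i (List.mem_range.2 hi)
    rw [hfl] at h
    simp only [Bool.not_true, Bool.false_or, Bool.and_eq_true, Bool.not_eq_true',
      List.any_eq_true, beq_iff_eq] at h
    obtain ⟨hf, q, hq, hqi⟩ := h
    have hf' : ¬ P.fx i = true := by rw [hf]; simp
    show (if P.fx i = true then ψ i else χ i) = ψ i ∨
      (if P.fx i = true then ψ i else χ i) = ψ (P.fw i)
    rw [if_neg hf']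
    have h7 := s7 q hq
    rw [decide_eq_true_eq, beq_iff_eq, hqi] at h7
    obtain ⟨⟨⟨_, h8⟩, h9⟩, h10⟩ := h7
    rw [← h8] at h9 h10
    rcases tx_ok hs hq with h11 | h11
    · left
      rw [hqi, hΛ0 i hi (by rw [hfl, Bool.or_true])] at h11
      exact Finset.eq_of_subset_of_card_le h11 (by rw [h1 i hi, hχ])
    · right
      rw [hqi, ← h8, hΛ1 _ h10 h9] at h11
      exact Finset.eq_of_subset_of_card_le h11 (by rw [h1 _ h10, hχ])
  · have hcol : ∀ i ∈ nmOf sts, (if P.fx i = true then ψ i else χ i) = χ i := by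
      intro i hi
      by_cases hf : P.fx i = true
      · rw [if_pos hf, (hnm i hi).2 hf]
      · rw [if_neg hf]
    have he2 : ∀ e ∈ (vdsOf sts).flatMap e2VD, P.fx e.2 = true → e.2 < P.N →
        Disjoint (if P.fx e.1 = true then ψ e.1 else χ e.1)
          (if P.fx e.2 = true then ψ e.2 else χ e.2) := by
      intro e he hf hN
      obtain ⟨h5, h6⟩ := e2_ok hs he
      rw [hcol _ h6, if_pos hf, ← hΛ1 _ hN hf]
      exact h5
    intro e he
    have h := s2 e he
    rw [Bool.or_eq_true, Bool.or_eq_true, Bool.or_eq_true] at h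
    rcases h with ((h | h) | h) | h
    · unfold eIn at h
      rw [Bool.or_eq_true, List.contains_iff_mem, List.contains_iff_mem] at h
      rcases h with h | h
      · obtain ⟨h5, h6⟩ := e1_nm h
        show Disjoint (if P.fx e.1 = true then ψ e.1 else χ e.1)
          (if P.fx e.2 = true then ψ e.2 else χ e.2)
        rw [hcol _ h5, hcol _ h6]
        exact e1_ok hs h
      · obtain ⟨h5, h6⟩ := e1_nm h
        show Disjoint (if P.fx e.1 = true then ψ e.1 else χ e.1)
          (if P.fx e.2 = true then ψ e.2 else χ e.2)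
        rw [hcol _ h5, hcol _ h6]
        exact (e1_ok hs h).symm
    · rw [Bool.and_eq_true, Bool.and_eq_true, List.contains_iff_mem, decide_eq_true_eq] at h
      exact he2 e h.1.1 h.1.2 h.2
    · rw [Bool.and_eq_true, Bool.and_eq_true, List.contains_iff_mem, decide_eq_true_eq] at h
      exact (he2 _ h.1.1 h.1.2 h.2).symm
    · rw [Bool.and_eq_true, Bool.and_eq_true, Bool.and_eq_true, Bool.and_eq_true] at h
      show Disjoint (if P.fx e.1 = true then ψ e.1 else χ e.1)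
          (if P.fx e.2 = true then ψ e.2 else χ e.2)
      rw [if_pos h.1.1.1.1, if_pos h.1.1.1.2]
      exact eIn_disj h2 h.2

/-- the parameters are as required -/
theorem par_ok {P : Prob} {sts : List St} {nodes : List (ℕ × ℕ × List ℕ)}
    (hst : stat P sts nodes = true) {ψ L Λ : ℕ → Finset (Fin 7)}
    (h1 : ∀ i, i < P.N → (ψ i).card = 2) (h2 : ∀ e ∈ P.Eg, Disjoint (ψ e.1) (ψ e.2))
    (hΛ1 : ∀ i, i < P.N → (P.fx i || P.fl i) = true → Λ i = ψ i)
    (hΛ2 : ∀ i, i < P.N → (P.fx i || P.fl i) = false → Λ i ⊆ L i ∧ (2 ≤ P.ls i →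
        (Λ i).card = P.ls i ∧ (P.il i = true → ψ i ⊆ Λ i)))
    (hN : ∀ t, (P.fx t || P.fl t) = true → t < P.N)
    (h23 : ∀ p ∈ parsOf sts, 2 ≤ p.1) :
    ∀ p ∈ parsOf sts, (Λ p.2.1).card = p.1 ∧ ∀ t ∈ p.2.2, Disjoint (Λ p.2.1) (Λ t) := by
  unfold stat at hst
  simp only [Bool.and_eq_true, List.all_eq_true] at hst
  obtain ⟨⟨⟨⟨⟨⟨⟨s1, _⟩, _⟩, _⟩, _⟩, _⟩, _⟩, _⟩ := hst
  intro p hp
  obtain ⟨⟨h3, h4⟩, h5⟩ := s1 p hp
  rw [decide_eq_true_eq] at h3
  refine ⟨?_, fun t ht => ?_⟩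
  · cases hf : (P.fx p.2.1 || P.fl p.2.1)
    · rw [hf] at h4
      have h6 : p.1 = P.ls p.2.1 := by simpa using h4
      rw [((hΛ2 _ h3 hf).2 (by rw [← h6]; exact h23 p hp)).1, h6]
    · rw [hf] at h4
      have h6 : p.1 = 2 := by simpa using h4
      rw [hΛ1 _ h3 hf, h1 _ h3, h6]
  · obtain ⟨⟨h6, h7⟩, h8⟩ := h5 t ht
    rw [hΛ1 _ h3 h6, hΛ1 _ (hN t h7) h7]
    exact eIn_disj (e := (p.2.1, t)) h2 h8

/-- the parameters which meet another one are as required -/
theorem pws_ok {P : Prob} {sts : List St} {nodes : List (ℕ × ℕ × List ℕ)}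
    (hst : stat P sts nodes = true) {ψ Λ : ℕ → Finset (Fin 7)}
    (h1 : ∀ i, i < P.N → (ψ i).card = 2)
    (h5 : ∀ i, i < P.N → P.fl i = true → (ψ i ∩ ψ (P.fw i)).card = 1)
    (hΛ1 : ∀ i, i < P.N → (P.fx i || P.fl i) = true → Λ i = ψ i) :
    ∀ q ∈ pwsOf sts, (Λ q.1).card = 2 ∧ (Λ q.1 ∩ Λ q.2).card = 1 := by
  unfold stat at hst
  simp only [Bool.and_eq_true, List.all_eq_true] at hst
  obtain ⟨⟨⟨⟨⟨⟨⟨_, _⟩, _⟩, _⟩, _⟩, s6⟩, _⟩, _⟩ := hst
  intro q hq
  have h := s6 q hq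
  rw [decide_eq_true_eq, decide_eq_true_eq, beq_iff_eq] at h
  obtain ⟨⟨⟨⟨h2, h3⟩, h4⟩, h6⟩, h7⟩ := h
  rw [hΛ1 _ h6 (by rw [h4]; rfl), hΛ1 _ h7 (by rw [h2, Bool.or_true])]
  refine ⟨h1 _ h6, ?_⟩
  rw [Finset.inter_comm, ← h3]
  exact h5 _ h7 h2

theorem wf_two : ∀ (sts : List St) (pn us : List ℕ) (cur : ℕ),
    wf sts pn cur us = true → ∀ p ∈ parsOf sts, 2 ≤ p.1 := by
  intro sts
  induction sts with
  | nil => intro _ _ _ _ p hp; simp [parsOf] at hp
  | cons st r ih =>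
    intro pn us cur hwf p hp
    unfold parsOf at hp
    rw [List.flatMap_cons, List.mem_append] at hp
    cases st with
    | par s n dis =>
      rw [wf, Bool.and_eq_true] at hwf
      rcases hp with hp | hp
      · have : p = (s, n, dis) := by simpa using hp
        rw [this]
        have h2 := hwf.1
        simp only [Bool.or_eq_true, beq_iff_eq] at h2
        show 2 ≤ s
        omega
      · exact ih _ _ _ hwf.2 p hp
    | vf d =>
      rw [wf, Bool.and_eq_true] at hwf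
      rcases hp with hp | hp
      · simp at hp
      · exact ih _ _ _ hwf.2 p hp
    | ed u v =>
      rw [wf, Bool.and_eq_true] at hwf
      rcases hp with hp | hp
      · simp at hp
      · exact ih _ _ _ hwf.2 p hp
    | tr u v d =>
      rw [wf, Bool.and_eq_true] at hwf
      rcases hp with hp | hp
      · simp at hp
      · exact ih _ _ _ hwf.2 p hp
    | pw n m =>
      rw [wf] at hwf
      rcases hp with hp | hp
      · simp at hp
      · exact ih _ _ _ hwf p hp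
    | tx u v n w =>
      rw [wf, Bool.and_eq_true] at hwf
      rcases hp with hp | hp
      · simp at hp
      · exact ih _ _ _ hwf.2 p hp

/-- the search succeeds for permuted sets -/
theorem gsat_act {P : Prob} {sts : List St} {nodes : List (ℕ × ℕ × List ℕ)}
    (hst : stat P sts nodes = true) {ψ L Λ : ℕ → Finset (Fin 7)}
    (h1 : ∀ i, i < P.N → (ψ i).card = 2) (h2 : ∀ e ∈ P.Eg, Disjoint (ψ e.1) (ψ e.2))
    (hΛ1 : ∀ i, i < P.N → (P.fx i || P.fl i) = true → Λ i = ψ i)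
    (hΛ2 : ∀ i, i < P.N → (P.fx i || P.fl i) = false → Λ i ⊆ L i ∧ (2 ≤ P.ls i →
        (Λ i).card = P.ls i ∧ (P.il i = true → ψ i ⊆ Λ i)))
    (h23 : ∀ p ∈ parsOf sts, 2 ≤ p.1)
    (σ : Equiv.Perm (Fin 7)) {env : List (ℕ × ℕ)} (hc : Cmp env (act σ Λ))
    (henv : ∀ p ∈ parsOf sts, p.2.1 ∈ env.map Prod.fst) : gsat env nodes [] = true := by
  unfold stat at hst
  simp only [Bool.and_eq_true, List.all_eq_true] at hst
  obtain ⟨⟨⟨⟨⟨⟨⟨s1, _⟩, _⟩, _⟩, s5⟩, _⟩, _⟩, _⟩ := hst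
  refine gsat_true (ψ := act σ ψ) hc nodes [] (fun e he => by simp at he) (fun nd hnd => ?_)
  obtain ⟨⟨⟨h3, h4⟩, h5⟩, h6⟩ := s5 nd hnd
  rw [decide_eq_true_eq] at h3
  refine ⟨by rw [act, card_map]; exact h1 _ h3, fun hk => ?_, fun hk => ?_, fun t ht => ?_⟩
  · rw [hk] at h4
    simp only [BEq.rfl, Bool.not_true, Bool.false_or, Bool.and_eq_true, Bool.not_eq_true',
      List.any_eq_true, beq_iff_eq] at h4
    obtain ⟨⟨h7, h8⟩, p, hp, hpn⟩ := h4
    have h9 := s1 p hp
    rw [decide_eq_true_eq, hpn, h8] at h9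
    have h10 : p.1 = P.ls nd.1 := by simpa using h9.1.2
    refine ⟨hpn ▸ henv p hp, ?_⟩
    exact Finset.map_subset_map.2 (((hΛ2 _ h3 h8).2 (by rw [← h10]; exact h23 p hp)).2 h7)
  · rw [hk] at h5
    rw [BEq.rfl, Bool.not_true, Bool.false_or, Bool.and_eq_true,
      List.any_eq_true] at h5
    obtain ⟨h7, p, hp, hpn⟩ := h5
    rw [beq_iff_eq] at hpn
    refine ⟨hpn ▸ henv p hp, ?_⟩
    simp only [act]
    rw [hΛ1 _ h3 h7]
  · exact act_disj (eIn_disj (e := (nd.1, t)) h2 (h6 t ht))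

/-- the separation of the two strips -/
def sepB (l r : List St) (u0 : ℕ) : Bool :=
  (u0 :: endv l u0 :: nmOf l).all (fun x =>
    !(((nmOf r).filter (fun y => y != u0 && y != endv l u0)).contains x))

/-- the complete check for two strips -/
noncomputable def chkRing (P : Prob) (l r : List St) (nodes : List (ℕ × ℕ × List ℕ))
    (u0 : ℕ) : Bool :=
  wf l [] u0 [u0] && wf r [] u0 [u0] &&
    decide (endv l u0 = endv r u0) && sepB l r u0 && stat P (l ++ r) nodes && ringB l r nodes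

/-- the complete check for one strip -/
noncomputable def chkPath (P : Prob) (l : List St) (nodes : List (ℕ × ℕ × List ℕ))
    (u0 : ℕ) : Bool :=
  wf l [] u0 [u0] && stat P l nodes && pathB l nodes

theorem parsOf_append (l r : List St) : parsOf (l ++ r) = parsOf l ++ parsOf r := by
  unfold parsOf
  rw [List.flatMap_append]

theorem pwsOf_append (l r : List St) : pwsOf (l ++ r) = pwsOf l ++ pwsOf r := by
  unfold pwsOf
  rw [List.flatMap_append]

theorem chkPath_sound {P : Prob} {l : List St} {nodes : List (ℕ × ℕ × List ℕ)} {u0 : ℕ}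
    (hN : ∀ t, (P.fx t || P.fl t) = true → t < P.N) (h : chkPath P l nodes u0 = true) :
    P.OK := by
  unfold chkPath at h
  rw [Bool.and_eq_true, Bool.and_eq_true] at h
  obtain ⟨⟨hwf, hst⟩, hB⟩ := h
  intro ψ L h1 h2 h3 h4 h5'
  obtain ⟨Λ, hΛ1, hΛ2⟩ := ex_sets P ψ L h1 h3 h4
  have hpws := pws_ok hst h1 h5' hΛ1
  have h23 := wf_two l [] [u0] u0 hwf
  have hpar := par_ok hst h1 h2 hΛ1 hΛ2 hN h23
  have hok := OkS_of Λ l [] [u0] u0 hwf hpar hpws
  obtain ⟨σ, hσ⟩ := pathB_sound hB Λ hok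
  have henv := res_env (Λ := act σ Λ) l ID [] (fun e he => by simp at he)
  rcases hσ with hσ | hσ
  · obtain ⟨j, hj⟩ := ex_bit hσ
    obtain ⟨_, χ, h5, _, _, h6⟩ := strip0 (Λ := act σ Λ) hwf j hj
    obtain ⟨χ', h7, h8⟩ := unact σ h5 h6
    exact fin_col hst h1 h2 h3 hΛ1 (fun i hi hf => (hΛ2 i hi hf).1) h7 h8
  · rw [gsat_act hst h1 h2 hΛ1 hΛ2 h23 σ henv.1
      (fun p hp => henv.2 _ (Or.inr ⟨p, hp, rfl⟩))] at hσ
    exact absurd hσ (by simp)

theorem chkRing_sound {P : Prob} {l r : List St} {nodes : List (ℕ × ℕ × List ℕ)} {u0 : ℕ}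
    (hN : ∀ t, (P.fx t || P.fl t) = true → t < P.N) (h : chkRing P l r nodes u0 = true) :
    P.OK := by
  unfold chkRing at h
  rw [Bool.and_eq_true, Bool.and_eq_true, Bool.and_eq_true, Bool.and_eq_true, Bool.and_eq_true,
    decide_eq_true_eq] at h
  obtain ⟨⟨⟨⟨⟨hwfl, hwfr⟩, hend⟩, hsep⟩, hst⟩, hB⟩ := h
  intro ψ L h1 h2 h3 h4 h5'
  obtain ⟨Λ, hΛ1, hΛ2⟩ := ex_sets P ψ L h1 h3 h4
  have hpws := pws_ok hst h1 h5' hΛ1
  have h23 : ∀ p ∈ parsOf (l ++ r), 2 ≤ p.1 := by
    intro p hp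
    rw [parsOf_append, List.mem_append] at hp
    rcases hp with hp | hp
    · exact wf_two l [] [u0] u0 hwfl p hp
    · exact wf_two r [] [u0] u0 hwfr p hp
  have hpar := par_ok hst h1 h2 hΛ1 hΛ2 hN h23
  have hokl := OkS_of Λ l [] [u0] u0 hwfl (fun p hp => hpar p (by
    rw [parsOf_append, List.mem_append]; exact Or.inl hp)) (fun q hq => hpws q (by
    rw [pwsOf_append, List.mem_append]; exact Or.inl hq))
  have hokr := OkS_of Λ r [] [u0] u0 hwfr (fun p hp => hpar p (by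
    rw [parsOf_append, List.mem_append]; exact Or.inr hp)) (fun q hq => hpws q (by
    rw [pwsOf_append, List.mem_append]; exact Or.inr hq))
  obtain ⟨σ, hσ⟩ := ringB_sound hB Λ hokl hokr
  have henvl := res_env (Λ := act σ Λ) l ID [] (fun e he => by simp at he)
  have henvr := res_env (Λ := act σ Λ) r ID [] (fun e he => by simp at he)
  rcases hσ with hσ | hσ
  · obtain ⟨j, hj⟩ := ex_bit hσ
    have hj' : ((res (act σ Λ) r ID []).1 &&& (res (act σ Λ) l ID []).1).testBit j = true := hj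
    rw [Nat.testBit_land, Bool.and_eq_true] at hj'
    obtain ⟨_, χl, l5, l6, l7, l8⟩ := strip0 (Λ := act σ Λ) hwfl j hj'.2
    obtain ⟨_, χr, r5, r6, r7, r8⟩ := strip0 (Λ := act σ Λ) hwfr j hj'.1
    rw [← hend] at r7
    set int := (nmOf r).filter (fun y => y != u0 && y != endv l u0) with hint
    have hs0 : ∀ x ∈ u0 :: endv l u0 :: nmOf l, x ∉ int := by
      intro x hx hxi
      have h9 := List.all_eq_true.1 hsep x hx
      rw [Bool.not_eq_true', ← hint] at h9
      rw [List.contains_iff_mem.2 hxi] at h9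
      exact absurd h9 (by simp)
    set χ : ℕ → Finset (Fin 7) := fun x => if x ∈ int then χr x else χl x with hχ
    have hl : ∀ x ∈ u0 :: endv l u0 :: nmOf l, χl x = χ x := by
      intro x hx
      rw [hχ]
      show χl x = if x ∈ int then χr x else χl x
      rw [if_neg (hs0 x hx)]
    have hr : ∀ x ∈ nmOf r, χr x = χ x := by
      intro x hx
      by_cases hxi : x ∈ int
      · rw [hχ]
        show χr x = if x ∈ int then χr x else χl x
        rw [if_pos hxi]
      · have h9 : x = u0 ∨ x = endv l u0 := by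
          by_contra hc
          rw [not_or] at hc
          apply hxi
          rw [hint, List.mem_filter]
          refine ⟨hx, ?_⟩
          simp [hc.1, hc.2]
        rcases h9 with rfl | h9
        · rw [← hl _ (by simp), r6, l6]
        · rw [h9, ← hl _ (by simp), r7, l7]
    have h5 : ∀ x, (χ x).card = 2 := by
      intro x
      rw [hχ]
      show (if x ∈ int then χr x else χl x).card = 2
      split_ifs
      · exact r5 x
      · exact l5 x
    have h6 : ∀ st ∈ l ++ r, Sts (act σ Λ) χ st := by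
      intro st hstm
      rw [List.mem_append] at hstm
      rcases hstm with hstm | hstm
      · exact Sts_congr (fun x hx => hl x (List.mem_cons_of_mem _ (List.mem_cons_of_mem _
          (List.mem_flatMap.2 ⟨st, hstm, hx⟩)))) (l8 st hstm)
      · exact Sts_congr (fun x hx => hr x (List.mem_flatMap.2 ⟨st, hstm, hx⟩)) (r8 st hstm)
    obtain ⟨χ', h7, h8⟩ := unact σ h5 h6
    exact fin_col hst h1 h2 h3 hΛ1 (fun i hi hf => (hΛ2 i hi hf).1) h7 h8
  · have hc : Cmp (app (res (act σ Λ) r ID []).2 (res (act σ Λ) l ID []).2) (act σ Λ) := by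
      rw [app_eq]
      exact Cmp_append henvr.1 henvl.1
    rw [gsat_act hst h1 h2 hΛ1 hΛ2 h23 σ hc (fun p hp => ?_)] at hσ
    · exact absurd hσ (by simp)
    · rw [app_eq, List.map_append, List.mem_append]
      rw [parsOf_append, List.mem_append] at hp
      rcases hp with hp | hp
      · exact Or.inr (henvl.2 _ (Or.inr ⟨p, hp, rfl⟩))
      · exact Or.inl (henvr.2 _ (Or.inr ⟨p, hp, rfl⟩))

end Pool.Agent.Lib.SVX.Chk
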