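import Pool.Agent.Lib.SVX.ChkR

/-!
# SVX.ChkP: list problems and programs (MP_0229a2_co)

`Prob`: a list problem: named vertices `0, …, N - 1`, the edges `E`, the edges `Eg` on which the
given colouring `ψ` is proper, fixed vertices (they keep the colour `ψ`), list sizes `ls` of the
others and `inL` (`ψ i` is in the list of `i`).  `Prob.OK`: for all such lists the vertices can be
recoloured.  A program describes how to decide this: two strips of vertices between two vertices.
-/

set_option autoImplicit false
set_option maxRecDepth 100000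

namespace Pool.Agent.Lib.SVX.Chk

open Finset

/-- list problems; `fl`: flexible vertices, they have the colour `ψ i` or `ψ (fw i)` -/
structure Prob where
  N : ℕ
  E : List (ℕ × ℕ)
  Eg : List (ℕ × ℕ)
  fx : ℕ → Bool
  ls : ℕ → ℕ
  il : ℕ → Bool
  fl : ℕ → Bool
  fw : ℕ → ℕ

/-- every colouring `ψ` which is proper on `Eg` can be changed into a colouring from the lists -/
def Prob.OK (P : Prob) : Prop :=
  ∀ (ψ L : ℕ → Finset (Fin 7)),
    (∀ i, i < P.N → (ψ i).card = 2) →
    (∀ e ∈ P.Eg, Disjoint (ψ e.1) (ψ e.2)) →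
    (∀ i, i < P.N → P.fx i = false → P.ls i ≤ (L i).card) →
    (∀ i, i < P.N → P.il i = true → ψ i ⊆ L i) →
    (∀ i, i < P.N → P.fl i = true → (ψ i ∩ ψ (P.fw i)).card = 1) →
    ∃ χ : ℕ → Finset (Fin 7), (∀ i, i < P.N → (χ i).card = 2) ∧
      (∀ i, i < P.N → P.fx i = true → χ i = ψ i) ∧
      (∀ i, i < P.N → P.fx i = false → P.fl i = false → χ i ⊆ L i) ∧
      (∀ i, i < P.N → P.fl i = true → χ i = ψ i ∨ χ i = ψ (P.fw i)) ∧
      (∀ e ∈ P.E, Disjoint (χ e.1) (χ e.2))

/-- a vertex: `L`: it has a list, `ns`: its fixed neighbours, `ps`: its pendant neighbours -/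
structure VD where
  v : ℕ
  L : Bool
  ns : List ℕ
  ps : List (ℕ × Bool × List ℕ)

/-- instructions -/
inductive St where
  /-- choose the set (list or colour) of `n` of size `s`, disjoint from the sets in `dis` -/
  | par (s n : ℕ) (dis : List ℕ)
  /-- the conditions at the current vertex -/
  | vf (d : VD)
  /-- edge from the current vertex to the next one -/
  | ed (u v : ℕ)
  /-- triangle on the current vertex, the next vertex and `d` -/
  | tr (u v : ℕ) (d : VD)
  /-- choose the pair of `n` which meets the set of `m` in one element -/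
  | pw (n m : ℕ)
  /-- triangle whose third vertex `n` has the pair named `n` or the pair named `w` -/
  | tx (u v n w : ℕ)

noncomputable section

/-- the mask of a name -/
def lk (env : List (ℕ × ℕ)) (n : ℕ) : ℕ :=
  List.rec (motive := fun _ => ℕ) 0 (fun e _ ih => bite (Nat.beq e.1 n) e.2 ih) env

/-- union of masks -/
def orL (env : List (ℕ × ℕ)) (ns : List ℕ) : ℕ :=
  List.rec (motive := fun _ => ℕ) 0 (fun t _ ih => Nat.lor (lk env t) ih) ns

/-- available colours -/
def am (env : List (ℕ × ℕ)) (n : ℕ) (L : Bool) (ns : List ℕ) : ℕ :=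
  Nat.land (bite L (lk env n) 127) (Nat.xor 127 (orL env ns))

/-- the possible pairs at a vertex -/
def dm (env : List (ℕ × ℕ)) (d : VD) : ℕ :=
  List.rec (motive := fun _ => ℕ) (ins (am env d.v d.L d.ns))
    (fun q _ ih => Nat.land (nin (am env q.1 q.2.1 q.2.2)) ih) d.ps

/-- the effect of an instruction on the relation between the first and the current vertex -/
def step (env : List (ℕ × ℕ)) (st : St) (R : ℕ) : ℕ :=
  St.rec (motive := fun _ => ℕ) (fun _ _ _ => R) (fun d => flt R (dm env d))
    (fun _ _ => comp DJ R) (fun _ _ d => fN (dm env d) (fun D => comp (trows D) R))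
    (fun _ _ => R)
    (fun _ _ n w => fN (Nat.lor (ins (lk env n)) (ins (lk env w))) (fun D => comp (trows D) R)) st

/-- the pair `o` meets the set `q` in one element (or `q` is empty) -/
def okW (o q : ℕ) : Bool :=
  band (Bool.not (Nat.beq (Nat.land o q) o)) (bor (Nat.beq q 0) (Nat.ble 1 (Nat.land o q)))

/-- the options for a set of size `s` -/
def optsOf (s : ℕ) : List (ℕ × ℕ × ℕ) :=
  bite (Nat.beq s 2) O2 (bite (Nat.beq s 3) O3 (bite (Nat.beq s 5) O5 []))

/-- run over the options with equivalent pairs `W`; `k` is a test of the result -/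
def runC (k : ℕ → List (ℕ × ℕ) → Bool) (sts : List St) : ℕ → ℕ → List (ℕ × ℕ) → Bool :=
  List.rec (motive := fun _ => ℕ → ℕ → List (ℕ × ℕ) → Bool) (fun _ R env => k R env)
    (fun st _ ih W R env => St.rec (motive := fun _ => Bool)
      (fun s n dis => fN (orL env dis) (fun F =>
        List.rec (motive := fun _ => Bool) true (fun o _ ih2 =>
          band (bite (band (Nat.beq (Nat.land W o.2.2) 0) (Nat.beq (Nat.land o.1 F) 0))
            (fN (Nat.land W o.2.1) (fun W' => fN o.1 (fun m => ih W' R ((n, m) :: env)))) true)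
            ih2) (optsOf s)))
      (fun d => fN (step env (St.vf d) R) (fun R' => ih W R' env))
      (fun u v => fN (step env (St.ed u v) R) (fun R' => ih W R' env))
      (fun u v d => fN (step env (St.tr u v d) R) (fun R' => ih W R' env))
      (fun n m => fN (lk env m) (fun q =>
        List.rec (motive := fun _ => Bool) true (fun o _ ih2 =>
          band (bite (band (Nat.beq (Nat.land W o.2.2) 0) (okW o.1 q))
            (fN (Nat.land W o.2.1) (fun W' => fN o.1 (fun m => ih W' R ((n, m) :: env)))) true)
            ih2) O2))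
      (fun u v n w => fN (step env (St.tx u v n w) R) (fun R' => ih W R' env)) st) sts

/-- the list of all results -/
def runL (sts : List St) : ℕ → ℕ → List (ℕ × ℕ) → List (ℕ × List (ℕ × ℕ)) →
    List (ℕ × List (ℕ × ℕ)) :=
  List.rec (motive := fun _ => ℕ → ℕ → List (ℕ × ℕ) → List (ℕ × List (ℕ × ℕ)) →
      List (ℕ × List (ℕ × ℕ))) (fun _ R env acc => (R, env) :: acc)
    (fun st _ ih W R env acc => St.rec (motive := fun _ => List (ℕ × List (ℕ × ℕ)))
      (fun s n dis => fN (orL env dis) (fun F =>
        List.rec (motive := fun _ => List (ℕ × List (ℕ × ℕ))) acc (fun o _ ih2 =>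
          bite (band (Nat.beq (Nat.land W o.2.2) 0) (Nat.beq (Nat.land o.1 F) 0))
            (fN (Nat.land W o.2.1) (fun W' => fN o.1 (fun m => ih W' R ((n, m) :: env) ih2)))
            ih2) (optsOf s)))
      (fun d => fN (step env (St.vf d) R) (fun R' => ih W R' env acc))
      (fun u v => fN (step env (St.ed u v) R) (fun R' => ih W R' env acc))
      (fun u v d => fN (step env (St.tr u v d) R) (fun R' => ih W R' env acc))
      (fun n m => fN (lk env m) (fun q =>
        List.rec (motive := fun _ => List (ℕ × List (ℕ × ℕ))) acc (fun o _ ih2 =>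
          bite (band (Nat.beq (Nat.land W o.2.2) 0) (okW o.1 q))
            (fN (Nat.land W o.2.1) (fun W' => fN o.1 (fun m => ih W' R ((n, m) :: env) ih2)))
            ih2) O2))
      (fun u v n w => fN (step env (St.tx u v n w) R) (fun R' => ih W R' env acc)) st) sts

/-- evaluate the list before going on -/
def fLL (l : List (ℕ × List (ℕ × ℕ))) : (List (ℕ × List (ℕ × ℕ)) → Bool) → Bool :=
  List.rec (motive := fun _ => (List (ℕ × List (ℕ × ℕ)) → Bool) → Bool) (fun f => f [])
    (fun a _ ih f => ih (fun r => f (a :: r))) l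

/-- test all elements -/
def allLL (f : ℕ → List (ℕ × ℕ) → Bool) (l : List (ℕ × List (ℕ × ℕ))) : Bool :=
  List.rec (motive := fun _ => Bool) true (fun a _ ih => band (f a.1 a.2) ih) l

/-- search for a colouring of the nodes of the gadget; kinds: 0 any colour, 1 in the list, 2 fixed,
3 existence only -/
def gsat (env : List (ℕ × ℕ)) (nodes : List (ℕ × ℕ × List ℕ)) : List (ℕ × ℕ) → Bool :=
  List.rec (motive := fun _ => List (ℕ × ℕ) → Bool) (fun _ => true)
    (fun nd _ ih asg =>
      fN (Nat.land (bite (bor (Nat.beq nd.2.1 1) (Nat.beq nd.2.1 2)) (lk env nd.1) 127)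
        (Nat.xor 127 (orL asg nd.2.2))) (fun av =>
      bite (Nat.beq nd.2.1 2) (bite (Nat.beq av (lk env nd.1)) (ih ((nd.1, av) :: asg)) false)
        (bite (Nat.beq nd.2.1 3) (bite (Nat.beq (ins av) 0) false (ih asg))
          (List.rec (motive := fun _ => Bool) false (fun p _ ih2 =>
            bor (bite (Nat.beq (Nat.land p av) p) (ih ((nd.1, p) :: asg)) false) ih2) P2)))) nodes

/-- append -/
def app (l m : List (ℕ × ℕ)) : List (ℕ × ℕ) :=
  List.rec (motive := fun _ => List (ℕ × ℕ)) m (fun a _ ih => a :: ih) l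

/-- the check for a ring with two strips -/
def ringB (l r : List St) (nodes : List (ℕ × ℕ × List ℕ)) : Bool :=
  fLL (runL l 2097151 ID [] []) (fun LL =>
    runC (fun R env => allLL (fun RL envL =>
      bor (Nat.ble 1 (Nat.land R RL)) (Bool.not (gsat (app env envL) nodes []))) LL) r 0 ID [])

/-- the check for one strip -/
def pathB (l : List St) (nodes : List (ℕ × ℕ × List ℕ)) : Bool :=
  runC (fun R env => bor (Nat.ble 1 R) (Bool.not (gsat env nodes []))) l 2097151 ID []

end

end Pool.Agent.Lib.SVX.Chk
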