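import Pool.Agent.Lib.SVX.ChkP

/-!
# SVX.ChkQ: the enumeration meets every orbit (MP_0229a2_co)
-/

set_option autoImplicit false
set_option maxRecDepth 100000

namespace Pool.Agent.Lib.SVX.Chk

open Finset

/-! booleans -/

theorem band_eq (a b : Bool) : band a b = true ↔ a = true ∧ b = true := by
  cases a <;> cases b <;> simp [band]

theorem bor_eq (a b : Bool) : bor a b = true ↔ a = true ∨ b = true := by
  cases a <;> cases b <;> simp [bor]

theorem bite_beq {α : Type} (a b : ℕ) (x y : α) :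
    bite (Nat.beq a b) x y = if a = b then x else y := by
  by_cases h : a = b
  · have h1 : Nat.beq a b = true := by rw [Nat.beq_eq]; exact h
    rw [h1, if_pos h]
  · have h1 : Nat.beq a b = false := by
      cases h2 : Nat.beq a b
      · rfl
      · rw [Nat.beq_eq] at h2; exact absurd h2 h
    rw [h1, if_neg h]

theorem bite_true {α : Type} (x y : α) : bite true x y = x := rfl

theorem bite_false {α : Type} (x y : α) : bite false x y = y := rfl

theorem lk_nil (n : ℕ) : lk [] n = 0 := rfl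

theorem lk_cons (e : ℕ × ℕ) (env : List (ℕ × ℕ)) (n : ℕ) :
    lk (e :: env) n = if e.1 = n then e.2 else lk env n := by
  show bite (Nat.beq e.1 n) e.2 (lk env n) = _
  rw [bite_beq]

theorem orL_nil (env : List (ℕ × ℕ)) : orL env [] = 0 := rfl

theorem orL_cons (env : List (ℕ × ℕ)) (t : ℕ) (ns : List ℕ) :
    orL env (t :: ns) = (lk env t) ||| (orL env ns) := rfl

/-- the environment has the masks of the sets `Λ` -/
def Cmp (env : List (ℕ × ℕ)) (Λ : ℕ → Finset (Fin 7)) : Prop := ∀ e ∈ env, e.2 = mk (Λ e.1)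

theorem lk_mem {env : List (ℕ × ℕ)} {Λ : ℕ → Finset (Fin 7)} (h : Cmp env Λ) {n : ℕ}
    (hn : n ∈ env.map Prod.fst) : lk env n = mk (Λ n) := by
  induction env with
  | nil => simp at hn
  | cons e env ih =>
    rw [lk_cons]
    by_cases he : e.1 = n
    · rw [if_pos he, h e List.mem_cons_self, he]
    · rw [if_neg he]
      refine ih (fun e he => h e (List.mem_cons_of_mem _ he)) ?_
      rw [List.map_cons, List.mem_cons] at hn
      rcases hn with hn | hn
      · exact absurd hn.symm he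
      · exact hn

theorem lk_tb {env : List (ℕ × ℕ)} {Λ : ℕ → Finset (Fin 7)} (h : Cmp env Λ) {n i : ℕ}
    (hi : (lk env n).testBit i = true) : ∃ hi : i < 7, (⟨i, hi⟩ : Fin 7) ∈ Λ n := by
  induction env with
  | nil => rw [lk_nil] at hi; simp at hi
  | cons e env ih =>
    rw [lk_cons] at hi
    by_cases he : e.1 = n
    · rw [if_pos he, h e List.mem_cons_self, he] at hi
      have h7 : i < 7 := by
        by_contra hc
        have h3 : mk (Λ n) < 2 ^ i := lt_of_lt_of_le (mk_lt _) (by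
          calc 128 = 2 ^ 7 := by norm_num
            _ ≤ 2 ^ i := Nat.pow_le_pow_right (by norm_num) (by omega))
        rw [Nat.testBit_lt_two_pow h3] at hi
        exact Bool.false_ne_true hi
      refine ⟨h7, ?_⟩
      have h4 := tb_mk (Λ n) ⟨i, h7⟩
      rw [show ((⟨i, h7⟩ : Fin 7) : ℕ) = i from rfl, hi] at h4
      exact of_decide_eq_true h4.symm
    · rw [if_neg he] at hi
      exact ih (fun e he => h e (List.mem_cons_of_mem _ he)) hi

theorem orL_tb {env : List (ℕ × ℕ)} {Λ : ℕ → Finset (Fin 7)} (h : Cmp env Λ) {ns : List ℕ} {i : ℕ}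
    (hi : (orL env ns).testBit i = true) : ∃ hi : i < 7, ∃ t ∈ ns, (⟨i, hi⟩ : Fin 7) ∈ Λ t := by
  induction ns with
  | nil => rw [orL_nil] at hi; simp at hi
  | cons t ns ih =>
    rw [orL_cons, Nat.testBit_lor, Bool.or_eq_true] at hi
    rcases hi with hi | hi
    · obtain ⟨h7, h8⟩ := lk_tb h hi
      exact ⟨h7, t, List.mem_cons_self, h8⟩
    · obtain ⟨h7, u, hu, h8⟩ := ih hi
      exact ⟨h7, u, List.mem_cons_of_mem _ hu, h8⟩

/-! symmetry -/

/-- permuted sets -/
def act (σ : Equiv.Perm (Fin 7)) (Λ : ℕ → Finset (Fin 7)) : ℕ → Finset (Fin 7) :=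
  fun n => (Λ n).map σ.toEmbedding

theorem act_mul (σ τ : Equiv.Perm (Fin 7)) (Λ : ℕ → Finset (Fin 7)) :
    act (σ * τ) Λ = act σ (act τ Λ) := by
  funext n
  simp only [act, Finset.map_map]
  rfl

theorem act_one (Λ : ℕ → Finset (Fin 7)) : act 1 Λ = Λ := by
  funext n
  simp only [act]
  exact Finset.map_refl

theorem canon_ex {γ : Type} (ℓ : Fin 7 → γ) : ∀ (m : ℕ) (T : Finset (Fin 7)),
    ∑ x ∈ T, (x : ℕ) = m → ∃ σ : Equiv.Perm (Fin 7), (∀ x, ℓ (σ x) = ℓ x) ∧
      ∀ x y, x < y → ℓ x = ℓ y → y ∈ T.map σ.toEmbedding → x ∈ T.map σ.toEmbedding := by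
  intro m
  induction m using Nat.strong_induction_on with
  | _ m ih =>
    intro T hT
    by_cases hc : ∀ x y, x < y → ℓ x = ℓ y → y ∈ T → x ∈ T
    · refine ⟨1, fun x => rfl, ?_⟩
      intro x y hxy hl hy
      have h1 : T.map (1 : Equiv.Perm (Fin 7)).toEmbedding = T := Finset.map_refl
      rw [h1] at hy ⊢
      exact hc x y hxy hl hy
    · push Not at hc
      obtain ⟨x, y, hxy, hl, hy, hx⟩ := hc
      set τ : Equiv.Perm (Fin 7) := Equiv.swap x y with hτ
      have h1 : ∑ z ∈ T.map τ.toEmbedding, (z : ℕ) < m := by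
        rw [Finset.sum_map]
        have h2 : ∑ z ∈ T, (z : ℕ) = y + ∑ z ∈ T.erase y, (z : ℕ) := by
          rw [Finset.add_sum_erase T (fun z => (z : ℕ)) hy]
        have h3 : ∑ z ∈ T, ((τ.toEmbedding z : Fin 7) : ℕ) =
            ((τ.toEmbedding y : Fin 7) : ℕ) + ∑ z ∈ T.erase y, ((τ.toEmbedding z : Fin 7) : ℕ) := by
          rw [Finset.add_sum_erase T (fun z => ((τ.toEmbedding z : Fin 7) : ℕ)) hy]
        have h4 : ∑ z ∈ T.erase y, ((τ.toEmbedding z : Fin 7) : ℕ) =
            ∑ z ∈ T.erase y, (z : ℕ) := by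
          apply Finset.sum_congr rfl
          intro z hz
          rw [Finset.mem_erase] at hz
          have h5 : τ z = z := Equiv.swap_apply_of_ne_of_ne (fun h => hx (h ▸ hz.2)) hz.1
          show ((τ z : Fin 7) : ℕ) = z
          rw [h5]
        have h6 : ((τ.toEmbedding y : Fin 7) : ℕ) = x := by
          show ((τ y : Fin 7) : ℕ) = x
          rw [hτ, Equiv.swap_apply_right]
        rw [h3, h4, h6, ← hT, h2]
        have : (x : ℕ) < y := hxy
        omega
      obtain ⟨σ, hσ1, hσ2⟩ := ih _ h1 (T.map τ.toEmbedding) rfl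
      refine ⟨σ * τ, ?_, ?_⟩
      · intro z
        rw [Equiv.Perm.mul_apply, hσ1]
        by_cases hzx : z = x
        · rw [hzx, hτ, Equiv.swap_apply_left, hl]
        · by_cases hzy : z = y
          · rw [hzy, hτ, Equiv.swap_apply_right, hl]
          · rw [hτ, Equiv.swap_apply_of_ne_of_ne hzx hzy]
      · intro u v huv hluv hv
        have h2 : T.map (σ * τ).toEmbedding = (T.map τ.toEmbedding).map σ.toEmbedding := by
          rw [Finset.map_map]; rfl
        rw [h2] at hv ⊢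
        exact hσ2 u v huv hluv hv

/-- the conditions on the sets in a program -/
def OkS (Λ : ℕ → Finset (Fin 7)) : List St → Prop
  | [] => True
  | .par s n dis :: r => (s = 2 ∨ s = 3 ∨ s = 5) ∧ (Λ n).card = s ∧
      (∀ t ∈ dis, Disjoint (Λ n) (Λ t)) ∧ OkS Λ r
  | .vf _ :: r => OkS Λ r
  | .ed _ _ :: r => OkS Λ r
  | .tr _ _ _ :: r => OkS Λ r
  | .pw n m :: r => (Λ n).card = 2 ∧ (Λ n ∩ Λ m).card = 1 ∧ OkS Λ r
  | .tx _ _ _ _ :: r => OkS Λ r

theorem OkS_act (σ : Equiv.Perm (Fin 7)) (Λ : ℕ → Finset (Fin 7)) : ∀ sts, OkS Λ sts →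
    OkS (act σ Λ) sts := by
  intro sts
  induction sts with
  | nil => intro _; trivial
  | cons st r ih =>
    cases st with
    | par s n dis =>
      rintro ⟨h1, h2, h3, h4⟩
      refine ⟨h1, ?_, ?_, ih h4⟩
      · rw [act, card_map]; exact h2
      · intro t ht
        exact (Finset.disjoint_map _).2 (h3 t ht)
    | vf d => exact ih
    | ed u v => exact ih
    | tr u v d => exact ih
    | pw n m =>
      rintro ⟨h1, h2, h3⟩
      refine ⟨?_, ?_, ih h3⟩
      · rw [act, card_map]; exact h1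
      · rw [act, act, ← Finset.map_inter, card_map]; exact h2
    | tx u v n w => exact ih

/-- the environment after an instruction -/
def nenv (Λ : ℕ → Finset (Fin 7)) (env : List (ℕ × ℕ)) (st : St) : List (ℕ × ℕ) :=
  match st with
  | .par _ n _ => (n, mk (Λ n)) :: env
  | .vf _ => env
  | .ed _ _ => env
  | .tr _ _ _ => env
  | .pw n _ => (n, mk (Λ n)) :: env
  | .tx _ _ _ _ => env

/-- the result of a program for given sets -/
noncomputable def res (Λ : ℕ → Finset (Fin 7)) (sts : List St) :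
    ℕ → List (ℕ × ℕ) → ℕ × List (ℕ × ℕ) :=
  List.rec (motive := fun _ => ℕ → List (ℕ × ℕ) → ℕ × List (ℕ × ℕ)) (fun R env => (R, env))
    (fun st _ ih R env => ih (step env st R) (nenv Λ env st)) sts

theorem res_nil (Λ : ℕ → Finset (Fin 7)) (R : ℕ) (env : List (ℕ × ℕ)) :
    res Λ [] R env = (R, env) := rfl

theorem res_cons (Λ : ℕ → Finset (Fin 7)) (st : St) (r : List St) (R : ℕ)
    (env : List (ℕ × ℕ)) :
    res Λ (st :: r) R env = res Λ r (step env st R) (nenv Λ env st) := rfl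

variable {k : ℕ → List (ℕ × ℕ) → Bool}

theorem runC_par (s n : ℕ) (dis : List ℕ) (r : List St) (W R : ℕ) (env : List (ℕ × ℕ)) :
    runC k (.par s n dis :: r) W R env = true ↔ ∀ o ∈ optsOf s, Nat.land W o.2.2 = 0 →
      Nat.land o.1 (orL env dis) = 0 →
      runC k r (Nat.land W o.2.1) R ((n, o.1) :: env) = true := by
  show fN (orL env dis) (fun F => (List.rec (motive := fun _ => Bool) true
    (fun (o : ℕ × ℕ × ℕ) (_ : List (ℕ × ℕ × ℕ)) ih2 =>
          band (bite (band (Nat.beq (Nat.land W o.2.2) 0) (Nat.beq (Nat.land o.1 F) 0))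
            (fN (Nat.land W o.2.1) (fun W' => fN o.1 (fun m => runC k r W' R ((n, m) :: env))))
            true) ih2) (optsOf s) : Bool)) = true ↔ _
  rw [fN_eq]
  generalize orL env dis = F
  generalize optsOf s = l
  induction l with
  | nil => simp
  | cons o l ih =>
    show band (bite (band (Nat.beq (Nat.land W o.2.2) 0) (Nat.beq (Nat.land o.1 F) 0))
            (fN (Nat.land W o.2.1) (fun W' => fN o.1 (fun m => runC k r W' R ((n, m) :: env))))
            true) _ = true ↔ _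
    rw [band_eq, ih, fN_eq, fN_eq]
    simp only [List.mem_cons, forall_eq_or_imp]
    apply and_congr _ Iff.rfl
    have hb : ∀ a : ℕ, a ≠ 0 → Nat.beq a 0 = false := by
      intro a ha
      cases h : Nat.beq a 0
      · rfl
      · rw [Nat.beq_eq] at h; exact absurd h ha
    have h4 : ∀ b, band b false = false := by intro b; cases b <;> rfl
    by_cases h1 : Nat.land W o.2.2 = 0
    · by_cases h2 : Nat.land o.1 F = 0
      · rw [h1, h2]
        constructor
        · intro h _ _; exact h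
        · intro h; exact h rfl rfl
      · rw [hb _ h2, h4]
        constructor
        · intro _ _ h; exact absurd h h2
        · intro _; rfl
    · rw [hb _ h1]
      constructor
      · intro _ h; exact absurd h h1
      · intro _; rfl

theorem runC_pw (n m : ℕ) (r : List St) (W R : ℕ) (env : List (ℕ × ℕ)) :
    runC k (.pw n m :: r) W R env = true ↔ ∀ o ∈ O2, Nat.land W o.2.2 = 0 →
      okW o.1 (lk env m) = true →
      runC k r (Nat.land W o.2.1) R ((n, o.1) :: env) = true := by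
  show fN (lk env m) (fun q => (List.rec (motive := fun _ => Bool) true
    (fun (o : ℕ × ℕ × ℕ) (_ : List (ℕ × ℕ × ℕ)) ih2 =>
          band (bite (band (Nat.beq (Nat.land W o.2.2) 0) (okW o.1 q))
            (fN (Nat.land W o.2.1) (fun W' => fN o.1 (fun m => runC k r W' R ((n, m) :: env))))
            true) ih2) O2 : Bool)) = true ↔ _
  rw [fN_eq]
  generalize lk env m = q
  generalize O2 = l
  induction l with
  | nil => simp
  | cons o l ih =>
    show band (bite (band (Nat.beq (Nat.land W o.2.2) 0) (okW o.1 q))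
            (fN (Nat.land W o.2.1) (fun W' => fN o.1 (fun m => runC k r W' R ((n, m) :: env))))
            true) _ = true ↔ _
    rw [band_eq, ih, fN_eq, fN_eq]
    simp only [List.mem_cons, forall_eq_or_imp]
    apply and_congr _ Iff.rfl
    have hb : ∀ a : ℕ, a ≠ 0 → Nat.beq a 0 = false := by
      intro a ha
      cases h : Nat.beq a 0
      · rfl
      · rw [Nat.beq_eq] at h; exact absurd h ha
    have h4 : ∀ b, band b false = false := by intro b; cases b <;> rfl
    by_cases h1 : Nat.land W o.2.2 = 0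
    · by_cases h2 : okW o.1 q = true
      · rw [h1, h2]
        constructor
        · intro h _ _; exact h
        · intro h; exact h rfl rfl
      · have h2' : okW o.1 q = false := by simpa using h2
        rw [h2', h4]
        constructor
        · intro _ _ h; exact absurd h (by simp)
        · intro _; rfl
    · rw [hb _ h1]
      constructor
      · intro _ h; exact absurd h h1
      · intro _; rfl

theorem runC_tx (u v n w : ℕ) (r : List St) (W R : ℕ) (env : List (ℕ × ℕ)) :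
    runC k (.tx u v n w :: r) W R env = runC k r W (step env (.tx u v n w) R) env := by
  show fN (step env (.tx u v n w) R) (fun R' => runC k r W R' env) = _
  rw [fN_eq]

theorem runC_nil (W R : ℕ) (env : List (ℕ × ℕ)) : runC k [] W R env = k R env := rfl

theorem runC_vf (d : VD) (r : List St) (W R : ℕ) (env : List (ℕ × ℕ)) :
    runC k (.vf d :: r) W R env = runC k r W (step env (.vf d) R) env := by
  show fN (step env (.vf d) R) (fun R' => runC k r W R' env) = _
  rw [fN_eq]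

theorem runC_ed (u v : ℕ) (r : List St) (W R : ℕ) (env : List (ℕ × ℕ)) :
    runC k (.ed u v :: r) W R env = runC k r W (step env (.ed u v) R) env := by
  show fN (step env (.ed u v) R) (fun R' => runC k r W R' env) = _
  rw [fN_eq]

theorem runC_tr (u v : ℕ) (d : VD) (r : List St) (W R : ℕ) (env : List (ℕ × ℕ)) :
    runC k (.tr u v d :: r) W R env = runC k r W (step env (.tr u v d) R) env := by
  show fN (step env (.tr u v d) R) (fun R' => runC k r W R' env) = _
  rw [fN_eq]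

theorem opt_mem {s : ℕ} (hs : s = 2 ∨ s = 3 ∨ s = 5) {T : Finset (Fin 7)} (hT : T.card = s) :
    ∃ o ∈ optsOf s, o.1 = mk T := by
  rcases hs with rfl | rfl | rfl
  · obtain ⟨o, ho, h⟩ := List.mem_map.1 (O2_mk T hT)
    exact ⟨o, ho, h⟩
  · obtain ⟨o, ho, h⟩ := List.mem_map.1 (O3_mk T hT)
    exact ⟨o, ho, h⟩
  · obtain ⟨o, ho, h⟩ := List.mem_map.1 (O5_mk T hT)
    exact ⟨o, ho, h⟩

theorem opt_sub {s : ℕ} (hs : s = 2 ∨ s = 3 ∨ s = 5) {o : ℕ × ℕ × ℕ} (ho : o ∈ optsOf s) :
    o ∈ O2 ++ O3 ++ O5 := by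
  rw [List.mem_append, List.mem_append]
  rcases hs with rfl | rfl | rfl
  · exact Or.inl (Or.inl ho)
  · exact Or.inl (Or.inr ho)
  · exact Or.inr ho

theorem opt_lt : ∀ o ∈ O2 ++ O3 ++ O5, o.2.1 < 2 ^ 21 ∧ o.2.2 < 2 ^ 21 := by
  decide +kernel

theorem lt_of_tb {n j : ℕ} (h : n < 2 ^ 21) (hj : n.testBit j = true) : j < 21 := by
  by_contra hc
  have h3 : n < 2 ^ j := lt_of_lt_of_le h (Nat.pow_le_pow_right (by norm_num) (by omega))
  rw [Nat.testBit_lt_two_pow h3] at hj
  exact Bool.false_ne_true hj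

/-- the equivalent pairs -/
def WOk {γ : Type} (W : ℕ) (ℓ : Fin 7 → γ) : Prop :=
  ∀ a < 21, W.testBit a = true → ∀ x y : Fin 7, (x : ℕ) = LO.getD a 0 → (y : ℕ) = HI.getD a 0 →
    ℓ x = ℓ y

/-- the sets in the environment do not split the classes -/
def Sat {γ : Type} (env : List (ℕ × ℕ)) (Λ : ℕ → Finset (Fin 7)) (ℓ : Fin 7 → γ) : Prop :=
  ∀ e ∈ env, ∀ x y, ℓ x = ℓ y → (x ∈ Λ e.1 ↔ y ∈ Λ e.1)

theorem map_sat {γ : Type} {ℓ : Fin 7 → γ} {σ : Equiv.Perm (Fin 7)} (hσ : ∀ x, ℓ (σ x) = ℓ x)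
    {T : Finset (Fin 7)} (hT : ∀ x y, ℓ x = ℓ y → (x ∈ T ↔ y ∈ T)) :
    T.map σ.toEmbedding = T := by
  ext x
  rw [mem_map]
  constructor
  · rintro ⟨y, hy, rfl⟩
    exact (hT (σ y) y (hσ y)).2 hy
  · intro hx
    refine ⟨σ.symm x, ?_, σ.apply_symm_apply x⟩
    have h := hσ (σ.symm x)
    rw [σ.apply_symm_apply] at h
    exact (hT x (σ.symm x) h).1 hx

/-- the common step of all enumerations -/
theorem par_step0 {γ : Type} {ℓ : Fin 7 → γ} {W : ℕ} {env : List (ℕ × ℕ)}
    {Λ : ℕ → Finset (Fin 7)} {s n : ℕ} (hs : s = 2 ∨ s = 3 ∨ s = 5)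
    (hW : WOk W ℓ) (hc : Cmp env Λ) (hsat : Sat env Λ ℓ) (hcard : (Λ n).card = s) :
    ∃ σ : Equiv.Perm (Fin 7), (∀ x, ℓ (σ x) = ℓ x) ∧ ∃ o ∈ optsOf s, o.1 = mk (act σ Λ n) ∧
      Nat.land W o.2.2 = 0 ∧ Cmp env (act σ Λ) ∧
      WOk (Nat.land W o.2.1) (fun x => (ℓ x, decide (x ∈ act σ Λ n))) ∧
      Cmp ((n, o.1) :: env) (act σ Λ) ∧
      Sat ((n, o.1) :: env) (act σ Λ) (fun x => (ℓ x, decide (x ∈ act σ Λ n))) := by
  obtain ⟨σ, hσ1, hσ2⟩ := canon_ex ℓ _ (Λ n) rfl
  have hcard' : (act σ Λ n).card = s := by rw [act, card_map]; exact hcard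
  obtain ⟨o, ho, ho1⟩ := opt_mem hs hcard'
  have hfix : ∀ e ∈ env, act σ Λ e.1 = Λ e.1 := fun e he => map_sat hσ1 (hsat e he)
  have hc' : Cmp env (act σ Λ) := fun e he => by rw [hfix e he]; exact hc e he
  have htab := opt_tab o (opt_sub hs ho)
  have hlt := opt_lt o (opt_sub hs ho)
  refine ⟨σ, hσ1, o, ho, ho1, ?_, hc', ?_, ?_, ?_⟩
  · by_contra hne
    obtain ⟨j, hj⟩ := ex_bit hne
    have h1 : (W &&& o.2.2).testBit j = true := hj
    rw [Nat.testBit_land, Bool.and_eq_true] at h1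
    have hj21 := lt_of_tb hlt.2 h1.2
    obtain ⟨h2, h3⟩ := lohi j hj21
    obtain ⟨h4, h5⟩ := (htab.2 j hj21).2 h1.2
    obtain ⟨x, hx⟩ : ∃ x : Fin 7, (x : ℕ) = LO.getD j 0 := ⟨⟨LO.getD j 0, lt_trans h2 h3⟩, rfl⟩
    obtain ⟨y, hy⟩ : ∃ y : Fin 7, (y : ℕ) = HI.getD j 0 := ⟨⟨HI.getD j 0, h3⟩, rfl⟩
    have h6 := hW j hj21 h1.1 x y hx hy
    rw [← hx, ho1, tb_mk] at h4
    rw [← hy, ho1, tb_mk] at h5
    rw [← hx, ← hy] at h2
    exact (of_decide_eq_false h4) (hσ2 x y h2 h6 (of_decide_eq_true h5))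
  · intro a ha hb x y hx hy
    have hb' : (W &&& o.2.1).testBit a = true := hb
    rw [Nat.testBit_land, Bool.and_eq_true] at hb'
    have h1 := (htab.2 a ha).1 hb'.2
    have h2 := hW a ha hb'.1 x y hx hy
    rw [ho1, ← hx, ← hy, tb_mk, tb_mk] at h1
    show (ℓ x, _) = (ℓ y, _)
    rw [h2, h1]
  · intro e he
    rw [List.mem_cons] at he
    rcases he with rfl | he
    · exact ho1
    · exact hc' e he
  · intro e he x y hxy
    have hxy' : ℓ x = ℓ y ∧ decide (x ∈ act σ Λ n) = decide (y ∈ act σ Λ n) :=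
      Prod.mk.inj hxy
    rw [List.mem_cons] at he
    rcases he with rfl | he
    · exact decide_eq_decide.1 hxy'.2
    · rw [hfix e he]
      exact hsat e he x y hxy'.1

/-- the common step of both enumerations -/
theorem par_step {γ : Type} {ℓ : Fin 7 → γ} {W : ℕ} {env : List (ℕ × ℕ)}
    {Λ : ℕ → Finset (Fin 7)} {s n : ℕ} {dis : List ℕ} (hs : s = 2 ∨ s = 3 ∨ s = 5)
    (hW : WOk W ℓ) (hc : Cmp env Λ) (hsat : Sat env Λ ℓ) (hcard : (Λ n).card = s)
    (hdis : ∀ t ∈ dis, Disjoint (Λ n) (Λ t)) :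
    ∃ σ : Equiv.Perm (Fin 7), (∀ x, ℓ (σ x) = ℓ x) ∧ ∃ o ∈ optsOf s, o.1 = mk (act σ Λ n) ∧
      Nat.land W o.2.2 = 0 ∧ Nat.land o.1 (orL env dis) = 0 ∧
      WOk (Nat.land W o.2.1) (fun x => (ℓ x, decide (x ∈ act σ Λ n))) ∧
      Cmp ((n, o.1) :: env) (act σ Λ) ∧
      Sat ((n, o.1) :: env) (act σ Λ) (fun x => (ℓ x, decide (x ∈ act σ Λ n))) := by
  obtain ⟨σ, hσ1, o, ho, ho1, hw, hc', h1, h2, h3⟩ := par_step0 hs hW hc hsat hcard
  refine ⟨σ, hσ1, o, ho, ho1, hw, ?_, h1, h2, h3⟩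
  by_contra hne
  obtain ⟨j, hj⟩ := ex_bit hne
  have h1 : (o.1 &&& (orL env dis)).testBit j = true := hj
  rw [Nat.testBit_land, Bool.and_eq_true, ho1] at h1
  obtain ⟨h7, t, ht, h2⟩ := orL_tb hc' h1.2
  have h3 := tb_mk (act σ Λ n) ⟨j, h7⟩
  rw [show ((⟨j, h7⟩ : Fin 7) : ℕ) = j from rfl, h1.1] at h3
  have h4 : Disjoint (act σ Λ n) (act σ Λ t) := (Finset.disjoint_map _).2 (hdis t ht)
  exact Finset.disjoint_left.1 h4 (of_decide_eq_true h3.symm) h2

theorem lk_zero {env : List (ℕ × ℕ)} {n : ℕ} (hn : n ∉ env.map Prod.fst) : lk env n = 0 := by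
  induction env with
  | nil => rfl
  | cons e env ih =>
    rw [List.map_cons, List.mem_cons, not_or] at hn
    rw [lk_cons, if_neg (fun h => hn.1 h.symm)]
    exact ih hn.2

theorem okW_of {env : List (ℕ × ℕ)} {Λ : ℕ → Finset (Fin 7)} (hc : Cmp env Λ)
    {T : Finset (Fin 7)} {m : ℕ} (hT : T.card = 2) (h : (T ∩ Λ m).card = 1) :
    okW (mk T) (lk env m) = true := by
  unfold okW
  rw [band_eq, bor_eq]
  by_cases hm : m ∈ env.map Prod.fst
  · rw [lk_mem hc hm]
    have h1 : om (Nat.land (mk T) (mk (Λ m))) = T ∩ Λ m := by rw [om_and, om_mk, om_mk]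
    constructor
    · rw [Bool.not_eq_true']
      cases h2 : Nat.beq (Nat.land (mk T) (mk (Λ m))) (mk T)
      · rfl
      · rw [Nat.eq_of_beq_eq_true h2, om_mk] at h1
        rw [← h1, hT] at h
        exact absurd h (by norm_num)
    · right
      have h3 : Nat.land (mk T) (mk (Λ m)) ≠ 0 := by
        intro h0
        rw [h0, om_zero] at h1
        rw [← h1] at h
        simp at h
      exact Nat.ble_eq_true_of_le (Nat.one_le_iff_ne_zero.2 h3)
  · rw [lk_zero hm]
    constructor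
    · rw [Bool.not_eq_true']
      cases h2 : Nat.beq (Nat.land (mk T) 0) (mk T)
      · rfl
      · have h3 := Nat.eq_of_beq_eq_true h2
        have h4 : Nat.land (mk T) 0 = 0 := Nat.and_zero _
        rw [h4] at h3
        have h5 := om_mk T
        rw [← h3, om_zero] at h5
        rw [← h5] at hT
        simp at hT
    · left
      rfl

theorem runC_sound : ∀ (sts : List St) {γ : Type} (ℓ : Fin 7 → γ) (W R : ℕ)
    (env : List (ℕ × ℕ)) (Λ : ℕ → Finset (Fin 7)), runC k sts W R env = true → WOk W ℓ →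
    Cmp env Λ → Sat env Λ ℓ → OkS Λ sts →
    ∃ σ : Equiv.Perm (Fin 7), (∀ x, ℓ (σ x) = ℓ x) ∧
      k (res (act σ Λ) sts R env).1 (res (act σ Λ) sts R env).2 = true := by
  intro sts
  induction sts with
  | nil =>
    intro γ ℓ W R env Λ h _ _ _ _
    rw [runC_nil] at h
    refine ⟨1, fun _ => rfl, ?_⟩
    rw [res_nil]
    exact h
  | cons st r ih =>
    intro γ ℓ W R env Λ h hW hc hsat hok
    cases st with
    | par s n dis =>
      obtain ⟨hs, hcard, hdis, hok'⟩ := hok
      obtain ⟨σ, hσ, o, ho, ho1, h1, h2, h3, h4, h5⟩ := par_step hs hW hc hsat hcard hdis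
      rw [runC_par] at h
      obtain ⟨σ', hσ', h6⟩ := ih _ _ _ _ (act σ Λ) (h o ho h1 h2) h3 h4 h5 (OkS_act σ Λ r hok')
      refine ⟨σ' * σ, ?_, ?_⟩
      · intro x
        rw [Equiv.Perm.mul_apply]
        have := Prod.mk.inj (hσ' (σ x))
        rw [this.1, hσ]
      · rw [act_mul, res_cons]
        show k (res (act σ' (act σ Λ)) r R ((n, mk (act σ' (act σ Λ) n)) :: env)).1
          (res (act σ' (act σ Λ)) r R ((n, mk (act σ' (act σ Λ) n)) :: env)).2 = true
        have h7 : act σ' (act σ Λ) n = act σ Λ n := by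
          have h8 : ∀ x y : Fin 7, (ℓ x, decide (x ∈ act σ Λ n)) = (ℓ y, decide (y ∈ act σ Λ n)) →
              (x ∈ act σ Λ n ↔ y ∈ act σ Λ n) := by
            intro x y hxy
            exact decide_eq_decide.1 (Prod.mk.inj hxy).2
          exact map_sat (ℓ := fun x => (ℓ x, decide (x ∈ act σ Λ n))) hσ' h8
        rw [h7, ← ho1]
        exact h6
    | vf d =>
      rw [runC_vf] at h
      obtain ⟨σ, hσ, h1⟩ := ih ℓ _ _ _ Λ h hW hc hsat hok
      exact ⟨σ, hσ, by rw [res_cons]; exact h1⟩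
    | ed u v =>
      rw [runC_ed] at h
      obtain ⟨σ, hσ, h1⟩ := ih ℓ _ _ _ Λ h hW hc hsat hok
      exact ⟨σ, hσ, by rw [res_cons]; exact h1⟩
    | tr u v d =>
      rw [runC_tr] at h
      obtain ⟨σ, hσ, h1⟩ := ih ℓ _ _ _ Λ h hW hc hsat hok
      exact ⟨σ, hσ, by rw [res_cons]; exact h1⟩
    | pw n m =>
      obtain ⟨hcard, hint, hok'⟩ := hok
      obtain ⟨σ, hσ, o, ho, ho1, h1, hc', h3, h4, h5⟩ :=
        par_step0 (n := n) (Or.inl rfl) hW hc hsat hcard
      have h2 : okW o.1 (lk env m) = true := by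
        rw [ho1]
        refine okW_of hc' (by rw [act, card_map]; exact hcard) ?_
        rw [act, act, ← Finset.map_inter, card_map]; exact hint
      rw [runC_pw] at h
      obtain ⟨σ', hσ', h6⟩ := ih _ _ _ _ (act σ Λ) (h o ho h1 h2) h3 h4 h5 (OkS_act σ Λ r hok')
      refine ⟨σ' * σ, ?_, ?_⟩
      · intro x
        rw [Equiv.Perm.mul_apply]
        have := Prod.mk.inj (hσ' (σ x))
        rw [this.1, hσ]
      · rw [act_mul, res_cons]
        show k (res (act σ' (act σ Λ)) r R ((n, mk (act σ' (act σ Λ) n)) :: env)).1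
          (res (act σ' (act σ Λ)) r R ((n, mk (act σ' (act σ Λ) n)) :: env)).2 = true
        have h7 : act σ' (act σ Λ) n = act σ Λ n := by
          have h8 : ∀ x y : Fin 7, (ℓ x, decide (x ∈ act σ Λ n)) = (ℓ y, decide (y ∈ act σ Λ n)) →
              (x ∈ act σ Λ n ↔ y ∈ act σ Λ n) := by
            intro x y hxy
            exact decide_eq_decide.1 (Prod.mk.inj hxy).2
          exact map_sat (ℓ := fun x => (ℓ x, decide (x ∈ act σ Λ n))) hσ' h8
        rw [h7, ← ho1]
        exact h6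
    | tx u v n w =>
      rw [runC_tx] at h
      obtain ⟨σ, hσ, h1⟩ := ih ℓ _ _ _ Λ h hW hc hsat hok
      exact ⟨σ, hσ, by rw [res_cons]; exact h1⟩

end Pool.Agent.Lib.SVX.Chk
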