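import Pool.Agent.Lib.SVX.ChkT

/-!
# SVX.ChkR: packed relations between pairs of colours (MP_0229a2_co)

A relation `R` between pairs is a number, bit `21 * a + b`.  `comp R rows` is the composition with
the relation given by the list of its rows, `flt R D` restricts the second coordinate to `D`.
-/

set_option autoImplicit false
set_option maxRecDepth 100000
set_option exponentiation.threshold 500

namespace Pool.Agent.Lib.SVX.Chk

open Finset

noncomputable section

/-- composition of the packed relation `R` with the relation with rows `rows` -/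
def comp (rows : List ℕ) (R : ℕ) : ℕ :=
  List.rec (motive := fun _ => ℕ → ℕ → ℕ) (fun _ acc => acc)
    (fun row _ ih R acc => fN (Nat.lor acc (Nat.mul (Nat.land R M) row))
      (fun acc' => fN (Nat.shiftRight R 1) (fun R' => ih R' acc'))) rows R 0

/-- map -/
def mapL (f : ℕ → ℕ) (l : List ℕ) : List ℕ :=
  List.rec (motive := fun _ => List ℕ) [] (fun a _ ih => f a :: ih) l

/-- rows of the relation of a triangle whose third vertex has a colour in `D` -/
def trows (D : ℕ) : List ℕ := mapL (fun dj => Nat.land dj (djs (Nat.land D dj))) DJ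

/-- restriction of the second coordinate -/
@[reducible] def flt (R D : ℕ) : ℕ := Nat.land R (Nat.mul D M)

theorem mapL_eq (f : ℕ → ℕ) (l : List ℕ) : mapL f l = l.map f := by
  induction l with
  | nil => rfl
  | cons a l ih => show f a :: mapL f l = _; rw [ih]; rfl

/-- ones at the multiples of 21 -/
def Mr : ℕ → ℕ
  | 0 => 0
  | n + 1 => 2 ^ 21 * Mr n + 1

theorem M_eq : M = Mr 21 := by decide +kernel

theorem land_Mr (n X : ℕ) : X &&& Mr (n + 1) = 2 ^ 21 * ((X >>> 21) &&& Mr n) + X % 2 := by
  apply Nat.eq_of_testBit_eq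
  intro j
  have h1 : X % 2 < 2 ^ 21 := lt_trans (Nat.mod_lt _ (by norm_num)) (by norm_num)
  rw [Nat.testBit_two_pow_mul_add _ h1, Nat.testBit_land, Mr,
    Nat.testBit_two_pow_mul_add _ (by norm_num : 1 < 2 ^ 21)]
  by_cases hj : j < 21
  · rw [if_pos hj, if_pos hj]
    cases j with
    | zero =>
      simp [Nat.testBit_zero]
    | succ j =>
      have h2 : (1 : ℕ).testBit (j + 1) = false := by
        rw [Nat.testBit_succ]; simp
      have h3 : (X % 2).testBit (j + 1) = false := by
        rw [Nat.testBit_succ]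
        have : X % 2 / 2 = 0 := by omega
        rw [this]; simp
      rw [h2, h3, Bool.and_false]
  · rw [if_neg hj, if_neg hj, Nat.testBit_land, Nat.testBit_shiftRight]
    congr 2
    omega

/-- the multiplication trick -/
theorem mul_tb : ∀ (n X row : ℕ), row < 2 ^ 21 → ∀ a b, b < 21 →
    ((X &&& Mr n) * row).testBit (21 * a + b) = true →
    a < n ∧ X.testBit (21 * a) = true ∧ row.testBit b = true := by
  intro n
  induction n with
  | zero =>
    intro X row _ a b _ h
    simp [Mr] at h
  | succ n ih =>
    intro X row hr a b hb h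
    have h1 : X % 2 * row < 2 ^ 21 := by
      have : X % 2 = 0 ∨ X % 2 = 1 := by omega
      rcases this with h | h
      · rw [h]; simp
      · rw [h]; simpa using hr
    rw [land_Mr, add_mul, mul_assoc, Nat.testBit_two_pow_mul_add _ h1] at h
    cases a with
    | zero =>
      simp only [mul_zero, zero_add] at h ⊢
      rw [if_pos hb] at h
      have : X % 2 = 0 ∨ X % 2 = 1 := by omega
      rcases this with h2 | h2
      · rw [h2] at h; simp at h
      · rw [h2, one_mul] at h
        refine ⟨by omega, ?_, h⟩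
        rw [Nat.testBit_zero, h2]; simp
    | succ a =>
      have h3 : ¬ (21 * (a + 1) + b < 21) := by omega
      rw [if_neg h3] at h
      have h4 : 21 * (a + 1) + b - 21 = 21 * a + b := by omega
      rw [h4] at h
      obtain ⟨h5, h6, h7⟩ := ih (X >>> 21) row hr a b hb h
      refine ⟨by omega, ?_, h7⟩
      rw [Nat.testBit_shiftRight] at h6
      rw [show 21 * (a + 1) = 21 + 21 * a by ring]
      exact h6

/-- the standard form of the accumulator loop -/
def cmp : List ℕ → ℕ → ℕ → ℕ
  | [], _, acc => acc
  | row :: rows, R, acc => cmp rows (R >>> 1) (acc ||| (R &&& M) * row)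

theorem comp_eq (rows : List ℕ) (R : ℕ) : comp rows R = cmp rows R 0 := by
  have key : ∀ (rows : List ℕ) (R acc : ℕ),
      List.rec (motive := fun _ => ℕ → ℕ → ℕ) (fun _ acc => acc)
        (fun row _ ih R acc => fN (Nat.lor acc (Nat.mul (Nat.land R M) row))
          (fun acc' => fN (Nat.shiftRight R 1) (fun R' => ih R' acc'))) rows R acc =
        cmp rows R acc := by
    intro rows
    induction rows with
    | nil => intro R acc; rfl
    | cons row rows ih =>
      intro R acc
      show fN (Nat.lor acc (Nat.mul (Nat.land R M) row)) _ = _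
      rw [fN_eq]
      show fN (Nat.shiftRight R 1) _ = _
      rw [fN_eq]
      exact ih _ _
  exact key rows R 0

theorem cmp_tb (rows : List ℕ) : ∀ (R acc j : ℕ), (∀ row ∈ rows, row < 2 ^ 21) →
    (cmp rows R acc).testBit j = true → acc.testBit j = true ∨
      ∃ c, c < rows.length ∧ j / 21 < 21 ∧ R.testBit (21 * (j / 21) + c) = true ∧
        (rows.getD c 0).testBit (j % 21) = true := by
  induction rows with
  | nil => intro R acc j _ h; exact Or.inl h
  | cons row rows ih =>
    intro R acc j hr h
    rcases ih (R >>> 1) (acc ||| (R &&& M) * row) j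
      (fun r hr' => hr r (List.mem_cons_of_mem _ hr')) h with h1 | ⟨c, hc, h0, h1, h2⟩
    · rw [Nat.testBit_lor, Bool.or_eq_true] at h1
      rcases h1 with h1 | h1
      · exact Or.inl h1
      · right
        have hj : j = 21 * (j / 21) + j % 21 := by omega
        rw [hj, M_eq] at h1
        obtain ⟨h3, h4, h5⟩ := mul_tb 21 R row (hr row (List.mem_cons_self)) (j / 21) (j % 21)
          (Nat.mod_lt _ (by norm_num)) h1
        exact ⟨0, by simp, h3, by simpa using h4, by simpa using h5⟩
    · right
      refine ⟨c + 1, by simpa using hc, h0, ?_, by simpa using h2⟩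
      rw [Nat.testBit_shiftRight] at h1
      rw [show 21 * (j / 21) + (c + 1) = 1 + (21 * (j / 21) + c) by ring]
      exact h1

theorem comp_tb {rows : List ℕ} {R j : ℕ} (hr : ∀ row ∈ rows, row < 2 ^ 21)
    (h : (comp rows R).testBit j = true) :
    ∃ c, c < rows.length ∧ j / 21 < 21 ∧ R.testBit (21 * (j / 21) + c) = true ∧
        (rows.getD c 0).testBit (j % 21) = true := by
  rw [comp_eq] at h
  rcases cmp_tb rows R 0 j hr h with h1 | h1
  · simp at h1
  · exact h1

theorem flt_tb {R D j : ℕ} (hD : D < 2 ^ 21) (h : (flt R D).testBit j = true) :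
    R.testBit j = true ∧ D.testBit (j % 21) = true := by
  have h1 : flt R D = R &&& (D * M) := rfl
  rw [h1, Nat.testBit_land, Bool.and_eq_true] at h
  refine ⟨h.1, ?_⟩
  have h2 := h.2
  have h3 : D * M = ((2 ^ 441 - 1) &&& Mr 21) * D := by
    rw [mul_comm, ← M_eq]
    congr 1
  have hj : j = 21 * (j / 21) + j % 21 := by omega
  rw [h3, hj] at h2
  exact (mul_tb 21 _ D hD (j / 21) (j % 21) (Nat.mod_lt _ (by norm_num)) h2).2.2

theorem DJ_lt : ∀ row ∈ DJ, row < 2 ^ 21 := by decide +kernel

theorem DJ_length : DJ.length = 21 := rfl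

theorem trows_lt (D : ℕ) : ∀ row ∈ trows D, row < 2 ^ 21 := by
  intro row hrow
  rw [trows, mapL_eq, List.mem_map] at hrow
  obtain ⟨dj, hdj, rfl⟩ := hrow
  exact lt_of_le_of_lt Nat.and_le_left (DJ_lt dj hdj)

theorem trows_length (D : ℕ) : (trows D).length = 21 := by
  rw [trows, mapL_eq, List.length_map, DJ_length]

theorem trows_tb {D c b : ℕ} (hc : c < 21) (hb : b < 21)
    (h : ((trows D).getD c 0).testBit b = true) :
    (DJ.getD c 0).testBit b = true ∧ ∃ z < 21, D.testBit z = true ∧
      (DJ.getD c 0).testBit z = true ∧ (DJ.getD z 0).testBit b = true := by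
  have hc' : c < DJ.length := hc
  have h1 : (trows D).getD c 0 = Nat.land (DJ.getD c 0) (djs (Nat.land D (DJ.getD c 0))) := by
    rw [trows, mapL_eq, List.getD_eq_getElem _ _ (by simpa using hc'), List.getElem_map,
      List.getD_eq_getElem _ _ hc']
  rw [h1] at h
  have h2 : (Nat.land (DJ.getD c 0) (djs (Nat.land D (DJ.getD c 0)))) =
    (DJ.getD c 0) &&& (djs (Nat.land D (DJ.getD c 0))) := rfl
  rw [h2, Nat.testBit_land, Bool.and_eq_true] at h
  have hlt : (Nat.land D (DJ.getD c 0)) < 2 ^ 21 := by
    refine lt_of_le_of_lt Nat.and_le_right ?_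
    rw [List.getD_eq_getElem _ _ hc']
    exact DJ_lt _ (List.getElem_mem hc')
  obtain ⟨z, hz, h3, h4⟩ := djs_ex hlt hb h.2
  have h5 : (Nat.land D (DJ.getD c 0)) = D &&& (DJ.getD c 0) := rfl
  rw [h5, Nat.testBit_land, Bool.and_eq_true] at h3
  exact ⟨h.1, z, hz, h3.1, h3.2, h4⟩

theorem ID_tb {j : ℕ} (h : ID.testBit j = true) : j / 21 < 21 ∧ j % 21 = j / 21 := by
  have h1 : ID < 2 ^ 441 := by decide +kernel
  have h2 : j < 441 := by
    by_contra hc
    have h3 : ID < 2 ^ j := lt_of_lt_of_le h1 (Nat.pow_le_pow_right (by norm_num) (by omega))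
    rw [Nat.testBit_lt_two_pow h3] at h
    exact Bool.false_ne_true h
  have h3 : ∀ j < 441, ID.testBit j = true → j / 21 < 21 ∧ j % 21 = j / 21 := by decide +kernel
  exact h3 j h2 h

theorem ins_lt (m : ℕ) : ins m < 2 ^ 21 :=
  lt_of_le_of_lt Nat.and_le_right (by norm_num)

theorem nin_lt (m : ℕ) : nin m < 2 ^ 21 :=
  lt_of_le_of_lt Nat.and_le_right (by norm_num)

/-- a nonzero number has a bit -/
theorem ex_bit {n : ℕ} (h : n ≠ 0) : ∃ j, n.testBit j = true := by
  by_contra hc
  push Not at hc
  exact h (Nat.eq_of_testBit_eq (fun i => by simpa using hc i))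

end

end Pool.Agent.Lib.SVX.Chk
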