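import Mathlib

/-!
# SVX.ChkT: tables for the kernel check of configurations (MP_0229a2_co)

Colours `0, …, 6` are bits; a set of colours is a mask `< 128`; the 21 pairs of colours are listed
in `P2`; a set of pairs is a number `< 2 ^ 21`; a relation between pairs is a number with bit
`21 * a + b` for the pair `(a, b)`.
-/

set_option autoImplicit false
set_option maxRecDepth 100000

namespace Pool.Agent.Lib.SVX.Chk

open Finset

noncomputable section

/-- `a && b` with `a` evaluated first -/
@[reducible] def band (a b : Bool) : Bool := @Bool.rec (fun _ => Bool) false b a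

/-- `a || b` with `a` evaluated first -/
@[reducible] def bor (a b : Bool) : Bool := @Bool.rec (fun _ => Bool) b true a

/-- `ite` on booleans -/
@[reducible] def bite {α : Type} (c : Bool) (a b : α) : α := @Bool.rec (fun _ => α) b a c

/-- evaluate the number before going on -/
def fN {α : Type} (n : ℕ) (f : ℕ → α) : α :=
  Nat.rec (motive := fun _ => α) (f 0) (fun k _ => f (Nat.succ k)) n

theorem fN_eq {α : Type} (n : ℕ) (f : ℕ → α) : fN n f = f n := by cases n <;> rfl

/-- the pairs of colours -/
def P2 : List ℕ :=
  [3, 5, 6, 9, 10, 12, 17, 18, 20, 24, 33, 34, 36, 40, 48, 65, 66, 68, 72, 80, 96]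

/-- the set of the pairs disjoint from a pair -/
def DJ : List ℕ :=
  [1995552, 1927824, 1893960, 1792388, 1758530, 1690817, 1521716, 1487914, 1420313, 1285127,
  983988, 951146, 885465, 754119, 491583, 31668, 30570, 28377, 24007, 15423, 1023]

/-- smaller element -/
def LO : List ℕ :=
  [0, 0, 1, 0, 1, 2, 0, 1, 2, 3, 0, 1, 2, 3, 4, 0, 1, 2, 3, 4, 5]

/-- larger element -/
def HI : List ℕ :=
  [1, 2, 2, 3, 3, 3, 4, 4, 4, 4, 5, 5, 5, 5, 5, 6, 6, 6, 6, 6, 6]

/-- the masks `m` with two bits, the set of the pairs not separated by `m`, the set of the pairs
whose larger element only is in `m` -/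
def O2 : List (ℕ × ℕ × ℕ) :=
  [(3, 1995553, 0), (5, 1927826, 4), (6, 1893964, 3), (9, 1792396, 48), (10, 1758546, 41), (12,
  1690849, 30), (17, 1521780, 896), (18, 1488042, 833), (20, 1420569, 710), (24, 1285639, 504),
  (33, 985012, 30720), (34, 953194, 29697), (36, 889561, 27654), (40, 762311, 23608), (48,
  507967, 16320), (65, 64436, 2031616), (66, 96106, 1998849), (68, 159449, 1933318), (72,
  286151, 1802296), (80, 539711, 1541056), (96, 1049599, 1047552)]

/-- the same for three bits -/
def O3 : List (ℕ × ℕ × ℕ) :=
  [(7, 1860103, 0), (11, 1724697, 32), (13, 1657002, 20), (14, 1623156, 11), (19, 1454305, 768),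
  (21, 1386834, 644), (22, 1353100, 579), (25, 1251916, 432), (26, 1218194, 361), (28, 1150753,
  222), (35, 921377, 28672), (37, 857746, 26628), (38, 825932, 25603), (41, 730508, 22576),
  (42, 698706, 21545), (44, 635105, 19486), (49, 476276, 15232), (50, 444586, 14145), (52,
  381209, 11974), (56, 254471, 7672), (67, 127777, 1966080), (69, 191122, 1900548), (70,
  222796, 1867779), (73, 317836, 1769520), (74, 349522, 1736745), (76, 412897, 1671198), (81,
  571508, 1508224), (82, 603306, 1475393), (84, 666905, 1409734), (88, 794119, 1278456), (97,
  1083316, 1013760), (98, 1117034, 979969), (100, 1184473, 912390), (104, 1319367, 777272),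
  (112, 1589311, 507840)]

/-- the same for five bits -/
def O5 : List (ℕ × ℕ × ℕ) :=
  [(31, 1049599, 0), (47, 539711, 16384), (55, 286151, 8704), (59, 159449, 4384), (61, 96106,
  2196), (62, 64436, 1099), (79, 507967, 1572864), (87, 762311, 1311232), (91, 889561,
  1179936), (93, 953194, 1114260), (94, 985012, 1081419), (103, 1285639, 811008), (107,
  1420569, 675872), (109, 1488042, 608276), (110, 1521780, 574475), (115, 1690849, 406272),
  (117, 1758546, 338564), (118, 1792396, 304707), (121, 1893964, 203184), (122, 1927826,
  169321), (124, 1995553, 101598)]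

/-- ones at the multiples of 21 -/
def M : ℕ := 2707686539290412961401726556230350329870296955426515470726305440618603256697262751220998194074378934060283308187610007627366401

/-- the identity relation -/
def ID : ℕ := 2839214443701187848078720413960809767641980098600654053761002822966198220884354701073411762310520307700119222191879093919306953523201

/-- table of `ins` -/
def TI : ℕ := 147444420004300845786744076831536926025423262729123890570850778297766942315585749888675320442527987173730171260404927802352415282097605662436589166349752476539365424929562293910326632225090870951607895892444350570602844112881996978368624953904175094141473405294276004929208938194469858483468922766568406453248463864328397174861674182200527406315624358159672221888057858625245867428804439299093673591043542441930465437135353629139200399467830745864120719936373719005155742884918188566196404067514496587026555096160807766096525190832673526452536418170493223473305532806440487947405136018466564136838106802222781537949392629315278484373676025148218379191376470382232337256828970855569028348856406588678291001837679923748984531723589465447550009471784863707062170024544651545443184866835920637579880507472839966720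

/-- table of `nin` -/
def TN : ℕ := 147444421139692424806332508947970678792346040212568770945456743318661362280834640607498748459195068630529467223787119996587352796844743399165554175388145464765826651130364230091832301711805297242136347167180502177648423530895065035663982735318342544631279413379363994865368244377831106294157723759139208930812391338100830009683142530497138049928739352433894158994492720074733567147582813431302689178383042205898351353606771275625494666358615815988652659392557582614302311964122869680308296344710984144691704225453608995164039869002551162259421417972087643624779556959582259460325775459073738652472952002724021292586953743650123952242339725068811277464768566884934497805245202341982453211535460056889852268519102065980688226236285222678246018461207102826403057911881675753216853224337327801557472660253977870336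

/-- table of `djs` -/
def TD0 : ℕ := 147444421139692424806332508947941600493597915408087596234976406659412908207306188674129919303712286512929428167159975355150901209653179337888625996065834133433538914416365410377146769900548571635057399554639473245867798590427115944196774824321462537291444036092326660087342060223213962135789563177738275286868601224738628909567111793211041801028686696906982311564765501545404384028498322875066425861140718660641789439809117714520421362137805620654620705645921014610218032767042077073272208789152380530306970774538481582028092942261401606364987645605988830956704063157522705895865124447738681430224223102726446337139331951121802412482338625573066142268597017598225731505091907395909107077277194783727307761298845186979800611232268872247893559042498722862570370537802854426297428541713637318180692865451904991232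

/-- table of `djs` -/
def TD1 : ℕ := 146292511050265044189410833438138588996260109237285759191803686824386234581040934656546130364998082117572517544148610614979960571196268491356353898000068234762277228428984821233688848336110070557592301556882242759748561738139931414283832151266704621023924243474370020784438797699956242048072695146417953068960050407556761021260295545327173571480108668277370421779691369541521862360133020500630253120415368571309361686997863570524193754223135111075712884693815779359528161822719054725613363987957367054255611727426365347380767463783393372536581707945741365095001555124427215095159125234649882268285138983956237053677596791254606066589504571879461340914208762053829976773947690755425416960513127661243848684898963128871315470583325275370976566809100113002390536737125474081630267016373993000952304364964118790144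

/-- table of `djs` -/
def TD2 : ℕ := 36861036076465736563231353189147756240261388844135008085150904009756973602632462778961321505841921346138379622883578513152867485924699936801773415448764584403350441496155851588910185055375658369751300597186313893939739828909966442322763199515684737982403397188314818658326643636606925448638729584032121564973042539478235401879703079157665845022579419238462150850206061507900062414858295878495928982585429210226525066283234025138420318368776297955524525299488589796437951714299336481666798110288434351988631409655427024732965850733062945236063832002174344648560588557749689321264167837281237112694907550815702669020596057703527736403391887244011361669199996617980631819837006472763680253966881435849576730719771532164180423099424853049320589712318828430744827397735034713224067593661600442613439720182880665600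

/-- field of width 21 -/
@[reducible] def fld (T m : ℕ) : ℕ := Nat.land (Nat.shiftRight T (Nat.mul 21 m)) 2097151

/-- the pairs inside the mask `m` -/
@[reducible] def ins (m : ℕ) : ℕ := fld TI m

/-- the pairs which leave two colours of `m` -/
@[reducible] def nin (m : ℕ) : ℕ := fld TN m

/-- the pairs which are disjoint from a pair of the set `S` -/
@[reducible] def djs (S : ℕ) : ℕ :=
  Nat.lor (fld TD0 (Nat.land S 127)) (Nat.lor (fld TD1 (Nat.land (Nat.shiftRight S 7) 127))
    (fld TD2 (Nat.shiftRight S 14)))

/-- the set of colours of a mask -/
def om (m : ℕ) : Finset (Fin 7) := univ.filter (fun i : Fin 7 => m.testBit i = true)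

/-- the mask with given bits -/
def ofB (b0 b1 b2 b3 b4 b5 b6 : Bool) : ℕ :=
  b0.toNat + 2 * b1.toNat + 4 * b2.toNat + 8 * b3.toNat + 16 * b4.toNat + 32 * b5.toNat +
    64 * b6.toNat

/-- the mask of a set of colours -/
def mk (T : Finset (Fin 7)) : ℕ :=
  ofB (decide (0 ∈ T)) (decide (1 ∈ T)) (decide (2 ∈ T)) (decide (3 ∈ T)) (decide (4 ∈ T))
    (decide (5 ∈ T)) (decide (6 ∈ T))

/-- the pair with a given index -/
def pr (a : ℕ) : Finset (Fin 7) := om (P2.getD a 0)

theorem mem_om (m : ℕ) (i : Fin 7) : i ∈ om m ↔ m.testBit i = true := by
  simp [om]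

theorem ofB_tb : ∀ b0 b1 b2 b3 b4 b5 b6 : Bool,
    (ofB b0 b1 b2 b3 b4 b5 b6).testBit 0 = b0 ∧ (ofB b0 b1 b2 b3 b4 b5 b6).testBit 1 = b1 ∧
    (ofB b0 b1 b2 b3 b4 b5 b6).testBit 2 = b2 ∧ (ofB b0 b1 b2 b3 b4 b5 b6).testBit 3 = b3 ∧
    (ofB b0 b1 b2 b3 b4 b5 b6).testBit 4 = b4 ∧ (ofB b0 b1 b2 b3 b4 b5 b6).testBit 5 = b5 ∧
    (ofB b0 b1 b2 b3 b4 b5 b6).testBit 6 = b6 ∧ ofB b0 b1 b2 b3 b4 b5 b6 < 128 := by
  decide +kernel

theorem tb_mk (T : Finset (Fin 7)) (i : Fin 7) : (mk T).testBit i = decide (i ∈ T) := by
  obtain ⟨h0, h1, h2, h3, h4, h5, h6, _⟩ := ofB_tb (decide (0 ∈ T)) (decide (1 ∈ T))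
    (decide (2 ∈ T)) (decide (3 ∈ T)) (decide (4 ∈ T)) (decide (5 ∈ T)) (decide (6 ∈ T))
  fin_cases i
  · exact h0
  · exact h1
  · exact h2
  · exact h3
  · exact h4
  · exact h5
  · exact h6

theorem mk_lt (T : Finset (Fin 7)) : mk T < 128 :=
  (ofB_tb (decide (0 ∈ T)) (decide (1 ∈ T)) (decide (2 ∈ T)) (decide (3 ∈ T)) (decide (4 ∈ T))
    (decide (5 ∈ T)) (decide (6 ∈ T))).2.2.2.2.2.2.2

theorem om_mk (T : Finset (Fin 7)) : om (mk T) = T := by
  ext i
  rw [mem_om, tb_mk]
  simp

/-- numbers below 128 with the same bits -/
theorem eq_of_tb {m n : ℕ} (hm : m < 128) (hn : n < 128)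
    (h : ∀ i : Fin 7, m.testBit i = n.testBit i) : m = n := by
  apply Nat.eq_of_testBit_eq
  intro i
  by_cases hi : i < 7
  · exact h ⟨i, hi⟩
  · have h1 : ∀ k : ℕ, k < 128 → k.testBit i = false := by
      intro k hk
      apply Nat.testBit_lt_two_pow
      exact lt_of_lt_of_le hk (by
        calc 128 = 2 ^ 7 := by norm_num
          _ ≤ 2 ^ i := Nat.pow_le_pow_right (by norm_num) (by omega))
    rw [h1 m hm, h1 n hn]

theorem mk_om {m : ℕ} (hm : m < 128) : mk (om m) = m := by
  apply eq_of_tb (mk_lt _) hm
  intro i
  rw [tb_mk]
  by_cases h : m.testBit i = true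
  · rw [h]; simp [mem_om, h]
  · simp only [mem_om, h]; simp at h; simp [h]

theorem om_and (m n : ℕ) : om (Nat.land m n) = om m ∩ om n := by
  ext i
  rw [mem_inter, mem_om, mem_om, mem_om]
  show (m &&& n).testBit i = true ↔ _
  rw [Nat.testBit_land]
  simp

theorem om_or (m n : ℕ) : om (Nat.lor m n) = om m ∪ om n := by
  ext i
  rw [mem_union, mem_om, mem_om, mem_om]
  show (m ||| n).testBit i = true ↔ _
  rw [Nat.testBit_lor]
  simp

theorem om_xor (m : ℕ) : om (Nat.xor 127 m) = (om m)ᶜ := by
  ext i
  rw [mem_compl, mem_om, mem_om]
  show (127 ^^^ m).testBit i = true ↔ _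
  rw [Nat.testBit_xor]
  have : (127 : ℕ).testBit i = true := by fin_cases i <;> rfl
  rw [this]
  simp

theorem om_zero : om 0 = ∅ := by
  ext i; simp [mem_om]

theorem om_127 : om 127 = univ := by
  ext i
  rw [mem_om]
  have : (127 : ℕ).testBit i = true := by fin_cases i <;> rfl
  simp [this]

theorem sub_of_land {m n : ℕ} (h : Nat.land m n = m) : om m ⊆ om n := by
  have h1 := om_and m n
  rw [h] at h1
  rw [h1]
  exact inter_subset_right

theorem land_of_sub {T U : Finset (Fin 7)} (h : T ⊆ U) : Nat.land (mk T) (mk U) = mk T := by
  have hlt : Nat.land (mk T) (mk U) < 128 := lt_of_le_of_lt Nat.and_le_left (mk_lt T)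
  have := mk_om hlt
  rw [om_and, om_mk, om_mk, inter_eq_left.2 h] at this
  exact this.symm

theorem disj_of_land {m n : ℕ} (h : Nat.land m n = 0) : Disjoint (om m) (om n) := by
  have h1 := om_and m n
  rw [h, om_zero] at h1
  exact disjoint_iff_inter_eq_empty.2 h1.symm

/-! facts about the tables -/

theorem pr_card : ∀ a < 21, (pr a).card = 2 := by
  decide +kernel

theorem P2_mk : ∀ T : Finset (Fin 7), T.card = 2 → mk T ∈ P2 := by
  decide +kernel

theorem pr_surj (T : Finset (Fin 7)) (h : T.card = 2) : ∃ a < 21, pr a = T := by
  have h1 := P2_mk T h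
  obtain ⟨a, ha, hT⟩ := List.mem_iff_getElem.1 h1
  refine ⟨a, by simpa [P2] using ha, ?_⟩
  unfold pr
  rw [List.getD_eq_getElem _ _ ha, hT, om_mk]

theorem O2_mk : ∀ T : Finset (Fin 7), T.card = 2 → mk T ∈ O2.map Prod.fst := by
  decide +kernel

theorem O3_mk : ∀ T : Finset (Fin 7), T.card = 3 → mk T ∈ O3.map Prod.fst := by
  decide +kernel

theorem O5_mk : ∀ T : Finset (Fin 7), T.card = 5 → mk T ∈ O5.map Prod.fst := by
  decide +kernel

theorem ins_tab : ∀ m < 128, ∀ a < 21, (ins m).testBit a = true →
    Nat.land (P2.getD a 0) m = P2.getD a 0 := by
  decide +kernel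

theorem nin_tab : ∀ m < 128, ∀ a < 21, (nin m).testBit a = true →
    ∃ b < 21, Nat.land (P2.getD b 0) m = P2.getD b 0 ∧
      Nat.land (P2.getD b 0) (P2.getD a 0) = 0 := by
  decide +kernel

theorem dj_tab : ∀ a < 21, ∀ b < 21, (DJ.getD a 0).testBit b = true →
    Nat.land (P2.getD a 0) (P2.getD b 0) = 0 := by
  decide +kernel

theorem td_tab0 : ∀ s < 128, ∀ b < 21, (fld TD0 s).testBit b = true →
    ∃ j < 7, s.testBit j = true ∧ (DJ.getD j 0).testBit b = true := by
  decide +kernel

theorem td_tab1 : ∀ s < 128, ∀ b < 21, (fld TD1 s).testBit b = true →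
    ∃ j < 7, s.testBit j = true ∧ (DJ.getD (7 + j) 0).testBit b = true := by
  decide +kernel

theorem td_tab2 : ∀ s < 128, ∀ b < 21, (fld TD2 s).testBit b = true →
    ∃ j < 7, s.testBit j = true ∧ (DJ.getD (14 + j) 0).testBit b = true := by
  decide +kernel

/-- the options are correct -/
theorem opt_tab : ∀ o ∈ O2 ++ O3 ++ O5, o.1 < 128 ∧ ∀ a < 21,
    (o.2.1.testBit a = true → o.1.testBit (LO.getD a 0) = o.1.testBit (HI.getD a 0)) ∧
    (o.2.2.testBit a = true → o.1.testBit (LO.getD a 0) = false ∧
      o.1.testBit (HI.getD a 0) = true) := by
  decide +kernel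

theorem lohi : ∀ a < 21, LO.getD a 0 < HI.getD a 0 ∧ HI.getD a 0 < 7 := by
  decide +kernel

theorem ins_sub {m a : ℕ} (hm : m < 128) (ha : a < 21) (h : (ins m).testBit a = true) :
    pr a ⊆ om m := sub_of_land (ins_tab m hm a ha h)

theorem nin_ex {m a : ℕ} (hm : m < 128) (ha : a < 21) (h : (nin m).testBit a = true) :
    ∃ b < 21, pr b ⊆ om m ∧ Disjoint (pr b) (pr a) := by
  obtain ⟨b, hb, h1, h2⟩ := nin_tab m hm a ha h
  exact ⟨b, hb, sub_of_land h1, disj_of_land h2⟩

theorem dj_disj {a b : ℕ} (ha : a < 21) (hb : b < 21) (h : (DJ.getD a 0).testBit b = true) :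
    Disjoint (pr a) (pr b) := disj_of_land (dj_tab a ha b hb h)

theorem djs_ex {S b : ℕ} (hS : S < 2 ^ 21) (hb : b < 21) (h : (djs S).testBit b = true) :
    ∃ a < 21, S.testBit a = true ∧ (DJ.getD a 0).testBit b = true := by
  have h1 : (djs S) = (fld TD0 (S &&& 127)) ||| ((fld TD1 ((S >>> 7) &&& 127)) |||
      (fld TD2 (S >>> 14))) := rfl
  rw [h1, Nat.testBit_lor, Nat.testBit_lor, Bool.or_eq_true, Bool.or_eq_true] at h
  have hlt1 : S &&& 127 < 128 := lt_of_le_of_lt Nat.and_le_right (by norm_num)
  have hlt2 : (S >>> 7) &&& 127 < 128 := lt_of_le_of_lt Nat.and_le_right (by norm_num)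
  have hlt3 : S >>> 14 < 128 := by
    rw [Nat.shiftRight_eq_div_pow]
    omega
  rcases h with h | h | h
  · obtain ⟨j, hj, h2, h3⟩ := td_tab0 _ hlt1 b hb h
    refine ⟨j, by omega, ?_, h3⟩
    rw [Nat.testBit_land, Bool.and_eq_true] at h2
    exact h2.1
  · obtain ⟨j, hj, h2, h3⟩ := td_tab1 _ hlt2 b hb h
    refine ⟨7 + j, by omega, ?_, h3⟩
    rw [Nat.testBit_land, Bool.and_eq_true, Nat.testBit_shiftRight] at h2
    exact h2.1
  · obtain ⟨j, hj, h2, h3⟩ := td_tab2 _ hlt3 b hb h
    refine ⟨14 + j, by omega, ?_, h3⟩
    rw [Nat.testBit_shiftRight] at h2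
    exact h2

end

end Pool.Agent.Lib.SVX.Chk
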