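import Pool.Agent.Lib.SVX.Short

/-!
# SVX.Cyc67: short cycles of a minimal counterexample, in terms of vertices
-/

set_option autoImplicit false
set_option linter.unusedSectionVars false

namespace Pool.Agent.Lib.SVX

open Finset Pool.Agent.Lib.SVT

variable {V : Type*} [Fintype V] [DecidableEq V] {G : SimpleGraph V} {B : Finset V}
variable {m : ℕ} {F : Fin m → Finset (Sym2 V)}

namespace Cyc67Aux

/-- the sum of the incidences of `x` with `F` -/
def dsum (F : Finset (Sym2 V)) (x : V) : ZMod 2 := ∑ e ∈ F, (if x ∈ e then (1 : ZMod 2) else 0)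

lemma dsum_insert {F : Finset (Sym2 V)} {a b : V} (hab : a ≠ b) (h : s(a, b) ∉ F) (x : V) :
    dsum (insert s(a, b) F) x =
      (if x = a then (1 : ZMod 2) else 0) + (if x = b then (1 : ZMod 2) else 0) + dsum F x := by
  unfold dsum
  rw [Finset.sum_insert h]
  congr 1
  simp only [Sym2.mem_iff]
  by_cases h1 : x = a
  · subst h1
    simp [hab]
  · by_cases h2 : x = b
    · subst h2
      simp [h1]
    · simp [h1, h2]

lemma dsum_empty (x : V) : dsum (∅ : Finset (Sym2 V)) x = 0 := by
  unfold dsum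
  simp

lemma ev_four {a b c d : V} (h : [a, b, c, d].Nodup) :
    Ev ({s(a, b), s(b, c), s(c, d), s(d, a)} : Finset (Sym2 V)) := by
  rw [ev_iff]
  intro x
  simp only [List.nodup_cons, List.mem_cons, List.not_mem_nil, or_false, not_or, not_false_eq_true,
    List.nodup_nil, and_true] at h
  obtain ⟨⟨hab, hac, had⟩, ⟨hbc, hbd⟩, hcd⟩ := h
  show dsum _ x = 0
  have h2 : ({s(d, a)} : Finset (Sym2 V)) = insert s(d, a) ∅ := rfl
  rw [h2, dsum_insert hab, dsum_insert hbc, dsum_insert hcd, dsum_insert (Ne.symm had), dsum_empty]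
  · have h20 : (2 : ZMod 2) = 0 := rfl
    linear_combination ((if x = a then (1 : ZMod 2) else 0) + (if x = b then (1 : ZMod 2) else 0) +
      (if x = c then (1 : ZMod 2) else 0) + (if x = d then (1 : ZMod 2) else 0)) * h20
  · simp
  · simp only [mem_insert, notMem_empty, or_false, Sym2.eq_iff]
    tauto
  · simp only [mem_insert, notMem_empty, or_false, Sym2.eq_iff]
    tauto
  · simp only [mem_insert, notMem_empty, or_false, Sym2.eq_iff]
    tauto

lemma ev_five {a b c d e : V} (h : [a, b, c, d, e].Nodup) :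
    Ev ({s(a, b), s(b, c), s(c, d), s(d, e), s(e, a)} : Finset (Sym2 V)) := by
  rw [ev_iff]
  intro x
  simp only [List.nodup_cons, List.mem_cons, List.not_mem_nil, or_false, not_or, not_false_eq_true,
    List.nodup_nil, and_true] at h
  obtain ⟨⟨hab, hac, had, hae⟩, ⟨hbc, hbd, hbe⟩, ⟨hcd, hce⟩, hde⟩ := h
  show dsum _ x = 0
  have h2 : ({s(e, a)} : Finset (Sym2 V)) = insert s(e, a) ∅ := rfl
  rw [h2, dsum_insert hab, dsum_insert hbc, dsum_insert hcd, dsum_insert hde,
    dsum_insert (Ne.symm hae), dsum_empty]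
  · have h20 : (2 : ZMod 2) = 0 := rfl
    linear_combination ((if x = a then (1 : ZMod 2) else 0) + (if x = b then (1 : ZMod 2) else 0) +
      (if x = c then (1 : ZMod 2) else 0) + (if x = d then (1 : ZMod 2) else 0) +
      (if x = e then (1 : ZMod 2) else 0)) * h20
  · simp
  · simp only [mem_insert, notMem_empty, or_false, Sym2.eq_iff]
    tauto
  · simp only [mem_insert, notMem_empty, or_false, Sym2.eq_iff]
    tauto
  · simp only [mem_insert, notMem_empty, or_false, Sym2.eq_iff]
    tauto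
  · simp only [mem_insert, notMem_empty, or_false, Sym2.eq_iff]
    tauto

lemma six_card {a b c d e f : V} (h : [a, b, c, d, e, f].Nodup) :
    ({s(a, b), s(b, c), s(c, d), s(d, e), s(e, f), s(f, a)} : Finset (Sym2 V)).card = 6 := by
  simp only [List.nodup_cons, List.mem_cons, List.not_mem_nil, or_false, not_or, not_false_eq_true,
    List.nodup_nil, and_true] at h
  obtain ⟨⟨hab, hac, had, hae, haf⟩, ⟨hbc, hbd, hbe, hbf⟩, ⟨hcd, hce, hcf⟩, ⟨hde, hdf⟩, hef⟩ := h
  rw [card_insert_of_notMem, card_insert_of_notMem, card_insert_of_notMem, card_insert_of_notMem,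
    card_insert_of_notMem, card_singleton]
  · rw [mem_singleton, Sym2.eq_iff]
    tauto
  · simp only [mem_insert, mem_singleton, Sym2.eq_iff]
    tauto
  · simp only [mem_insert, mem_singleton, Sym2.eq_iff]
    tauto
  · simp only [mem_insert, mem_singleton, Sym2.eq_iff]
    tauto
  · simp only [mem_insert, mem_singleton, Sym2.eq_iff]
    tauto

lemma five_card_le (a b c d e : Sym2 V) : ({a, b, c, d, e} : Finset (Sym2 V)).card ≤ 5 :=
  card_le_five

lemma four_card_le (a b c d : Sym2 V) : ({a, b, c, d} : Finset (Sym2 V)).card ≤ 4 :=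
  card_le_four

lemma cyc_three (a b c : V) :
    cycEdges (n := 3) (![a, b, c] : Fin 3 → V) =
      {s(a, b), s(b, c), s(c, a)} := by
  ext x
  unfold cycEdges
  rw [mem_image]
  simp only [mem_insert, mem_singleton]
  constructor
  · rintro ⟨i, -, rfl⟩
    change Fin 3 at i
    fin_cases i
    · exact Or.inl rfl
    · exact Or.inr (Or.inl rfl)
    · exact Or.inr (Or.inr (rfl))
  · rintro (rfl | rfl | rfl)
    · exact ⟨((0 : Fin 3) : ZMod 3), mem_univ _, rfl⟩
    · exact ⟨((1 : Fin 3) : ZMod 3), mem_univ _, rfl⟩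
    · exact ⟨((2 : Fin 3) : ZMod 3), mem_univ _, rfl⟩

lemma cyc_six (a b c d e f : V) :
    cycEdges (n := 6) (![a, b, c, d, e, f] : Fin 6 → V) =
      {s(a, b), s(b, c), s(c, d), s(d, e), s(e, f), s(f, a)} := by
  ext x
  unfold cycEdges
  rw [mem_image]
  simp only [mem_insert, mem_singleton]
  constructor
  · rintro ⟨i, -, rfl⟩
    change Fin 6 at i
    fin_cases i
    · exact Or.inl rfl
    · exact Or.inr (Or.inl rfl)
    · exact Or.inr (Or.inr (Or.inl rfl))
    · exact Or.inr (Or.inr (Or.inr (Or.inl rfl)))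
    · exact Or.inr (Or.inr (Or.inr (Or.inr (Or.inl rfl))))
    · exact Or.inr (Or.inr (Or.inr (Or.inr (Or.inr (rfl)))))
  · rintro (rfl | rfl | rfl | rfl | rfl | rfl)
    · exact ⟨((0 : Fin 6) : ZMod 6), mem_univ _, rfl⟩
    · exact ⟨((1 : Fin 6) : ZMod 6), mem_univ _, rfl⟩
    · exact ⟨((2 : Fin 6) : ZMod 6), mem_univ _, rfl⟩
    · exact ⟨((3 : Fin 6) : ZMod 6), mem_univ _, rfl⟩
    · exact ⟨((4 : Fin 6) : ZMod 6), mem_univ _, rfl⟩
    · exact ⟨((5 : Fin 6) : ZMod 6), mem_univ _, rfl⟩

lemma cyc_seven (a b c d e f g : V) :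
    cycEdges (n := 7) (![a, b, c, d, e, f, g] : Fin 7 → V) =
      {s(a, b), s(b, c), s(c, d), s(d, e), s(e, f), s(f, g), s(g, a)} := by
  ext x
  unfold cycEdges
  rw [mem_image]
  simp only [mem_insert, mem_singleton]
  constructor
  · rintro ⟨i, -, rfl⟩
    change Fin 7 at i
    fin_cases i
    · exact Or.inl rfl
    · exact Or.inr (Or.inl rfl)
    · exact Or.inr (Or.inr (Or.inl rfl))
    · exact Or.inr (Or.inr (Or.inr (Or.inl rfl)))
    · exact Or.inr (Or.inr (Or.inr (Or.inr (Or.inl rfl))))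
    · exact Or.inr (Or.inr (Or.inr (Or.inr (Or.inr (Or.inl rfl)))))
    · exact Or.inr (Or.inr (Or.inr (Or.inr (Or.inr (Or.inr (rfl))))))
  · rintro (rfl | rfl | rfl | rfl | rfl | rfl | rfl)
    · exact ⟨((0 : Fin 7) : ZMod 7), mem_univ _, rfl⟩
    · exact ⟨((1 : Fin 7) : ZMod 7), mem_univ _, rfl⟩
    · exact ⟨((2 : Fin 7) : ZMod 7), mem_univ _, rfl⟩
    · exact ⟨((3 : Fin 7) : ZMod 7), mem_univ _, rfl⟩
    · exact ⟨((4 : Fin 7) : ZMod 7), mem_univ _, rfl⟩
    · exact ⟨((5 : Fin 7) : ZMod 7), mem_univ _, rfl⟩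
    · exact ⟨((6 : Fin 7) : ZMod 7), mem_univ _, rfl⟩

end Cyc67Aux

open Cyc67Aux LinkAux

theorem cyc3 (h : MinCE G B) (hF : Faces G F) {a b c : V} (hab : G.Adj a b) (hbc : G.Adj b c)
    (hca : G.Adj c a) : ∃ i, F i = {s(a, b), s(b, c), s(c, a)} := by
  have h1 := hab.ne
  have h2 := hbc.ne
  have h3 := hca.ne
  have hc : IsCyc G 3 (![a, b, c] : Fin 3 → V) := by
    refine ⟨?_, ?_⟩
    · intro i j hij
      fin_cases i <;> fin_cases j <;> simp_all
    · intro i
      fin_cases i
      · exact hab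
      · exact hbc
      · exact hca
  obtain ⟨i, hi⟩ := tri_face h hF hc
  exact ⟨i, hi.trans (cyc_three a b c)⟩

/-- a 6-cycle is a face -/
theorem cyc6 (h : MinCE G B) (hF : Faces G F) {a b c d e f : V}
    (hnd : [a, b, c, d, e, f].Nodup) (h1 : G.Adj a b) (h2 : G.Adj b c) (h3 : G.Adj c d)
    (h4 : G.Adj d e) (h5 : G.Adj e f) (h6 : G.Adj f a) :
    ∃ i, F i = {s(a, b), s(b, c), s(c, d), s(d, e), s(e, f), s(f, a)} := by
  have hc : IsCyc G 6 (![a, b, c, d, e, f] : Fin 6 → V) := by
    refine ⟨?_, ?_⟩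
    · intro i j hij
      exact (List.nodup_iff_injective_get.1 hnd) (by
        fin_cases i <;> fin_cases j <;> exact hij)
    · intro i
      fin_cases i
      · exact h1
      · exact h2
      · exact h3
      · exact h4
      · exact h5
      · exact h6
  obtain ⟨i, hi⟩ := six_face h hF hc
  exact ⟨i, hi.trans (cyc_six a b c d e f)⟩

/-- a 7-cycle is a face or has a chord -/
theorem cyc7 (h : MinCE G B) (hF : Faces G F) {a b c d e f g : V}
    (hnd : [a, b, c, d, e, f, g].Nodup) (h1 : G.Adj a b) (h2 : G.Adj b c) (h3 : G.Adj c d)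
    (h4 : G.Adj d e) (h5 : G.Adj e f) (h6 : G.Adj f g) (h7 : G.Adj g a) :
    (∃ i, F i = {s(a, b), s(b, c), s(c, d), s(d, e), s(e, f), s(f, g), s(g, a)}) ∨
      G.Adj a c ∨ G.Adj b d ∨ G.Adj c e ∨ G.Adj d f ∨ G.Adj e g ∨ G.Adj f a ∨ G.Adj g b := by
  have hc : IsCyc G 7 (![a, b, c, d, e, f, g] : Fin 7 → V) := by
    refine ⟨?_, ?_⟩
    · intro i j hij
      exact (List.nodup_iff_injective_get.1 hnd) (by
        fin_cases i <;> fin_cases j <;> exact hij)
    · intro i
      fin_cases i
      · exact h1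
      · exact h2
      · exact h3
      · exact h4
      · exact h5
      · exact h6
      · exact h7
  rcases seven_face h hF hc with ⟨i, hi⟩ | ⟨j, hj⟩
  · left
    exact ⟨i, hi.trans (cyc_seven a b c d e f g)⟩
  · right
    change Fin 7 at j
    fin_cases j
    · exact Or.inl hj
    · exact Or.inr (Or.inl hj)
    · exact Or.inr (Or.inr (Or.inl hj))
    · exact Or.inr (Or.inr (Or.inr (Or.inl hj)))
    · exact Or.inr (Or.inr (Or.inr (Or.inr (Or.inl hj))))
    · exact Or.inr (Or.inr (Or.inr (Or.inr (Or.inr (Or.inl hj)))))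
    · exact Or.inr (Or.inr (Or.inr (Or.inr (Or.inr (Or.inr hj)))))

/-- a face of length 6 through the edge `s(v,z)` and the edges `s(v,y)`, `s(z,q)` -/
theorem face6 (hF : Faces G F) {i : Fin m} (hc : (F i).card = 6) {y v z q : V}
    (h1 : s(y, v) ∈ F i) (h2 : s(v, z) ∈ F i) (h3 : s(z, q) ∈ F i) (hyz : y ≠ z) (hvq : v ≠ q)
    (hyq : y ≠ q) :
    ∃ u w : V, [y, v, z, q, u, w].Nodup ∧ G.Adj q u ∧ G.Adj u w ∧ G.Adj w y ∧
      F i = {s(y, v), s(v, z), s(z, q), s(q, u), s(u, w), s(w, y)} := by
  have sw : ∀ {a b : V}, s(a, b) ∈ F i → s(b, a) ∈ F i := fun {a b} hab => by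
    rw [Sym2.eq_swap]
    exact hab
  have adj : ∀ {a b : V}, s(a, b) ∈ F i → G.Adj a b := fun {a b} hab =>
    (SimpleGraph.mem_edgeSet G).1 (hF.sub i _ hab)
  have hyv := (adj h1).ne
  have hvz := (adj h2).ne
  have hzq := (adj h3).ne
  -- the vertex `u`
  obtain ⟨u, huz, hqu, h4⟩ := other_edge hF (sw h3)
  have huq : u ≠ q := hqu.ne.symm
  have huv : u ≠ v := by
    rintro rfl
    rcases face_edges hF hyz (sw h1) h2 (sw h4) with h | h
    · exact hyq h.symm
    · exact hzq h.symm
  have huy : u ≠ y := by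
    rintro rfl
    have hsub : ({s(u, v), s(v, z), s(z, q), s(q, u)} : Finset (Sym2 V)) ⊆ F i := by
      intro e he
      simp only [mem_insert, mem_singleton] at he
      rcases he with rfl | rfl | rfl | rfl
      · exact h1
      · exact h2
      · exact h3
      · exact h4
    have hev := ev_four (a := u) (b := v) (c := z) (d := q) (by
      simp only [List.nodup_cons, List.mem_cons, List.not_mem_nil, or_false, not_or,
        not_false_eq_true, List.nodup_nil, and_true]
      exact ⟨⟨hyv, hyz, hyq⟩, ⟨hvz, hvq⟩, hzq⟩)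
    have h5 := hF.circ i _ hsub hev ⟨_, mem_insert_self _ _⟩
    have h6 := four_card_le s(u, v) s(v, z) s(z, q) s(q, u)
    rw [h5, hc] at h6
    omega
  -- the vertex `w`
  obtain ⟨w, hwq, huw, h5⟩ := other_edge hF (sw h4)
  have hwu : w ≠ u := huw.ne.symm
  have hwz : w ≠ z := by
    rintro rfl
    rcases face_edges hF hvq (sw h2) h3 (sw h5) with h | h
    · exact huv h
    · exact huq h
  have hwv : w ≠ v := by
    rintro rfl
    rcases face_edges hF hyz (sw h1) h2 (sw h5) with h | h
    · exact huy h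
    · exact huz h
  have hwy : w ≠ y := by
    rintro rfl
    have hsub : ({s(w, v), s(v, z), s(z, q), s(q, u), s(u, w)} : Finset (Sym2 V)) ⊆ F i := by
      intro e he
      simp only [mem_insert, mem_singleton] at he
      rcases he with rfl | rfl | rfl | rfl | rfl
      · exact h1
      · exact h2
      · exact h3
      · exact h4
      · exact h5
    have hev := ev_five (a := w) (b := v) (c := z) (d := q) (e := u) (by
      simp only [List.nodup_cons, List.mem_cons, List.not_mem_nil, or_false, not_or,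
        not_false_eq_true, List.nodup_nil, and_true]
      exact ⟨⟨hyv, hyz, hyq, huy.symm⟩, ⟨hvz, hvq, huv.symm⟩, ⟨hzq, huz.symm⟩, huq.symm⟩)
    have h6 := hF.circ i _ hsub hev ⟨_, mem_insert_self _ _⟩
    have h7 := five_card_le s(w, v) s(v, z) s(z, q) s(q, u) s(u, w)
    rw [h6, hc] at h7
    omega
  -- the last vertex
  obtain ⟨x, hxu, hwx, h6⟩ := other_edge hF (sw h5)
  have hxq : x ≠ q := by
    rintro rfl
    rcases face_edges hF huz.symm (sw h3) h4 (sw h6) with h | h
    · exact hwz h
    · exact hwu h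
  have hxz : x ≠ z := by
    rintro rfl
    rcases face_edges hF hvq (sw h2) h3 (sw h6) with h | h
    · exact hwv h
    · exact hwq h
  have hxv : x ≠ v := by
    rintro rfl
    rcases face_edges hF hyz (sw h1) h2 (sw h6) with h | h
    · exact hwy h
    · exact hwz h
  have hnd : [y, v, z, q, u, w].Nodup := by
    simp only [List.nodup_cons, List.mem_cons, List.not_mem_nil, or_false, not_or,
      not_false_eq_true, List.nodup_nil, and_true]
    exact ⟨⟨hyv, hyz, hyq, huy.symm, hwy.symm⟩, ⟨hvz, hvq, huv.symm, hwv.symm⟩,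
      ⟨hzq, huz.symm, hwz.symm⟩, ⟨huq.symm, hwq.symm⟩, hwu.symm⟩
  have hxy : x = y := by
    by_contra hxy
    obtain ⟨t, htv, hyt, h7⟩ := other_edge hF h1
    -- seven edges in `F i`
    have hwx' : w ≠ x := hwx.ne
    have hsub : insert s(y, t) ({s(y, v), s(v, z), s(z, q), s(q, u), s(u, w), s(w, x)} :
        Finset (Sym2 V)) ⊆ F i := by
      intro e he
      simp only [mem_insert, mem_singleton] at he
      rcases he with rfl | rfl | rfl | rfl | rfl | rfl | rfl
      · exact h7
      · exact h1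
      · exact h2
      · exact h3
      · exact h4
      · exact h5
      · exact h6
    have htz : t ≠ z := by
      rintro rfl
      rcases face_edges hF hvq (sw h2) h3 (sw h7) with h | h
      · exact hyv h
      · exact hyq h
    have htq : t ≠ q := by
      rintro rfl
      rcases face_edges hF huz.symm (sw h3) h4 (sw h7) with h | h
      · exact hyz h
      · exact huy h.symm
    have htu : t ≠ u := by
      rintro rfl
      rcases face_edges hF hwq.symm (sw h4) h5 (sw h7) with h | h
      · exact hyq h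
      · exact hwy h.symm
    have htw : t ≠ w := by
      rintro rfl
      rcases face_edges hF hxu.symm (sw h5) h6 (sw h7) with h | h
      · exact huy h.symm
      · exact hxy h.symm
    have hty : t ≠ y := hyt.ne.symm
    have hcard : (insert s(y, t) ({s(y, v), s(v, z), s(z, q), s(q, u), s(u, w), s(w, x)} :
        Finset (Sym2 V))).card = 7 := by
      rw [card_insert_of_notMem, card_insert_of_notMem, card_insert_of_notMem,
        card_insert_of_notMem, card_insert_of_notMem, card_insert_of_notMem, card_singleton]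
      · rw [mem_singleton, Sym2.eq_iff]
        rintro (⟨h, h'⟩ | ⟨h, h'⟩)
        · exact hwu h.symm
        · exact hxu h.symm
      · simp only [mem_insert, mem_singleton, Sym2.eq_iff]
        rintro ((⟨h, h'⟩ | ⟨h, h'⟩) | (⟨h, h'⟩ | ⟨h, h'⟩))
        · exact huq h.symm
        · exact hwq h.symm
        · exact hwq h.symm
        · exact hxq h.symm
      · simp only [mem_insert, mem_singleton, Sym2.eq_iff]
        rintro ((⟨h, h'⟩ | ⟨h, h'⟩) | (⟨h, h'⟩ | ⟨h, h'⟩) | (⟨h, h'⟩ | ⟨h, h'⟩))
        · exact hzq h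
        · exact huz h.symm
        · exact huz h.symm
        · exact hwz h.symm
        · exact hwz h.symm
        · exact hxz h.symm
      · simp only [mem_insert, mem_singleton, Sym2.eq_iff]
        rintro ((⟨h, h'⟩ | ⟨h, h'⟩) | (⟨h, h'⟩ | ⟨h, h'⟩) | (⟨h, h'⟩ | ⟨h, h'⟩) |
          (⟨h, h'⟩ | ⟨h, h'⟩))
        · exact hvz h
        · exact hvq h
        · exact hvq h
        · exact huv h.symm
        · exact huv h.symm
        · exact hwv h.symm
        · exact hwv h.symm
        · exact hxv h.symm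
      · simp only [mem_insert, mem_singleton, Sym2.eq_iff]
        rintro ((⟨h, h'⟩ | ⟨h, h'⟩) | (⟨h, h'⟩ | ⟨h, h'⟩) | (⟨h, h'⟩ | ⟨h, h'⟩) |
          (⟨h, h'⟩ | ⟨h, h'⟩) | (⟨h, h'⟩ | ⟨h, h'⟩))
        · exact hyv h
        · exact hyz h
        · exact hyz h
        · exact hyq h
        · exact hyq h
        · exact huy h.symm
        · exact huy h.symm
        · exact hwy h.symm
        · exact hwy h.symm
        · exact hxy h.symm
      · simp only [mem_insert, mem_singleton, Sym2.eq_iff]
        rintro ((⟨h, h'⟩ | ⟨h, h'⟩) | (⟨h, h'⟩ | ⟨h, h'⟩) | (⟨h, h'⟩ | ⟨h, h'⟩) |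
          (⟨h, h'⟩ | ⟨h, h'⟩) | (⟨h, h'⟩ | ⟨h, h'⟩) | (⟨h, h'⟩ | ⟨h, h'⟩))
        · exact htv h'
        · exact hyv h
        · exact hyv h
        · exact hyz h
        · exact hyz h
        · exact hyq h
        · exact hyq h
        · exact huy h.symm
        · exact huy h.symm
        · exact hwy h.symm
        · exact hwy h.symm
        · exact hxy h.symm
    have := card_le_card hsub
    rw [hcard, hc] at this
    omega
  subst hxy
  refine ⟨u, w, hnd, hqu, huw, hwx, ?_⟩
  symm
  refine eq_of_subset_of_card_le ?_ ?_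
  · intro e he
    simp only [mem_insert, mem_singleton] at he
    rcases he with rfl | rfl | rfl | rfl | rfl | rfl
    · exact h1
    · exact h2
    · exact h3
    · exact h4
    · exact h5
    · exact h6
  · rw [hc, six_card hnd]

end Pool.Agent.Lib.SVX
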