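import Pool.Agent.Lib.SVT.Defs
import Pool.Agent.Lib.SVT.Fam
import Pool.Agent.Lib.SVT.Circ

/-!
# Faces of a plane graph from MacLane's property

`TwoConn G`: no cut vertex (and connected up to isolated vertices).
`Faces G F`: the family `F` (indexed by `Fin m`) consists of circuits (minimal nonempty even edge
sets), every edge lies in exactly two members, and MacLane's dual property holds.
-/

set_option autoImplicit false
set_option linter.unusedSectionVars false

namespace Pool.Agent.Lib.SVX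

open Finset Pool.Agent.Lib.SVT

variable {V : Type*} [Fintype V] [DecidableEq V]

/-- `G` has no cut vertex and is connected up to isolated vertices: a vertex set `Y` not containing
`v` all of whose edges lead to `Y` or to `v` has no edges, or all edges have an end in `Y ∪ {v}` -/
def TwoConn (G : SimpleGraph V) : Prop :=
  ∀ (v : V) (Y : Set V), v ∉ Y → (∀ a b, G.Adj a b → a ∈ Y → b ∈ Y ∨ b = v) →
    (∀ a ∈ Y, ∀ b, ¬ G.Adj a b) ∨ (∀ a, a ∉ Y → a ≠ v → ∀ b, ¬ G.Adj a b)

/-- double cover of the edges by circuits with MacLane's dual property -/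
structure Faces (G : SimpleGraph V) {m : ℕ} (F : Fin m → Finset (Sym2 V)) : Prop where
  sub : ∀ i, ∀ e ∈ F i, e ∈ G.edgeSet
  ev : ∀ i, Ev (F i)
  ne : ∀ i, (F i).Nonempty
  circ : ∀ i, ∀ F', F' ⊆ F i → Ev F' → F'.Nonempty → F' = F i
  two : ∀ e ∈ G.edgeSet, (univ.filter (fun i => e ∈ F i)).card = 2
  dual : ∀ c : Sym2 V → ZMod 2, (∀ i, ∑ e ∈ F i, c e = 0) →
    ∃ y : V → ZMod 2, ∀ a b, G.Adj a b → c s(a, b) = y a + y b

/-- the number of vertices which are not isolated -/
noncomputable def nv (G : SimpleGraph V) : ℕ := by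
  classical exact (univ.filter (fun v => ∃ u, G.Adj v u)).card

/-- two neighbours of `v` are consecutive: the two edges lie in a common face -/
def Corner {m : ℕ} (F : Fin m → Finset (Sym2 V)) (v a b : V) : Prop :=
  ∃ i, s(v, a) ∈ F i ∧ s(v, b) ∈ F i

/-- a colouring of `G` by 2-subsets of 7 colours -/
def Col7 (G : SimpleGraph V) (φ : V → Finset (Fin 7)) : Prop :=
  (∀ v, (φ v).card = 2) ∧ ∀ u v, G.Adj u v → Disjoint (φ u) (φ v)

/-- every colouring of `G[B]` extends to `G` -/
def Ext (G : SimpleGraph V) (B : Finset V) : Prop :=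
  ∀ φ₀ : V → Finset (Fin 7), (∀ v, (φ₀ v).card = 2) →
    (∀ u ∈ B, ∀ v ∈ B, G.Adj u v → Disjoint (φ₀ u) (φ₀ v)) →
    ∃ φ, Col7 G φ ∧ ∀ v ∈ B, φ v = φ₀ v

/-- the vertex set of a cycle of length `n` -/
def IsCyc (G : SimpleGraph V) (n : ℕ) (c : ZMod n → V) : Prop :=
  Function.Injective c ∧ ∀ i, G.Adj (c i) (c (i + 1))

/-- `B` is empty or the vertex set of a cycle of length 3, 6 or 7 -/
def Bdry (G : SimpleGraph V) (B : Finset V) : Prop :=
  B = ∅ ∨ (∃ c : ZMod 3 → V, IsCyc G 3 c ∧ ∀ v, v ∈ B ↔ ∃ i, c i = v) ∨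
    (∃ c : ZMod 6 → V, IsCyc G 6 c ∧ ∀ v, v ∈ B ↔ ∃ i, c i = v) ∨
    (∃ c : ZMod 7 → V, IsCyc G 7 c ∧ ∀ v, v ∈ B ↔ ∃ i, c i = v)

/-- the hypotheses on the graph -/
structure Good (G : SimpleGraph V) (B : Finset V) : Prop where
  ml : ML (edg G univ)
  c4 : NoC4 G
  c5 : NoC5 G
  bd : Bdry G B

/-- `(G, B)` is a minimal counterexample to the extension theorem -/
structure MinCE (G : SimpleGraph V) (B : Finset V) : Prop where
  good : Good G B
  not_ext : ¬ Ext G B
  min : ∀ (G' : SimpleGraph V) (B' : Finset V), Good G' B' → nv G' < nv G → Ext G' B'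
  /-- no chord of a boundary 7-cycle (take the fewest edges among the counterexamples with the
  smallest `nv`) -/
  chord : ∀ c : ZMod 7 → V, IsCyc G 7 c → (∀ v, v ∈ B ↔ ∃ i, c i = v) →
    ∀ j, ¬ G.Adj (c j) (c (j + 2))

end Pool.Agent.Lib.SVX
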