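import Pool.Agent.Lib.SVX.Defs

/-!
# SVX.EvenSum: every even edge set is a sum of faces

Plan.  Linear algebra over `ZMod 2`: if the indicator function of `K` (a function on the edges of
`G`) is not in the span of the indicator functions of the faces there is a linear functional, i.e.
a function `c` on the edges, with `∑ e ∈ F i, c e = 0` for all `i` and `∑ e ∈ K, c e = 1`
(`Submodule.exists_le_ker_of_notMem` or a dual basis argument).  By `dual` `c s(a,b) = y a + y b`,
so `∑ e ∈ K, c e = ∑ v, deg_K v * y v = 0`.
-/

set_option autoImplicit false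
set_option linter.unusedSectionVars false

namespace Pool.Agent.Lib.SVX

open Finset Pool.Agent.Lib.SVT

variable {V : Type*} [Fintype V] [DecidableEq V] {G : SimpleGraph V}

namespace EvenSumAux

/-- indicator function -/
def ind (A : Finset (Sym2 V)) : Sym2 V → ZMod 2 := fun e => if e ∈ A then 1 else 0

lemma apply_ind (f : (Sym2 V → ZMod 2) →ₗ[ZMod 2] ZMod 2) (A : Finset (Sym2 V)) :
    f (ind A) = ∑ e ∈ A, f (Pi.single e 1) := by
  have h1 : ind A = ∑ e ∈ A, (Pi.single e (1 : ZMod 2) : Sym2 V → ZMod 2) := by
    funext e'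
    rw [Finset.sum_apply]
    unfold ind
    simp only [Pi.single_apply]
    rw [Finset.sum_ite_eq]
  rw [h1, map_sum]

/-- `∑_{e ∈ K} c e = 0` if `c` is a cut and `K` is even. -/
lemma sum_cut {K : Finset (Sym2 V)} (hK : ∀ e ∈ K, e ∈ G.edgeSet) (hev : Ev K)
    {c : Sym2 V → ZMod 2} {y : V → ZMod 2} (h : ∀ a b, G.Adj a b → c s(a, b) = y a + y b) :
    ∑ e ∈ K, c e = 0 := by
  have h1 : ∀ e ∈ K, c e = ∑ v : V, y v * (if v ∈ e then (1 : ZMod 2) else 0) := by
    intro e he
    have hG := hK e he
    induction e using Sym2.ind with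
    | _ a b =>
      have hab : G.Adj a b := hG
      rw [h a b hab]
      have hne := hab.ne
      have h2 : ∀ v : V, y v * (if v ∈ s(a, b) then (1 : ZMod 2) else 0) =
          (if v = a then y v else 0) + (if v = b then y v else 0) := by
        intro v
        simp only [Sym2.mem_iff]
        by_cases h3 : v = a
        · subst h3
          simp [hne]
        · by_cases h4 : v = b
          · subst h4
            simp [h3]
          · simp [h3, h4]
      rw [Finset.sum_congr rfl fun v _ => h2 v, Finset.sum_add_distrib, Finset.sum_ite_eq',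
        Finset.sum_ite_eq', if_pos (Finset.mem_univ _), if_pos (Finset.mem_univ _)]
  rw [Finset.sum_congr rfl h1, Finset.sum_comm]
  refine Finset.sum_eq_zero fun v _ => ?_
  rw [← Finset.mul_sum, (ev_iff.1 hev) v, mul_zero]

end EvenSumAux

open EvenSumAux

theorem even_sum {m : ℕ} {F : Fin m → Finset (Sym2 V)} (h : Faces G F) {K : Finset (Sym2 V)}
    (hK : ∀ e ∈ K, e ∈ G.edgeSet) (hev : Ev K) :
    ∃ I : Finset (Fin m), ∀ e, e ∈ K ↔ Odd (I.filter (fun i => e ∈ F i)).card := by
  classical
  by_cases hmem : ind K ∈ Submodule.span (ZMod 2) (Set.range fun i => ind (F i))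
  · rw [Submodule.mem_span_range_iff_exists_fun] at hmem
    obtain ⟨c, hc⟩ := hmem
    refine ⟨univ.filter fun i => c i = 1, fun e => ?_⟩
    have h1 : ind K e = (((univ.filter fun i => c i = 1).filter (fun i => e ∈ F i)).card : ZMod 2) := by
      rw [← hc, Finset.sum_apply, Finset.filter_filter, Finset.card_filter]
      push_cast
      refine Finset.sum_congr rfl fun i _ => ?_
      have h01 : c i = 0 ∨ c i = 1 := by
        generalize c i = x
        revert x
        decide
      rw [Pi.smul_apply, smul_eq_mul]
      unfold ind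
      rcases h01 with h0 | h0 <;> by_cases he : e ∈ F i <;> simp [h0, he]
    rw [← ZMod.natCast_eq_one_iff_odd, ← h1]
    unfold ind
    by_cases he : e ∈ K <;> simp [he]
  · exfalso
    obtain ⟨f, hf, hf'⟩ := Submodule.exists_dual_map_eq_bot_of_notMem hmem inferInstance
    have h0 : ∀ i, f (ind (F i)) = 0 := by
      intro i
      have h1 : f (ind (F i)) ∈ (Submodule.span (ZMod 2) (Set.range fun i => ind (F i))).map f :=
        Submodule.mem_map_of_mem (Submodule.subset_span ⟨i, rfl⟩)
      rw [hf'] at h1
      exact (Submodule.mem_bot _).1 h1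
    obtain ⟨y, hy⟩ := h.dual (fun e => f (Pi.single e 1)) (fun i => by rw [← apply_ind]; exact h0 i)
    refine hf ?_
    rw [apply_ind]
    exact sum_cut hK hev hy

end Pool.Agent.Lib.SVX
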