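import Pool.Agent.Lib.SVX.Defs
import Pool.Agent.Lib.SVT.Rank

/-!
# SVX.FA: existence of the faces

Plan.  Take the family `𝓕` of `ML.min_family` for `edg G univ`.  Every edge is covered at least once:
if `e = s(a,b)` is covered by no member, the indicator function of `e` has zero sum on all members,
so it is `y a + y b`; `Y = {x | y x = y b}` is closed except through `a`; by `TwoConn` and because
`b` has an edge, all vertices `x ≠ a` with `y x = y a` are isolated, so `b` is the only neighbour of
`a` (a neighbour `x ≠ b` has `y x = y a` because the edge `s(a,x)` is not `e`), against `hd`.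
Let `S₀` be the set of edges covered exactly once; it is even (sum of the members).
If `S₀` is not empty the double cover is `𝓕` together with `S₀`, otherwise it is `𝓕` itself.
Number: `card_le_family` (SVT.Rank, with `W` = the set of non-isolated vertices) gives
`e + 1 ≤ n + |𝓕|`; if `S₀ = ∅` apply it to `𝓕` minus one member (its sum is implied by the others;
`𝓕` is not empty since there is an edge).
Circuits: among all indexed double covers (`Fin m → Finset (Sym2 V)`, nonempty even subsets of the
edge set, every edge in exactly two, dual property) take one with `m` maximal (`m ≤ 2 e` because the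
sets are nonempty); if some `F i` had a proper nonempty even subset `F'`, replace `F i` by the two
sets `F'` and `F i \ F'` (`m + 1` sets).
-/

set_option autoImplicit false
set_option linter.unusedSectionVars false

namespace Pool.Agent.Lib.SVX

open Finset Pool.Agent.Lib.SVT

variable {V : Type*} [Fintype V] [DecidableEq V] {G : SimpleGraph V}

namespace FAAux

/-- double cover of the edges by nonempty even sets with MacLane's dual property -/
structure Pre (G : SimpleGraph V) {m : ℕ} (F : Fin m → Finset (Sym2 V)) : Prop where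
  sub : ∀ i, ∀ e ∈ F i, e ∈ G.edgeSet
  ev : ∀ i, Ev (F i)
  ne : ∀ i, (F i).Nonempty
  two : ∀ e ∈ G.edgeSet, (univ.filter (fun i => e ∈ F i)).card = 2
  dual : ∀ c : Sym2 V → ZMod 2, (∀ i, ∑ e ∈ F i, c e = 0) →
    ∃ y : V → ZMod 2, ∀ a b, G.Adj a b → c s(a, b) = y a + y b

lemma mem_edg_univ {e : Sym2 V} : e ∈ edg G univ ↔ e ∈ G.edgeSet := by
  rw [mem_edg]
  exact ⟨fun h => h.1, fun h => ⟨h, fun v _ => mem_univ v⟩⟩

lemma Pre.bound {m : ℕ} {F : Fin m → Finset (Sym2 V)} (h : Pre G F) :
    m ≤ 2 * (edg G univ).card := by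
  classical
  have h1 : (∑ i : Fin m, (F i).card) = ∑ e ∈ edg G univ, (univ.filter (fun i => e ∈ F i)).card := by
    have h2 : ∀ i, (F i).card = ∑ e ∈ edg G univ, if e ∈ F i then 1 else 0 := by
      intro i
      rw [← Finset.card_filter]
      congr 1
      ext e
      rw [Finset.mem_filter, mem_edg_univ]
      exact ⟨fun he => ⟨h.sub i e he, he⟩, fun he => he.2⟩
    rw [Finset.sum_congr rfl fun i _ => h2 i, Finset.sum_comm]
    refine Finset.sum_congr rfl fun e _ => ?_
    rw [Finset.card_filter]
  have h3 : (∑ e ∈ edg G univ, (univ.filter (fun i => e ∈ F i)).card) = 2 * (edg G univ).card := by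
    rw [Finset.sum_congr rfl fun e he => h.two e (mem_edg_univ.1 he), Finset.sum_const,
      smul_eq_mul, mul_comm]
  have h4 : m ≤ ∑ i : Fin m, (F i).card := by
    calc m = ∑ i : Fin m, 1 := by simp
      _ ≤ _ := Finset.sum_le_sum fun i _ => Finset.card_pos.2 (h.ne i)
  omega

lemma sum_update {m : ℕ} (F : Fin m → Finset (Sym2 V)) (i : Fin m) (F' : Finset (Sym2 V))
    (f : Finset (Sym2 V) → ℕ) :
    (∑ j, f (Function.update F i F' j)) + f (F i) = (∑ j, f (F j)) + f F' := by
  classical
  rw [← Finset.add_sum_erase univ (fun j => f (Function.update F i F' j)) (mem_univ i),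
    ← Finset.add_sum_erase univ (fun j => f (F j)) (mem_univ i)]
  have : ∑ x ∈ univ.erase i, f (Function.update F i F' x) = ∑ x ∈ univ.erase i, f (F x) := by
    refine Finset.sum_congr rfl fun x hx => ?_
    rw [Function.update_of_ne (Finset.ne_of_mem_erase hx)]
  rw [this]
  simp only [Function.update_self]
  omega

lemma Pre.split {m : ℕ} {F : Fin m → Finset (Sym2 V)} (h : Pre G F) {i : Fin m}
    {F' : Finset (Sym2 V)} (hsub : F' ⊆ F i) (hev : Ev F') (hne : F'.Nonempty) (hneq : F' ≠ F i) :
    ∃ F'' : Fin (m + 1) → Finset (Sym2 V), Pre G F'' := by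
  classical
  refine ⟨Fin.cons (F i \ F') (Function.update F i F'), ?_, ?_, ?_, ?_, ?_⟩
  · intro j
    refine Fin.cases ?_ (fun j => ?_) j
    · rw [Fin.cons_zero]
      exact fun e he => h.sub i e (Finset.mem_sdiff.1 he).1
    · rw [Fin.cons_succ]
      by_cases hj : j = i
      · subst hj
        rw [Function.update_self]
        exact fun e he => h.sub _ e (hsub he)
      · rw [Function.update_of_ne hj]
        exact h.sub j
  · intro j
    refine Fin.cases ?_ (fun j => ?_) j
    · rw [Fin.cons_zero]
      exact (h.ev i).sdiff hev hsub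
    · rw [Fin.cons_succ]
      by_cases hj : j = i
      · subst hj
        rw [Function.update_self]
        exact hev
      · rw [Function.update_of_ne hj]
        exact h.ev j
  · intro j
    refine Fin.cases ?_ (fun j => ?_) j
    · rw [Fin.cons_zero]
      rw [Finset.sdiff_nonempty]
      exact fun hs => hneq (Finset.Subset.antisymm hsub hs)
    · rw [Fin.cons_succ]
      by_cases hj : j = i
      · subst hj
        rw [Function.update_self]
        exact hne
      · rw [Function.update_of_ne hj]
        exact h.ne j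
  · intro e he
    have h2 := h.two e he
    rw [Finset.card_filter] at h2 ⊢
    rw [Fin.sum_univ_succ]
    simp only [Fin.cons_zero, Fin.cons_succ]
    have h3 := sum_update F i F' (fun A => if e ∈ A then 1 else 0)
    rw [h2] at h3
    by_cases h4 : e ∈ F'
    · have h5 := hsub h4
      simp only [Finset.mem_sdiff, h4, h5, not_true_eq_false, and_false, if_true, if_false] at h3 ⊢
      omega
    · by_cases h5 : e ∈ F i
      · simp only [Finset.mem_sdiff, h4, h5, not_false_eq_true, and_true, if_true, if_false] at h3 ⊢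
        omega
      · simp only [Finset.mem_sdiff, h4, h5, not_false_eq_true, and_true, if_false] at h3 ⊢
        omega
  · intro c hc
    refine h.dual c fun j => ?_
    by_cases hj : j = i
    · subst hj
      have h1 := hc 0
      have h2 := hc j.succ
      rw [Fin.cons_zero] at h1
      rw [Fin.cons_succ, Function.update_self] at h2
      rw [← Finset.sum_sdiff hsub, h1, h2, add_zero]
    · have h2 := hc j.succ
      rwa [Fin.cons_succ, Function.update_of_ne hj] at h2

lemma Pre.toFaces (k : ℕ) : ∀ {m : ℕ} {F : Fin m → Finset (Sym2 V)}, Pre G F →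
    2 * (edg G univ).card ≤ m + k → ∃ (m' : ℕ) (F' : Fin m' → Finset (Sym2 V)), m ≤ m' ∧ Faces G F' := by
  classical
  induction k with
  | zero =>
    intro m F h hk
    refine ⟨m, F, le_rfl, h.sub, h.ev, h.ne, ?_, h.two, h.dual⟩
    intro i F' h1 h2 h3
    by_contra h4
    obtain ⟨F'', h5⟩ := h.split h1 h2 h3 h4
    have := h5.bound
    omega
  | succ k ih =>
    intro m F h hk
    by_cases hc : ∀ i, ∀ F', F' ⊆ F i → Ev F' → F'.Nonempty → F' = F i
    · exact ⟨m, F, le_rfl, h.sub, h.ev, h.ne, hc, h.two, h.dual⟩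
    · push Not at hc
      obtain ⟨i, F', h1, h2, h3, h4⟩ := hc
      obtain ⟨F'', h5⟩ := h.split h1 h2 h3 h4
      obtain ⟨m', F3, h6, h7⟩ := ih h5 (by omega)
      exact ⟨m', F3, by omega, h7⟩

lemma covered (h2 : TwoConn G) (hd : ∀ v, (nb G univ v).card ≠ 1)
    {𝓕 : Finset (Finset (Sym2 V))}
    (hdual : ∀ c : Sym2 V → ZMod 2, (∀ F ∈ 𝓕, ∑ e ∈ F, c e = 0) →
      ∃ y : V → ZMod 2, ∀ a b, s(a, b) ∈ edg G univ → c s(a, b) = y a + y b)
    {a b : V} (hab : G.Adj a b) : ∃ F ∈ 𝓕, s(a, b) ∈ F := by
  classical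
  by_contra hno
  push Not at hno
  obtain ⟨y, hy⟩ := hdual (fun e => if e = s(a, b) then 1 else 0) (by
    intro F hF
    rw [Finset.sum_ite_eq' F s(a, b) (fun _ => (1 : ZMod 2)), if_neg (hno F hF)])
  have hy' : ∀ p q, G.Adj p q → (if s(p, q) = s(a, b) then (1 : ZMod 2) else 0) = y p + y q :=
    fun p q hpq => hy p q (mem_edg_univ.2 hpq)
  have heq : ∀ p q, G.Adj p q → s(p, q) ≠ s(a, b) → y p = y q := by
    intro p q hpq hne
    have h1 := hy' p q hpq
    rw [if_neg hne] at h1
    exact (CharTwo.add_eq_zero.1 h1.symm)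
  have hab1 : y a ≠ y b := by
    intro h1
    have h3 := hy' a b hab
    rw [if_pos rfl, h1, CharTwo.add_self_eq_zero] at h3
    exact one_ne_zero h3
  rcases h2 a {x | x ≠ a ∧ y x = y b} (fun h => h.1 rfl) (by
    rintro p q hpq ⟨hpa, hpb⟩
    by_cases hqa : q = a
    · exact Or.inr hqa
    · left
      refine ⟨hqa, ?_⟩
      rw [← hpb]
      refine (heq p q hpq ?_).symm
      intro h3
      rcases Sym2.eq_iff.1 h3 with h4 | h4
      · exact hpa h4.1
      · exact hqa h4.2) with h3 | h3
  · exact h3 b ⟨hab.ne', rfl⟩ a hab.symm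
  · apply hd a
    rw [Finset.card_eq_one]
    refine ⟨b, ?_⟩
    ext x
    rw [mem_nb, Finset.mem_singleton]
    constructor
    · rintro ⟨-, hax⟩
      by_contra hxb
      have h4 : y a = y x := heq a x hax (by
        intro h5
        rcases Sym2.eq_iff.1 h5 with h6 | h6
        · exact hxb h6.2
        · exact hab.ne h6.1)
      exact h3 x (fun h5 => hab1 (h4.trans h5.2)) hax.ne' a hax.symm
    · rintro rfl
      exact ⟨mem_univ _, hab⟩

/-- the sum over the members of a family = sum over the edges with multiplicity -/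
lemma sum_family {S : Finset (Sym2 V)} {𝓕 : Finset (Finset (Sym2 V))} (hF : ∀ F ∈ 𝓕, F ⊆ S)
    (c : Sym2 V → ZMod 2) :
    ∑ F ∈ 𝓕, ∑ e ∈ F, c e = ∑ e ∈ S, ((𝓕.filter (fun F => e ∈ F)).card : ZMod 2) * c e := by
  classical
  have h1 : ∀ F ∈ 𝓕, ∑ e ∈ F, c e = ∑ e ∈ S, if e ∈ F then c e else 0 := by
    intro F hFm
    rw [← Finset.sum_filter]
    congr 1
    ext e
    rw [Finset.mem_filter]
    exact ⟨fun h => ⟨hF F hFm h, h⟩, fun h => h.2⟩
  rw [Finset.sum_congr rfl h1, Finset.sum_comm]
  refine Finset.sum_congr rfl fun e _ => ?_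
  rw [← Finset.sum_filter, Finset.sum_const, nsmul_eq_mul]

end FAAux

open FAAux

theorem exists_faces (hML : ML (edg G univ)) (h2 : TwoConn G)
    (hd : ∀ v, (nb G univ v).card ≠ 1) (hE : ∃ a b, G.Adj a b) :
    ∃ (m : ℕ) (F : Fin m → Finset (Sym2 V)), Faces G F ∧
      (edg G univ).card + 2 ≤ nv G + m := by
  classical
  obtain ⟨𝓕, hF, hcov, hdual⟩ := hML.min_family
  -- every edge is covered once or twice
  have hcov1 : ∀ e ∈ edg G univ, (𝓕.filter (fun F => e ∈ F)).card = 1 ∨
      (𝓕.filter (fun F => e ∈ F)).card = 2 := by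
    intro e he
    have h1 : 1 ≤ (𝓕.filter (fun F => e ∈ F)).card := by
      rw [mem_edg_univ] at he
      induction e using Sym2.ind with
      | _ a b =>
        obtain ⟨F, hFm, heF⟩ := covered h2 hd hdual (a := a) (b := b) he
        exact Finset.card_pos.2 ⟨F, Finset.mem_filter.2 ⟨hFm, heF⟩⟩
    have h3 := hcov e
    omega
  -- the non-isolated vertices
  set W : Finset V := univ.filter (fun v => ∃ u, G.Adj v u) with hWdef
  have hnv : nv G = W.card := by
    unfold nv
    rw [hWdef]
  have hWne : W.Nonempty := by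
    obtain ⟨a, b, hab⟩ := hE
    exact ⟨a, Finset.mem_filter.2 ⟨mem_univ a, b, hab⟩⟩
  have hS : ∀ a b, s(a, b) ∈ edg G univ → a ≠ b ∧ a ∈ W ∧ b ∈ W := by
    intro a b h
    have h1 : G.Adj a b := mem_edg_univ.1 h
    exact ⟨h1.ne, Finset.mem_filter.2 ⟨mem_univ a, b, h1⟩,
      Finset.mem_filter.2 ⟨mem_univ b, a, h1.symm⟩⟩
  -- enumeration of the members
  let en : Fin 𝓕.card ≃ {F // F ∈ 𝓕} := 𝓕.equivFin.symm
  have hen : ∀ p : Finset (Sym2 V) → Prop, ∀ [DecidablePred p],
      (univ.filter (fun i : Fin 𝓕.card => p (en i).1)).card = (𝓕.filter p).card := by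
    intro p _
    rw [Finset.card_filter, Finset.card_filter]
    rw [Equiv.sum_comp en (fun F => if p F.1 then 1 else 0)]
    exact Finset.sum_coe_sort 𝓕 (fun F => if p F then 1 else 0)
  set S₀ : Finset (Sym2 V) :=
    (edg G univ).filter (fun e => (𝓕.filter (fun F => e ∈ F)).card = 1) with hS₀
  have hfam := fun c => sum_family (S := edg G univ) (𝓕 := 𝓕) (fun F h => (hF F h).1) c
  have hS₀sum : ∀ c : Sym2 V → ZMod 2, ∑ e ∈ S₀, c e = ∑ F ∈ 𝓕, ∑ e ∈ F, c e := by
    intro c
    rw [hfam c, hS₀, Finset.sum_filter]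
    refine Finset.sum_congr rfl fun e he => ?_
    rcases hcov1 e he with h | h
    · rw [h, if_pos rfl, Nat.cast_one, one_mul]
    · rw [h, if_neg (by norm_num)]
      have : ((2 : ℕ) : ZMod 2) = 0 := by decide
      rw [this, zero_mul]
  have hS₀ev : Ev S₀ := by
    rw [ev_iff]
    intro v
    rw [hS₀sum]
    exact Finset.sum_eq_zero fun F hFm => ev_iff.1 (hF F hFm).2.1 v
  by_cases hne : S₀.Nonempty
  · have hrank := card_le_family hWne hS (𝓕 := 𝓕) (fun F h => (hF F h).1) hdual
    have hpre : Pre G (Fin.cons S₀ (fun i => (en i).1) : Fin (𝓕.card + 1) → Finset (Sym2 V)) := by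
      refine ⟨?_, ?_, ?_, ?_, ?_⟩
      · intro j
        refine Fin.cases ?_ (fun j => ?_) j
        · rw [Fin.cons_zero]
          exact fun e he => mem_edg_univ.1 (Finset.mem_filter.1 he).1
        · rw [Fin.cons_succ]
          exact fun e he => mem_edg_univ.1 ((hF _ (en j).2).1 he)
      · intro j
        refine Fin.cases ?_ (fun j => ?_) j
        · rw [Fin.cons_zero]
          exact hS₀ev
        · rw [Fin.cons_succ]
          exact (hF _ (en j).2).2.1
      · intro j
        refine Fin.cases ?_ (fun j => ?_) j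
        · rw [Fin.cons_zero]
          exact hne
        · rw [Fin.cons_succ]
          exact (hF _ (en j).2).2.2.1
      · intro e he
        rw [Finset.card_filter, Fin.sum_univ_succ]
        simp only [Fin.cons_zero, Fin.cons_succ]
        rw [← Finset.card_filter, hen (fun F => e ∈ F)]
        have he' : e ∈ edg G univ := mem_edg_univ.2 he
        rcases hcov1 e he' with h | h
        · rw [h, if_pos (Finset.mem_filter.2 ⟨he', h⟩)]
        · rw [h, if_neg (fun h3 => by
            have := (Finset.mem_filter.1 h3).2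
            omega)]
      · intro c hc
        obtain ⟨y, hy⟩ := hdual c (by
          intro F hFm
          have h3 := hc (en.symm ⟨F, hFm⟩).succ
          rw [Fin.cons_succ, Equiv.apply_symm_apply] at h3
          exact h3)
        exact ⟨y, fun a b hab => hy a b (mem_edg_univ.2 hab)⟩
    obtain ⟨m', F', h5, h6⟩ := hpre.toFaces (2 * (edg G univ).card) (by omega)
    exact ⟨m', F', h6, by omega⟩
  · have h𝓕ne : 𝓕.Nonempty := by
      obtain ⟨a, b, hab⟩ := hE
      obtain ⟨F, hFm, -⟩ := covered h2 hd hdual hab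
      exact ⟨F, hFm⟩
    obtain ⟨F₀, hF₀⟩ := h𝓕ne
    have hall : ∀ c : Sym2 V → ZMod 2, ∑ F ∈ 𝓕, ∑ e ∈ F, c e = 0 := by
      intro c
      rw [← hS₀sum, Finset.not_nonempty_iff_eq_empty.1 hne, Finset.sum_empty]
    have hrank := card_le_family hWne hS (𝓕 := 𝓕.erase F₀)
      (fun F h => (hF F (Finset.mem_of_mem_erase h)).1) (by
        intro c hc
        refine hdual c fun F hFm => ?_
        by_cases h : F = F₀
        · subst h
          have h3 := hall c
          rw [← Finset.add_sum_erase 𝓕 _ hFm, Finset.sum_eq_zero hc, add_zero] at h3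
          exact h3
        · exact hc F (Finset.mem_erase.2 ⟨h, hFm⟩))
    rw [Finset.card_erase_of_mem hF₀] at hrank
    have hpos : 1 ≤ 𝓕.card := Finset.card_pos.2 ⟨F₀, hF₀⟩
    have hpre : Pre G (fun i => (en i).1 : Fin 𝓕.card → Finset (Sym2 V)) := by
      refine ⟨?_, ?_, ?_, ?_, ?_⟩
      · exact fun j e he => mem_edg_univ.1 ((hF _ (en j).2).1 he)
      · exact fun j => (hF _ (en j).2).2.1
      · exact fun j => (hF _ (en j).2).2.2.1
      · intro e he
        rw [hen (fun F => e ∈ F)]
        have he' : e ∈ edg G univ := mem_edg_univ.2 he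
        rcases hcov1 e he' with h | h
        · exact absurd ⟨e, Finset.mem_filter.2 ⟨he', h⟩⟩ hne
        · exact h
      · intro c hc
        obtain ⟨y, hy⟩ := hdual c (by
          intro F hFm
          have h3 := hc (en.symm ⟨F, hFm⟩)
          simp only [Equiv.apply_symm_apply] at h3
          exact h3)
        exact ⟨y, fun a b hab => hy a b (mem_edg_univ.2 hab)⟩
    obtain ⟨m', F', h5, h6⟩ := hpre.toFaces (2 * (edg G univ).card) (by omega)
    exact ⟨m', F', h6, by omega⟩

end Pool.Agent.Lib.SVX
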