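import Pool.Agent.Lib.SVX.Adm

/-!
# SVX.Gad: edge gadgets (helper4)

`f0, f1, ...` are the ring vertices, `l i` is the third vertex of the triangle on the edge
`f i, f (i+1)`, `v i` the vertex of degree 3 over a `V`-edge (a P3 triangle) and `o i` its third
neighbour, `n i`, `r i`, `p i`, `q i` further neighbours of `f i`. `sm` terminals have a list of 3 colours.
Patterns (ring kinds, ring edges; digit 3 in the last word: small leaf).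
-/

set_option autoImplicit false
set_option maxRecDepth 100000

namespace Pool.Agent.Lib.SVX.Gad

/-- A1 F33FFF TWTTTT 222223 ; names: 0=f0 1=f1 2=f2 3=f3 4=f4 5=f5 6=l0 7=l2 8=l3 9=l4 10=l5  -/
def gA1 : Cfg where
  nc := 6
  nt := 5
  E := [(0, 1), (0, 6), (0, 5), (0, 10), (1, 6), (1, 2), (2, 3), (2, 7), (3, 7), (3, 4), (3, 8), (4, 8), (4, 5), (4, 9), (5, 9), (5, 10)]
  Bs := []
  outs := fun i => if i == 10 then 2 else 0
  sm := fun i => i == 10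
  keep := [0, 5]
  pi := fun i => if i = 3 then 7 else if i = 4 then 7 else i
  NE := [(6, 0), (7, 9), (7, 5), (9, 5), (10, 0), (10, 5), (0, 5)]
  al := [(6, 7, 1), (6, 7, 2), (6, 8, 1), (6, 8, 2), (6, 8, 3), (6, 9, 1), (6, 9, 2), (6, 9, 3), (6, 9, 4), (6, 10, 1), (6, 10, 2), (6, 10, 3), (7, 8, 1), (7, 8, 2), (7, 8, 3), (7, 9, 1), (7, 9, 2), (7, 9, 3), (7, 9, 4), (7, 10, 1), (7, 10, 2), (7, 10, 3), (8, 9, 1), (8, 9, 2), (8, 9, 3), (8, 10, 1), (8, 10, 2), (8, 10, 3), (8, 10, 4), (9, 10, 1), (9, 10, 2), (9, 10, 3)]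

def gA1P (i : ℕ) : ℕ := if i = 3 then 7 else if i = 4 then 3 else i

theorem gA1_adm : gA1.adm gA1P = true := by decide

/-- A2 F33FFF TWTTTT 323222 ; names: 0=f0 1=f1 2=f2 3=f3 4=f4 5=f5 6=l0 7=l2 8=l3 9=l4 10=l5  -/
def gA2 : Cfg where
  nc := 6
  nt := 5
  E := [(0, 1), (0, 6), (0, 5), (0, 10), (1, 6), (1, 2), (2, 3), (2, 7), (3, 7), (3, 4), (3, 8), (4, 8), (4, 5), (4, 9), (5, 9), (5, 10)]
  Bs := []
  outs := fun i => if i == 6 || i == 7 then 2 else 0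
  sm := fun i => i == 6 || i == 7
  keep := [0]
  pi := fun i => if i = 4 then 8 else if i = 5 then 8 else i
  NE := [(6, 0), (8, 10), (8, 0), (10, 0)]
  al := [(6, 7, 1), (6, 7, 2), (6, 8, 1), (6, 8, 2), (6, 8, 3), (6, 9, 1), (6, 9, 2), (6, 9, 3), (6, 9, 4), (6, 10, 1), (6, 10, 2), (6, 10, 3), (7, 8, 1), (7, 8, 2), (7, 8, 3), (7, 9, 1), (7, 9, 2), (7, 9, 3), (7, 9, 4), (7, 10, 1), (7, 10, 2), (7, 10, 3), (8, 9, 1), (8, 9, 2), (8, 9, 3), (8, 10, 1), (8, 10, 2), (8, 10, 3), (8, 10, 4), (9, 10, 1), (9, 10, 2), (9, 10, 3)]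

def gA2P (i : ℕ) : ℕ := if i = 4 then 8 else if i = 5 then 4 else i

theorem gA2_adm : gA2.adm gA2P = true := by decide

/-- F1l1 FFFFFF TTTTTQ 232222 ; names: 0=f0 1=f1 2=f2 3=f3 4=f4 5=f5 6=v5 7=l0 8=l1 9=l2 10=l3 11=l4 12=o5  -/
def gF1l1 : Cfg where
  nc := 7
  nt := 6
  E := [(0, 1), (0, 7), (0, 5), (0, 6), (1, 7), (1, 2), (1, 8), (2, 8), (2, 3), (2, 9), (3, 9), (3, 4), (3, 10), (4, 10), (4, 5), (4, 11), (5, 11), (5, 6), (6, 12)]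
  Bs := []
  outs := fun i => if i == 8 || i == 12 then 2 else 0
  sm := fun i => i == 8 || i == 12
  keep := []
  pi := fun i => if i = 0 then 7 else if i = 1 then 7 else if i = 2 then 9 else if i = 3 then 11 else if i = 4 then 11 else if i = 5 then 11 else if i = 6 then 7 else i
  NE := [(7, 9), (7, 11), (9, 11)]
  al := [(7, 8, 1), (7, 8, 2), (7, 8, 3), (7, 9, 1), (7, 9, 2), (7, 9, 3), (7, 9, 4), (7, 10, 1), (7, 10, 2), (7, 10, 3), (7, 11, 1), (7, 11, 2), (7, 11, 3), (7, 11, 4), (7, 12, 1), (7, 12, 2), (8, 9, 1), (8, 9, 2), (8, 9, 3), (8, 10, 1), (8, 10, 2), (8, 10, 3), (8, 10, 4), (8, 11, 1), (8, 11, 2), (8, 11, 3), (8, 12, 1), (8, 12, 2), (8, 12, 3), (9, 10, 1), (9, 10, 2), (9, 10, 3), (9, 11, 1), (9, 11, 2), (9, 11, 3), (9, 11, 4), (9, 12, 1), (9, 12, 2), (10, 11, 1), (10, 11, 2), (10, 11, 3), (10, 12, 1), (10, 12, 2), (10, 12, 3), (11, 12, 1),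 (11, 12, 2)]

def gF1l1P (i : ℕ) : ℕ := if i = 0 then 7 else if i = 1 then 7 else if i = 2 then 9 else if i = 3 then 4 else if i = 4 then 11 else if i = 5 then 11 else if i = 6 then 0 else i

theorem gF1l1_adm : gF1l1.adm gF1l1P = true := by decide

/-- F1l2 FFFFFF TTTTTQ 223222 ; names: 0=f0 1=f1 2=f2 3=f3 4=f4 5=f5 6=v5 7=l0 8=l1 9=l2 10=l3 11=l4 12=o5  -/
def gF1l2 : Cfg where
  nc := 7
  nt := 6
  E := [(0, 1), (0, 7), (0, 5), (0, 6), (1, 7), (1, 2), (1, 8), (2, 8), (2, 3), (2, 9), (3, 9), (3, 4), (3, 10), (4, 10), (4, 5), (4, 11), (5, 11), (5, 6), (6, 12)]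
  Bs := []
  outs := fun i => if i == 9 || i == 12 then 2 else 0
  sm := fun i => i == 9 || i == 12
  keep := [1]
  pi := fun i => if i = 0 then 11 else if i = 2 then 10 else if i = 3 then 10 else if i = 4 then 10 else if i = 5 then 11 else i
  NE := [(7, 11), (7, 1), (8, 10), (8, 1), (10, 1), (11, 1)]
  al := [(7, 8, 1), (7, 8, 2), (7, 8, 3), (7, 9, 1), (7, 9, 2), (7, 9, 3), (7, 9, 4), (7, 10, 1), (7, 10, 2), (7, 10, 3), (7, 11, 1), (7, 11, 2), (7, 11, 3), (7, 11, 4), (7, 12, 1), (7, 12, 2), (8, 9, 1), (8, 9, 2), (8, 9, 3), (8, 10, 1), (8, 10, 2), (8, 10, 3), (8, 10, 4), (8, 11, 1), (8, 11, 2), (8, 11, 3), (8, 12, 1), (8, 12, 2), (8, 12, 3), (9, 10, 1), (9, 10, 2), (9, 10, 3), (9, 11, 1), (9, 11, 2), (9, 11, 3), (9, 11, 4), (9, 12, 1), (9, 12, 2), (10, 11, 1), (10, 11, 2), (10, 11, 3), (10, 12, 1), (10, 12, 2), (10, 12, 3), (11, 12, 1), (11, 12, 2)]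

def gF1l2P (i : ℕ) : ℕ := if i = 0 then 5 else if i = 2 then 3 else if i = 3 then 10 else if i = 4 then 10 else if i = 5 then 11 else i

theorem gF1l2_adm : gF1l2.adm gF1l2P = true := by decide

/-- f1 3FFFFA TTTTTW 322232 ; names: 0=f0 1=f1 2=f2 3=f3 4=f4 5=f5 6=l0 7=l1 8=l2 9=l3 10=l4 11=n5  -/
def gf1 : Cfg where
  nc := 6
  nt := 6
  E := [(0, 1), (0, 6), (0, 5), (1, 6), (1, 2), (1, 7), (2, 7), (2, 3), (2, 8), (3, 8), (3, 4), (3, 9), (4, 9), (4, 5), (4, 10), (5, 10), (5, 11)]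
  Bs := []
  outs := fun i => if i == 6 || i == 10 || i == 11 then 2 else 0
  sm := fun i => i == 6 || i == 10 || i == 11
  keep := [4]
  pi := fun i => if i = 0 then 6 else if i = 2 then 7 else if i = 3 then 7 else if i = 5 then 4 else i
  NE := [(6, 4), (7, 9), (7, 4), (9, 4), (10, 4)]
  al := [(6, 7, 1), (6, 7, 2), (6, 7, 3), (6, 8, 1), (6, 8, 2), (6, 8, 3), (6, 8, 4), (6, 9, 1), (6, 9, 2), (6, 9, 3), (6, 10, 1), (6, 10, 2), (6, 10, 3), (6, 10, 4), (6, 11, 1), (6, 11, 2), (7, 8, 1), (7, 8, 2), (7, 8, 3), (7, 9, 1), (7, 9, 2), (7, 9, 3), (7, 9, 4), (7, 10, 1), (7, 10, 2), (7, 10, 3), (7, 11, 1), (7, 11, 2), (7, 11, 3), (8, 9, 1), (8, 9, 2), (8, 9, 3), (8, 10, 1), (8, 10, 2), (8, 10, 3), (8, 10, 4), (8, 11, 1), (8, 11, 2), (8, 11, 3), (9, 10, 1), (9, 10, 2), (9, 10, 3), (9, 11, 1), (9, 11, 2), (9, 11, 3), (9, 11, 4), (10, 11, 1), (10, 11, 2), (10,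 11, 3)]

def gf1P (i : ℕ) : ℕ := if i = 0 then 6 else if i = 2 then 7 else if i = 3 then 2 else if i = 5 then 4 else i

theorem gf1_adm : gf1.adm gf1P = true := by decide

/-- F2a 3FFFFB TTTQTW 222222 ; names: 0=f0 1=f1 2=f2 3=f3 4=f4 5=f5 6=v3 7=l0 8=l1 9=l2 10=o3 11=l4 12=r5  -/
def gF2a : Cfg where
  nc := 7
  nt := 6
  E := [(0, 1), (0, 7), (0, 5), (1, 7), (1, 2), (1, 8), (2, 8), (2, 3), (2, 9), (3, 9), (3, 4), (3, 6), (4, 6), (4, 5), (4, 11), (5, 11), (5, 12), (6, 10)]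
  Bs := []
  outs := fun i => if i == 10 then 2 else 0
  sm := fun i => i == 10
  keep := []
  pi := fun i => if i = 0 then 7 else if i = 1 then 7 else if i = 2 then 7 else if i = 3 then 9 else if i = 4 then 9 else if i = 5 then 9 else i
  NE := [(7, 9)]
  al := [(7, 8, 1), (7, 8, 2), (7, 8, 3), (7, 9, 1), (7, 9, 2), (7, 9, 3), (7, 9, 4), (7, 10, 1), (7, 10, 2), (7, 11, 1), (7, 11, 2), (7, 11, 3), (7, 11, 4), (7, 12, 1), (7, 12, 2), (8, 9, 1), (8, 9, 2), (8, 9, 3), (8, 10, 1), (8, 10, 2), (8, 10, 3), (8, 11, 1), (8, 11, 2), (8, 11, 3), (8, 12, 1), (8, 12, 2), (8, 12, 3), (9, 10, 1), (9, 10, 2), (9, 11, 1), (9, 11, 2), (9, 11, 3), (9, 11, 4), (9, 12, 1), (9, 12, 2), (9, 12, 3), (10, 11, 1), (10, 11, 2), (10, 12, 1), (10, 12, 2), (10, 12, 3), (11, 12, 1), (11, 12, 2), (11, 12, 3)]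

def gF2aP (i : ℕ) : ℕ := if i = 0 then 7 else if i = 1 then 7 else if i = 2 then 1 else if i = 3 then 9 else if i = 4 then 3 else if i = 5 then 4 else i

theorem gF2a_adm : gF2a.adm gF2aP = true := by decide

/-- F2b 3FFFFB TTQTTW 222222 ; names: 0=f0 1=f1 2=f2 3=f3 4=f4 5=f5 6=v2 7=l0 8=l1 9=o2 10=l3 11=l4 12=r5  -/
def gF2b : Cfg where
  nc := 7
  nt := 6
  E := [(0, 1), (0, 7), (0, 5), (1, 7), (1, 2), (1, 8), (2, 8), (2, 3), (2, 6), (3, 6), (3, 4), (3, 10), (4, 10), (4, 5), (4, 11), (5, 11), (5, 12), (6, 9)]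
  Bs := []
  outs := fun i => if i == 9 then 2 else 0
  sm := fun i => i == 9
  keep := []
  pi := fun i => if i = 3 then 12 else if i = 4 then 12 else if i = 5 then 12 else i
  NE := [(10, 12)]
  al := [(7, 8, 1), (7, 8, 2), (7, 8, 3), (7, 9, 1), (7, 9, 2), (7, 9, 3), (7, 10, 1), (7, 10, 2), (7, 10, 3), (7, 11, 1), (7, 11, 2), (7, 11, 3), (7, 11, 4), (7, 12, 1), (7, 12, 2), (8, 9, 1), (8, 9, 2), (8, 10, 1), (8, 10, 2), (8, 10, 3), (8, 10, 4), (8, 11, 1), (8, 11, 2), (8, 11, 3), (8, 12, 1), (8, 12, 2), (8, 12, 3), (9, 10, 1), (9, 10, 2), (9, 11, 1), (9, 11, 2), (9, 11, 3), (9, 12, 1), (9, 12, 2), (10, 11, 1), (10, 11, 2), (10, 11, 3), (10, 12, 1), (10, 12, 2), (10, 12, 3), (10, 12, 4), (11, 12, 1), (11, 12, 2), (11, 12, 3)]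

def gF2bP (i : ℕ) : ℕ := if i = 3 then 4 else if i = 4 then 5 else if i = 5 then 12 else i

theorem gF2b_adm : gF2b.adm gF2bP = true := by decide

/-- F2c 3BFFFB WTTQTW 222222 ; names: 0=f0 1=f1 2=f2 3=f3 4=f4 5=f5 6=v3 7=r1 8=l1 9=l2 10=o3 11=l4 12=r5  -/
def gF2c : Cfg where
  nc := 7
  nt := 6
  E := [(0, 1), (0, 5), (1, 7), (1, 2), (1, 8), (2, 8), (2, 3), (2, 9), (3, 9), (3, 4), (3, 6), (4, 6), (4, 5), (4, 11), (5, 11), (5, 12), (6, 10)]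
  Bs := []
  outs := fun i => if i == 10 then 2 else 0
  sm := fun i => i == 10
  keep := []
  pi := fun i => if i = 1 then 9 else if i = 2 then 9 else i
  NE := [(7, 9)]
  al := [(7, 8, 1), (7, 8, 2), (7, 8, 3), (7, 9, 1), (7, 9, 2), (7, 9, 3), (7, 9, 4), (7, 10, 1), (7, 10, 2), (7, 11, 1), (7, 11, 2), (7, 11, 3), (7, 12, 1), (8, 9, 1), (8, 9, 2), (8, 9, 3), (8, 10, 1), (8, 10, 2), (8, 10, 3), (8, 11, 1), (8, 11, 2), (8, 11, 3), (8, 12, 1), (8, 12, 2), (8, 12, 3), (9, 10, 1), (9, 10, 2), (9, 11, 1), (9, 11, 2), (9, 11, 3), (9, 11, 4), (9, 12, 1), (9, 12, 2), (9, 12, 3), (10, 11, 1), (10, 11, 2), (10, 12, 1), (10, 12, 2), (10, 12, 3), (11, 12, 1), (11, 12, 2), (11, 12, 3)]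

def gF2cP (i : ℕ) : ℕ := if i = 1 then 2 else if i = 2 then 9 else i

theorem gF2c_adm : gF2c.adm gF2cP = true := by decide

/-- F3 FFFFAA TQTTWT 222222 ; names: 0=f0 1=f1 2=f2 3=f3 4=f4 5=f5 6=v1 7=l0 8=o1 9=l2 10=l3 11=n4 12=n5 13=l5  -/
def gF3 : Cfg where
  nc := 7
  nt := 7
  E := [(0, 1), (0, 7), (0, 5), (0, 13), (1, 7), (1, 2), (1, 6), (2, 6), (2, 3), (2, 9), (3, 9), (3, 4), (3, 10), (4, 10), (4, 11), (4, 5), (5, 12), (5, 13), (6, 8)]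
  Bs := []
  outs := fun i => if i == 8 || i == 11 || i == 12 then 2 else 0
  sm := fun i => i == 8 || i == 11 || i == 12
  keep := []
  pi := fun i => if i = 0 then 12 else if i = 5 then 12 else i
  NE := [(7, 12)]
  al := [(7, 8, 1), (7, 8, 2), (7, 9, 1), (7, 9, 2), (7, 9, 3), (7, 9, 4), (7, 10, 1), (7, 10, 2), (7, 10, 3), (7, 11, 1), (7, 11, 2), (7, 11, 3), (7, 12, 1), (7, 12, 2), (7, 12, 3), (7, 12, 4), (7, 13, 1), (7, 13, 2), (7, 13, 3), (8, 9, 1), (8, 9, 2), (8, 10, 1), (8, 10, 2), (8, 10, 3), (8, 11, 1), (8, 11, 2), (8, 12, 1), (8, 12, 2), (8, 13, 1), (8, 13, 2), (8, 13, 3), (9, 10, 1), (9, 10, 2), (9, 10, 3), (9, 11, 1), (9, 11, 2), (9, 11, 3), (9, 11, 4), (9, 12, 1), (9, 12, 2), (9, 12, 3), (9, 13, 1), (9, 13, 2), (9, 13, 3), (10, 11, 1), (10, 11, 2), (10, 11, 3), (10, 12, 1), (10, 12, 2), (10, 12, 3), (10, 12, 4), (10, 13, 1), (10, 13, 2),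 (10, 13, 3), (10, 13, 4), (11, 12, 1), (11, 12, 2), (11, 13, 1), (11, 13, 2), (11, 13, 3), (11, 13, 4), (12, 13, 1), (12, 13, 2), (12, 13, 3)]

def gF3P (i : ℕ) : ℕ := if i = 0 then 5 else if i = 5 then 12 else i

theorem gF3_adm : gF3.adm gF3P = true := by decide

/-- F0 3FFF3E TTTTWW 322322 ; names: 0=f0 1=f1 2=f2 3=f3 4=f4 5=f5 6=l0 7=l1 8=l2 9=l3 10=p5 11=q5  -/
def gF0 : Cfg where
  nc := 6
  nt := 6
  E := [(0, 1), (0, 6), (0, 5), (1, 6), (1, 2), (1, 7), (2, 7), (2, 3), (2, 8), (3, 8), (3, 4), (3, 9), (4, 9), (4, 5), (5, 10), (5, 11)]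
  Bs := [(10, 11)]
  outs := fun i => if i == 6 || i == 9 then 2 else 0
  sm := fun i => i == 6 || i == 9
  keep := [1]
  pi := fun i => if i = 0 then 6 else if i = 2 then 9 else if i = 3 then 9 else i
  NE := [(6, 1), (7, 9), (7, 1), (9, 1)]
  al := [(6, 7, 1), (6, 7, 2), (6, 7, 3), (6, 8, 1), (6, 8, 2), (6, 8, 3), (6, 8, 4), (6, 9, 1), (6, 9, 2), (6, 9, 3), (6, 10, 1), (6, 10, 2), (6, 10, 3), (6, 11, 1), (6, 11, 2), (7, 8, 1), (7, 8, 2), (7, 8, 3), (7, 9, 1), (7, 9, 2), (7, 9, 3), (7, 9, 4), (7, 10, 1), (7, 10, 2), (7, 10, 3), (7, 11, 1), (7, 11, 2), (7, 11, 3), (8, 9, 1), (8, 9, 2), (8, 9, 3), (8, 10, 1), (8, 10, 2), (8, 10, 3), (8, 11, 1), (8, 11, 2), (8, 11, 3), (9, 10, 1), (9, 10, 2), (9, 11, 1), (9, 11, 2), (9, 11, 3), (10, 11, 2), (10, 11, 3), (10, 11, 4)]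

def gF0P (i : ℕ) : ℕ := if i = 0 then 6 else if i = 2 then 3 else if i = 3 then 9 else i

theorem gF0_adm : gF0.adm gF0P = true := by decide

/-- 3FNXFp STWVSW, pure deletion: names 0=f0 1=f1 2=f4 3=f5 4=v3 5=l0 6=l1 7=f2 8=n2 9=f3 10=o3 11=l4 12=n5
(the ring vertex `f2` is kept as a small terminal without further neighbours) -/
def gPX4D : Cfg where
  nc := 5
  nt := 8
  E := [(0, 1), (0, 5), (0, 3), (1, 5), (1, 7), (1, 6), (2, 9), (2, 4), (2, 3), (2, 11), (3, 11), (3, 12), (4, 9), (4, 10)]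
  Bs := [(6, 7), (7, 8), (7, 9)]
  outs := fun i => if i == 5 || i == 8 || i == 10 || i == 11 || i == 12 then 2 else 0
  sm := fun i => i == 5 || i == 7 || i == 8 || i == 10 || i == 11 || i == 12
  keep := []
  pi := fun i => i
  NE := []
  al := []

def gPX4DP (i : ℕ) : ℕ := i

theorem gPX4D_adm : gPX4D.adm gPX4DP = true := by decide

/-- VTV ; names: 0=v 1=x 2=y 3=y2 4=v' 5=x2 6=wp 7=z 8=w 9=z' 10=c  -/
def gVTV : Cfg where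
  nc := 5
  nt := 6
  E := [(0, 1), (0, 2), (0, 7), (1, 2), (1, 5), (1, 6), (2, 8), (2, 3), (3, 8), (3, 10), (3, 4), (4, 10), (4, 9)]
  Bs := [(5, 6)]
  outs := fun i => if i == 7 || i == 9 then 2 else 0
  sm := fun i => i == 7 || i == 9
  keep := []
  pi := fun i => if i = 0 then 8 else if i = 1 then 8 else if i = 2 then 8 else i
  NE := [(5, 8), (6, 8)]
  al := [(5, 6, 2), (5, 6, 3), (5, 6, 4), (5, 7, 1), (5, 7, 2), (5, 7, 3), (5, 8, 1), (5, 8, 2), (5, 8, 3), (5, 8, 4), (5, 9, 1), (5, 9, 2), (5, 10, 1), (6, 7, 1), (6, 7, 2), (6, 8, 1), (6, 8, 2), (6, 8, 3), (6, 8, 4), (6, 9, 1), (6, 9, 2), (6, 10, 1), (6, 10, 2), (7, 8, 1), (7, 8, 2), (7, 9, 1), (7, 9, 2), (7, 10, 1), (7, 10, 2), (7, 10, 3), (8, 9, 1), (8, 9, 2), (8, 10, 1), (8, 10, 2), (8, 10, 3), (8, 10, 4), (9, 10, 1), (9, 10, 2), (9, 10, 3)]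

def gVTVP (i : ℕ) : ℕ := if i = 0 then 2 else if i = 1 then 2 else if i = 2 then 8 else i

theorem gVTV_adm : gVTV.adm gVTVP = true := by decide

/-- N1F ; names: 0=v 1=w 2=y 3=y2 4=x 5=z 6=u 7=l 8=n 9=c  -/
def gN1F : Cfg where
  nc := 4
  nt := 6
  E := [(0, 5), (0, 4), (0, 2), (1, 6), (1, 7), (1, 2), (1, 3), (2, 4), (2, 3), (3, 8), (3, 9)]
  Bs := [(6, 7)]
  outs := fun i => if i == 4 || i == 5 || i == 8 then 2 else 0
  sm := fun i => i == 4 || i == 5 || i == 8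
  keep := []
  pi := fun i => if i = 1 then 9 else if i = 3 then 9 else i
  NE := [(6, 9), (7, 9)]
  al := [(4, 5, 1), (4, 5, 2), (4, 5, 3), (4, 6, 1), (4, 6, 2), (4, 6, 3), (4, 6, 4), (4, 7, 1), (4, 7, 2), (4, 7, 3), (4, 7, 4), (4, 8, 1), (4, 8, 2), (4, 8, 3), (4, 8, 4), (4, 9, 1), (4, 9, 2), (5, 6, 1), (5, 7, 1), (5, 7, 2), (5, 8, 1), (5, 8, 2), (5, 8, 3), (5, 9, 1), (5, 9, 2), (5, 9, 3), (6, 7, 2), (6, 7, 3), (6, 7, 4), (6, 8, 1), (6, 8, 2), (6, 8, 3), (6, 9, 1), (6, 9, 2), (6, 9, 3), (6, 9, 4), (7, 8, 1), (7, 8, 2), (7, 9, 1), (7, 9, 2), (7, 9, 3), (7, 9, 4), (8, 9, 1), (8, 9, 2), (8, 9, 3)]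

def gN1FP (i : ℕ) : ℕ := if i = 1 then 3 else if i = 3 then 9 else i

theorem gN1F_adm : gN1F.adm gN1FP = true := by decide

/-- N1B ; names: 0=v 1=w 2=y 3=y2 4=x 5=z 6=u 7=l 8=n 9=c  -/
def gN1B : Cfg where
  nc := 4
  nt := 6
  E := [(0, 5), (0, 4), (0, 2), (1, 6), (1, 7), (1, 2), (1, 3), (2, 4), (2, 3), (3, 8), (3, 9)]
  Bs := []
  outs := fun i => if i == 4 || i == 5 || i == 8 then 2 else 0
  sm := fun i => i == 4 || i == 5 || i == 8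
  keep := []
  pi := fun i => if i = 1 then 9 else if i = 3 then 9 else i
  NE := [(6, 9), (7, 9)]
  al := [(4, 5, 1), (4, 5, 2), (4, 5, 3), (4, 6, 1), (4, 6, 2), (4, 6, 3), (4, 6, 4), (4, 7, 1), (4, 7, 2), (4, 7, 3), (4, 7, 4), (4, 8, 1), (4, 8, 2), (4, 8, 3), (4, 8, 4), (4, 9, 1), (4, 9, 2), (5, 6, 1), (5, 7, 1), (5, 7, 2), (5, 8, 1), (5, 8, 2), (5, 8, 3), (5, 9, 1), (5, 9, 2), (5, 9, 3), (6, 7, 1), (6, 7, 2), (6, 7, 3), (6, 8, 1), (6, 8, 2), (6, 8, 3), (6, 9, 1), (6, 9, 2), (6, 9, 3), (6, 9, 4), (7, 8, 1), (7, 8, 2), (7, 9, 1), (7, 9, 2), (7, 9, 3), (7, 9, 4), (8, 9, 1), (8, 9, 2), (8, 9, 3)]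

def gN1BP (i : ℕ) : ℕ := if i = 1 then 3 else if i = 3 then 9 else i

theorem gN1B_adm : gN1B.adm gN1BP = true := by decide

/-- N1Ya ; names: 0=v 1=w 2=y 3=y2 4=x 5=z 6=a 7=b 8=m 9=n 10=c  -/
def gN1Ya : Cfg where
  nc := 4
  nt := 7
  E := [(0, 5), (0, 4), (0, 2), (1, 6), (1, 7), (1, 8), (1, 2), (1, 3), (2, 4), (2, 3), (3, 9), (3, 10)]
  Bs := [(6, 7)]
  outs := fun i => if i == 4 || i == 5 || i == 8 || i == 9 then 2 else 0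
  sm := fun i => i == 4 || i == 5 || i == 8 || i == 9
  keep := []
  pi := fun i => if i = 1 then 10 else if i = 2 then 10 else if i = 3 then 10 else i
  NE := [(6, 10), (7, 10), (8, 10)]
  al := [(4, 5, 1), (4, 5, 2), (4, 5, 3), (4, 6, 1), (4, 6, 2), (4, 6, 3), (4, 6, 4), (4, 7, 1), (4, 7, 2), (4, 7, 3), (4, 7, 4), (4, 8, 1), (4, 8, 2), (4, 8, 3), (4, 8, 4), (4, 9, 1), (4, 9, 2), (4, 9, 3), (4, 9, 4), (4, 10, 1), (4, 10, 2), (5, 6, 1), (5, 7, 1), (5, 7, 2), (5, 8, 1), (5, 8, 2), (5, 8, 3), (5, 9, 1), (5, 9, 2), (5, 9, 3), (5, 10, 1), (5, 10, 2), (5, 10, 3), (6, 7, 2), (6, 7, 3), (6, 7, 4), (6, 8, 1), (6, 8, 2), (6, 8, 3), (6, 8, 4), (6, 9, 1), (6, 9, 2), (6, 9, 3), (6, 9, 4), (6, 10, 1), (6, 10, 2), (6, 10, 3), (6, 10, 4), (7, 8, 1), (7, 8, 2), (7, 8, 3), (7, 9, 1), (7, 9, 2), (7, 9, 3), (7, 9, 4), (7, 10, 1), (7, 10, 2), (7, 10, 3), (7, 10, 4), (8,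 9, 1), (8, 9, 2), (8, 10, 1), (8, 10, 2), (8, 10, 3), (8, 10, 4), (9, 10, 1), (9, 10, 2), (9, 10, 3)]

def gN1YaP (i : ℕ) : ℕ := if i = 1 then 3 else if i = 2 then 3 else if i = 3 then 10 else i

theorem gN1Ya_adm : gN1Ya.adm gN1YaP = true := by decide

/-- N1Yb ; names: 0=v 1=w 2=y 3=y2 4=x 5=z 6=m 7=a 8=b 9=n 10=c  -/
def gN1Yb : Cfg where
  nc := 4
  nt := 7
  E := [(0, 5), (0, 4), (0, 2), (1, 7), (1, 8), (1, 6), (1, 2), (1, 3), (2, 4), (2, 3), (3, 9), (3, 10)]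
  Bs := [(7, 8)]
  outs := fun i => if i == 4 || i == 5 || i == 6 || i == 9 then 2 else 0
  sm := fun i => i == 4 || i == 5 || i == 6 || i == 9
  keep := []
  pi := fun i => if i = 1 then 10 else if i = 2 then 10 else if i = 3 then 10 else i
  NE := [(6, 10), (7, 10), (8, 10)]
  al := [(4, 5, 1), (4, 5, 2), (4, 5, 3), (4, 6, 1), (4, 6, 2), (4, 6, 3), (4, 6, 4), (4, 7, 1), (4, 7, 2), (4, 7, 3), (4, 7, 4), (4, 8, 1), (4, 8, 2), (4, 8, 3), (4, 8, 4), (4, 9, 1), (4, 9, 2), (4, 9, 3), (4, 9, 4), (4, 10, 1), (4, 10, 2), (5, 6, 1), (5, 7, 1), (5, 7, 2), (5, 7, 3), (5, 8, 1), (5, 8, 2), (5, 8, 3), (5, 9, 1), (5, 9, 2), (5, 9, 3), (5, 10, 1), (5, 10, 2), (5, 10, 3), (6, 7, 1), (6, 7, 2), (6, 7, 3), (6, 8, 1), (6, 8, 2), (6, 8, 3), (6, 8, 4), (6, 9, 1), (6, 9, 2), (6, 9, 3), (6, 9, 4), (6, 10, 1), (6, 10, 2), (6, 10, 3), (6, 10, 4), (7, 8, 2), (7, 8, 3), (7,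 8, 4), (7, 9, 1), (7, 9, 2), (7, 9, 3), (7, 10, 1), (7, 10, 2), (7, 10, 3), (7, 10, 4), (8, 9, 1), (8, 9, 2), (8, 10, 1), (8, 10, 2), (8, 10, 3), (8, 10, 4), (9, 10, 1), (9, 10, 2), (9, 10, 3)]

def gN1YbP (i : ℕ) : ℕ := if i = 1 then 3 else if i = 2 then 3 else if i = 3 then 10 else i

theorem gN1Yb_adm : gN1Yb.adm gN1YbP = true := by decide

end Pool.Agent.Lib.SVX.Gad
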