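import Pool.Agent.Lib.SVX.ChkD
import Pool.Agent.Lib.SVX.Gad

/-!
# SVX.GadOK: `ListOK` of the configurations (kernel check)
-/

set_option autoImplicit false
set_option maxRecDepth 100000

namespace Pool.Agent.Lib.SVX.Gad

open Pool.Agent.Lib.SVX

theorem gA1_ok : gA1.ListOK := Chk.ringD_cfg
  (l := [.par 2 8 [], .tr 4 3 ⟨8, true, [], []⟩, .par 2 7 [], .tr 3 2 ⟨7, true, [], []⟩, .ed 2 1, .par 2 6 [], .tr 1 0 ⟨6, true, [], []⟩, .par 3 10 [], .tr 0 5 ⟨10, true, [], []⟩])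
  (r := [.par 2 9 [], .tr 4 5 ⟨9, true, [], []⟩])
  (nodes := [(6, 2, []), (7, 2, []), (9, 2, [7]), (5, 0, [7, 9]), (0, 0, [5, 6]), (10, 1, [0, 5])])
  (u0 := 4) (by decide +kernel)

theorem gA2_ok : gA2.ListOK := Chk.ringD_cfg
  (l := [.ed 1 2, .par 3 7 [], .tr 2 3 ⟨7, true, [], []⟩, .par 2 8 [], .tr 3 4 ⟨8, true, [], []⟩, .par 2 9 [], .tr 4 5 ⟨9, true, [], []⟩, .par 2 10 [], .tr 5 0 ⟨10, true, [], []⟩])
  (r := [.par 3 6 [], .tr 1 0 ⟨6, true, [], []⟩])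
  (nodes := [(8, 2, []), (10, 2, [8]), (0, 0, [8, 10]), (6, 1, [0])])
  (u0 := 1) (by decide +kernel)

theorem gF1l1_ok : gF1l1.ListOK := Chk.ringD_cfg
  (l := [.par 2 11 [], .tr 4 5 ⟨11, true, [], []⟩, .par 3 12 [], .tr 5 0 ⟨6, false, [], [(12, true, [])]⟩, .par 2 7 [], .tr 0 1 ⟨7, true, [], []⟩, .par 3 8 [], .tr 1 2 ⟨8, true, [], []⟩])
  (r := [.par 2 10 [], .tr 4 3 ⟨10, true, [], []⟩, .par 2 9 [], .tr 3 2 ⟨9, true, [], []⟩])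
  (nodes := [(7, 2, []), (9, 2, [7]), (11, 2, [7, 9])])
  (u0 := 4) (by decide +kernel)

theorem gF1l2_ok : gF1l2.ListOK := Chk.ringD_cfg
  (l := [.par 3 12 [], .tr 0 5 ⟨6, false, [], [(12, true, [])]⟩, .par 2 11 [], .tr 5 4 ⟨11, true, [], []⟩, .par 2 10 [], .tr 4 3 ⟨10, true, [], []⟩, .par 3 9 [], .tr 3 2 ⟨9, true, [], []⟩])
  (r := [.par 2 7 [], .tr 0 1 ⟨7, true, [], []⟩, .par 2 8 [], .tr 1 2 ⟨8, true, [], []⟩])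
  (nodes := [(7, 2, []), (11, 2, [7]), (8, 2, []), (10, 2, [8]), (1, 3, [7, 8, 10, 11])])
  (u0 := 0) (by decide +kernel)

theorem gf1_ok : gf1.ListOK := Chk.ringD_cfg
  (l := [.par 2 7 [], .tr 1 2 ⟨7, true, [], []⟩, .par 2 8 [], .tr 2 3 ⟨8, true, [], []⟩, .par 2 9 [], .tr 3 4 ⟨9, true, [], []⟩, .par 3 10 [], .tr 4 5 ⟨10, true, [], []⟩, .par 3 11 [], .vf ⟨5, false, [], [(11, true, [])]⟩])
  (r := [.par 3 6 [], .tr 1 0 ⟨6, true, [], []⟩, .ed 0 5])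
  (nodes := [(7, 2, []), (9, 2, [7]), (4, 0, [7, 9]), (10, 1, [4]), (6, 1, [4])])
  (u0 := 1) (by decide +kernel)

theorem gF2a_ok : gF2a.ListOK := Chk.ringD_cfg
  (l := [.par 2 8 [], .tr 1 2 ⟨8, true, [], []⟩, .par 2 9 [], .tr 2 3 ⟨9, true, [], []⟩, .par 3 10 [], .tr 3 4 ⟨6, false, [], [(10, true, [])]⟩, .par 2 11 [], .tr 4 5 ⟨11, true, [], []⟩, .par 2 12 [], .vf ⟨5, false, [12], []⟩])
  (r := [.par 2 7 [], .tr 1 0 ⟨7, true, [], []⟩, .ed 0 5])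
  (nodes := [(7, 2, []), (9, 2, [7])])
  (u0 := 1) (by decide +kernel)

theorem gF2b_ok : gF2b.ListOK := Chk.ringD_cfg
  (l := [.par 2 8 [], .tr 1 2 ⟨8, true, [], []⟩, .par 3 9 [], .tr 2 3 ⟨6, false, [], [(9, true, [])]⟩, .par 2 10 [], .tr 3 4 ⟨10, true, [], []⟩, .par 2 11 [], .tr 4 5 ⟨11, true, [], []⟩])
  (r := [.par 2 7 [], .tr 1 0 ⟨7, true, [], []⟩, .ed 0 5, .par 2 12 [], .vf ⟨5, false, [12], []⟩])
  (nodes := [(10, 2, []), (12, 2, [10])])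
  (u0 := 1) (by decide +kernel)

theorem gF2c_ok : gF2c.ListOK := Chk.ringD_cfg
  (l := [.par 2 8 [], .tr 1 2 ⟨8, true, [], []⟩, .par 2 9 [], .tr 2 3 ⟨9, true, [], []⟩, .par 3 10 [], .tr 3 4 ⟨6, false, [], [(10, true, [])]⟩, .par 2 11 [], .tr 4 5 ⟨11, true, [], []⟩, .par 2 12 [], .vf ⟨5, false, [12], []⟩])
  (r := [.par 2 7 [], .vf ⟨1, false, [7], []⟩, .ed 1 0, .ed 0 5])
  (nodes := [(7, 2, []), (9, 2, [7])])
  (u0 := 1) (by decide +kernel)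

theorem gF3_ok : gF3.ListOK := Chk.ringD_cfg
  (l := [.par 3 8 [], .tr 1 2 ⟨6, false, [], [(8, true, [])]⟩, .par 2 9 [], .tr 2 3 ⟨9, true, [], []⟩, .par 2 10 [], .tr 3 4 ⟨10, true, [], []⟩, .par 3 11 [], .vf ⟨4, false, [], [(11, true, [])]⟩, .ed 4 5, .par 3 12 [], .vf ⟨5, false, [], [(12, true, [])]⟩])
  (r := [.par 2 7 [], .tr 1 0 ⟨7, true, [], []⟩, .par 2 13 [], .tr 0 5 ⟨13, true, [], []⟩])
  (nodes := [(7, 2, []), (12, 1, [7])])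
  (u0 := 1) (by decide +kernel)

theorem gF0_ok : gF0.ListOK := Chk.ringD_cfg
  (l := [.par 2 7 [], .tr 1 2 ⟨7, true, [], []⟩, .par 2 8 [], .tr 2 3 ⟨8, true, [], []⟩, .par 3 9 [], .tr 3 4 ⟨9, true, [], []⟩, .ed 4 5, .par 2 10 [], .par 2 11 [10], .vf ⟨5, false, [10, 11], []⟩])
  (r := [.par 3 6 [], .tr 1 0 ⟨6, true, [], []⟩, .ed 0 5])
  (nodes := [(7, 2, []), (9, 1, [7]), (1, 0, [7, 9]), (6, 1, [1])])
  (u0 := 1) (by decide +kernel)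

end Pool.Agent.Lib.SVX.Gad
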