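import Pool.Agent.Lib.SVX.Defs

/-!
# SVX.Link: the faces at a vertex

`link`: a set `A` of edges at `v` which meets every face in an even number of edges is empty or the
set of all edges at `v` (dual property for the indicator function of `A`, then `TwoConn` for
`Y = {x | y x ≠ y v}`).  `face_deg`: a face has 0 or 2 edges at every vertex (it contains the edge
set of a cycle, `CircAux.exists_cycle`, hence equals it).  `corner_unique`: apply `link` to
`A = {s(v,a), s(v,b)}`.  `corner_other`: the second face at the edge `s(v,a)`.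
-/

set_option autoImplicit false
set_option linter.unusedSectionVars false

namespace Pool.Agent.Lib.SVX

open Finset Pool.Agent.Lib.SVT

variable {V : Type*} [Fintype V] [DecidableEq V] {G : SimpleGraph V}
variable {m : ℕ} {F : Fin m → Finset (Sym2 V)}

namespace LinkAux

theorem zmod2_add {a b : ZMod 2} (h : a ≠ b) : a + b = 1 := by
  revert a b
  decide

theorem zmod2_ne {a b : ZMod 2} (h : a + b = 1) : a ≠ b := by
  revert a b
  decide

theorem zmod2_eq {a b : ZMod 2} (h : a + b = 0) : a = b := by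
  revert a b
  decide

/-- an edge at `v` -/
theorem edge_at {v : V} {e : Sym2 V} (he : e ∈ G.edgeSet) (hv : v ∈ e) : ∃ u, G.Adj v u ∧ e = s(v, u) := by
  obtain ⟨u, rfl⟩ := Sym2.mem_iff_exists.1 hv
  exact ⟨u, (SimpleGraph.mem_edgeSet G).1 he, rfl⟩

theorem sne {v a b : V} (hab : a ≠ b) : s(v, a) ≠ s(v, b) := by
  intro h
  rcases Sym2.eq_iff.1 h with ⟨_, h⟩ | ⟨h1, h2⟩
  · exact hab h
  · exact hab (h2.trans h1)

end LinkAux

open LinkAux

theorem link (h : Faces G F) (h2 : TwoConn G) (v : V) {A : Finset (Sym2 V)}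
    (hA : ∀ e ∈ A, e ∈ G.edgeSet ∧ v ∈ e) (hev : ∀ i, Even (F i ∩ A).card) :
    A = ∅ ∨ ∀ u, G.Adj v u → s(v, u) ∈ A := by
  obtain ⟨y, hy⟩ := h.dual (fun e => if e ∈ A then 1 else 0) (fun i => by
    rw [← Finset.sum_filter, Finset.sum_const, nsmul_eq_mul, mul_one]
    have h1 : (F i).filter (fun e => e ∈ A) = F i ∩ A := by
      ext e
      rw [mem_filter, mem_inter]
    rw [h1]
    exact (ZMod.natCast_eq_zero_iff_even).2 (hev i))
  have hvY : v ∉ {x : V | y x ≠ y v} := fun hx => hx rfl
  have hcl : ∀ a b, G.Adj a b → a ∈ {x : V | y x ≠ y v} → b ∈ {x : V | y x ≠ y v} ∨ b = v := by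
    intro a b hab ha
    by_cases hb : b = v
    · exact Or.inr hb
    · left
      have hav : a ≠ v := by
        rintro rfl
        exact ha rfl
      have h1 : s(a, b) ∉ A := by
        intro h2
        rcases Sym2.mem_iff.1 (hA _ h2).2 with h3 | h3
        · exact hav h3.symm
        · exact hb h3.symm
      have h2 := hy a b hab
      rw [if_neg h1] at h2
      have h3 := zmod2_eq h2.symm
      show y b ≠ y v
      rw [← h3]
      exact ha
  rcases h2 v _ hvY hcl with h3 | h3
  · left
    rw [Finset.eq_empty_iff_forall_notMem]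
    intro e he
    obtain ⟨u, hu, rfl⟩ := edge_at (hA e he).1 (hA e he).2
    have h4 := hy v u hu
    rw [if_pos he] at h4
    have h5 := zmod2_ne h4.symm
    exact h3 u (fun h6 => h5 h6.symm) v hu.symm
  · right
    intro u hu
    by_contra h4
    have h5 := hy v u hu
    rw [if_neg h4] at h5
    have h6 := zmod2_eq h5.symm
    exact h3 u (fun h7 => h7 h6.symm) hu.ne.symm v hu.symm

/-- a face is the edge set of a cycle -/
theorem face_cycle (h : Faces G F) (i : Fin m) :
    ∃ (v : V) (c : G.Walk v v), c.IsCycle ∧ F i = c.edges.toFinset := by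
  have hl : ∀ e ∈ F i, ¬ e.IsDiag := fun e he => G.not_isDiag_of_mem_edgeSet (h.sub i e he)
  obtain ⟨v, c, hcyc⟩ := CircAux.exists_cycle hl (h.ev i) (h.ne i)
  have hle : SimpleGraph.fromEdgeSet (F i : Set (Sym2 V)) ≤ G := by
    intro x y h1
    rw [SimpleGraph.fromEdgeSet_adj] at h1
    exact (SimpleGraph.mem_edgeSet G).1 (h.sub i _ (by exact_mod_cast h1.1 : s(x, y) ∈ F i))
  have hsub : c.edges.toFinset ⊆ F i := by
    intro e he
    have h1 := c.edges_subset_edgeSet (List.mem_toFinset.1 he)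
    rw [SimpleGraph.edgeSet_fromEdgeSet] at h1
    exact_mod_cast h1.1
  have hnd := hcyc.isTrail.edges_nodup
  have hev : Ev c.edges.toFinset := by
    intro x
    have h1 := (hcyc.isTrail.even_countP_edges_iff x).2 (fun h => absurd rfl h)
    have h2 : (c.edges.toFinset.filter (fun e => x ∈ e)).card =
        c.edges.countP (fun e => x ∈ e) := by
      have h3 : c.edges.toFinset.filter (fun e => x ∈ e) =
          (c.edges.filter (fun e => decide (x ∈ e))).toFinset := by
        ext e
        simp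
      rw [h3, List.toFinset_card_of_nodup (hnd.filter _), List.countP_eq_length_filter]
    rw [h2]
    exact h1
  have h3 := hcyc.three_le_length
  have hne' : c.edges.toFinset.Nonempty := by
    rw [← card_pos, List.toFinset_card_of_nodup hnd, SimpleGraph.Walk.length_edges]
    omega
  have hFc := h.circ i _ hsub hev hne'
  refine ⟨v, c.mapLe hle, hcyc.mapLe hle, ?_⟩
  rw [SimpleGraph.Walk.edges_mapLe_eq_edges]
  exact hFc.symm

theorem face_deg (h : Faces G F) (i : Fin m) (v : V) :
    ((F i).filter (fun e => v ∈ e)).card = 0 ∨ ((F i).filter (fun e => v ∈ e)).card = 2 := by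
  obtain ⟨w, c, hc, hF⟩ := face_cycle h i
  by_cases hv : v ∈ c.support
  · right
    have h1 := hc.ncard_neighborSet_toSubgraph_eq_two hv
    have h2 : ((F i).filter (fun e => v ∈ e) : Set (Sym2 V)) =
        (fun u => s(v, u)) '' (c.toSubgraph.neighborSet v) := by
      ext e
      rw [Finset.coe_filter, Set.mem_ofPred_eq, Set.mem_image]
      constructor
      · rintro ⟨h3, h4⟩
        obtain ⟨u, hu, rfl⟩ := edge_at (h.sub i e h3) h4
        refine ⟨u, ?_, rfl⟩
        rw [SimpleGraph.Subgraph.mem_neighborSet, SimpleGraph.Walk.adj_toSubgraph_iff_mem_edges]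
        rw [hF, List.mem_toFinset] at h3
        exact h3
      · rintro ⟨u, hu, rfl⟩
        rw [SimpleGraph.Subgraph.mem_neighborSet, SimpleGraph.Walk.adj_toSubgraph_iff_mem_edges] at hu
        exact ⟨by rw [hF, List.mem_toFinset]; exact hu, Sym2.mem_mk_left v u⟩
    have h3 : Function.Injective (fun u => s(v, u)) := by
      intro a b hab
      by_contra hne
      exact sne hne hab
    have h4 := Set.ncard_image_of_injective (c.toSubgraph.neighborSet v) h3
    rw [← h2, Set.ncard_coe_finset, h1] at h4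
    exact h4
  · left
    rw [Finset.card_eq_zero, Finset.filter_eq_empty_iff]
    intro e he hve
    rw [hF, List.mem_toFinset] at he
    obtain ⟨u, rfl⟩ := Sym2.mem_iff_exists.1 hve
    exact hv (c.fst_mem_support_of_mem_edges he)

namespace LinkAux

/-- three edges at `v` in one face -/
theorem face_edges (h : Faces G F) {i : Fin m} {v a b x : V} (hab : a ≠ b) (h1 : s(v, a) ∈ F i)
    (h2 : s(v, b) ∈ F i) (h3 : s(v, x) ∈ F i) : x = a ∨ x = b := by
  by_contra hc
  push Not at hc
  have h4 : ({s(v, a), s(v, b), s(v, x)} : Finset (Sym2 V)) ⊆ (F i).filter (fun e => v ∈ e) := by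
    intro e he
    rw [mem_insert, mem_insert, mem_singleton] at he
    rw [mem_filter]
    rcases he with rfl | rfl | rfl
    · exact ⟨h1, Sym2.mem_mk_left _ _⟩
    · exact ⟨h2, Sym2.mem_mk_left _ _⟩
    · exact ⟨h3, Sym2.mem_mk_left _ _⟩
  have h5 := card_le_card h4
  have h6 : ({s(v, a), s(v, b), s(v, x)} : Finset (Sym2 V)).card = 3 :=
    card_eq_three.2 ⟨_, _, _, sne hab, sne hc.1.symm, sne hc.2.symm, rfl⟩
  rcases face_deg h i v with h7 | h7 <;> omega

/-- the other edge of a face at a vertex -/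
theorem other_edge (h : Faces G F) {i : Fin m} {v a : V} (h1 : s(v, a) ∈ F i) :
    ∃ b, b ≠ a ∧ G.Adj v b ∧ s(v, b) ∈ F i := by
  have h2 : s(v, a) ∈ (F i).filter (fun e => v ∈ e) := mem_filter.2 ⟨h1, Sym2.mem_mk_left _ _⟩
  have h3 : 1 < ((F i).filter (fun e => v ∈ e)).card := by
    have := card_pos.2 ⟨_, h2⟩
    rcases face_deg h i v with h7 | h7 <;> omega
  obtain ⟨e, he, hne⟩ := exists_mem_ne h3 s(v, a)
  rw [mem_filter] at he
  obtain ⟨b, hb, rfl⟩ := edge_at (h.sub i e he.1) he.2
  exact ⟨b, fun hba => hne (by rw [hba]), hb, he.1⟩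

/-- the two faces at an edge -/
theorem two_faces (h : Faces G F) {e : Sym2 V} (he : e ∈ G.edgeSet) :
    ∃ i j : Fin m, i ≠ j ∧ ∀ k, e ∈ F k ↔ k = i ∨ k = j := by
  obtain ⟨i, j, hij, h1⟩ := card_eq_two.1 (h.two e he)
  refine ⟨i, j, hij, fun k => ?_⟩
  have h2 : k ∈ univ.filter (fun i => e ∈ F i) ↔ k ∈ ({i, j} : Finset (Fin m)) := by rw [h1]
  rw [mem_filter, mem_insert, mem_singleton] at h2
  simpa using h2

end LinkAux

/-- two edges at a vertex of degree at least 3 lie in at most one common face -/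
theorem corner_unique (h : Faces G F) (h2 : TwoConn G) {v a b : V} (hab : a ≠ b)
    (hd : 3 ≤ (nb G univ v).card) {i j : Fin m} (hi1 : s(v, a) ∈ F i) (hi2 : s(v, b) ∈ F i)
    (hj1 : s(v, a) ∈ F j) (hj2 : s(v, b) ∈ F j) : i = j := by
  by_contra hij
  have key : ∀ x, s(v, x) ∈ F i → s(v, x) ∈ F j → ∀ k, s(v, x) ∈ F k ↔ k = i ∨ k = j := by
    intro x hx1 hx2 k
    obtain ⟨i', j', hij', h3⟩ := two_faces h (h.sub i _ hx1)
    have h4 := (h3 i).1 hx1
    have h5 := (h3 j).1 hx2
    rw [h3]
    rcases h4 with rfl | rfl <;> rcases h5 with rfl | rfl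
    · exact absurd rfl hij
    · exact Iff.rfl
    · exact or_comm
    · exact absurd rfl hij
  have ka := key a hi1 hj1
  have kb := key b hi2 hj2
  rcases link h h2 v (A := {s(v, a), s(v, b)}) (by
    intro e he
    rw [mem_insert, mem_singleton] at he
    rcases he with rfl | rfl
    · exact ⟨h.sub i _ hi1, Sym2.mem_mk_left _ _⟩
    · exact ⟨h.sub i _ hi2, Sym2.mem_mk_left _ _⟩) (by
    intro k
    by_cases hk : k = i ∨ k = j
    · have h3 : F k ∩ {s(v, a), s(v, b)} = {s(v, a), s(v, b)} := by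
        rw [inter_eq_right]
        intro e he
        rw [mem_insert, mem_singleton] at he
        rcases he with rfl | rfl
        · exact (ka k).2 hk
        · exact (kb k).2 hk
      rw [h3, card_pair (sne hab)]
      exact even_two
    · have h3 : F k ∩ {s(v, a), s(v, b)} = ∅ := by
        rw [eq_empty_iff_forall_notMem]
        intro e he
        rw [mem_inter, mem_insert, mem_singleton] at he
        obtain ⟨he1, rfl | rfl⟩ := he
        · exact hk ((ka k).1 he1)
        · exact hk ((kb k).1 he1)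
      rw [h3, card_empty]
      exact Even.zero) with h3 | h3
  · have : s(v, a) ∈ (∅ : Finset (Sym2 V)) := by
      rw [← h3]
      exact mem_insert_self _ _
    exact notMem_empty _ this
  · have h4 : nb G univ v ⊆ {a, b} := by
      intro u hu
      have h5 := h3 u (mem_nb.1 hu).2
      rw [mem_insert, mem_singleton] at h5 ⊢
      rcases h5 with h5 | h5
      · left
        by_contra hne
        exact sne hne h5
      · right
        by_contra hne
        exact sne hne h5
    have h5 := card_le_card h4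
    have h6 : ({a, b} : Finset V).card ≤ 2 := card_le_two
    omega

/-- a neighbour `a` of a vertex `v` of degree at least 3 has exactly two corners: there are
`b ≠ c`, different from `a`, and the two faces `i ≠ j` at the edge `s(v,a)`, with
`s(v,b) ∈ F i`, `s(v,c) ∈ F j`, and these are all the corners at `a` -/
theorem corners (h : Faces G F) (h2 : TwoConn G) {v a : V} (hva : G.Adj v a)
    (hd : 3 ≤ (nb G univ v).card) :
    ∃ (b c : V) (i j : Fin m), i ≠ j ∧ b ≠ c ∧ b ≠ a ∧ c ≠ a ∧ G.Adj v b ∧ G.Adj v c ∧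
      s(v, a) ∈ F i ∧ s(v, b) ∈ F i ∧ s(v, a) ∈ F j ∧ s(v, c) ∈ F j ∧
      (∀ k, s(v, a) ∈ F k → k = i ∨ k = j) ∧
      ∀ x, x ≠ a → Corner F v a x → x = b ∨ x = c := by
  obtain ⟨i, j, hij, hk⟩ := two_faces h ((SimpleGraph.mem_edgeSet G).2 hva)
  have hi := (hk i).2 (Or.inl rfl)
  have hj := (hk j).2 (Or.inr rfl)
  obtain ⟨b, hba, hvb, hb⟩ := other_edge h hi
  obtain ⟨c, hca, hvc, hc⟩ := other_edge h hj
  refine ⟨b, c, i, j, hij, ?_, hba, hca, hvb, hvc, hi, hb, hj, hc, fun k => (hk k).1, ?_⟩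
  · rintro rfl
    exact hij (corner_unique h h2 hba.symm hd hi hb hj hc)
  · rintro x hxa ⟨k, hk1, hk2⟩
    rcases (hk k).1 hk1 with rfl | rfl
    · rcases face_edges h hba.symm hi hb hk2 with h3 | h3
      · exact absurd h3 hxa
      · exact Or.inl h3
    · rcases face_edges h hca.symm hj hc hk2 with h3 | h3
      · exact absurd h3 hxa
      · exact Or.inr h3

/-- all pairs of neighbours of a vertex of degree 3 are corners -/
theorem corner_three (h : Faces G F) (h2 : TwoConn G) {v a b : V} (hd : (nb G univ v).card = 3)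
    (hva : G.Adj v a) (hvb : G.Adj v b) (hab : a ≠ b) : Corner F v a b := by
  obtain ⟨b', c', i, j, hij, hbc, hba, hca, hvb', hvc', h3, h4, h5, h6, _, _⟩ :=
    corners h h2 hva (by omega)
  have h7 : ({a, b', c'} : Finset V) ⊆ nb G univ v := by
    intro x hx
    rw [mem_insert, mem_insert, mem_singleton] at hx
    rw [mem_nb]
    rcases hx with rfl | rfl | rfl
    · exact ⟨mem_univ _, hva⟩
    · exact ⟨mem_univ _, hvb'⟩
    · exact ⟨mem_univ _, hvc'⟩
  have h8 : ({a, b', c'} : Finset V).card = 3 := card_eq_three.2 ⟨_, _, _, hba.symm, hca.symm, hbc, rfl⟩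
  have h9 := eq_of_subset_of_card_le h7 (by omega)
  have h10 : b ∈ nb G univ v := mem_nb.2 ⟨mem_univ _, hvb⟩
  rw [← h9, mem_insert, mem_insert, mem_singleton] at h10
  rcases h10 with h10 | rfl | rfl
  · exact absurd h10.symm hab
  · exact ⟨i, h3, h4⟩
  · exact ⟨j, h5, h6⟩

theorem LinkAux.corner_symm {v a b : V} (h : Corner F v a b) : Corner F v b a := by
  obtain ⟨i, h1, h2⟩ := h
  exact ⟨i, h2, h1⟩

/-- a vertex of degree at least 3: if two of four neighbours are the corners of `a` -/
theorem LinkAux.corner_pair (h : Faces G F) (h2 : TwoConn G) {v a x y z : V} (hd : 3 ≤ (nb G univ v).card)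
    (hva : G.Adj v a) (hn : ∀ u, G.Adj v u → u = a ∨ u = x ∨ u = y ∨ u = z) (hz : ¬ Corner F v a z) :
    Corner F v a x ∧ Corner F v a y := by
  obtain ⟨b', c', i, j, hij, hbc, hba, hca, hvb', hvc', h3, h4, h5, h6, _, _⟩ := corners h h2 hva hd
  have hb : Corner F v a b' := ⟨i, h3, h4⟩
  have hc : Corner F v a c' := ⟨j, h5, h6⟩
  rcases hn b' hvb' with h7 | h7 | h7 | h7
  · exact absurd h7 hba
  · rcases hn c' hvc' with h8 | h8 | h8 | h8
    · exact absurd h8 hca
    · exact absurd (h7.trans h8.symm) hbc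
    · exact ⟨h7 ▸ hb, h8 ▸ hc⟩
    · exact absurd (h8 ▸ hc) hz
  · rcases hn c' hvc' with h8 | h8 | h8 | h8
    · exact absurd h8 hca
    · exact ⟨h8 ▸ hc, h7 ▸ hb⟩
    · exact absurd (h7.trans h8.symm) hbc
    · exact absurd (h8 ▸ hc) hz
  · exact absurd (h7 ▸ hb) hz

/-- the neighbours of a vertex of degree 4 form a cycle of corners -/
theorem corner_four (h : Faces G F) (h2 : TwoConn G) {v a : V} (hd : (nb G univ v).card = 4)
    (hva : G.Adj v a) :
    ∃ b c d : V, nb G univ v = {a, b, c, d} ∧ [a, b, c, d].Nodup ∧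
      Corner F v a b ∧ Corner F v b c ∧ Corner F v c d ∧ Corner F v d a ∧
      ¬ Corner F v a c ∧ ¬ Corner F v b d := by
  obtain ⟨b, d, i, j, hij, hbd, hba, hda, hvb, hvd, h3, h4, h5, h6, _, hcor⟩ :=
    corners h h2 hva (by omega)
  have h7 : ({a, b, d} : Finset V) ⊆ nb G univ v := by
    intro x hx
    rw [mem_insert, mem_insert, mem_singleton] at hx
    rw [mem_nb]
    rcases hx with rfl | rfl | rfl
    · exact ⟨mem_univ _, hva⟩
    · exact ⟨mem_univ _, hvb⟩
    · exact ⟨mem_univ _, hvd⟩
  have h8 : ({a, b, d} : Finset V).card = 3 := card_eq_three.2 ⟨_, _, _, hba.symm, hda.symm, hbd, rfl⟩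
  obtain ⟨c, hc⟩ : (nb G univ v \ {a, b, d}).Nonempty := by
    rw [← card_pos, card_sdiff_of_subset h7]
    omega
  rw [mem_sdiff, mem_insert, mem_insert, mem_singleton, not_or, not_or] at hc
  obtain ⟨hcn, hca, hcb, hcd⟩ := hc
  have hvc := (mem_nb.1 hcn).2
  have h9 : ({a, b, c, d} : Finset V) ⊆ nb G univ v := by
    intro x hx
    rw [mem_insert, mem_insert, mem_insert, mem_singleton] at hx
    rcases hx with rfl | rfl | rfl | rfl
    · exact h7 (by simp)
    · exact h7 (by simp)
    · exact hcn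
    · exact h7 (by simp)
  have h10 : ({a, b, c, d} : Finset V).card = 4 := by
    rw [card_insert_of_notMem, card_insert_of_notMem, card_insert_of_notMem, card_singleton]
    · rw [mem_singleton]
      exact hcd
    · rw [mem_insert, mem_singleton, not_or]
      exact ⟨Ne.symm hcb, hbd⟩
    · rw [mem_insert, mem_insert, mem_singleton, not_or, not_or]
      exact ⟨hba.symm, Ne.symm hca, hda.symm⟩
  have h11 := eq_of_subset_of_card_le h9 (by omega)
  have hn : ∀ u, G.Adj v u → u = a ∨ u = b ∨ u = c ∨ u = d := by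
    intro u hu
    have h12 : u ∈ nb G univ v := mem_nb.2 ⟨mem_univ _, hu⟩
    rw [← h11, mem_insert, mem_insert, mem_insert, mem_singleton] at h12
    exact h12
  have hac : ¬ Corner F v a c := by
    intro h12
    rcases hcor c hca h12 with h13 | h13
    · exact hcb h13
    · exact hcd h13
  have hcc := LinkAux.corner_pair h h2 (by omega) hvc (x := b) (y := d) (z := a)
    (fun u hu => by rcases hn u hu with h | h | h | h <;> simp [h]) (fun h12 => hac (LinkAux.corner_symm h12))
  have hab : Corner F v a b := ⟨i, h3, h4⟩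
  have had : Corner F v a d := ⟨j, h5, h6⟩
  refine ⟨b, c, d, h11.symm, ?_, hab, LinkAux.corner_symm hcc.1, hcc.2, LinkAux.corner_symm had, hac, ?_⟩
  · simp only [List.nodup_cons, List.mem_cons, List.not_mem_nil, or_false, not_or, List.nodup_nil,
      not_false_eq_true, and_true]
    exact ⟨⟨hba.symm, Ne.symm hca, hda.symm⟩, ⟨Ne.symm hcb, hbd⟩, hcd⟩
  · intro hbd'
    obtain ⟨x, y, _, _, _, hxy, hxb, hyb, _, _, _, _, _, _, _, hcor2⟩ := corners h h2 hvb (by omega)
    have q1 := hcor2 a hba.symm (LinkAux.corner_symm hab)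
    have q2 := hcor2 c hcb (LinkAux.corner_symm hcc.1)
    have q3 := hcor2 d hbd.symm hbd'
    rcases q1 with rfl | rfl <;> rcases q2 with rfl | rfl <;> rcases q3 with rfl | rfl <;> simp_all

/-- the sides of an even edge set `K`, the sum of the faces in `I`: all faces at a vertex not
incident with `K` lie in `I`, or none -/
theorem side (h : Faces G F) (h2 : TwoConn G) {K : Finset (Sym2 V)} {I : Finset (Fin m)}
    (hI : ∀ e, e ∈ K ↔ Odd (I.filter (fun i => e ∈ F i)).card) {v : V} (hv : ∀ e ∈ K, v ∉ e) :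
    (∀ i, (∃ e ∈ F i, v ∈ e) → i ∈ I) ∨ (∀ i, (∃ e ∈ F i, v ∈ e) → i ∉ I) := by
  classical
  have hall : ∀ e, v ∈ e → e ∈ G.edgeSet → ∀ i k, e ∈ F i → i ∈ I → e ∈ F k → k ∈ I := by
    intro e hve he i k hi hiI hk
    have h3 : ¬ Odd (I.filter (fun i => e ∈ F i)).card := fun h4 => hv e ((hI e).2 h4) hve
    rw [Nat.not_odd_iff_even] at h3
    have h4 : I.filter (fun i => e ∈ F i) ⊆ univ.filter (fun i => e ∈ F i) :=
      filter_subset_filter _ (subset_univ _)
    have h5 := h.two e he
    have h6 : 0 < (I.filter (fun i => e ∈ F i)).card := card_pos.2 ⟨i, mem_filter.2 ⟨hiI, hi⟩⟩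
    have h7 := card_le_card h4
    have h8 : (I.filter (fun i => e ∈ F i)).card = 2 := by
      obtain ⟨r, hr⟩ := h3
      omega
    have h9 := eq_of_subset_of_card_le h4 (by omega)
    have h10 : k ∈ univ.filter (fun i => e ∈ F i) := mem_filter.2 ⟨mem_univ _, hk⟩
    rw [← h9, mem_filter] at h10
    exact h10.1
  rcases link h h2 v (A := univ.filter (fun e => e ∈ G.edgeSet ∧ v ∈ e ∧ ∃ i ∈ I, e ∈ F i)) (by
    intro e he
    rw [mem_filter] at he
    exact ⟨he.2.1, he.2.2.1⟩) (by
    intro k
    by_cases hk : k ∈ I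
    · have h3 : F k ∩ univ.filter (fun e => e ∈ G.edgeSet ∧ v ∈ e ∧ ∃ i ∈ I, e ∈ F i) =
          (F k).filter (fun e => v ∈ e) := by
        ext e
        rw [mem_inter, mem_filter, mem_filter]
        constructor
        · rintro ⟨h4, _, _, h5, _⟩
          exact ⟨h4, h5⟩
        · rintro ⟨h4, h5⟩
          exact ⟨h4, mem_univ _, h.sub k e h4, h5, k, hk, h4⟩
      rw [h3]
      exact h.ev k v
    · have h3 : F k ∩ univ.filter (fun e => e ∈ G.edgeSet ∧ v ∈ e ∧ ∃ i ∈ I, e ∈ F i) = ∅ := by
        rw [eq_empty_iff_forall_notMem]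
        intro e he
        rw [mem_inter, mem_filter] at he
        obtain ⟨h4, _, h5, h6, i, hi, h7⟩ := he
        exact hk (hall e h6 h5 i k h7 hi h4)
      rw [h3, card_empty]
      exact Even.zero) with h3 | h3
  · right
    rintro i ⟨e, he, hve⟩ hi
    have h4 : e ∈ univ.filter (fun e => e ∈ G.edgeSet ∧ v ∈ e ∧ ∃ i ∈ I, e ∈ F i) :=
      mem_filter.2 ⟨mem_univ _, h.sub i e he, hve, i, hi, he⟩
    rw [h3] at h4
    exact notMem_empty _ h4
  · left
    rintro i ⟨e, he, hve⟩
    obtain ⟨u, hu, rfl⟩ := edge_at (h.sub i e he) hve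
    have h4 := h3 u hu
    rw [mem_filter] at h4
    obtain ⟨_, h5, h6, j, hj, h7⟩ := h4
    exact hall _ h6 h5 j i h7 hj he

end Pool.Agent.Lib.SVX
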