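import Pool.Agent.Lib.SVX.Defs

/-!
# SVX.MinA: a minimal counterexample is 2-connected and has inner degrees at least 3

`two_conn`: if `v`, `Y` violate `TwoConn`, let `G₁` be `G` without the edges with an end in `Y` and
`G₂` the graph of the edges of `G` with an end in `Y`.  `nv G₁, nv G₂ < nv G`.  `B` (empty or a
cycle) lies in `Y ∪ {v}` or is disjoint from `Y`.  Extend the colouring of `B` to the part
containing `B`, colour the other part (`B' = ∅`), permute its colours so that both parts agree at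
`v`, glue.  (`ML.mono`, and `NoC4`, `NoC5` pass to subgraphs.)
`deg_three`: delete `v` (its edges); the two neighbours leave at least three colours.
`deg_ne_one`: vertices of `B` have at least two neighbours.
-/

set_option autoImplicit false
set_option linter.unusedSectionVars false

namespace Pool.Agent.Lib.SVX

open Finset Pool.Agent.Lib.SVT

variable {V : Type*} [Fintype V] [DecidableEq V] {G : SimpleGraph V} {B : Finset V}

/-- the subgraph of the edges satisfying `P` -/
def part (G : SimpleGraph V) (P : V → V → Prop) (hP : ∀ a b, P a b → P b a) : SimpleGraph V where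
  Adj a b := G.Adj a b ∧ P a b
  symm := ⟨fun a b h => ⟨h.1.symm, hP a b h.2⟩⟩
  loopless := ⟨fun a h => G.loopless.irrefl a h.1⟩

lemma part_adj {G : SimpleGraph V} {P : V → V → Prop} {hP : ∀ a b, P a b → P b a} {a b : V} :
    (part G P hP).Adj a b ↔ G.Adj a b ∧ P a b := Iff.rfl

lemma part_le {G : SimpleGraph V} {P : V → V → Prop} {hP : ∀ a b, P a b → P b a} :
    ∀ a b, (part G P hP).Adj a b → G.Adj a b := fun _ _ h => h.1

lemma good_mono {G' : SimpleGraph V} {B' : Finset V} (hle : ∀ a b, G'.Adj a b → G.Adj a b)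
    (h : Good G B) (hB : Bdry G' B') : Good G' B' where
  ml := h.ml.mono (by
    intro e he
    induction e using Sym2.ind with
    | _ a b =>
      rw [mem_edg'] at he ⊢
      exact ⟨hle _ _ he.1, he.2⟩)
  c4 := fun a b c d hac hbd h1 h2 h3 h4 =>
    h.c4 a b c d hac hbd (hle _ _ h1) (hle _ _ h2) (hle _ _ h3) (hle _ _ h4)
  c5 := fun a b c d e h1 h2 h3 h4 h5 k1 k2 k3 k4 k5 =>
    h.c5 a b c d e h1 h2 h3 h4 h5 (hle _ _ k1) (hle _ _ k2) (hle _ _ k3) (hle _ _ k4) (hle _ _ k5)
  bd := hB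

lemma nv_lt {G' : SimpleGraph V} (hle : ∀ a b, G'.Adj a b → G.Adj a b) {x y : V}
    (hx : G.Adj x y) (hx' : ∀ u, ¬ G'.Adj x u) : nv G' < nv G := by
  classical
  unfold nv
  refine Finset.card_lt_card ?_
  rw [Finset.ssubset_iff_of_subset]
  · refine ⟨x, ?_, ?_⟩
    · rw [mem_filter]
      exact ⟨mem_univ _, y, hx⟩
    · rw [mem_filter]
      rintro ⟨-, u, hu⟩
      exact hx' u hu
  · intro z hz
    rw [mem_filter] at hz ⊢
    obtain ⟨-, u, hu⟩ := hz
    exact ⟨mem_univ _, u, hle _ _ hu⟩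

lemma exists_perm {A C : Finset (Fin 7)} (h : A.card = C.card) :
    ∃ σ : Equiv.Perm (Fin 7), A.map σ.toEmbedding = C := by
  classical
  let e : {x // x ∈ A} ≃ {x // x ∈ C} := Finset.equivOfCardEq h
  refine ⟨e.extendSubtype, ?_⟩
  refine Finset.eq_of_subset_of_card_le ?_ ?_
  · intro x hx
    rw [Finset.mem_map] at hx
    obtain ⟨y, hy, rfl⟩ := hx
    exact e.extendSubtype_mem y hy
  · rw [Finset.card_map, h]

/-- the boundary in uniform notation -/
lemma bdry_iff {G : SimpleGraph V} {B : Finset V} :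
    Bdry G B ↔ B = ∅ ∨ ∃ n, (n = 3 ∨ n = 6 ∨ n = 7) ∧ ∃ c : ZMod n → V,
      IsCyc G n c ∧ ∀ v, v ∈ B ↔ ∃ i, c i = v := by
  constructor
  · rintro (h | h | h | h)
    · exact Or.inl h
    · exact Or.inr ⟨3, Or.inl rfl, h⟩
    · exact Or.inr ⟨6, Or.inr (Or.inl rfl), h⟩
    · exact Or.inr ⟨7, Or.inr (Or.inr rfl), h⟩
  · rintro (h | ⟨n, h1, h2⟩)
    · exact Or.inl h
    · rcases h1 with rfl | rfl | rfl
      · exact Or.inr (Or.inl h2)
      · exact Or.inr (Or.inr (Or.inl h2))
      · exact Or.inr (Or.inr (Or.inr h2))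

/-- a boundary all of whose edges survive is a boundary of the subgraph -/
lemma bdry_sub {G' : SimpleGraph V} (hB : Bdry G B)
    (h : ∀ a ∈ B, ∀ b ∈ B, G.Adj a b → G'.Adj a b) : Bdry G' B := by
  rw [bdry_iff] at hB ⊢
  rcases hB with hB | ⟨n, hn, c, hc, hcB⟩
  · exact Or.inl hB
  · refine Or.inr ⟨n, hn, c, ⟨hc.1, fun i => ?_⟩, hcB⟩
    exact h _ ((hcB _).2 ⟨i, rfl⟩) _ ((hcB _).2 ⟨i + 1, rfl⟩) (hc.2 i)

/-- a cycle lies on one side of a cut vertex -/
lemma cyc_side {n : ℕ} [NeZero n] {c : ZMod n → V} (hc : IsCyc G n c) {v : V} {Y : Set V}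
    (hvY : v ∉ Y) (hcl : ∀ a b, G.Adj a b → a ∈ Y → b ∈ Y ∨ b = v) :
    (∀ i, c i ∉ Y) ∨ (∀ i, c i ∈ Y ∨ c i = v) := by
  classical
  by_cases hY : ∀ i, c i ∉ Y
  · exact Or.inl hY
  · right
    push Not at hY
    obtain ⟨i₀, hi₀⟩ := hY
    by_cases hk : ∃ k, c k = v
    · obtain ⟨k, hk⟩ := hk
      have hne : ∀ i, i ≠ k → c i ≠ v := fun i hi he => hi (hc.1 (he.trans hk.symm))
      have key : ∀ m : ℕ, 1 ≤ m → m < n → (c (k + (m : ZMod n)) ∈ Y ↔ c (k + 1) ∈ Y) := by
        intro m hm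
        induction m, hm using Nat.le_induction with
        | base =>
          intro _
          rw [Nat.cast_one]
        | succ m hm ih =>
          intro hmn
          rw [← ih (by omega)]
          have h1 : k + ((m + 1 : ℕ) : ZMod n) = k + (m : ZMod n) + 1 := by push_cast; ring
          rw [h1]
          have hadj := hc.2 (k + (m : ZMod n))
          have hn1 : c (k + (m : ZMod n)) ≠ v := by
            refine hne _ fun he => ?_
            have h2 : (m : ZMod n) = 0 := by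
              have := he
              rwa [add_eq_left] at this
            rw [ZMod.natCast_eq_zero_iff] at h2
            exact absurd (Nat.le_of_dvd (by omega) h2) (by omega)
          have hn2 : c (k + (m : ZMod n) + 1) ≠ v := by
            rw [← h1]
            refine hne _ fun he => ?_
            have h2 : ((m + 1 : ℕ) : ZMod n) = 0 := by
              rwa [add_eq_left] at he
            rw [ZMod.natCast_eq_zero_iff] at h2
            exact absurd (Nat.le_of_dvd (by omega) h2) (by omega)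
          constructor
          · intro h3
            rcases hcl _ _ hadj.symm h3 with h4 | h4
            · exact h4
            · exact absurd h4 hn1
          · intro h3
            rcases hcl _ _ hadj h3 with h4 | h4
            · exact h4
            · exact absurd h4 hn2
      have key2 : ∀ i, i ≠ k → (c i ∈ Y ↔ c (k + 1) ∈ Y) := by
        intro i hi
        have h1 : i = k + (((i - k).val : ℕ) : ZMod n) := by
          rw [ZMod.natCast_zmod_val]; ring
        rw [h1]
        refine key _ ?_ (ZMod.val_lt _)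
        rw [Nat.one_le_iff_ne_zero]
        intro h0
        rw [ZMod.val_eq_zero, sub_eq_zero] at h0
        exact hi h0
      have hi₀k : i₀ ≠ k := by
        rintro rfl
        rw [hk] at hi₀
        exact hvY hi₀
      have h1 := (key2 i₀ hi₀k).1 hi₀
      intro i
      by_cases hik : i = k
      · right
        rw [hik, hk]
      · left
        exact (key2 i hik).2 h1
    · push Not at hk
      intro j
      left
      have key : ∀ m : ℕ, c (i₀ + (m : ZMod n)) ∈ Y := by
        intro m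
        induction m with
        | zero => simpa using hi₀
        | succ m ih =>
          have h1 : i₀ + ((m + 1 : ℕ) : ZMod n) = i₀ + (m : ZMod n) + 1 := by push_cast; ring
          rw [h1]
          rcases hcl _ _ (hc.2 _) ih with h4 | h4
          · exact h4
          · exact absurd h4 (hk _)
      have h1 : j = i₀ + (((j - i₀).val : ℕ) : ZMod n) := by
        rw [ZMod.natCast_zmod_val]; ring
      rw [h1]
      exact key _

lemma bdry_side (hB : Bdry G B) {v : V} {Y : Set V}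
    (hvY : v ∉ Y) (hcl : ∀ a b, G.Adj a b → a ∈ Y → b ∈ Y ∨ b = v) :
    (∀ x ∈ B, x ∉ Y) ∨ (∀ x ∈ B, x ∈ Y ∨ x = v) := by
  rw [bdry_iff] at hB
  rcases hB with rfl | ⟨n, hn, c, hc, hcB⟩
  · left
    intro x hx
    exact absurd hx (Finset.notMem_empty x)
  · have : NeZero n := ⟨by omega⟩
    rcases cyc_side hc hvY hcl with h | h
    · left
      intro x hx
      obtain ⟨i, rfl⟩ := (hcB x).1 hx
      exact h i
    · right
      intro x hx
      obtain ⟨i, rfl⟩ := (hcB x).1 hx
      exact h i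

/-- gluing two colourings along a separator `C` -/
lemma glue {C Y : Set V} (hcl : ∀ a b, G.Adj a b → a ∈ Y → b ∈ Y ∨ b ∈ C)
    {ψ χ : V → Finset (Fin 7)} (hψ : ∀ v, (ψ v).card = 2) (hχ : ∀ v, (χ v).card = 2)
    (hψa : ∀ a b, G.Adj a b → a ∈ Y → Disjoint (ψ a) (ψ b))
    (hχa : ∀ a b, G.Adj a b → a ∉ Y → b ∉ Y → Disjoint (χ a) (χ b))
    (hag : ∀ x ∈ C, ψ x = χ x) (φ : V → Finset (Fin 7))
    (h1 : ∀ x ∈ Y, φ x = ψ x) (h2 : ∀ x, x ∉ Y → φ x = χ x) : Col7 G φ := by
  classical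
  refine ⟨fun v => ?_, fun a b hab => ?_⟩
  · by_cases hv : v ∈ Y
    · rw [h1 v hv]; exact hψ v
    · rw [h2 v hv]; exact hχ v
  · by_cases ha : a ∈ Y
    · rw [h1 a ha]
      have hb' : φ b = ψ b := by
        by_cases hb : b ∈ Y
        · exact h1 b hb
        · rw [h2 b hb]
          rcases hcl a b hab ha with h | h
          · exact absurd h hb
          · exact (hag b h).symm
      rw [hb']
      exact hψa a b hab ha
    · by_cases hb : b ∈ Y
      · rw [h1 b hb]
        have ha' : φ a = ψ a := by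
          rw [h2 a ha]
          rcases hcl b a hab.symm hb with h | h
          · exact absurd h ha
          · exact (hag a h).symm
        rw [ha']
        exact (hψa b a hab.symm hb).symm
      · rw [h2 a ha, h2 b hb]
        exact hχa a b hab ha hb

lemma col7_map {G : SimpleGraph V} {φ : V → Finset (Fin 7)} (h : Col7 G φ)
    (σ : Equiv.Perm (Fin 7)) : Col7 G (fun x => (φ x).map σ.toEmbedding) := by
  refine ⟨fun v => ?_, fun a b hab => ?_⟩
  · rw [Finset.card_map]; exact h.1 v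
  · rw [Finset.disjoint_map]
    exact h.2 a b hab

lemma ext_empty {G : SimpleGraph V} (h : Ext G ∅) : ∃ φ, Col7 G φ := by
  obtain ⟨φ, hφ, -⟩ := h (fun _ => {0, 1}) (fun _ => by decide)
    (fun u hu => absurd hu (Finset.notMem_empty u))
  exact ⟨φ, hφ⟩

theorem two_conn (h : MinCE G B) : TwoConn G := by
  classical
  intro v Y hvY hcl
  by_contra hcon
  push Not at hcon
  obtain ⟨⟨a₁, ha₁, b₁, hab₁⟩, a₂, ha₂, ha₂v, b₂, hab₂⟩ := hcon
  let G₁ := part G (fun a b => a ∉ Y ∧ b ∉ Y) (fun _ _ hh => ⟨hh.2, hh.1⟩)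
  let G₂ := part G (fun a b => a ∈ Y ∨ b ∈ Y) (fun _ _ hh => hh.symm)
  have hle₁ : ∀ a b, G₁.Adj a b → G.Adj a b := part_le
  have hle₂ : ∀ a b, G₂.Adj a b → G.Adj a b := part_le
  have hn₁ : nv G₁ < nv G := nv_lt hle₁ hab₁ (fun u hu => hu.2.1 ha₁)
  have hn₂ : nv G₂ < nv G := nv_lt hle₂ hab₂ (fun u hu => by
    rcases hu.2 with h1 | h1
    · exact ha₂ h1
    · rcases hcl u a₂ hu.1.symm h1 with h2 | h2
      · exact ha₂ h2
      · exact ha₂v h2)
  have hemp : ∀ G' : SimpleGraph V, Bdry G' ∅ := fun G' => Or.inl rfl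
  have hcl' : ∀ a b, G.Adj a b → a ∈ Y → b ∈ Y ∨ b ∈ ({v} : Set V) := by
    intro a b hab ha
    rcases hcl a b hab ha with h1 | h1
    · exact Or.inl h1
    · exact Or.inr h1
  apply h.not_ext
  intro φ₀ hcard hadj
  rcases bdry_side h.good.bd hvY hcl with hside | hside
  · have hB₁ : Bdry G₁ B := bdry_sub h.good.bd
      (fun a ha b hb hab => ⟨hab, hside a ha, hside b hb⟩)
    obtain ⟨φ₁, hφ₁, hag₁⟩ := h.min G₁ B (good_mono hle₁ h.good hB₁) hn₁ φ₀ hcard
      (fun u hu w hw huw => hadj u hu w hw (hle₁ _ _ huw))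
    obtain ⟨φ₂, hφ₂⟩ := ext_empty (h.min G₂ ∅ (good_mono hle₂ h.good (hemp _)) hn₂)
    obtain ⟨σ, hσ⟩ := exists_perm (A := φ₂ v) (C := φ₁ v) (by rw [hφ₁.1, hφ₂.1])
    have hφ₂' := col7_map hφ₂ σ
    refine ⟨fun x => if x ∈ Y then (φ₂ x).map σ.toEmbedding else φ₁ x, ?_, ?_⟩
    · refine glue (C := {v}) (Y := Y) hcl' (ψ := fun x => (φ₂ x).map σ.toEmbedding) (χ := φ₁)
        hφ₂'.1 hφ₁.1 (fun a b hab ha => hφ₂'.2 a b ⟨hab, Or.inl ha⟩)
        (fun a b hab ha hb => hφ₁.2 a b ⟨hab, ha, hb⟩) ?_ _ ?_ ?_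
      · rintro x rfl
        exact hσ
      · intro x hx
        exact if_pos hx
      · intro x hx
        exact if_neg hx
    · intro x hx
      exact (if_neg (hside x hx)).trans (hag₁ x hx)
  · have hB₂ : Bdry G₂ B := bdry_sub h.good.bd (by
      intro a ha b hb hab
      refine ⟨hab, ?_⟩
      rcases hside a ha with h1 | h1
      · exact Or.inl h1
      · rcases hside b hb with h2 | h2
        · exact Or.inr h2
        · exact absurd (h1.trans h2.symm) hab.ne)
    obtain ⟨φ₂, hφ₂, hag₂⟩ := h.min G₂ B (good_mono hle₂ h.good hB₂) hn₂ φ₀ hcard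
      (fun u hu w hw huw => hadj u hu w hw (hle₂ _ _ huw))
    obtain ⟨φ₁, hφ₁⟩ := ext_empty (h.min G₁ ∅ (good_mono hle₁ h.good (hemp _)) hn₁)
    obtain ⟨σ, hσ⟩ := exists_perm (A := φ₁ v) (C := φ₂ v) (by rw [hφ₁.1, hφ₂.1])
    have hφ₁' := col7_map hφ₁ σ
    refine ⟨fun x => if x ∈ Y then φ₂ x else (φ₁ x).map σ.toEmbedding, ?_, ?_⟩
    · refine glue (C := {v}) (Y := Y) hcl' (ψ := φ₂) (χ := fun x => (φ₁ x).map σ.toEmbedding)
        hφ₂.1 hφ₁'.1 (fun a b hab ha => hφ₂.2 a b ⟨hab, Or.inl ha⟩)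
        (fun a b hab ha hb => hφ₁'.2 a b ⟨hab, ha, hb⟩) ?_ _ ?_ ?_
      · rintro x rfl
        exact hσ.symm
      · intro x hx
        exact if_pos hx
      · intro x hx
        exact if_neg hx
    · intro x hx
      rcases hside x hx with h1 | h1
      · exact (if_pos h1).trans (hag₂ x hx)
      · subst h1
        exact (if_neg hvY).trans (hσ.trans (hag₂ x hx))

theorem deg_three (h : MinCE G B) {v : V} (hv : v ∉ B) (hne : ∃ u, G.Adj v u) :
    3 ≤ (nb G univ v).card := by
  classical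
  by_contra hcon
  push Not at hcon
  obtain ⟨u₀, hu₀⟩ := hne
  let G' := part G (fun a b => a ≠ v ∧ b ≠ v) (fun _ _ hh => ⟨hh.2, hh.1⟩)
  have hle : ∀ a b, G'.Adj a b → G.Adj a b := part_le
  have hn : nv G' < nv G := nv_lt hle hu₀ (fun u hu => hu.2.1 rfl)
  have hB' : Bdry G' B := bdry_sub h.good.bd (fun a ha b hb hab =>
    ⟨hab, fun he => hv (he ▸ ha), fun he => hv (he ▸ hb)⟩)
  apply h.not_ext
  intro φ₀ hcard hadj
  obtain ⟨φ', hφ', hag⟩ := h.min G' B (good_mono hle h.good hB') hn φ₀ hcard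
    (fun u hu w hw huw => hadj u hu w hw (hle _ _ huw))
  have hU : ((nb G univ v).biUnion φ').card ≤ 4 := by
    refine (Finset.card_biUnion_le_card_mul _ _ 2 (fun x _ => (hφ'.1 x).le)).trans ?_
    omega
  have hU' : 2 ≤ (((nb G univ v).biUnion φ')ᶜ).card := by
    rw [Finset.card_compl, Fintype.card_fin]
    omega
  obtain ⟨T, hT, hTc⟩ := Finset.exists_subset_card_eq hU'
  have hTd : ∀ u, G.Adj v u → Disjoint T (φ' u) := by
    intro u hu
    rw [Finset.disjoint_left]
    intro x hx hx'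
    have h1 := hT hx
    rw [Finset.mem_compl, Finset.mem_biUnion] at h1
    exact h1 ⟨u, mem_nb.2 ⟨mem_univ _, hu⟩, hx'⟩
  refine ⟨Function.update φ' v T, ⟨fun x => ?_, fun a b hab => ?_⟩, fun x hx => ?_⟩
  · by_cases hx : x = v
    · subst hx
      rw [Function.update_self]
      exact hTc
    · rw [Function.update_of_ne hx]
      exact hφ'.1 x
  · by_cases ha : a = v
    · subst ha
      rw [Function.update_self, Function.update_of_ne hab.ne']
      exact hTd b hab
    · by_cases hb : b = v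
      · subst hb
        rw [Function.update_self, Function.update_of_ne hab.ne]
        exact (hTd a hab.symm).symm
      · rw [Function.update_of_ne ha, Function.update_of_ne hb]
        exact hφ'.2 a b ⟨hab, ha, hb⟩
  · have hxv : x ≠ v := by
      rintro rfl
      exact hv hx
    rw [Function.update_of_ne hxv]
    exact hag x hx

theorem deg_ne_one (h : MinCE G B) (v : V) : (nb G univ v).card ≠ 1 := by
  classical
  intro h1
  by_cases hv : v ∈ B
  · have hB := h.good.bd
    rw [bdry_iff] at hB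
    rcases hB with rfl | ⟨n, hn, c, hc, hcB⟩
    · exact absurd hv (Finset.notMem_empty v)
    · obtain ⟨i, rfl⟩ := (hcB v).1 hv
      have h2 : c (i + 1) ∈ nb G univ (c i) := mem_nb.2 ⟨mem_univ _, hc.2 i⟩
      have h3 : c (i - 1) ∈ nb G univ (c i) := by
        refine mem_nb.2 ⟨mem_univ _, ?_⟩
        have := hc.2 (i - 1)
        rw [sub_add_cancel] at this
        exact this.symm
      have h4 := (Finset.card_le_one.1 h1.le) _ h2 _ h3
      have h5 : i + 1 = i - 1 := hc.1 h4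
      have h6 : ((2 : ℕ) : ZMod n) = 0 := by
        have : (1 : ZMod n) = -1 := by
          have h7 : i + 1 = i + -1 := by rw [h5]; ring
          exact add_left_cancel h7
        push_cast
        have h8 : (2 : ZMod n) = 1 + 1 := by norm_num
        rw [h8]
        nth_rewrite 1 [this]
        ring
      rw [ZMod.natCast_eq_zero_iff] at h6
      exact absurd (Nat.le_of_dvd (by omega) h6) (by omega)
  · have h2 : ∃ u, G.Adj v u := by
      obtain ⟨u, hu⟩ := Finset.card_pos.1 (by omega : 0 < (nb G univ v).card)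
      exact ⟨u, (mem_nb.1 hu).2⟩
    have := deg_three h hv h2
    omega

/-- there is an inner vertex -/
theorem exists_inner (h : MinCE G B) : ∃ v, v ∉ B ∧ ∃ u, G.Adj v u := by
  by_contra hcon
  push Not at hcon
  apply h.not_ext
  intro φ₀ hcard hadj
  refine ⟨φ₀, ⟨hcard, fun a b hab => ?_⟩, fun _ _ => rfl⟩
  by_cases ha : a ∈ B
  · by_cases hb : b ∈ B
    · exact hadj a ha b hb hab
    · exact absurd hab.symm (hcon b hb a)
  · exact absurd hab (hcon a ha b)

theorem exists_edge (h : MinCE G B) : ∃ a b, G.Adj a b := by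
  obtain ⟨v, -, u, hu⟩ := exists_inner h
  exact ⟨v, u, hu⟩

/-- a cycle of length 3, 6 or 7 does not separate: if `Y` is a vertex set disjoint from the cycle
and from `B` all of whose edges lead to `Y` or to the cycle then `Y` has no edges or all edges have
an end in `Y` or on the cycle -/
theorem no_sep (h : MinCE G B) {n : ℕ} (hn : n = 3 ∨ n = 6 ∨ n = 7) {c : ZMod n → V}
    (hc : IsCyc G n c) (Y : Set V) (hYc : ∀ i, c i ∉ Y) (hYB : ∀ v ∈ B, v ∉ Y)
    (hcl : ∀ a b, G.Adj a b → a ∈ Y → b ∈ Y ∨ ∃ i, c i = b) :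
    (∀ a ∈ Y, ∀ b, ¬ G.Adj a b) ∨ (∀ a, a ∉ Y → (∀ i, c i ≠ a) → ∀ b, ¬ G.Adj a b) := by
  classical
  have : NeZero n := ⟨by omega⟩
  by_contra hcon
  push Not at hcon
  obtain ⟨⟨a₁, ha₁, b₁, hab₁⟩, a₂, ha₂, ha₂c, b₂, hab₂⟩ := hcon
  let G₁ := part G (fun a b => a ∉ Y ∧ b ∉ Y) (fun _ _ hh => ⟨hh.2, hh.1⟩)
  let G₂ := part G (fun a b => (a ∈ Y ∨ ∃ i, c i = a) ∧ (b ∈ Y ∨ ∃ i, c i = b))
    (fun _ _ hh => ⟨hh.2, hh.1⟩)
  have hle₁ : ∀ a b, G₁.Adj a b → G.Adj a b := part_le
  have hle₂ : ∀ a b, G₂.Adj a b → G.Adj a b := part_le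
  have hn₁ : nv G₁ < nv G := nv_lt hle₁ hab₁ (fun u hu => hu.2.1 ha₁)
  have hn₂ : nv G₂ < nv G := nv_lt hle₂ hab₂ (fun u hu => by
    rcases hu.2.1 with h1 | ⟨i, h1⟩
    · exact ha₂ h1
    · exact ha₂c i h1)
  have hcl' : ∀ a b, G.Adj a b → a ∈ Y → b ∈ Y ∨ b ∈ ({x | ∃ i, c i = x} : Set V) := hcl
  have hB₁ : Bdry G₁ B := bdry_sub h.good.bd
    (fun a ha b hb hab => ⟨hab, hYB a ha, hYB b hb⟩)
  have hB₂ : Bdry G₂ (univ.image c) := by
    rw [bdry_iff]
    refine Or.inr ⟨n, hn, c, ⟨hc.1, fun i => ?_⟩, fun x => ?_⟩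
    · exact ⟨hc.2 i, Or.inr ⟨i, rfl⟩, Or.inr ⟨i + 1, rfl⟩⟩
    · rw [Finset.mem_image]
      constructor
      · rintro ⟨i, -, hi⟩
        exact ⟨i, hi⟩
      · rintro ⟨i, hi⟩
        exact ⟨i, mem_univ _, hi⟩
  apply h.not_ext
  intro φ₀ hcard hadj
  obtain ⟨φ₁, hφ₁, hag₁⟩ := h.min G₁ B (good_mono hle₁ h.good hB₁) hn₁ φ₀ hcard
    (fun u hu w hw huw => hadj u hu w hw (hle₁ _ _ huw))
  obtain ⟨φ₂, hφ₂, hag₂⟩ := h.min G₂ (univ.image c) (good_mono hle₂ h.good hB₂) hn₂ φ₁ hφ₁.1
    (by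
      intro u hu w hw huw
      obtain ⟨i, -, rfl⟩ := Finset.mem_image.1 hu
      obtain ⟨j, -, rfl⟩ := Finset.mem_image.1 hw
      exact hφ₁.2 _ _ ⟨huw.1, hYc i, hYc j⟩)
  refine ⟨fun x => if x ∈ Y then φ₂ x else φ₁ x, ?_, ?_⟩
  · refine glue (C := {x | ∃ i, c i = x}) (Y := Y) hcl' (ψ := φ₂) (χ := φ₁)
      hφ₂.1 hφ₁.1 (fun a b hab ha => hφ₂.2 a b ⟨hab, Or.inl ha, hcl a b hab ha⟩)
      (fun a b hab ha hb => hφ₁.2 a b ⟨hab, ha, hb⟩) ?_ _ ?_ ?_
    · rintro x ⟨i, rfl⟩
      exact hag₂ _ (Finset.mem_image_of_mem _ (mem_univ _))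
    · intro x hx
      exact if_pos hx
    · intro x hx
      exact if_neg hx
  · intro x hx
    exact (if_neg (hYB x hx)).trans (hag₁ x hx)

end Pool.Agent.Lib.SVX
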