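import Pool.Agent.Lib.SVX.Defs

/-!
# SVX.MinEx: a counterexample gives a minimal counterexample

Take a counterexample with the smallest `nv` and among these one with the fewest edges.  The field
`chord`: delete the chord.
-/

set_option autoImplicit false
set_option linter.unusedSectionVars false

namespace Pool.Agent.Lib.SVX

open Finset Pool.Agent.Lib.SVT

variable {V : Type*} [Fintype V] [DecidableEq V]

lemma nv_mono {G G' : SimpleGraph V} (h : G' ≤ G) : nv G' ≤ nv G := by
  classical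
  unfold nv
  apply card_le_card
  intro v hv
  rw [mem_filter] at hv ⊢
  obtain ⟨h1, u, hu⟩ := hv
  exact ⟨h1, u, h hu⟩

lemma edg_mono {G G' : SimpleGraph V} (h : G' ≤ G) : edg G' univ ⊆ edg G univ := by
  intro e
  induction e with
  | _ a b =>
    intro he
    rw [mem_edg'] at he ⊢
    exact ⟨h he.1, he.2.1, he.2.2⟩

theorem exists_minCE {G : SimpleGraph V} {B : Finset V} (hg : Good G B) (hn : ¬ Ext G B) :
    ∃ (G' : SimpleGraph V) (B' : Finset V), MinCE G' B' := by
  classical
  -- a counterexample with the smallest value of `nv * (E + 1) + e`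
  obtain ⟨p, hp, hmin⟩ : ∃ p : SimpleGraph V × Finset V, (Good p.1 p.2 ∧ ¬ Ext p.1 p.2) ∧
      ∀ q : SimpleGraph V × Finset V, (Good q.1 q.2 ∧ ¬ Ext q.1 q.2) →
        nv p.1 * (Fintype.card (Sym2 V) + 1) + (edg p.1 univ).card ≤
          nv q.1 * (Fintype.card (Sym2 V) + 1) + (edg q.1 univ).card := by
    let f : SimpleGraph V × Finset V → ℕ := fun q =>
      nv q.1 * (Fintype.card (Sym2 V) + 1) + (edg q.1 univ).card
    let S : Set (SimpleGraph V × Finset V) := {q | Good q.1 q.2 ∧ ¬ Ext q.1 q.2}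
    have hS : S.Nonempty := ⟨(G, B), hg, hn⟩
    obtain ⟨p, hp, hpm⟩ := WellFounded.has_min (measure f).wf S hS
    exact ⟨p, hp, fun q hq => not_lt.mp (hpm q hq)⟩
  obtain ⟨G', B'⟩ := p
  obtain ⟨hg', hn'⟩ := hp
  simp only at hg' hn' hmin
  refine ⟨G', B', hg', hn', ?_, ?_⟩
  · intro G₂ B₂ h₂ hlt
    by_contra hne
    have h1 := hmin (G₂, B₂) ⟨h₂, hne⟩
    simp only at h1
    have h2 : (edg G₂ univ).card ≤ Fintype.card (Sym2 V) := card_le_univ _
    have h3 : (nv G₂ + 1) * (Fintype.card (Sym2 V) + 1) ≤ nv G' * (Fintype.card (Sym2 V) + 1) :=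
      Nat.mul_le_mul_right _ hlt
    nlinarith
  · intro c hc hcB j hj
    apply hn'
    set G₂ : SimpleGraph V := G'.deleteEdges {s(c j, c (j + 2))} with hG₂
    have hle : G₂ ≤ G' := SimpleGraph.deleteEdges_le _
    have hadj : ∀ a b, G₂.Adj a b ↔ G'.Adj a b ∧ s(a, b) ≠ s(c j, c (j + 2)) := by
      intro a b
      rw [hG₂, SimpleGraph.deleteEdges_adj, Set.mem_singleton_iff]
    have hcyc : IsCyc G₂ 7 c := by
      refine ⟨hc.1, fun i => ?_⟩
      rw [hadj]
      refine ⟨hc.2 i, fun h => ?_⟩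
      rw [Sym2.eq_iff] at h
      rcases h with ⟨h1, h2⟩ | ⟨h1, h2⟩
      · have e1 := hc.1 h1
        have e2 := hc.1 h2
        rw [e1] at e2
        revert e2
        clear * -
        decide +revert
      · have e1 := hc.1 h1
        have e2 := hc.1 h2
        rw [e1] at e2
        revert e2
        clear * -
        decide +revert
    have hgood : Good G₂ B' := by
      refine ⟨hg'.ml.mono (edg_mono hle), ?_, ?_, Or.inr (Or.inr (Or.inr ⟨c, hcyc, hcB⟩))⟩
      · intro a b x y h1 h2 h3 h4 h5 h6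
        exact hg'.c4 a b x y h1 h2 (hle h3) (hle h4) (hle h5) (hle h6)
      · intro a b x y z h1 h2 h3 h4 h5 h6 h7 h8 h9 h10
        exact hg'.c5 a b x y z h1 h2 h3 h4 h5 (hle h6) (hle h7) (hle h8) (hle h9) (hle h10)
    have hext : Ext G₂ B' := by
      by_contra hne
      have h1 := hmin (G₂, B') ⟨hgood, hne⟩
      simp only at h1
      have h2 : nv G₂ ≤ nv G' := nv_mono hle
      have h3 : (edg G₂ univ).card < (edg G' univ).card := by
        apply card_lt_card
        refine ⟨edg_mono hle, fun hss => ?_⟩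
        have h4 : s(c j, c (j + 2)) ∈ edg G' univ := by
          rw [mem_edg']
          exact ⟨hj, mem_univ _, mem_univ _⟩
        have h5 := hss h4
        rw [mem_edg'] at h5
        exact ((hadj _ _).mp h5.1).2 rfl
      have h4 := Nat.mul_le_mul_right (Fintype.card (Sym2 V) + 1) h2
      omega
    intro φ₀ hφ₀ hd
    obtain ⟨φ, hφ, heq⟩ := hext φ₀ hφ₀ (fun u hu v hv huv => hd u hu v hv (hle huv))
    refine ⟨φ, ⟨hφ.1, fun u v huv => ?_⟩, heq⟩
    by_cases he : s(u, v) = s(c j, c (j + 2))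
    · have hu : u ∈ B' := by
        rw [hcB]
        rw [Sym2.eq_iff] at he
        rcases he with ⟨h1, _⟩ | ⟨h1, _⟩
        · exact ⟨j, h1.symm⟩
        · exact ⟨j + 2, h1.symm⟩
      have hv : v ∈ B' := by
        rw [hcB]
        rw [Sym2.eq_iff] at he
        rcases he with ⟨_, h1⟩ | ⟨_, h1⟩
        · exact ⟨j + 2, h1.symm⟩
        · exact ⟨j, h1.symm⟩
      rw [heq u hu, heq v hv]
      exact hd u hu v hv huv
    · exact hφ.2 u v ((hadj u v).mpr ⟨huv, he⟩)

end Pool.Agent.Lib.SVX
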