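import Pool.Agent.Lib.SVX.EvenSum
import Pool.Agent.Lib.SVX.Link
import Pool.Agent.Lib.SVX.MinA

/-!
# SVX.Short: short cycles of a minimal counterexample are faces

`K` = the edge set of the cycle `c`, `I` as in `even_sum`, `Y` = the vertices off the cycle with a
face in `I` (by `side` all their faces are in `I`), `Z` = the vertices off the cycle with a face not
in `I`.  There is no edge between `Y` and `Z`.  `bd_face`: for `B` itself both sides avoid `B`, so
by `no_sep` one side has no vertices; all faces of this side are contained in `G[B]`; if the cycle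
has no chord they are equal to `K`.  A 3- or 6-cycle has no chord (`NoC4`, `NoC5`), a boundary
7-cycle has no chord by `MinCE.chord`.
General cycles: `B` is a face `F i₀`, so it lies in `Y ∪ c` or in `Z ∪ c`.
-/

set_option autoImplicit false
set_option linter.unusedSectionVars false

namespace Pool.Agent.Lib.SVX

open Finset Pool.Agent.Lib.SVT

variable {V : Type*} [Fintype V] [DecidableEq V] {G : SimpleGraph V} {B : Finset V}
variable {m : ℕ} {F : Fin m → Finset (Sym2 V)}

/-- the edges of a cycle given by a function on `ZMod n` -/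
def cycEdges {n : ℕ} [NeZero n] (c : ZMod n → V) : Finset (Sym2 V) :=
  univ.image (fun i : ZMod n => s(c i, c (i + 1)))

section Cyc

variable {n : ℕ} [NeZero n] {c : ZMod n → V}

lemma mem_cycEdges {e : Sym2 V} : e ∈ cycEdges c ↔ ∃ i : ZMod n, s(c i, c (i + 1)) = e := by
  unfold cycEdges
  simp

lemma cyc_mem (i : ZMod n) : s(c i, c (i + 1)) ∈ cycEdges c := mem_cycEdges.mpr ⟨i, rfl⟩

lemma cyc_mem' (i : ZMod n) : s(c (i + 1), c i) ∈ cycEdges c := by
  rw [Sym2.eq_swap]
  exact cyc_mem i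

lemma cyc_sub (hc : IsCyc G n c) : ∀ e ∈ cycEdges c, e ∈ G.edgeSet := by
  intro e he
  obtain ⟨i, rfl⟩ := mem_cycEdges.mp he
  exact hc.2 i

lemma cyc_inj (h3 : 3 ≤ n) (hc : IsCyc G n c) :
    Function.Injective (fun i : ZMod n => s(c i, c (i + 1))) := by
  intro i j hij
  simp only [Sym2.eq_iff] at hij
  rcases hij with ⟨h1, _⟩ | ⟨h1, h2⟩
  · exact hc.1 h1
  · exfalso
    have e1 := hc.1 h1
    have e2 := hc.1 h2
    rw [e1] at e2
    have e3 : (2 : ZMod n) = 0 := by
      have : j + 1 + 1 = j := e2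
      have h4 : j + 2 = j + 0 := by
        rw [add_zero, ← one_add_one_eq_two, ← add_assoc]
        exact this
      exact add_left_cancel h4
    have e4 : ((2 : ℕ) : ZMod n) = 0 := by exact_mod_cast e3
    rw [ZMod.natCast_eq_zero_iff] at e4
    have := Nat.le_of_dvd (by norm_num) e4
    omega

lemma card_cyc (h3 : 3 ≤ n) (hc : IsCyc G n c) : (cycEdges c).card = n := by
  unfold cycEdges
  rw [card_image_of_injective _ (cyc_inj h3 hc), card_univ, ZMod.card]

/-- the edges at a vertex of the cycle -/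
lemma cyc_at (hc : IsCyc G n c) {j : ZMod n} {e : Sym2 V} (he : e ∈ cycEdges c) (hj : c (j + 1) ∈ e) :
    e = s(c j, c (j + 1)) ∨ e = s(c (j + 1), c (j + 1 + 1)) := by
  obtain ⟨i, rfl⟩ := mem_cycEdges.mp he
  rw [Sym2.mem_iff] at hj
  rcases hj with h | h
  · right
    rw [hc.1 h]
  · left
    have := hc.1 h
    have h2 : j = i := add_right_cancel this
    rw [h2]

lemma cyc_ev (h3 : 3 ≤ n) (hc : IsCyc G n c) : Ev (cycEdges c) := by
  classical
  intro v
  by_cases hv : ∃ j : ZMod n, c (j + 1) = v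
  · obtain ⟨j, rfl⟩ := hv
    have hne : s(c j, c (j + 1)) ≠ s(c (j + 1), c (j + 1 + 1)) := by
      intro h
      have := cyc_inj h3 hc (a₁ := j) (a₂ := j + 1) h
      have h1 : (1 : ZMod n) = 0 := by
        have h2 : j + 1 = j + 0 := by rw [add_zero]; exact this.symm
        exact add_left_cancel h2
      have e4 : ((1 : ℕ) : ZMod n) = 0 := by exact_mod_cast h1
      rw [ZMod.natCast_eq_zero_iff] at e4
      have := Nat.le_of_dvd (by norm_num) e4
      omega
    have : (cycEdges c).filter (fun e => c (j + 1) ∈ e) =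
        {s(c j, c (j + 1)), s(c (j + 1), c (j + 1 + 1))} := by
      ext e
      rw [mem_filter, mem_insert, mem_singleton]
      constructor
      · rintro ⟨he, hj⟩
        exact cyc_at hc he hj
      · rintro (rfl | rfl)
        · exact ⟨cyc_mem j, Sym2.mem_mk_right _ _⟩
        · exact ⟨cyc_mem (j + 1), Sym2.mem_mk_left _ _⟩
    rw [this, card_pair hne]
    exact even_two
  · have : (cycEdges c).filter (fun e => v ∈ e) = ∅ := by
      rw [filter_eq_empty_iff]
      intro e he hv'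
      obtain ⟨i, rfl⟩ := mem_cycEdges.mp he
      rw [Sym2.mem_iff] at hv'
      rcases hv' with h | h
      · exact hv ⟨i - 1, by rw [sub_add_cancel, h]⟩
      · exact hv ⟨i, h.symm⟩
    rw [this, card_empty]
    exact Even.zero

lemma cyc_circ (hc : IsCyc G n c) {F' : Finset (Sym2 V)} (hs : F' ⊆ cycEdges c) (he : Ev F')
    (hne : F'.Nonempty) : F' = cycEdges c := by
  classical
  have step : ∀ i : ZMod n, s(c i, c (i + 1)) ∈ F' → s(c (i + 1), c (i + 1 + 1)) ∈ F' := by
    intro i hi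
    by_contra hn
    have : F'.filter (fun e => c (i + 1) ∈ e) = {s(c i, c (i + 1))} := by
      ext e
      rw [mem_filter, mem_singleton]
      constructor
      · rintro ⟨h1, h2⟩
        rcases cyc_at hc (hs h1) h2 with h | h
        · exact h
        · exact absurd (h ▸ h1) hn
      · rintro rfl
        exact ⟨hi, Sym2.mem_mk_right _ _⟩
    have h1 := he (c (i + 1))
    rw [this, card_singleton] at h1
    exact absurd h1 (by decide)
  obtain ⟨e0, he0⟩ := hne
  obtain ⟨i0, hi0⟩ := mem_cycEdges.mp (hs he0)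
  have all : ∀ k : ℕ, s(c (i0 + k), c (i0 + k + 1)) ∈ F' := by
    intro k
    induction k with
    | zero => simpa [hi0] using he0
    | succ k ih =>
      have := step _ ih
      have e : i0 + ((k + 1 : ℕ) : ZMod n) = i0 + k + 1 := by push_cast; ring
      rw [e]
      exact this
  apply subset_antisymm hs
  intro e he'
  obtain ⟨j, rfl⟩ := mem_cycEdges.mp he'
  have := all (j - i0).val
  rw [ZMod.natCast_zmod_val, add_sub_cancel] at this
  exact this

end Cyc

/-- the vertices off the cycle with a face in `I` -/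
def Side {n : ℕ} (F : Fin m → Finset (Sym2 V)) (c : ZMod n → V) (I : Finset (Fin m)) : Set V :=
  {v | (∀ j, c j ≠ v) ∧ ∃ i ∈ I, ∃ e ∈ F i, v ∈ e}

/-- the parity property -/
def Par (F : Fin m → Finset (Sym2 V)) (K : Finset (Sym2 V)) (I : Finset (Fin m)) : Prop :=
  ∀ e, e ∈ K ↔ Odd (I.filter (fun i => e ∈ F i)).card

lemma par_compl (hF : Faces G F) {K : Finset (Sym2 V)} {I : Finset (Fin m)} (hI : Par F K I) :
    Par F K Iᶜ := by
  intro e
  rw [hI e]
  have hsum : (I.filter (fun i => e ∈ F i)).card + (Iᶜ.filter (fun i => e ∈ F i)).card =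
      (univ.filter (fun i => e ∈ F i)).card := by
    rw [← card_union_of_disjoint]
    · congr 1
      ext i
      simp only [mem_union, mem_filter, mem_compl, mem_univ, true_and]
      tauto
    · rw [disjoint_left]
      intro i hi hi'
      rw [mem_filter] at hi hi'
      exact (mem_compl.mp hi'.1) hi.1
  have hev : Even ((univ : Finset (Fin m)).filter (fun i => e ∈ F i)).card := by
    by_cases he : e ∈ G.edgeSet
    · rw [hF.two e he]
      exact even_two
    · have : (univ : Finset (Fin m)).filter (fun i => e ∈ F i) = ∅ := by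
        rw [filter_eq_empty_iff]
        intro i _ hi
        exact he (hF.sub i e hi)
      rw [this, card_empty]
      exact Even.zero
  rw [← hsum, Nat.even_add] at hev
  rw [← Nat.not_even_iff_odd, ← Nat.not_even_iff_odd, hev]

lemma exists_face (hF : Faces G F) {a b : V} (hab : G.Adj a b) : ∃ i, s(a, b) ∈ F i := by
  have h := hF.two s(a, b) hab
  have : (univ.filter (fun i => s(a, b) ∈ F i)).Nonempty := by
    rw [← card_pos, h]
    norm_num
  obtain ⟨i, hi⟩ := this
  exact ⟨i, (mem_filter.mp hi).2⟩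

lemma off_cyc {n : ℕ} [NeZero n] {c : ZMod n → V} {v : V} (hv : ∀ j, c j ≠ v) :
    ∀ e ∈ cycEdges c, v ∉ e := by
  intro e he hve
  obtain ⟨i, rfl⟩ := mem_cycEdges.mp he
  rw [Sym2.mem_iff] at hve
  rcases hve with h | h
  · exact hv _ h.symm
  · exact hv _ h.symm

lemma side_all (h : MinCE G B) (hF : Faces G F) {n : ℕ} [NeZero n] {c : ZMod n → V}
    {I : Finset (Fin m)} (hI : Par F (cycEdges c) I) {v : V} (hv : v ∈ Side F c I) :
    ∀ i, (∃ e ∈ F i, v ∈ e) → i ∈ I := by
  obtain ⟨hoff, i0, hi0, e0, he0, hve0⟩ := hv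
  rcases side hF (two_conn h) hI (off_cyc hoff) with h1 | h1
  · exact h1
  · exact absurd hi0 (h1 i0 ⟨e0, he0, hve0⟩)

lemma side_adj (hF : Faces G F) {n : ℕ} {c : ZMod n → V}
    {I : Finset (Fin m)} {v : V} (hv : v ∈ Side F c I) : ∃ u, G.Adj v u := by
  obtain ⟨_, i0, hi0, e0, he0, hve0⟩ := hv
  have h1 := hF.sub i0 e0 he0
  obtain ⟨u, rfl⟩ := hve0
  exact ⟨u, h1⟩

/-- one side has no vertices, if one of them avoids `B` -/
lemma side_empty (h : MinCE G B) (hF : Faces G F) {n : ℕ} [NeZero n] (hn : n = 3 ∨ n = 6 ∨ n = 7)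
    {c : ZMod n → V} (hc : IsCyc G n c) {I : Finset (Fin m)} (hI : Par F (cycEdges c) I)
    (hB : ∀ v ∈ B, v ∉ Side F c I) : Side F c I = ∅ ∨ Side F c Iᶜ = ∅ := by
  have hIc := par_compl hF hI
  rcases no_sep h hn hc (Side F c I) (fun i hi => hi.1 i rfl) hB (by
    intro a b hab ha
    obtain ⟨i, hi⟩ := exists_face hF hab
    have hiI := side_all h hF hI ha i ⟨_, hi, Sym2.mem_mk_left _ _⟩
    by_cases hb : ∃ j, c j = b
    · exact Or.inr hb
    · left
      rw [not_exists] at hb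
      exact ⟨hb, i, hiI, _, hi, Sym2.mem_mk_right _ _⟩) with h1 | h1
  · left
    rw [Set.eq_empty_iff_forall_notMem]
    intro v hv
    obtain ⟨u, hu⟩ := side_adj hF hv
    exact h1 v hv u hu
  · right
    rw [Set.eq_empty_iff_forall_notMem]
    intro v hv
    obtain ⟨u, hu⟩ := side_adj hF hv
    refine h1 v ?_ hv.1 u hu
    intro hv'
    obtain ⟨_, i0, hi0, e0, he0, hve0⟩ := hv
    exact (mem_compl.mp hi0) (side_all h hF hI hv' i0 ⟨e0, he0, hve0⟩)

/-- an empty side of a cycle without chords is a face -/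
lemma face_of_side (hF : Faces G F) {n : ℕ} [NeZero n]
    {c : ZMod n → V} (hc : IsCyc G n c) {I : Finset (Fin m)} (hI : Par F (cycEdges c) I)
    (hch : ∀ i j, G.Adj (c i) (c j) → s(c i, c j) ∈ cycEdges c)
    (hE : Side F c I = ∅) : ∃ i, F i = cycEdges c := by
  have h0 := (hI _).mp (cyc_mem (c := c) 0)
  have hne : (I.filter (fun i => s(c 0, c (0 + 1)) ∈ F i)).Nonempty := by
    rw [← card_pos]
    exact h0.pos
  obtain ⟨i, hi⟩ := hne
  rw [mem_filter] at hi
  refine ⟨i, cyc_circ hc ?_ (hF.ev i) (hF.ne i)⟩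
  intro e he
  have key : ∀ v ∈ e, ∃ j, c j = v := by
    intro v hv
    by_contra hn
    rw [not_exists] at hn
    have : v ∈ Side F c I := ⟨hn, i, hi.1, e, he, hv⟩
    rw [hE] at this
    exact this
  have hadj := hF.sub i e he
  induction e with
  | _ a b =>
    obtain ⟨k, rfl⟩ := key a (Sym2.mem_mk_left _ _)
    obtain ⟨l, rfl⟩ := key b (Sym2.mem_mk_right _ _)
    exact hch k l hadj

lemma face_main (h : MinCE G B) (hF : Faces G F) {n : ℕ} [NeZero n] (hn : n = 3 ∨ n = 6 ∨ n = 7)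
    {c : ZMod n → V} (hc : IsCyc G n c)
    (hch : ∀ i j, G.Adj (c i) (c j) → s(c i, c j) ∈ cycEdges c)
    (hB : (∀ v ∈ B, ∃ j, c j = v) ∨ ∃ i₀ : Fin m, ∀ v, v ∈ B ↔ ∃ e ∈ F i₀, v ∈ e) :
    ∃ i, F i = cycEdges c := by
  have h3 : 3 ≤ n := by omega
  obtain ⟨I, hI⟩ := even_sum hF (cyc_sub hc) (cyc_ev h3 hc)
  have hI' : Par F (cycEdges c) I := hI
  have hIc := par_compl hF hI'
  have hcases : (∀ v ∈ B, v ∉ Side F c I) ∨ (∀ v ∈ B, v ∉ Side F c Iᶜ) := by
    rcases hB with hB | ⟨i₀, hi₀⟩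
    · left
      intro v hv hv'
      obtain ⟨j, hj⟩ := hB v hv
      exact hv'.1 j hj
    · by_cases hi : i₀ ∈ I
      · right
        intro v hv hv'
        have := side_all h hF hIc hv' i₀ ((hi₀ v).mp hv)
        exact (mem_compl.mp this) hi
      · left
        intro v hv hv'
        exact hi (side_all h hF hI' hv' i₀ ((hi₀ v).mp hv))
  rcases hcases with hc1 | hc1
  · rcases side_empty h hF hn hc hI' hc1 with h1 | h1
    · exact face_of_side hF hc hI' hch h1
    · exact face_of_side hF hc hIc hch h1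
  · rcases side_empty h hF hn hc hIc hc1 with h1 | h1
    · exact face_of_side hF hc hIc hch h1
    · rw [compl_compl] at h1
      exact face_of_side hF hc hI' hch h1

/-! ### chords -/

lemma chord3 {c : ZMod 3 → V} (i j : ZMod 3) (hij : G.Adj (c i) (c j)) :
    s(c i, c j) ∈ cycEdges c := by
  have h1 : j = i ∨ j = i + 1 ∨ i = j + 1 := by
    clear * -
    decide +revert
  rcases h1 with rfl | rfl | rfl
  · exact absurd hij (G.loopless.irrefl _)
  · exact cyc_mem i
  · exact cyc_mem' j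

lemma chord6 (h4 : NoC4 G) (h5 : NoC5 G) {c : ZMod 6 → V} (hc : IsCyc G 6 c) (i j : ZMod 6)
    (hij : G.Adj (c i) (c j)) : s(c i, c j) ∈ cycEdges c := by
  have hne : ∀ x y : ZMod 6, x ≠ y → c x ≠ c y := fun x y hxy h => hxy (hc.1 h)
  have h1 : j = i ∨ j = i + 1 ∨ i = j + 1 ∨ j = i + 2 ∨ j = i + 3 ∨ i = j + 2 := by
    clear * -
    decide +revert
  have two : ∀ x : ZMod 6, ¬ G.Adj (c x) (c (x + 2)) := by
    intro x hx
    have a1 := hc.2 (x + 2)
    have a2 := hc.2 (x + 3)
    have a3 := hc.2 (x + 4)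
    have a4 := hc.2 (x + 5)
    have e1 : x + 2 + 1 = x + 3 := by ring
    have e2 : x + 3 + 1 = x + 4 := by ring
    have e3 : x + 4 + 1 = x + 5 := by ring
    have e4 : x + 5 + 1 = x := by clear * -; decide +revert
    rw [e1] at a1
    rw [e2] at a2
    rw [e3] at a3
    rw [e4] at a4
    exact h5 (c x) (c (x + 2)) (c (x + 3)) (c (x + 4)) (c (x + 5))
      (hne _ _ (by clear * -; decide +revert)) (hne _ _ (by clear * -; decide +revert))
      (hne _ _ (by clear * -; decide +revert)) (hne _ _ (by clear * -; decide +revert))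
      (hne _ _ (by clear * -; decide +revert)) hx a1 a2 a3 a4
  rcases h1 with rfl | rfl | rfl | rfl | rfl | rfl
  · exact absurd hij (G.loopless.irrefl _)
  · exact cyc_mem i
  · exact cyc_mem' j
  · exact absurd hij (two i)
  · exfalso
    have a1 := hc.2 i
    have a2 := hc.2 (i + 1)
    have a3 := hc.2 (i + 2)
    have e1 : i + 1 + 1 = i + 2 := by ring
    have e2 : i + 2 + 1 = i + 3 := by ring
    rw [e1] at a2
    rw [e2] at a3
    exact h4 (c i) (c (i + 1)) (c (i + 2)) (c (i + 3))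
      (hne _ _ (by clear * -; decide +revert)) (hne _ _ (by clear * -; decide +revert)) a1 a2 a3 hij.symm
  · exact absurd hij.symm (two j)

lemma chord7 (h4 : NoC4 G) {c : ZMod 7 → V} (hc : IsCyc G 7 c)
    (hno : ∀ j, ¬ G.Adj (c j) (c (j + 2))) (i j : ZMod 7)
    (hij : G.Adj (c i) (c j)) : s(c i, c j) ∈ cycEdges c := by
  have hne : ∀ x y : ZMod 7, x ≠ y → c x ≠ c y := fun x y hxy h => hxy (hc.1 h)
  have h1 : j = i ∨ j = i + 1 ∨ i = j + 1 ∨ j = i + 2 ∨ i = j + 2 ∨ j = i + 3 ∨ i = j + 3 := by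
    clear * -
    decide +revert
  have three : ∀ x : ZMod 7, ¬ G.Adj (c x) (c (x + 3)) := by
    intro x hx
    have a1 := hc.2 x
    have a2 := hc.2 (x + 1)
    have a3 := hc.2 (x + 2)
    have e1 : x + 1 + 1 = x + 2 := by ring
    have e2 : x + 2 + 1 = x + 3 := by ring
    rw [e1] at a2
    rw [e2] at a3
    exact h4 (c x) (c (x + 1)) (c (x + 2)) (c (x + 3))
      (hne _ _ (by clear * -; decide +revert)) (hne _ _ (by clear * -; decide +revert)) a1 a2 a3 hx.symm
  rcases h1 with rfl | rfl | rfl | rfl | rfl | rfl | rfl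
  · exact absurd hij (G.loopless.irrefl _)
  · exact cyc_mem i
  · exact cyc_mem' j
  · exact absurd hij (hno i)
  · exact absurd hij.symm (hno j)
  · exact absurd hij (three i)
  · exact absurd hij.symm (three j)

lemma bd_aux (h : MinCE G B) (hF : Faces G F) {n : ℕ} [NeZero n] (hn : n = 3 ∨ n = 6 ∨ n = 7)
    {c : ZMod n → V} (hc : IsCyc G n c) (hcB : ∀ v, v ∈ B ↔ ∃ i, c i = v)
    (hch : ∀ i j, G.Adj (c i) (c j) → s(c i, c j) ∈ cycEdges c) :
    ∃ i₀ : Fin m, ((F i₀).card = 3 ∨ (F i₀).card = 6 ∨ (F i₀).card = 7) ∧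
      (∀ v, v ∈ B ↔ ∃ e ∈ F i₀, v ∈ e) ∧ ∀ a ∈ B, ∀ b ∈ B, G.Adj a b → s(a, b) ∈ F i₀ := by
  obtain ⟨i, hi⟩ := face_main h hF hn hc hch (Or.inl fun v hv => (hcB v).mp hv)
  refine ⟨i, ?_, ?_, ?_⟩
  · rw [hi, card_cyc (by omega) hc]
    exact hn
  · intro v
    rw [hcB v, hi]
    constructor
    · rintro ⟨j, rfl⟩
      exact ⟨_, cyc_mem j, Sym2.mem_mk_left _ _⟩
    · rintro ⟨e, he, hv⟩
      obtain ⟨j, rfl⟩ := mem_cycEdges.mp he
      rw [Sym2.mem_iff] at hv
      rcases hv with rfl | rfl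
      · exact ⟨j, rfl⟩
      · exact ⟨j + 1, rfl⟩
  · intro a ha b hb hab
    obtain ⟨k, rfl⟩ := (hcB a).mp ha
    obtain ⟨l, rfl⟩ := (hcB b).mp hb
    rw [hi]
    exact hch k l hab

/-- the precoloured cycle is a face without chords -/
theorem bd_face (h : MinCE G B) (hF : Faces G F) (hB : B.Nonempty) :
    ∃ i₀ : Fin m, ((F i₀).card = 3 ∨ (F i₀).card = 6 ∨ (F i₀).card = 7) ∧
      (∀ v, v ∈ B ↔ ∃ e ∈ F i₀, v ∈ e) ∧ ∀ a ∈ B, ∀ b ∈ B, G.Adj a b → s(a, b) ∈ F i₀ := by
  rcases h.good.bd with h0 | ⟨c, hc, hcB⟩ | ⟨c, hc, hcB⟩ | ⟨c, hc, hcB⟩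
  · rw [h0] at hB
    exact absurd hB (by simp)
  · exact bd_aux h hF (Or.inl rfl) hc hcB chord3
  · exact bd_aux h hF (Or.inr (Or.inl rfl)) hc hcB (chord6 h.good.c4 h.good.c5 hc)
  · exact bd_aux h hF (Or.inr (Or.inr rfl)) hc hcB (chord7 h.good.c4 hc (h.chord c hc hcB))

lemma bd_or (h : MinCE G B) (hF : Faces G F) {n : ℕ} {c : ZMod n → V} :
    (∀ v ∈ B, ∃ j, c j = v) ∨ ∃ i₀ : Fin m, ∀ v, v ∈ B ↔ ∃ e ∈ F i₀, v ∈ e := by
  rcases B.eq_empty_or_nonempty with h0 | h0
  · left
    intro v hv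
    rw [h0] at hv
    exact absurd hv (by simp)
  · obtain ⟨i₀, _, h1, _⟩ := bd_face h hF h0
    exact Or.inr ⟨i₀, h1⟩

theorem tri_face (h : MinCE G B) (hF : Faces G F) {c : ZMod 3 → V} (hc : IsCyc G 3 c) :
    ∃ i, F i = cycEdges c :=
  face_main h hF (Or.inl rfl) hc chord3 (bd_or h hF)

theorem six_face (h : MinCE G B) (hF : Faces G F) {c : ZMod 6 → V} (hc : IsCyc G 6 c) :
    ∃ i, F i = cycEdges c :=
  face_main h hF (Or.inr (Or.inl rfl)) hc (chord6 h.good.c4 h.good.c5 hc) (bd_or h hF)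

/-- a 7-cycle is a face or has a chord cutting off a triangle -/
theorem seven_face (h : MinCE G B) (hF : Faces G F) {c : ZMod 7 → V} (hc : IsCyc G 7 c) :
    (∃ i, F i = cycEdges c) ∨ ∃ j, G.Adj (c j) (c (j + 2)) := by
  by_cases hno : ∃ j, G.Adj (c j) (c (j + 2))
  · exact Or.inr hno
  · left
    rw [not_exists] at hno
    exact face_main h hF (Or.inr (Or.inr rfl)) hc (chord7 h.good.c4 hc hno) (bd_or h hF)

end Pool.Agent.Lib.SVX
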